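import Pool.Agent.Lib.CFT.Herb2

/-! CFT-Coh1: transfer; inflation and restriction. -/

namespace Pool.Agent.Lib.CFT

variable {G C : Type} [Group G] [Finite G] [CommGroup C] [MulDistribMulAction G C]


variable {H K N : Subgroup G} {c : G → C} {u v : G → G → C}

theorem Coc2.mul (hu : Coc2 H u) (hv : Coc2 H v) : Coc2 H (u * v) := by
  intro s hs t ht r hr
  simp only [Pi.mul_apply, smul_mul']
  rw [mul_mul_mul_comm, hu s hs t ht r hr, hv s hs t ht r hr, mul_mul_mul_comm]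

theorem Coc2.inv (hu : Coc2 H u) : Coc2 H u⁻¹ := by
  intro s hs t ht r hr
  simp only [Pi.inv_apply, smul_inv']
  rw [← mul_inv, hu s hs t ht r hr, mul_inv]

theorem Coc2.pow (hu : Coc2 H u) (j : ℕ) : Coc2 H (u ^ j) := by
  intro s hs t ht r hr
  simp only [Pi.pow_apply, smul_pow']
  rw [← mul_pow, hu s hs t ht r hr, mul_pow]

theorem Cob2.mul (hu : Cob2 H u) (hv : Cob2 H v) : Cob2 H (u * v) := by
  obtain ⟨y, hy⟩ := hu
  obtain ⟨z, hz⟩ := hv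
  refine ⟨y * z, fun s hs t ht => ?_⟩
  simp only [Pi.mul_apply, smul_mul', hy s hs t ht, hz s hs t ht, mul_inv]
  ac_rfl

theorem Cob2.inv (hu : Cob2 H u) : Cob2 H u⁻¹ := by
  obtain ⟨y, hy⟩ := hu
  refine ⟨y⁻¹, fun s hs t ht => ?_⟩
  simp only [Pi.inv_apply, smul_inv', hy s hs t ht, mul_inv]

theorem Cob2.pow (hu : Cob2 H u) (j : ℕ) : Cob2 H (u ^ j) := by
  obtain ⟨y, hy⟩ := hu
  refine ⟨y ^ j, fun s hs t ht => ?_⟩
  simp only [Pi.pow_apply, smul_pow', hy s hs t ht, mul_pow, inv_pow]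

theorem Cob2.coc2 (hu : Cob2 H u) : Coc2 H u := by
  obtain ⟨y, hy⟩ := hu
  intro s hs t ht r hr
  rw [hy t ht r hr, hy s hs _ (mul_mem ht hr), hy _ (mul_mem hs ht) r hr, hy s hs t ht,
    smul_mul', smul_mul', smul_inv', smul_smul, mul_assoc s t r]
  refine Additive.ofMul.injective ?_
  simp only [ofMul_mul, ofMul_inv]
  abel

namespace Coh1Aux

theorem prod_shift [Fintype (H ⧸ K.subgroupOf H)] (F : G → C)
    (hF : ∀ g ∈ H, ∀ k ∈ K, F (g * k) = F g) {t : G} (ht : t ∈ H) :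
    ∏ q : H ⧸ K.subgroupOf H, F (t * q.out) = ∏ q : H ⧸ K.subgroupOf H, F q.out := by
  refine Fintype.prod_equiv (MulAction.toPerm (⟨t, ht⟩ : H)) _ _ fun q => ?_
  obtain ⟨k, hk⟩ := QuotientGroup.mk_out_eq_mul (K.subgroupOf H) ((⟨t, ht⟩ : H) • q.out)
  rw [MulAction.Quotient.mk_smul_out] at hk
  rw [MulAction.toPerm_apply, hk]
  exact (hF _ (mul_mem ht q.out.2) _ k.2).symm

theorem norm (hK : K ≤ H) (hu : Coc2 H u) (h : Cob2 K u) : ∃ w : G → G → C, Coc2 H w ∧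
    Cob2 H (u / w) ∧ (∀ g ∈ H, ∀ k ∈ K, w g k = 1) ∧
      ∀ s ∈ H, ∀ t ∈ H, ∀ k ∈ K, w s (t * k) = w s t := by
  obtain ⟨z, hz⟩ := h
  obtain ⟨ρ, r1, r2⟩ : ∃ ρ : G → G, (∀ g, (ρ g)⁻¹ * g ∈ K) ∧ ∀ g, ∀ k ∈ K, ρ (g * k) = ρ g :=
    ⟨fun g => (g : G ⧸ K).out, fun g => QuotientGroup.eq.1 (QuotientGroup.out_eq' _),
      fun g k hk => congrArg Quotient.out (QuotientGroup.mk_mul_of_mem g hk)⟩
  have r3 : ∀ L : Subgroup G, K ≤ L → ∀ g ∈ L, ρ g ∈ L := fun L hL g hg =>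
    inv_mem_iff.1 ((mul_mem_cancel_right hg).1 (hL (r1 g)))
  obtain ⟨y, hy⟩ : ∃ y : G → C, ∀ g, y g =
      z (ρ g) * ρ g • z ((ρ g)⁻¹ * g) * (u (ρ g) ((ρ g)⁻¹ * g))⁻¹ := ⟨_, fun _ => rfl⟩
  have y1 : ∀ k ∈ K, y k = z k := fun k hk => by
    rw [hy, hz _ (r3 K le_rfl k hk) _ (r1 k), mul_inv_cancel_left]
    refine Additive.ofMul.injective ?_
    simp only [ofMul_mul, ofMul_inv]
    abel
  have c1 : Cob2 H fun s t => s • y t * y s * (y (s * t))⁻¹ := ⟨y, fun _ _ _ _ => rfl⟩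
  have c2 := hu.mul c1.coc2.inv
  have c4 : ∀ g ∈ H, ∀ k ∈ K, (u * (fun s t => s • y t * y s * (y (s * t))⁻¹)⁻¹) g k = 1 := by
    intro g hg k hk
    have e := hu _ (r3 H hK g hg) _ (hK (r1 g)) k (hK hk)
    rw [hz _ (r1 g) k hk, mul_inv_cancel_left, smul_mul', smul_mul', smul_inv', smul_smul,
      mul_inv_cancel_left] at e
    show u g k * (g • y k * y g * (y (g * k))⁻¹)⁻¹ = 1
    rw [y1 k hk, hy g, hy (g * k), r2 g k hk, ← mul_assoc _ g k]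
    replace e := congrArg Additive.ofMul e
    refine Additive.ofMul.injective ?_
    simp only [ofMul_mul, ofMul_inv, ofMul_one] at e ⊢
    linear_combination (norm := abel) -e
  refine ⟨_, c2, ?_, c4, fun s hs t ht k hk => ?_⟩
  · rwa [← div_eq_mul_inv, div_div_cancel]
  · have e := c2 s hs t ht k (hK hk)
    rwa [c4 t ht k hk, c4 _ (mul_mem hs ht) k hk, smul_one, one_mul, one_mul] at e

end Coh1Aux

theorem cob1_pow_index (hK : K ≤ H) (hc : Coc1 H c) (h : Cob1 K c) :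
    Cob1 H (c ^ K.relIndex H) := by
  obtain ⟨z, hz⟩ := h
  have : Fintype (H ⧸ K.subgroupOf H) := Fintype.ofFinite _
  have a1 : ∀ s ∈ H, ∀ t ∈ H, c (s * t) * ((s * t) • z)⁻¹ = c s * s • (c t * (t • z)⁻¹) :=
    fun s hs t ht => by rw [hc s hs t ht, smul_mul', smul_inv', smul_smul, mul_assoc]
  have a2 : ∀ g ∈ H, ∀ k ∈ K, c (g * k) * ((g * k) • z)⁻¹ = c g * (g • z)⁻¹ :=
    fun g hg k hk => by rw [a1 g hg k (hK hk), hz k hk, mul_inv_cancel_comm, smul_inv']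
  refine ⟨(∏ q : H ⧸ K.subgroupOf H, (c q.out * ((q.out : G) • z)⁻¹))⁻¹, fun s hs => ?_⟩
  have e := Coh1Aux.prod_shift (fun g => c g * (g • z)⁻¹) a2 hs
  rw [Finset.prod_congr rfl fun q _ => a1 s hs _ q.out.2, Finset.prod_mul_distrib,
    Finset.prod_const, Finset.card_univ, ← Nat.card_eq_fintype_card, ← Finset.smul_prod'] at e
  rw [inv_inv, smul_inv', eq_inv_mul_iff_mul_eq, mul_comm]
  exact e

theorem cob2_pow_index (hK : K ≤ H) (hu : Coc2 H u) (h : Cob2 K u) :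
    Cob2 H (u ^ K.relIndex H) := by
  obtain ⟨w, w1, w2, -, w4⟩ := Coh1Aux.norm hK hu h
  have : Fintype (H ⧸ K.subgroupOf H) := Fintype.ofFinite _
  have c1 : Cob2 H (w ^ K.relIndex H) := by
    refine ⟨fun t => ∏ q : H ⧸ K.subgroupOf H, w t q.out, fun s hs t ht => ?_⟩
    have e := Finset.prod_congr (s₁ := Finset.univ) rfl
      fun (q : H ⧸ K.subgroupOf H) _ => w1 s hs t ht _ q.out.2
    rw [Finset.prod_mul_distrib, Finset.prod_mul_distrib, Coh1Aux.prod_shift (w s) (w4 s hs) ht,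
      Finset.prod_const, Finset.card_univ, ← Nat.card_eq_fintype_card, ← Finset.smul_prod'] at e
    rw [e, mul_inv_cancel_comm]
    rfl
  have c2 := (w2.pow (K.relIndex H)).mul c1
  rwa [← mul_pow, div_mul_cancel] at c2

theorem cob2_pow_card (hu : Coc2 H u) : Cob2 H (u ^ Nat.card H) := by
  rw [← Subgroup.relIndex_bot_left]
  refine cob2_pow_index bot_le hu ⟨fun _ => u 1 1, fun s hs t ht => ?_⟩
  rw [Subgroup.mem_bot.1 hs, Subgroup.mem_bot.1 ht, one_smul, mul_inv_cancel_right]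

theorem Fund.mono (hu : Fund H u) (hK : K ≤ H) : Fund K u := by
  refine ⟨fun s hs t ht r hr => hu.1 s (hK hs) t (hK ht) r (hK hr), fun j hj => ?_⟩
  have h1 := cob2_pow_index hK (hu.1.pow j) hj
  rw [← pow_mul] at h1
  have h2 := hu.2 _ h1
  rw [← (K.subgroupOf H).card_mul_index,
    Nat.card_congr (Subgroup.subgroupOfEquivOfLe hK).toEquiv] at h2
  exact Nat.dvd_of_mul_dvd_mul_right (Nat.pos_of_ne_zero Subgroup.index_ne_zero_of_finite) h2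

theorem exists_infl (hN : N ≤ H) (hn : ∀ s ∈ H, ∀ n ∈ N, s⁻¹ * n * s ∈ N)
    (h1' : ∀ c : G → C, Coc1 N c → Cob1 N c) (hu : Coc2 H u) (h : Cob2 N u) :
    ∃ v : G → G → C, Coc2 H v ∧ Cob2 H (u / v) ∧ (∀ s ∈ H, ∀ t ∈ H, v s t ∈ Inv C N) ∧
      ∀ s ∈ H, ∀ t ∈ H, ∀ n ∈ N, ∀ n' ∈ N, v (s * n) (t * n') = v s t := by
  obtain ⟨w, w1, w2, w3, w4⟩ := Coh1Aux.norm hN hu h
  have sw : ∀ g n : G, n * g = g * (g⁻¹ * n * g) := fun g n => by group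
  have hb : ∀ q : G ⧸ N, ∃ b : C, (q.out ∈ N → b = 1) ∧
      (q.out ∈ H → ∀ n ∈ N, w n q.out = n • b * b⁻¹) := fun q => by
    by_cases h1 : q.out ∈ N
    · exact ⟨1, fun _ => rfl, fun _ n h2 => by simp [w3 n (hN h2) _ h1]⟩
    by_cases h2 : q.out ∈ H
    · obtain ⟨b, hb⟩ := h1' (fun n => w n q.out) fun n h3 n' h4 => by
        have e := w1 n (hN h3) n' (hN h4) _ h2
        rw [w3 n (hN h3) n' h4, mul_one, sw, w4 n (hN h3) _ h2 _ (hn _ h2 n' h4)] at e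
        exact e.symm.trans (mul_comm _ _)
      exact ⟨b, fun h3 => absurd h3 h1, fun _ => hb⟩
    · exact ⟨1, fun _ => rfl, fun h3 => absurd h3 h2⟩
  choose b b1 b2 using hb
  have o1 : ∀ g : G, (g : G ⧸ N).out⁻¹ * g ∈ N := fun g =>
    QuotientGroup.eq.1 (QuotientGroup.out_eq' _)
  have o2 : ∀ L : Subgroup G, N ≤ L → ∀ g ∈ L, (g : G ⧸ N).out ∈ L := fun L hL g hg =>
    inv_mem_iff.1 ((mul_mem_cancel_right hg).1 (hL (o1 g)))
  obtain ⟨a, a1, a2, a3⟩ : ∃ a : G → C, (∀ g, ∀ n ∈ N, a (g * n) = a g) ∧ (∀ n ∈ N, a n = 1) ∧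
      ∀ g ∈ H, ∀ n ∈ N, w n g = n • a g * (a g)⁻¹ := by
    refine ⟨fun g => b g, fun g n h1 => congrArg b (QuotientGroup.mk_mul_of_mem g h1),
      fun n h1 => b1 _ (o2 N le_rfl n h1), fun g hg n h1 => ?_⟩
    rw [← b2 _ (o2 H hN g hg) n h1, ← w4 n (hN h1) _ (o2 H hN g hg) _ (o1 g), mul_inv_cancel_left]
  have c1 : Cob2 H fun s t => s • a t * a s * (a (s * t))⁻¹ := ⟨a, fun _ _ _ _ => rfl⟩
  obtain ⟨v, hv⟩ : ∃ v, v = w * (fun s t => s • a t * a s * (a (s * t))⁻¹)⁻¹ := ⟨_, rfl⟩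
  have v1 : Coc2 H v := hv ▸ w1.mul c1.coc2.inv
  have v2 : ∀ g ∈ H, ∀ n ∈ N, v g n = 1 := fun g hg n h1 => by
    simp [hv, w3 g hg n h1, a1 g n h1, a2 n h1]
  have v3 : ∀ g ∈ H, ∀ n ∈ N, v n g = 1 := fun g hg n h1 => by
    have e : a (n * g) = a g := by rw [sw, a1 g _ (hn g hg n h1)]
    simp only [hv, Pi.mul_apply, Pi.inv_apply, a3 g hg n h1, e, a2 n h1, mul_one, mul_inv_cancel]
  have v4 : ∀ s ∈ H, ∀ t ∈ H, ∀ n ∈ N, v s (t * n) = v s t := fun s hs t ht n h1 => by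
    have e := v1 s hs t ht n (hN h1)
    rwa [v2 t ht n h1, v2 _ (mul_mem hs ht) n h1, smul_one, one_mul, one_mul] at e
  have v5 : ∀ s ∈ H, ∀ t ∈ H, ∀ n ∈ N, v (s * n) t = v s t := fun s hs t ht n h1 => by
    have e := v1 s hs n (hN h1) t ht
    rw [v3 t ht n h1, v2 s hs n h1, smul_one, one_mul, mul_one, sw t n,
      v4 s hs t ht _ (hn t ht n h1)] at e
    exact e.symm
  refine ⟨v, v1, ?_, fun s hs t ht n h1 => ?_, fun s hs t ht n h1 n' h2 => ?_⟩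
  · have c2 := w2.mul c1
    rwa [hv, ← div_eq_mul_inv, div_div_eq_mul_div, ← div_mul_eq_mul_div]
  · have e := v1 n (hN h1) s hs t ht
    rwa [v3 _ (mul_mem hs ht) n h1, v3 s hs n h1, mul_one, mul_one, sw s n,
      v5 s hs t ht _ (hn s hs n h1)] at e
  · rw [v4 _ (mul_mem hs (hN h1)) t ht n' h2, v5 s hs t ht n h1]

theorem cob2_infl (hN : N ≤ H) (hn : ∀ s ∈ H, ∀ n ∈ N, s⁻¹ * n * s ∈ N)
    (h1' : ∀ c : G → C, Coc1 N c → Cob1 N c) (hv : ∀ s ∈ H, ∀ t ∈ H, v s t ∈ Inv C N)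
    (hv' : ∀ s ∈ H, ∀ t ∈ H, ∀ n ∈ N, ∀ n' ∈ N, v (s * n) (t * n') = v s t) (h : Cob2 H v) :
    ∃ z : G → C, (∀ s ∈ H, z s ∈ Inv C N) ∧ (∀ s ∈ H, ∀ n ∈ N, z (s * n) = z s) ∧
      ∀ s ∈ H, ∀ t ∈ H, v s t = s • z t * z s * (z (s * t))⁻¹ := by
  obtain ⟨z, hz⟩ := h
  have o := H.one_mem
  have z1 : v 1 1 = z 1 := by rw [hz 1 o 1 o, one_smul, mul_one, mul_inv_cancel_right]
  have z2 : z 1 ∈ Inv C N := z1 ▸ hv 1 o 1 o
  obtain ⟨b, hb⟩ := h1' (fun n => z n * (z 1)⁻¹) fun n h1 n' h2 => by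
    have e := hv' 1 o 1 o n h1 n' h2
    rw [one_mul, one_mul, hz n (hN h1) n' (hN h2), z1] at e
    rw [smul_mul', smul_inv', z2 n h1]
    replace e := congrArg Additive.ofMul e
    refine Additive.ofMul.injective ?_
    simp only [ofMul_mul, ofMul_inv] at e ⊢
    linear_combination (norm := abel) -e
  obtain ⟨y, hy⟩ : ∃ y : G → C, ∀ g, y g = z g * (g • b * b⁻¹)⁻¹ := ⟨_, fun _ => rfl⟩
  have y1 : ∀ s ∈ H, ∀ t ∈ H, v s t = s • y t * y s * (y (s * t))⁻¹ := fun s hs t ht => by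
    simp only [hz s hs t ht, hy, smul_mul', smul_inv', smul_smul]
    refine Additive.ofMul.injective ?_
    simp only [ofMul_mul, ofMul_inv]
    abel
  have y2 : ∀ n ∈ N, y n = z 1 := fun n h1 => by
    rw [hy, ← hb n h1, mul_inv, inv_inv, mul_inv_cancel_left]
  have y3 : ∀ s ∈ H, ∀ n ∈ N, y (s * n) = y s := fun s hs n h1 => by
    have e := hv' s hs 1 o 1 N.one_mem n h1
    rw [mul_one, one_mul, y1 s hs n (hN h1), y1 s hs 1 o, y2 n h1, y2 1 N.one_mem, mul_one] at e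
    exact inv_injective (mul_left_cancel e)
  refine ⟨y, fun s hs n h1 => ?_, y3, y1⟩
  have e := hv' 1 o s hs n h1 1 N.one_mem
  have e2 : y (n * s) = y s := by
    rw [show n * s = s * (s⁻¹ * n * s) by group, y3 s hs _ (hn s hs n h1)]
  rw [mul_one, one_mul, y1 n (hN h1) s hs, y1 1 o s hs, y2 n h1, y2 1 N.one_mem, one_mul,
    one_smul, e2] at e
  exact mul_right_cancel (mul_right_cancel e)

end Pool.Agent.Lib.CFT
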