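import Pool.Agent.Lib.CFT.Coh1

/-! CFT-Coh2: consequences of the two inequalities. -/

namespace Pool.Agent.Lib.CFT

variable {G C : Type} [Group G] [Finite G] [CommGroup C] [MulDistribMulAction G C]


namespace Coh2Aux

omit [Finite G] in
theorem act_iter (σ : G) (i : ℕ) (x : C) : (act C σ)^[i] x = σ ^ i • x :=
  smul_iterate_apply σ i x

omit [Finite G] in
theorem Nm_act (σ : G) (l : ℕ) (x : C) : Nm (act C σ) l x = ∏ i ∈ Finset.range l, σ ^ i • x := by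
  simp only [Nm_apply, act_iter]

omit [Finite G] in
theorem Nm_lay (N : Subgroup G) (σ : G) (h : ∀ n ∈ N, σ⁻¹ * n * σ ∈ N) (l : ℕ) (x : Inv C N) :
    (Nm (lay C N σ h) l x : C) = Nm (act C σ) l x :=
  map_Nm (α := lay C N σ h) (β := act C σ) (Inv C N).subtype (fun _ => rfl) x

omit [Finite G] in
theorem Nm_mul (σ : G) (l m : ℕ) (x : C) :
    Nm (act C σ) (l * m) x = Nm (act C σ) l (Nm (act C (σ ^ l)) m x) := by
  induction m with
  | zero => simp [Nm_act]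
  | succ m ih =>
    rw [Nat.mul_succ, Nm_act, Finset.prod_range_add, ← Nm_act, ih, Nm_act (σ ^ l) (m + 1),
      Finset.prod_range_succ, map_mul, ← Nm_act (σ ^ l), Nm_act σ l ((σ ^ l) ^ m • x)]
    congr 1
    refine Finset.prod_congr rfl fun i _ => ?_
    rw [smul_smul, ← pow_mul, ← pow_add, add_comm]

theorem step {p : ℕ} (hp : p.Prime) {H : Subgroup G} {k : ℕ} (hH : Nat.card H = p ^ (k + 1)) :
    ∃ (N : Subgroup G) (σ : G), N ≤ H ∧ σ ∈ H ∧ Nat.card N = p ^ k ∧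
      (∀ s ∈ H, ∀ n ∈ N, s⁻¹ * n * s ∈ N) ∧ (∀ i : ℕ, σ ^ i ∈ N ↔ p ∣ i) ∧
      ∀ s ∈ H, ∃ i : ℕ, ∃ n ∈ N, s = σ ^ i * n := by
  have : Fact p.Prime := ⟨hp⟩
  obtain ⟨K, hK⟩ := Sylow.exists_subgroup_card_pow_prime (G := H) p (n := k)
    (hH ▸ pow_dvd_pow p k.le_succ)
  have hi : K.index = p := by
    have h1 := K.card_mul_index
    rw [hK, hH, pow_succ] at h1
    exact Nat.eq_of_mul_eq_mul_left (pow_pos hp.pos k) h1
  have hn : K.Normal := Subgroup.normal_of_index_eq_minFac_card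
    (by rw [hi, hH, hp.pow_minFac k.succ_ne_zero])
  have hq : Nat.card (H ⧸ K) = p := hi
  have : Nontrivial (H ⧸ K) := Finite.one_lt_card_iff_nontrivial.1 (hq ▸ hp.one_lt)
  obtain ⟨q, hq1⟩ := exists_ne (1 : H ⧸ K)
  obtain ⟨σ, rfl⟩ := QuotientGroup.mk_surjective q
  have ho : orderOf (σ : H ⧸ K) = p := orderOf_eq_prime (hq ▸ pow_card_eq_one') hq1
  have hm : ∀ x : H, x.1 ∈ K.map H.subtype ↔ x ∈ K := fun x =>
    Subgroup.mem_map_iff_mem H.subtype_injective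
  refine ⟨K.map H.subtype, σ, Subgroup.map_subtype_le K, σ.2, ?_, ?_, fun i => ?_, fun s hs => ?_⟩
  · rw [Subgroup.card_map_of_injective H.subtype_injective, hK]
  · rintro s hs _ ⟨n, hn', rfl⟩
    exact (hm ((⟨s, hs⟩ : H)⁻¹ * n * ⟨s, hs⟩)).2 (hn.conj_mem' n hn' _)
  · rw [← ho, orderOf_dvd_iff_pow_eq_one, ← QuotientGroup.mk_pow, QuotientGroup.eq_one_iff]
    exact hm (σ ^ i)
  · obtain ⟨i, hi'⟩ := mem_powers_of_prime_card hq (g' := ((⟨s, hs⟩ : H) : H ⧸ K)) hq1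
    simp only [← QuotientGroup.mk_pow] at hi'
    refine ⟨i, _, (hm _).2 (QuotientGroup.eq.1 hi'), ?_⟩
    exact (mul_inv_cancel_left _ _).symm

theorem cob1_p (ax : PrimeAx G C) {p : ℕ} (hp : p.Prime) (k : ℕ) :
    ∀ H : Subgroup G, Nat.card H = p ^ k → ∀ c : G → C, Coc1 H c → Cob1 H c := by
  have h11 : ∀ (H : Subgroup G) (c : G → C), Coc1 H c → c 1 = 1 := fun H c hc => by
    have h1 := hc 1 H.one_mem 1 H.one_mem
    rw [mul_one, one_smul] at h1
    exact left_eq_mul.1 h1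
  induction k with
  | zero =>
    intro H hH c hc
    rw [pow_zero, Subgroup.card_eq_one] at hH
    refine ⟨1, fun s hs => ?_⟩
    rw [hH, Subgroup.mem_bot] at hs
    rw [hs, h11 H c hc, one_smul, mul_inv_cancel]
  | succ k ih =>
    intro H hH c hc
    obtain ⟨N, σ, hN, hσ, hk, hn, hp', hs⟩ := step hp hH
    obtain ⟨z, hz⟩ := ih N hk c fun s hs t ht => hc s (hN hs) t (hN ht)
    obtain ⟨d, hd⟩ : ∃ d : G → C, d = fun s => c s * (s • z * z⁻¹)⁻¹ := ⟨_, rfl⟩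
    have hdc : Coc1 H d := fun s hs t ht => by
      simp only [hd, hc s hs t ht, smul_mul', smul_inv', mul_smul]
      refine Additive.ofMul.injective ?_
      simp only [ofMul_mul, ofMul_inv]
      abel
    have hd1 : ∀ n ∈ N, d n = 1 := fun n hn' => by
      rw [hd]
      simp only [hz n hn', mul_inv_cancel]
    have hd2 : ∀ s ∈ H, ∀ n ∈ N, d (s * n) = d s := fun s hs n hn' => by
      rw [hdc s hs n (hN hn'), hd1 n hn', smul_one, mul_one]
    have ha : d σ ∈ Inv C N := fun n hn' => by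
      have h1 := hdc n (hN hn') σ hσ
      rw [hd1 n hn', one_mul] at h1
      rw [← h1, ← hd2 σ hσ _ (hn σ hσ n hn'), mul_assoc, mul_inv_cancel_left]
    have hpow : ∀ i : ℕ, d (σ ^ i) = Nm (act C σ) i (d σ) := fun i => by
      rw [Nm_act]
      induction i with
      | zero => rw [pow_zero, h11 H d hdc, Finset.prod_range_zero]
      | succ i ih' => rw [pow_succ, hdc _ (H.pow_mem hσ i) σ hσ, ih', Finset.prod_range_succ]
    have hσN : σ ∉ N := fun h => hp.one_lt.ne' (Nat.dvd_one.1 ((hp' 1).1 (by rwa [pow_one])))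
    obtain ⟨y, hy⟩ := h1_eq_one_iff.1 (ax N σ (hn σ hσ) p hp hσN ((hp' p).2 dvd_rfl)).2
      ⟨d σ, ha⟩ (Subtype.ext (by
        rw [Nm_lay, ← hpow]
        exact hd1 _ ((hp' p).2 dvd_rfl)))
    have hy' : σ • y.1 / y.1 = d σ := congrArg Subtype.val hy
    have hpow' : ∀ i : ℕ, d (σ ^ i) = σ ^ i • y.1 / y.1 := fun i => by
      induction i with
      | zero => rw [pow_zero, h11 H d hdc, one_smul, div_self']
      | succ i ih' =>
        rw [pow_succ, hdc _ (H.pow_mem hσ i) σ hσ, ih', ← hy', smul_div', mul_smul, mul_comm,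
          div_mul_div_cancel]
    refine ⟨z * y.1, fun s hs' => ?_⟩
    obtain ⟨i, n, hn', rfl⟩ := hs s hs'
    have h1 := hd2 _ (H.pow_mem hσ i) n hn'
    have h2 : σ ^ i • y.1 = (σ ^ i * n) • y.1 := by rw [mul_smul, y.2 n hn']
    rw [hpow', h2, hd] at h1
    rw [mul_inv_eq_iff_eq_mul.1 h1, smul_mul']
    refine Additive.ofMul.injective ?_
    simp only [ofMul_mul, ofMul_inv, ofMul_div]
    abel

variable (C) in
/-- The one-coboundaries. -/
def B1 (H : Subgroup G) : Subgroup (G → C) where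
  carrier := {c | Cob1 H c}
  one_mem' := ⟨1, fun s _ => by simp⟩
  mul_mem' := by
    rintro a b ⟨x, hx⟩ ⟨y, hy⟩
    refine ⟨x * y, fun s hs => ?_⟩
    rw [Pi.mul_apply, hx s hs, hy s hs, smul_mul', mul_inv, mul_mul_mul_comm]
  inv_mem' := by
    rintro a ⟨x, hx⟩
    refine ⟨x⁻¹, fun s hs => ?_⟩
    rw [Pi.inv_apply, hx s hs, smul_inv', mul_inv]

theorem gen_of_h0 {A : Type} [CommGroup A] {α : A →* A} {p : ℕ} (hp : p.Prime) (h : h0 α p = p)
    {a b : A} (ha : α a = a) (hb : α b = b) (hb' : ¬∃ y, Nm α p y = b) :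
    ∃ (i : ℕ) (y : A), Nm α p y = a / b ^ i := by
  have : Fact p.Prime := ⟨hp⟩
  have hk : ∀ x, α x = x → x ∈ (Dm α).ker := fun x hx => by
    rw [MonoidHom.mem_ker, Dm_apply, hx, div_self']
  have hq : Nat.card ((Dm α).ker ⧸ (Nm α p).range.subgroupOf (Dm α).ker) = p := h
  obtain ⟨i, hi⟩ := mem_powers_of_prime_card hq (g' := ((⟨a, hk a ha⟩ : (Dm α).ker) : _ ⧸ _))
    (g := ((⟨b, hk b hb⟩ : (Dm α).ker) : _ ⧸ _)) fun h1 => hb' ((QuotientGroup.eq_one_iff _).1 h1)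
  simp only [← QuotientGroup.mk_pow] at hi
  obtain ⟨y, hy⟩ := QuotientGroup.eq.1 hi
  exact ⟨i, y, hy.trans (inv_mul_eq_div _ _)⟩

/-- Inflated cocycles. -/
structure Infl (H N : Subgroup G) (v : G → G → C) : Prop where
  coc : Coc2 H v
  val : ∀ s ∈ H, ∀ t ∈ H, v s t ∈ Inv C N
  inv : ∀ s ∈ H, ∀ t ∈ H, ∀ n ∈ N, ∀ n' ∈ N, v (s * n) (t * n') = v s t

variable {H N : Subgroup G} {σ : G} {u v : G → G → C} {p : ℕ}

theorem Infl.div_pow (hv : Infl H N v) (hu : Infl H N u) (i : ℕ) : Infl H N (v / u ^ i) where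
  coc := by
    rw [div_eq_mul_inv]
    exact hv.coc.mul (hu.coc.pow i).inv
  val := fun s hs t ht => div_mem (hv.val s hs t ht) (pow_mem (hu.val s hs t ht) i)
  inv := fun s hs t ht n hn n' hn' => by
    simp only [Pi.div_apply, Pi.pow_apply, hv.inv s hs t ht n hn n' hn',
      hu.inv s hs t ht n hn n' hn']

omit [Finite G] in
theorem Infl.mem (hv : Infl H N v) (hσ : σ ∈ H) :
    ∏ i ∈ Finset.range p, v (σ ^ i) σ ∈ Inv C N :=
  prod_mem fun i _ => hv.val _ (H.pow_mem hσ i) σ hσ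

omit [Finite G] in
theorem Infl.fix (hv : Infl H N v) (hσ : σ ∈ H) (hp : σ ^ p ∈ N) :
    σ • ∏ i ∈ Finset.range p, v (σ ^ i) σ = ∏ i ∈ Finset.range p, v (σ ^ i) σ := by
  have hs : ∀ f : ℕ → C, f p = f 0 →
      ∏ i ∈ Finset.range p, f (i + 1) = ∏ i ∈ Finset.range p, f i := fun f hf => by
    have h1 := Finset.prod_range_succ' f p
    rw [Finset.prod_range_succ, hf] at h1
    exact (mul_right_cancel h1).symm
  have h1 := hs (fun i => v σ (σ ^ i)) (by
    simpa only [mul_one, one_mul, pow_zero] using hv.inv σ hσ 1 H.one_mem 1 N.one_mem _ hp)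
  have h2 := hs (fun i => v (σ ^ i) σ) (by
    simpa only [mul_one, one_mul, pow_zero] using hv.inv 1 H.one_mem σ hσ _ hp 1 N.one_mem)
  have h3 : ∏ i ∈ Finset.range p, (σ • v (σ ^ i) σ * v σ (σ ^ (i + 1))) =
      ∏ i ∈ Finset.range p, (v (σ ^ (i + 1)) σ * v σ (σ ^ i)) :=
    Finset.prod_congr rfl fun i _ => by
      have h4 := hv.coc σ hσ _ (H.pow_mem hσ i) σ hσ
      rwa [← pow_succ, ← pow_succ'] at h4
  rw [Finset.prod_mul_distrib, Finset.prod_mul_distrib, h1, h2, ← Finset.smul_prod'] at h3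
  exact mul_right_cancel h3

omit [Finite G] in
theorem Infl.cob (hv : Infl H N v) (hσ : σ ∈ H) (hn : ∀ s ∈ H, ∀ n ∈ N, s⁻¹ * n * s ∈ N)
    (hp : ∀ i : ℕ, σ ^ i ∈ N ↔ p ∣ i) (hs : ∀ s ∈ H, ∃ i : ℕ, ∃ n ∈ N, s = σ ^ i * n) {y : C}
    (hy : y ∈ Inv C N) (e : Nm (act C σ) p y = ∏ i ∈ Finset.range p, v (σ ^ i) σ) : Cob2 H v := by
  obtain ⟨F, hF⟩ : ∃ F : ℕ → C,
      F = fun i => v 1 1 * ∏ m ∈ Finset.range i, σ ^ m • y / v (σ ^ m) σ := ⟨_, rfl⟩
  have F0 : F 0 = v 1 1 := by simp [hF]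
  have Fs : ∀ i, F (i + 1) = F i * (σ ^ i • y / v (σ ^ i) σ) := fun i => by
    simp only [hF, Finset.prod_range_succ, mul_assoc]
  have Fp : F p = F 0 := by
    rw [F0, hF]
    simp only
    rw [Finset.prod_div_distrib, ← Nm_act, e, div_self', mul_one]
  have hyi : ∀ i : ℕ, σ ^ i • y ∈ Inv C N := fun i =>
    smul_mem_Inv (hn _ (H.pow_mem hσ i)) y hy
  have Fm : ∀ i, F i ∈ Inv C N := fun i => by
    rw [hF]
    exact mul_mem (hv.val 1 H.one_mem 1 H.one_mem)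
      (prod_mem fun m _ => div_mem (hyi m) (hv.val _ (H.pow_mem hσ m) σ hσ))
  have hpN : σ ^ p ∈ N := (hp p).2 dvd_rfl
  have Fper : ∀ i, F (i + p) = F i := fun i => by
    induction i with
    | zero => rw [zero_add, Fp]
    | succ i ih =>
      have h1 := hv.inv _ (H.pow_mem hσ i) σ hσ _ hpN 1 N.one_mem
      rw [mul_one] at h1
      rw [Nat.add_right_comm, Fs, Fs, ih, pow_add, h1, mul_smul, hy _ hpN]
  have Fper' : ∀ i m, F (i + p * m) = F i := fun i m => by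
    induction m with
    | zero => rfl
    | succ m ih => rw [Nat.mul_succ, ← add_assoc, Fper, ih]
  have Fle : ∀ i j, i ≤ j → ∀ n ∈ N, ∀ n' ∈ N, σ ^ i * n = σ ^ j * n' → F i = F j :=
    fun i j hij n hn₁ n' hn₂ h => by
      obtain ⟨m, rfl⟩ := Nat.exists_eq_add_of_le hij
      rw [pow_add, mul_assoc, mul_right_inj] at h
      obtain ⟨r, rfl⟩ := (hp m).1 (by
        rw [eq_mul_inv_of_mul_eq h.symm]
        exact N.mul_mem hn₁ (N.inv_mem hn₂))
      exact (Fper' i r).symm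
  have Fwd : ∀ i j, ∀ n ∈ N, ∀ n' ∈ N, σ ^ i * n = σ ^ j * n' → F i = F j :=
    fun i j n hn₁ n' hn₂ h => (le_total i j).elim (fun hij => Fle i j hij n hn₁ n' hn₂ h)
      fun hij => (Fle j i hij n' hn₂ n hn₁ h.symm).symm
  have key : ∀ i j : ℕ, v (σ ^ i) (σ ^ j) = σ ^ i • F j * F i * (F (i + j))⁻¹ := fun i j => by
    induction j with
    | zero =>
      have h1 := hv.coc _ (H.pow_mem hσ i) 1 H.one_mem 1 H.one_mem
      rw [mul_one, mul_one] at h1
      rw [pow_zero, add_zero, F0, mul_inv_cancel_right, mul_right_cancel h1]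
    | succ j ih =>
      have h1 := hv.coc _ (H.pow_mem hσ i) _ (H.pow_mem hσ j) σ hσ
      rw [← pow_succ, ← pow_add, ih] at h1
      rw [eq_inv_mul_of_mul_eq h1, ← add_assoc, Fs, Fs, smul_mul', smul_div', smul_smul, ← pow_add]
      refine Additive.ofMul.injective ?_
      simp only [ofMul_mul, ofMul_inv, ofMul_div]
      abel
  choose! d r hr hd using hs
  refine ⟨fun s => F (d s), fun s hs t ht => ?_⟩
  have h1 : v s t = v (σ ^ d s) (σ ^ d t) := by
    conv_lhs => rw [hd s hs, hd t ht]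
    exact hv.inv _ (H.pow_mem hσ _) _ (H.pow_mem hσ _) _ (hr s hs) _ (hr t ht)
  have h2 : s • F (d t) = σ ^ d s • F (d t) := by
    conv_lhs => rw [hd s hs, mul_smul, Fm _ _ (hr s hs)]
  have h3 : F (d (s * t)) = F (d s + d t) := by
    refine Fwd _ _ _ (hr _ (H.mul_mem hs ht)) ((σ ^ d t)⁻¹ * r s * σ ^ d t * r t)
      (N.mul_mem (hn _ (H.pow_mem hσ _) _ (hr s hs)) (hr t ht)) ?_
    rw [← hd _ (H.mul_mem hs ht)]
    conv_lhs => rw [hd s hs, hd t ht]
    simp only [pow_add, mul_assoc, mul_inv_cancel_left]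
  simp only [h1, h2, h3, key]

end Coh2Aux

open Coh2Aux

omit [Finite G] in
theorem PrimeAx.subgroup (ax : PrimeAx G C) (H : Subgroup G) : PrimeAx H C := by
  intro N σ h l hl h1 h2
  have hm : ∀ x : H, x.1 ∈ N.map H.subtype ↔ x ∈ N := fun x =>
    Subgroup.mem_map_iff_mem H.subtype_injective
  have hn : ∀ n ∈ N.map H.subtype, σ.1⁻¹ * n * σ.1 ∈ N.map H.subtype := by
    rintro _ ⟨n, hn, rfl⟩
    exact (hm (σ⁻¹ * n * σ)).2 (h n hn)
  have e : Inv C N = Inv C (N.map H.subtype) := by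
    ext x
    refine ⟨fun hx => ?_, fun hx s hs => hx s.1 ((hm s).2 hs)⟩
    rintro _ ⟨n, hn, rfl⟩
    exact hx n hn
  have h3 := ax (N.map H.subtype) σ.1 hn l hl (fun h4 => h1 ((hm σ).1 h4)) ((hm (σ ^ l)).2 h2)
  rw [h0_equiv (β := lay C _ σ.1 hn) (MulEquiv.subgroupCongr e) fun _ => rfl,
    h1_equiv (β := lay C _ σ.1 hn) (MulEquiv.subgroupCongr e) fun _ => rfl]
  exact h3

theorem PrimeAx.cob1 (ax : PrimeAx G C) (H : Subgroup G) (c : G → C) (hc : Coc1 H c) :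
    Cob1 H c := by
  have h1 : orderOf (c : (G → C) ⧸ B1 C H) = 1 := by
    by_contra h
    obtain ⟨p, hp, hd⟩ := Nat.exists_prime_and_dvd h
    have : Fact p.Prime := ⟨hp⟩
    obtain ⟨P⟩ : Nonempty (Sylow p H) := inferInstance
    obtain ⟨k, hk⟩ := (P.isPGroup'.map H.subtype).exists_card_eq
    have hle := Subgroup.map_subtype_le (P : Subgroup H)
    have h2 := cob1_pow_index hle hc
      (cob1_p ax hp k _ hk c fun s hs t ht => hc s (hle hs) t (hle ht))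
    have h3 : ((P : Subgroup H).map H.subtype).relIndex H = (P : Subgroup H).index := by
      rw [Subgroup.relIndex, Subgroup.subgroupOf,
        Subgroup.comap_map_eq_self_of_injective H.subtype_injective]
    rw [h3] at h2
    refine P.not_dvd_index (hd.trans (orderOf_dvd_of_pow_eq_one ?_))
    rw [← QuotientGroup.mk_pow, QuotientGroup.eq_one_iff]
    exact h2
  exact (QuotientGroup.eq_one_iff c).1 (orderOf_eq_one_iff.1 h1)

theorem PrimeAx.h0_le (ax : PrimeAx G C) (τ : G) :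
    h0 (act C τ) (orderOf τ) ≠ 0 ∧ h0 (act C τ) (orderOf τ) ≤ orderOf τ := by
  obtain ⟨n, hn⟩ : ∃ n, orderOf τ = n := ⟨_, rfl⟩
  induction n using Nat.strong_induction_on generalizing τ with
  | _ n ih =>
  by_cases h1 : n = 1
  · have h2 : h0 (act C τ) 1 = 1 := h0_eq_one_iff.2 fun x _ => ⟨x, by simp [Nm_apply]⟩
    rw [hn, h1, h2]
    exact ⟨one_ne_zero, le_rfl⟩
  obtain ⟨l, hl, m, hm⟩ := Nat.exists_prime_and_dvd h1
  have hn0 : 0 < n := hn ▸ orderOf_pos τ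
  have hm0 : 0 < m := Nat.pos_of_mul_pos_left (hm ▸ hn0)
  have hmn : m < n := hm ▸ lt_mul_of_one_lt_left hm0 hl.one_lt
  have ho : orderOf (τ ^ l) = m := by
    rw [orderOf_pow_of_dvd hl.ne_zero (hn ▸ hm ▸ dvd_mul_right l m), hn, hm,
      Nat.mul_div_cancel_left m hl.pos]
  obtain ⟨i1, i2⟩ := ih m hmn (τ ^ l) ho
  rw [ho] at i1 i2
  have hc : ∀ x ∈ Subgroup.zpowers (τ ^ l), τ⁻¹ * x * τ ∈ Subgroup.zpowers (τ ^ l) := by
    rintro _ ⟨j, rfl⟩
    refine ⟨j, ?_⟩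
    have h2 : Commute τ ((τ ^ l) ^ j) := ((Commute.refl τ).pow_right l).zpow_right j
    simp only
    rw [mul_assoc, ← h2.eq, inv_mul_cancel_left]
  have hτ : τ ∉ Subgroup.zpowers (τ ^ l) := fun h => by
    have h2 := orderOf_dvd_of_mem_zpowers h
    rw [hn, ho] at h2
    exact (Nat.le_of_dvd hm0 h2).not_gt hmn
  have h2 := (ax _ τ hc l hl hτ (Subgroup.mem_zpowers _)).1
  have hk : ∀ (s : G) (x : C), x ∈ (Dm (act C s)).ker ↔ s • x = x := fun s x => by
    rw [MonoidHom.mem_ker, Dm_apply, div_eq_one]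
    rfl
  have hpow : ∀ x : C, τ • x = x → τ ^ l • x = x := fun x hx =>
    (MulAction.stabilizer G x).pow_mem hx l
  have hI : Inv C (Subgroup.zpowers (τ ^ l)) = (Dm (act C (τ ^ l))).ker := by
    ext x
    rw [hk]
    exact ⟨fun hx => hx _ (Subgroup.mem_zpowers _), fun hx s hs =>
      (Subgroup.zpowers_le (H := MulAction.stabilizer G x)).2 hx hs⟩
  have e1 : (Nm (lay C _ τ hc) l).range.map (Inv C (Subgroup.zpowers (τ ^ l))).subtype =
      (Dm (act C (τ ^ l))).ker.map (Nm (act C τ) l) := by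
    rw [← hI]
    ext x
    constructor
    · rintro ⟨_, ⟨y, rfl⟩, rfl⟩
      exact ⟨y.1, y.2, (Nm_lay _ _ _ _ y).symm⟩
    · rintro ⟨y, hy, rfl⟩
      exact ⟨_, ⟨⟨y, hy⟩, rfl⟩, Nm_lay _ _ _ _ _⟩
  have e2 : (Dm (lay C _ τ hc)).ker.map (Inv C (Subgroup.zpowers (τ ^ l))).subtype =
      (Dm (act C τ)).ker := by
    ext x
    constructor
    · rintro ⟨y, hy, rfl⟩
      exact congrArg Subtype.val (MonoidHom.mem_ker.1 hy)
    · intro hx
      exact ⟨⟨x, hI ▸ (hk _ x).2 (hpow x ((hk τ x).1 hx))⟩,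
        MonoidHom.mem_ker.2 (Subtype.ext hx), rfl⟩
  rw [h0, ← Subgroup.relIndex_map_map_of_injective _ _ (Subgroup.subtype_injective _), e1, e2] at h2
  have hA : (Nm (act C τ) (l * m)).range ≤ (Dm (act C (τ ^ l))).ker.map (Nm (act C τ) l) := by
    rintro _ ⟨x, rfl⟩
    refine ⟨_, (hk _ _).2 (apply_Nm (α := act C (τ ^ l)) (l := m) (fun y => ?_) x),
      (Nm_mul τ l m x).symm⟩
    rw [act_iter, ← ho, pow_orderOf_eq_one, one_smul]
  have hB : (Dm (act C (τ ^ l))).ker.map (Nm (act C τ) l) ≤ (Dm (act C τ)).ker := by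
    rw [← e1, ← e2]
    refine Subgroup.map_mono ?_
    rintro _ ⟨x, rfl⟩
    rw [MonoidHom.mem_ker, Dm_apply, div_eq_one]
    refine apply_Nm (fun y => Subtype.ext ?_) x
    rw [lay, resS_iterate, act_iter]
    exact y.2 _ (Subgroup.mem_zpowers _)
  have h3 := Subgroup.relIndex_mul_relIndex _ _ _ hA hB
  have h4 : (Nm (act C τ) (l * m)).range.relIndex
      ((Dm (act C (τ ^ l))).ker.map (Nm (act C τ) l)) ∣ h0 (act C (τ ^ l)) m := by
    rw [← Subgroup.relIndex_comap]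
    refine Subgroup.relIndex_dvd_of_le_left _ ?_
    rintro _ ⟨x, rfl⟩
    exact ⟨x, Nm_mul τ l m x⟩
  rw [hn, hm, h0, ← h3, h2]
  exact ⟨mul_ne_zero (ne_zero_of_dvd_ne_zero i1 h4) hl.ne_zero,
    (Nat.mul_le_mul_right l ((Nat.le_of_dvd (Nat.pos_of_ne_zero i1) h4).trans i2)).trans_eq
      (mul_comm m l)⟩

theorem PrimeAx.gen (ax : PrimeAx G C) {p : ℕ} (hp : p.Prime) {H : Subgroup G} (hH : IsPGroup p H)
    {u v : G → G → C} (hu : Fund H u) (hv : Coc2 H v) : ∃ j : ℕ, Cob2 H (v / u ^ j) := by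
  have : Fact p.Prime := ⟨hp⟩
  obtain ⟨k, hk⟩ := hH.exists_card_eq
  clear hH
  have hdiv : ∀ (K : Subgroup G) (j : ℕ), Coc2 K u → Coc2 K v → Coc2 K (v / u ^ j) :=
    fun K j h1 h2 => by
      rw [div_eq_mul_inv]
      exact h2.mul (h1.pow j).inv
  induction k generalizing H with
  | zero =>
    have h1 := cob2_pow_card (hdiv H 0 hu.1 hv)
    rw [hk, pow_zero p, pow_one] at h1
    exact ⟨0, h1⟩
  | succ k ih =>
    obtain ⟨N, σ, hN, hσ, hc, hn, hp', hs⟩ := step hp hk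
    have huN := hu.mono hN
    obtain ⟨j, hj⟩ := ih huN (fun s hs t ht r hr => hv s (hN hs) t (hN ht) r (hN hr)) hc
    obtain ⟨w, w1, w2, w3, w4⟩ := exists_infl hN hn (ax.cob1 N) (hdiv H j hu.1 hv) hj
    obtain ⟨x, x1, x2, x3, x4⟩ := exists_infl hN hn (ax.cob1 N) (hu.1.pow (Nat.card N))
      (cob2_pow_card huN.1)
    have hw : Infl H N w := ⟨w1, w3, w4⟩
    have hx : Infl H N x := ⟨x1, x3, x4⟩
    have hpN : σ ^ p ∈ N := (hp' p).2 dvd_rfl
    have hσN : σ ∉ N := fun h => hp.one_lt.ne' (Nat.dvd_one.1 ((hp' 1).1 (by rwa [pow_one])))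
    obtain ⟨i, y, hy⟩ := gen_of_h0 hp (ax N σ (hn σ hσ) p hp hσN hpN).1
      (a := ⟨_, hw.mem (p := p) hσ⟩) (b := ⟨_, hx.mem (p := p) hσ⟩) (Subtype.ext (hw.fix hσ hpN))
      (Subtype.ext (hx.fix hσ hpN)) (by
        rintro ⟨y, hy⟩
        have h1 := x2.mul (hx.cob hσ hn hp' hs y.2
          ((Nm_lay _ _ _ _ y).symm.trans (congrArg Subtype.val hy)))
        rw [div_mul_cancel] at h1
        have h2 := hu.2 _ h1
        rw [hk, hc] at h2
        exact (Nat.le_of_dvd (pow_pos hp.pos k) h2).not_gt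
          (Nat.pow_lt_pow_right hp.one_lt k.lt_succ_self))
    have h1 : Cob2 H (w / x ^ i) := (hw.div_pow hx i).cob hσ hn hp' hs y.2 (by
      rw [← Nm_lay _ _ (hn σ hσ), hy]
      simp only [Pi.div_apply, Pi.pow_apply, Finset.prod_div_distrib, Finset.prod_pow]
      rfl)
    refine ⟨j + Nat.card N * i, ?_⟩
    have h2 := (w2.mul h1).mul (x2.pow i).inv
    have e : v / u ^ j / w * (w / x ^ i) * ((u ^ Nat.card N / x) ^ i)⁻¹ =
        v / u ^ (j + Nat.card N * i) := by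
      rw [pow_add, pow_mul, div_pow]
      refine Additive.ofMul.injective ?_
      simp only [ofMul_mul, ofMul_inv, ofMul_div]
      abel
    rwa [e] at h2

end Pool.Agent.Lib.CFT
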