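import Pool.Agent.Lib.CFT.Coh2

/-! CFT-Coh3: the fundamental class from a reciprocity character. -/

namespace Pool.Agent.Lib.CFT

variable {G C : Type} [Group G] [Finite G] [CommGroup C] [MulDistribMulAction G C]


namespace Coh3Aux

omit [Finite G] in
theorem Nm_act (τ : G) (k : ℕ) (x : C) :
    Nm (act C τ) k x = ∏ i ∈ Finset.range k, τ ^ i • x := by
  rw [Nm_apply]
  refine Finset.prod_congr rfl fun i _ => ?_
  exact congrFun (smul_iterate τ i) x

omit [Finite G] in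
theorem Nm_add (τ : G) (a b : ℕ) (x : C) :
    Nm (act C τ) (a + b) x = Nm (act C τ) a x * τ ^ a • Nm (act C τ) b x := by
  rw [Nm_act, Nm_act, Nm_act, Finset.prod_range_add, Finset.smul_prod']
  simp only [smul_smul, pow_add]

omit [Finite G] in
theorem Nm_mul (τ : G) (q : ℕ) (x : C) :
    Nm (act C τ) (orderOf τ * q) x = Nm (act C τ) (orderOf τ) x ^ q := by
  induction q with
  | zero => simp [Nm_apply]
  | succ q ih => rw [Nat.mul_succ, Nm_add, ih, pow_mul, pow_orderOf_eq_one, one_pow, one_smul,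
      pow_succ]

omit [Finite G] in
theorem uniq {N' : Subgroup G} {τ : G} (hinf : Subgroup.zpowers τ ⊓ N' = ⊥) {i j : ℕ} {s t : G}
    (hs : s ∈ N') (ht : t ∈ N') (h : τ ^ i * s = τ ^ j * t) :
    i ≡ j [MOD orderOf τ] ∧ s = t := by
  have e : (τ ^ j)⁻¹ * τ ^ i = t * s⁻¹ := by
    rw [inv_mul_eq_iff_eq_mul, ← mul_assoc, ← h, mul_inv_cancel_right]
  have h1 : (τ ^ j)⁻¹ * τ ^ i ∈ Subgroup.zpowers τ ⊓ N' :=
    Subgroup.mem_inf.2
      ⟨mul_mem (inv_mem (Subgroup.npow_mem_zpowers τ j)) (Subgroup.npow_mem_zpowers τ i),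
        by rw [e]; exact mul_mem ht (inv_mem hs)⟩
  rw [hinf, Subgroup.mem_bot] at h1
  have h2 : τ ^ i = τ ^ j := (inv_mul_eq_one.1 h1).symm
  refine ⟨pow_eq_pow_iff_modEq.1 h2, ?_⟩
  rw [h2] at h
  exact mul_left_cancel h

theorem exists_split {N' : Subgroup G} {τ : G} (hcomm : ∀ s ∈ N', s * τ = τ * s)
    (hinf : Subgroup.zpowers τ ⊓ N' = ⊥) (hsup : ∀ g : G, ∃ i : ℕ, ∃ s ∈ N', g = τ ^ i * s) :
    ∃ (f : G → ℕ) (pr : G → G), (∀ g, pr g ∈ N') ∧ (∀ g, g = τ ^ f g * pr g) ∧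
      (∀ g, f g < orderOf τ) ∧ (∀ g h, f (g * h) = (f g + f h) % orderOf τ) ∧
      (∀ g h, pr (g * h) = pr g * pr h) := by
  choose i pr h1 h2 using hsup
  have hpos := orderOf_pos τ
  have h3 : ∀ g, g = τ ^ (i g % orderOf τ) * pr g := fun g => by
    rw [pow_mod_orderOf]
    exact h2 g
  have key : ∀ g h, τ ^ i (g * h) * pr (g * h) = τ ^ (i g + i h) * (pr g * pr h) := by
    intro g h
    have hc : Commute (pr g) (τ ^ i h) := Commute.pow_right (hcomm _ (h1 g)) _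
    rw [← h2 (g * h), pow_add, mul_assoc, ← mul_assoc (τ ^ i h), ← hc.eq, mul_assoc, ← h2 h,
      ← mul_assoc, ← h2 g]
  refine ⟨fun g => i g % orderOf τ, pr, h1, h3, fun g => Nat.mod_lt _ hpos, fun g h => ?_,
    fun g h => (uniq hinf (h1 _) (mul_mem (h1 g) (h1 h)) (key g h)).2⟩
  have := (uniq hinf (h1 _) (mul_mem (h1 g) (h1 h)) (key g h)).1
  rw [← Nat.add_mod]
  exact this

/-- The norm map of a finite subgroup. -/
noncomputable def NN (N' : Subgroup G) [Fintype N'] : C →* C where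
  toFun x := ∏ s : N', s.1 • x
  map_one' := by simp
  map_mul' x y := by simp only [smul_mul', Finset.prod_mul_distrib]

omit [Finite G] in
theorem NN_mem (N' : Subgroup G) [Fintype N'] (x : C) : NN N' x ∈ Inv C N' := by
  intro s hs
  change s • ∏ t : N', t.1 • x = ∏ t : N', t.1 • x
  rw [Finset.smul_prod']
  refine Fintype.prod_equiv (Equiv.mulLeft (⟨s, hs⟩ : N')) _ _ fun t => ?_
  rw [smul_smul]
  rfl

omit [Finite G] in
theorem NN_comm {N' : Subgroup G} [Fintype N'] {τ : G} (hcomm : ∀ s ∈ N', s * τ = τ * s)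
    (x : C) : NN N' (act C τ x) = act C τ (NN N' x) := by
  change ∏ t : N', t.1 • τ • x = τ • ∏ t : N', t.1 • x
  rw [Finset.smul_prod']
  refine Finset.prod_congr rfl fun t _ => ?_
  rw [smul_smul, smul_smul, hcomm _ t.2]

omit [Finite G] in
theorem pow_smul_eq {τ : G} {x : C} (h : τ • x = x) (i : ℕ) : τ ^ i • x = x := by
  induction i with
  | zero => rw [pow_zero, one_smul]
  | succ i ih => rw [pow_succ, mul_smul, h, ih]

theorem exists_norm (ax : PrimeAx G C) (N' : Subgroup G) [Fintype N'] (τ : G)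
    (hcomm : ∀ s ∈ N', s * τ = τ * s)
    (hsup : ∀ g : G, ∃ i : ℕ, ∃ s ∈ N', g = τ ^ i * s) {m : ℕ} (hm : orderOf τ = Nat.card N' * m)
    {Q : Type} [CommGroup Q] (hQ : Nat.card Q = orderOf τ) (lam : Inv C (⊤ : Subgroup G) →* Q)
    (hlam : ∀ (c : Inv C (⊤ : Subgroup G)) (z : C), z ∈ Inv C N' →
      c.1 = Nm (act C τ) (orderOf τ) z → lam c = 1)
    {y : C} (hy : τ • y = y) (c : Inv C (⊤ : Subgroup G)) (hc : c.1 = ∏ s : N', s.1 • y)
    (hgen : ∀ q, q ∈ Subgroup.zpowers (lam c)) :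
    ∃ z : C, Nm (act C τ) (orderOf τ) z = c.1 ^ m := by
  have hker : ∀ x : C, x ∈ (Dm (act C τ)).ker ↔ τ • x = x := fun x => by
    rw [MonoidHom.mem_ker, Dm_apply, div_eq_one]
    rfl
  have hmem : ∀ x : (Dm (act C τ)).ker, NN N' x.1 ∈ Inv C (⊤ : Subgroup G) := by
    intro x g _
    obtain ⟨i, s, hs, rfl⟩ := hsup g
    rw [mul_smul, NN_mem N' x.1 s hs]
    refine pow_smul_eq ?_ i
    have := NN_comm hcomm x.1
    rw [show act C τ x.1 = x.1 from (hker _).1 x.2] at this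
    exact this.symm
  let φ : (Dm (act C τ)).ker →* Q :=
    lam.comp (((NN N').comp (Dm (act C τ)).ker.subtype).codRestrict _ hmem)
  have hφ : ∀ x, φ x = lam ⟨NN N' x.1, hmem x⟩ := fun _ => rfl
  have hs : Function.Surjective φ := by
    intro q
    obtain ⟨k, rfl⟩ := hgen q
    refine ⟨⟨y, (hker y).2 hy⟩ ^ k, ?_⟩
    rw [map_zpow, hφ]
    congr 2
    exact Subtype.ext hc.symm
  have hN : ∀ x : (Dm (act C τ)).ker, x.1 ∈ (Nm (act C τ) (orderOf τ)).range → φ x = 1 := by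
    rintro x ⟨z, hz⟩
    rw [hφ]
    refine hlam _ (NN N' z) (NN_mem N' z) ?_
    change NN N' x.1 = _
    rw [← hz]
    exact map_Nm (NN N') (NN_comm hcomm) z
  have hcm : c.1 ^ m ∈ (Dm (act C τ)).ker := pow_mem ((hker _).2 (c.2 τ trivial)) m
  refine mem_range_of_card φ hs hN (ax.h0_le τ).1 (hQ ▸ (ax.h0_le τ).2) (x := ⟨c.1 ^ m, hcm⟩) ?_
  have e : (⟨NN N' (c.1 ^ m), hmem ⟨c.1 ^ m, hcm⟩⟩ : Inv C (⊤ : Subgroup G)) =
      c ^ orderOf τ := by
    refine Subtype.ext ?_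
    change NN N' (c.1 ^ m) = c.1 ^ orderOf τ
    have : NN N' c.1 = c.1 ^ Nat.card N' := by
      change ∏ s : N', s.1 • c.1 = _
      rw [Finset.prod_congr rfl fun s _ => c.2 s.1 trivial, Finset.prod_const, Finset.card_univ,
        Nat.card_eq_fintype_card]
    rw [map_pow, this, ← pow_mul, hm]
  rw [hφ, e, map_pow, ← hQ, pow_card_eq_one']

end Coh3Aux

open Coh3Aux in
theorem exists_fund_abs (ax : PrimeAx G C) (N' : Subgroup G) [Fintype N'] (τ : G)
    (hcomm : ∀ s ∈ N', s * τ = τ * s) (hinf : Subgroup.zpowers τ ⊓ N' = ⊥)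
    (hsup : ∀ g : G, ∃ i : ℕ, ∃ s ∈ N', g = τ ^ i * s) (hn : Nat.card N' ∣ orderOf τ)
    {Q : Type} [CommGroup Q] (hQ : Nat.card Q = orderOf τ) (lam : Inv C (⊤ : Subgroup G) →* Q)
    (hlam : ∀ (c : Inv C (⊤ : Subgroup G)) (z : C), z ∈ Inv C N' →
      c.1 = Nm (act C τ) (orderOf τ) z → lam c = 1)
    {y : C} (hy : τ • y = y) (c : Inv C (⊤ : Subgroup G)) (hc : c.1 = ∏ s : N', s.1 • y)
    (hgen : ∀ q, q ∈ Subgroup.zpowers (lam c)) :
    ∃ u : G → G → C, Coc2 N' u ∧ (∀ s ∈ N', ∀ t ∈ N', τ • u s t = u s t) ∧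
      ∀ (j : ℕ) (z : G → C), (∀ s ∈ N', τ • z s = z s) →
        (∀ s ∈ N', ∀ t ∈ N', u s t ^ j = s • z t * z s * (z (s * t))⁻¹) → Nat.card N' ∣ j := by
  obtain ⟨m, hm⟩ := hn
  have hpos := orderOf_pos τ
  have hm0 : 0 < m := Nat.pos_of_ne_zero fun h => by
    rw [h, mul_zero] at hm
    exact hpos.ne' hm
  obtain ⟨z₀, hz₀⟩ := exists_norm ax N' τ hcomm hsup hm hQ lam hlam hy c hc hgen
  obtain ⟨f, pr, p1, p2, p3, p4, p5⟩ := exists_split hcomm hinf hsup
  have hcs : ∀ (g : G) (a : ℕ), g • c.1 ^ a = c.1 ^ a := fun g a => (pow_mem c.2 a) g trivial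
  have hτ : ∀ g : G, Commute τ g := fun g => by
    rw [p2 g]
    exact ((Commute.refl τ).pow_right _).mul_right (hcomm _ (p1 g)).symm
  have fN : ∀ s ∈ N', f s = 0 := fun s hs => by
    have := (uniq hinf (p1 s) hs (i := f s) (j := 0) (by rw [← p2 s, pow_zero, one_mul])).1
    exact Nat.ModEq.eq_of_lt_of_lt this (p3 s) hpos
  have prN : ∀ s ∈ N', pr s = s := fun s hs =>
    (uniq hinf (p1 s) hs (i := f s) (j := 0) (by rw [← p2 s, pow_zero, one_mul])).2
  have prT : ∀ t ∈ Subgroup.zpowers τ, t = τ ^ f t := fun t ht => by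
    obtain ⟨i, rfl⟩ := (mem_powers_iff_mem_zpowers.2 ht : t ∈ Submonoid.powers τ)
    have := (uniq hinf (p1 (τ ^ i)) (one_mem _) (i := f (τ ^ i)) (j := i)
      (by rw [← p2 (τ ^ i), mul_one])).1
    exact (pow_eq_pow_iff_modEq.2 this).symm
  have fτ : f τ ≡ 1 [MOD orderOf τ] :=
    pow_eq_pow_iff_modEq.1 ((prT τ (Subgroup.mem_zpowers τ)).symm.trans (pow_one τ).symm)
  have fmul : ∀ g, ∀ s ∈ N', f (g * s) = f g := fun g s hs => by
    rw [p4, fN s hs, add_zero, Nat.mod_eq_of_lt (p3 g)]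
  let k : G → G → ℕ := fun g h => (f g + f h) / orderOf τ
  have hk : ∀ g h, orderOf τ * k g h + f (g * h) = f g + f h := fun g h => by
    rw [p4]
    exact Nat.div_add_mod _ _
  let W : G → G → C := fun g h => c.1 ^ (m * k g h)
  have hW : Coc2 ⊤ W := by
    intro s _ t _ r _
    have e : k t r + k s (t * r) = k (s * t) r + k s t := by
      refine Nat.eq_of_mul_eq_mul_left hpos ?_
      have e1 := hk t r
      have e2 := hk s (t * r)
      have e3 := hk (s * t) r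
      have e4 := hk s t
      rw [mul_assoc] at e3
      rw [mul_add, mul_add]
      omega
    simp only [W]
    rw [hcs, ← pow_add, ← pow_add, ← mul_add, ← mul_add, e]
  have hWT : Cob2 (Subgroup.zpowers τ) W := by
    refine ⟨fun g => Nm (act C τ) (f g) z₀, fun s hs t _ => ?_⟩
    have e1 := Nm_add τ (f s) (f t) z₀
    rw [← prT s hs, ← hk s t, add_comm, Nm_add, Nm_mul, hz₀, ← pow_mul, hcs] at e1
    simp only [W]
    rw [eq_mul_inv_iff_mul_eq, mul_comm, e1, mul_comm]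
  obtain ⟨u, u1, u2, u3, u4⟩ := exists_infl (H := ⊤) (N := Subgroup.zpowers τ) le_top
    (fun s _ t ht => by
      rw [prT t ht, mul_assoc, ((hτ s).pow_left (f t)).eq, inv_mul_cancel_left]
      exact Subgroup.npow_mem_zpowers τ _)
    (ax.cob1 _) hW hWT
  refine ⟨u, fun s _ t _ r _ => u1 s trivial t trivial r trivial,
    fun s _ t _ => u3 s trivial t trivial τ (Subgroup.mem_zpowers τ), fun j z hz1 hz2 => ?_⟩
  have p2' : ∀ g, g = pr g * τ ^ f g := fun g =>
    (p2 g).trans ((hτ (pr g)).pow_left (f g)).eq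
  have hu : Cob2 ⊤ (u ^ j) := by
    refine ⟨fun g => z (pr g), fun s _ t _ => ?_⟩
    have e1 : u s t = u (pr s) (pr t) := by
      conv_lhs => rw [p2' s, p2' t]
      exact u4 _ trivial _ trivial _ (Subgroup.npow_mem_zpowers τ _) _
        (Subgroup.npow_mem_zpowers τ _)
    have e2 : s • z (pr t) = pr s • z (pr t) := by
      conv_lhs => rw [p2' s]
      rw [mul_smul, pow_smul_eq (hz1 _ (p1 t))]
    change u s t ^ j = s • z (pr t) * z (pr s) * (z (pr (s * t)))⁻¹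
    rw [e1, e2, p5, hz2 _ (p1 s) _ (p1 t)]
  have hWj : Cob2 ⊤ (W ^ j) := by
    have := (u2.pow j).mul hu
    rwa [div_pow, div_mul_cancel] at this
  have hWv : ∀ g h, (W ^ j) g h = c.1 ^ (m * j * k g h) := fun g h => by
    change (c.1 ^ (m * k g h)) ^ j = _
    rw [← pow_mul, mul_right_comm]
  obtain ⟨z', z1, -, z3⟩ := cob2_infl (H := ⊤) (N := N') (v := W ^ j) le_top
    (fun s _ t ht => by
      have : s⁻¹ * t * s = pr (s⁻¹ * t * s) := by
        have e : f (s⁻¹ * t * s) = 0 := by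
          rw [p4, fmul _ t ht, ← p4, inv_mul_cancel, fN 1 (one_mem _)]
        conv_lhs => rw [p2 (s⁻¹ * t * s), e, pow_zero, one_mul]
      rw [this]
      exact p1 _)
    (ax.cob1 _) (fun s _ t _ g _ => by rw [hWv, hcs])
    (fun s _ t _ a ha b hb => by
      rw [hWv, hWv]
      simp only [k]
      rw [fmul s a ha, fmul t b hb]) hWj
  have s1 : ∀ M : ℕ, orderOf τ * (∑ i ∈ Finset.range M, k (τ ^ i) τ) + f (τ ^ M) = M * f τ := by
    intro M
    induction M with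
    | zero => simp [fN 1 (one_mem _)]
    | succ M ih =>
      have := hk (τ ^ M) τ
      rw [Finset.sum_range_succ, mul_add, pow_succ, add_mul, one_mul]
      omega
  have s2 : ∑ i ∈ Finset.range (orderOf τ), k (τ ^ i) τ = f τ := by
    have := s1 (orderOf τ)
    rw [pow_orderOf_eq_one, fN 1 (one_mem _), add_zero] at this
    exact Nat.eq_of_mul_eq_mul_left hpos this
  have s3 : ∀ M : ℕ, c.1 ^ (m * j * ∑ i ∈ Finset.range M, k (τ ^ i) τ) * z' (τ ^ M) =
      Nm (act C τ) M (z' τ) * z' 1 := by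
    intro M
    induction M with
    | zero => simp [Nm_apply]
    | succ M ih =>
      have e := z3 (τ ^ M) trivial τ trivial
      rw [hWv, eq_mul_inv_iff_mul_eq] at e
      rw [Finset.sum_range_succ, mul_add, pow_add, pow_succ, mul_assoc, e, Nm_act,
        Finset.prod_range_succ, ← Nm_act, mul_left_comm, ih]
      simp only [mul_assoc, mul_left_comm]
  have s4 := s3 (orderOf τ)
  rw [s2, pow_orderOf_eq_one] at s4
  have s5 := hlam (c ^ (m * j * f τ)) (z' τ) (z1 τ trivial) (mul_right_cancel s4)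
  rw [map_pow, ← orderOf_dvd_iff_pow_eq_one, orderOf_eq_card_of_forall_mem_zpowers hgen, hQ] at s5
  have s6 : m * j * f τ ≡ m * j * 1 [MOD orderOf τ] := fτ.mul_left _
  rw [mul_one] at s6
  have s7 : orderOf τ ∣ m * j := (s6.dvd_iff dvd_rfl).1 s5
  rw [hm, mul_comm m] at s7
  exact Nat.dvd_of_mul_dvd_mul_right hm0 s7

end Pool.Agent.Lib.CFT
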