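import Pool.Agent.Lib.CFT.Coh2

/-! CFT-Coh4: the splitting module. -/

namespace Pool.Agent.Lib.CFT

variable {G C : Type} [Group G] [Fintype G] [CommGroup C] [MulDistribMulAction G C]

namespace Coh4Aux

omit [Fintype G] in
theorem exists_rep (P : Subgroup G) : ∃ r : G → G, (∀ t, r t * t⁻¹ ∈ P) ∧
    ∀ s ∈ P, ∀ t, r (s⁻¹ * t) = r t := by
  refine ⟨fun t => (Quotient.mk (QuotientGroup.rightRel P) t).out, fun t => ?_, fun s hs t => ?_⟩
  · exact QuotientGroup.rightRel_apply.1
      (Quotient.exact (Quotient.out_eq (Quotient.mk (QuotientGroup.rightRel P) t)).symm)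
  · refine congrArg Quotient.out (Quotient.sound (QuotientGroup.rightRel_apply.2 ?_))
    simpa using hs

omit [Fintype G] in
theorem h1Z (P : Subgroup G) (c : G → G → ℤ)
    (hc : ∀ s ∈ P, ∀ s' ∈ P, ∀ t, c (s * s') t = c s t + c s' (s⁻¹ * t)) :
    ∃ g : G → ℤ, ∀ s ∈ P, ∀ t, c s t = g (s⁻¹ * t) - g t := by
  obtain ⟨r, h1, h2⟩ := exists_rep P
  refine ⟨fun t => c (r t * t⁻¹) (r t), fun s hs t => ?_⟩
  have h3 := hc _ (h1 t) s hs (r t)
  have e1 : (r t * t⁻¹)⁻¹ * r t = t := by group
  have e2 : r t * (s⁻¹ * t)⁻¹ = r t * t⁻¹ * s := by group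
  rw [e1] at h3
  dsimp only
  rw [h2 s hs, e2, h3]
  ring

omit [Fintype G] in
theorem h2Z (P : Subgroup G) (w : G → G → G → ℤ)
    (hw : ∀ s ∈ P, ∀ s' ∈ P, ∀ s'' ∈ P, ∀ t,
      w s' s'' (s⁻¹ * t) + w s (s' * s'') t = w (s * s') s'' t + w s s' t) :
    ∃ z : G → G → ℤ, ∀ s ∈ P, ∀ s' ∈ P, ∀ t,
      w s s' t = z s' (s⁻¹ * t) + z s t - z (s * s') t := by
  obtain ⟨r, h1, h2⟩ := exists_rep P
  refine ⟨fun s t => w (r t * t⁻¹) s (r t), fun s hs s' hs' t => ?_⟩
  have h3 := hw _ (h1 t) s hs s' hs' (r t)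
  have e1 : (r t * t⁻¹)⁻¹ * r t = t := by group
  have e2 : r t * (s⁻¹ * t)⁻¹ = r t * t⁻¹ * s := by group
  rw [e1] at h3
  dsimp only
  rw [h2 s hs, e2]
  linarith

theorem sum_shift {M : Type} [AddCommMonoid M] (s : G) (f : G → M) :
    ∑ t, f (s * t) = ∑ t, f t := Equiv.sum_comp (Equiv.mulLeft s) f

theorem hom_zero (P : Subgroup G) (m : G → ℤ)
    (hm : ∀ s ∈ P, ∀ s' ∈ P, m (s * s') = m s + m s') {s : G} (hs : s ∈ P) : m s = 0 := by
  have h1 : m 1 = 0 := by
    have h := hm 1 P.one_mem 1 P.one_mem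
    rw [one_mul] at h
    linarith
  have h2 : ∀ k : ℕ, m (s ^ k) = k * m s := by
    intro k
    induction k with
    | zero => simp [h1]
    | succ k ih =>
      rw [pow_succ, hm _ (P.pow_mem hs k) s hs, ih]
      push_cast
      ring
  have h3 := h2 (orderOf s)
  rw [pow_orderOf_eq_one, h1] at h3
  exact (mul_eq_zero.1 h3.symm).resolve_left (by exact_mod_cast (orderOf_pos s).ne')

open Classical in
/-- The indicator function of a point. -/
noncomputable def dl (s : G) : G → ℤ := fun t => if t = s then 1 else 0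

theorem sum_dl (s : G) : ∑ t, dl s t = 1 := by
  classical
  unfold dl
  simp

omit [Fintype G] in
theorem dl_shift (s a t : G) : dl a (s⁻¹ * t) = dl (s * a) t := by
  classical
  exact if_congr inv_mul_eq_iff_eq_mul rfl rfl

theorem sum_dl_smul {M : Type} [AddCommGroup M] (s : G) (f : G → M) :
    ∑ t, dl s t • f t = f s := by
  classical
  unfold dl
  simp

section Abs

variable {B : Type} [AddCommGroup B] [DistribMulAction G B] {ι : Additive C →+ B}
  {π : B →+ G → ℤ} {u : G → G → C} {b : G → B}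

omit [Fintype G] [Group G] [MulDistribMulAction G C] [DistribMulAction G B] in
theorem exists_pre (hr : ι.range = π.ker) (x : B) : ∃ a : C, π x = 0 → ι (Additive.ofMul a) = x := by
  by_cases h : π x = 0
  · have h1 : x ∈ ι.range := hr ▸ h
    obtain ⟨a, ha⟩ := h1
    exact ⟨a.toMul, fun _ => ha⟩
  · exact ⟨1, fun h' => absurd h' h⟩

theorem h1z (ax : PrimeAx G C) (hi : Function.Injective ι)
    (he : ∀ (s : G) (x : C), ι (Additive.ofMul (s • x)) = s • ι (Additive.ofMul x))
    (hr : ι.range = π.ker) (hπ : ∀ f : G → ℤ, f ∈ π.range ↔ ∑ s, f s = 0)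
    (hs : ∀ (s : G) (x : B) (t : G), π (s • x) t = π x (s⁻¹ * t))
    (hb : ∀ s t, π (b s) t = dl s t - dl 1 t)
    (hδ : ∀ s t, s • b t + b s - b (s * t) = ι (Additive.ofMul (u s t)))
    {P : Subgroup G} (hu : Fund P u) : H1z B P := by
  classical
  intro c hc
  obtain ⟨g, hg⟩ := h1Z P (fun s => π (c s)) fun s hs' s' hs'' t => by
    rw [hc s hs' s' hs'', map_add, Pi.add_apply, hs]
  have hn : 0 < Nat.card P := Nat.card_pos
  have hn' : (0 : ℤ) < Nat.card P := by exact_mod_cast hn
  have hP : ∑ t : G, (if t ∈ P then (1 : ℤ) else 0) = Nat.card P := by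
    rw [Finset.sum_boole, Nat.card_eq_fintype_card, Fintype.card_subtype]
  obtain ⟨j, hj⟩ := Int.eq_ofNat_of_zero_le (Int.emod_nonneg (∑ t, g t) hn'.ne')
  have hj' : j < Nat.card P := by
    have h := Int.emod_lt_of_pos (∑ t, g t) hn'
    rw [hj] at h
    exact_mod_cast h
  obtain ⟨β, hβ⟩ := (hπ fun t => g t - (∑ t, g t) / Nat.card P * (if t ∈ P then 1 else 0) -
      j * dl 1 t).2 (by
    rw [Finset.sum_sub_distrib, Finset.sum_sub_distrib, ← Finset.mul_sum, ← Finset.mul_sum, hP,
      sum_dl, mul_one, ← hj, Int.emod_def, mul_comm, sub_self])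
  choose a ha using fun s => exists_pre hr (c s - (s • β - β) - j • b s)
  have ha' : ∀ s ∈ P, ι (Additive.ofMul (a s)) = c s - (s • β - β) - j • b s := by
    intro s hs'
    refine ha s (funext fun t => ?_)
    have h1 : (s⁻¹ * t ∈ P) ↔ t ∈ P := P.mul_mem_cancel_left (P.inv_mem hs')
    have h2 : π (j • b s) t = j * (dl s t - dl 1 t) := by
      rw [map_nsmul, Pi.smul_apply, hb, nsmul_eq_mul]
    simp only [map_sub, Pi.sub_apply, hs, h2, hβ, hg s hs' t, h1, dl_shift, mul_one,
      Pi.zero_apply]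
    ring
  have key : ∀ s ∈ P, ∀ t ∈ P, s • a t * a s * (a (s * t))⁻¹ * u s t ^ j = 1 := by
    intro s hs' t ht
    refine Additive.ofMul.injective (hi ?_)
    rw [ofMul_mul, ofMul_mul, ofMul_mul, ofMul_inv, ofMul_pow, map_add, map_add, map_add, map_neg,
      map_nsmul, he, ha' s hs', ha' t ht, ha' _ (P.mul_mem hs' ht), ← hδ, hc s hs' t ht, ofMul_one,
      map_zero, mul_smul]
    simp only [smul_sub, smul_add, smul_comm s j]
    abel
  have hj0 : j = 0 := by
    refine Nat.eq_zero_of_dvd_of_lt (hu.2 j ⟨fun s => (a s)⁻¹, fun s hs' t ht => ?_⟩) hj'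
    have h1 := eq_inv_of_mul_eq_one_right (key s hs' t ht)
    rw [Pi.pow_apply, Pi.pow_apply, h1, smul_inv', mul_inv, mul_inv]
  obtain ⟨z, hz⟩ := ax.cob1 P a fun s hs' t ht => by
    have h1 := key s hs' t ht
    rw [hj0, pow_zero, mul_one, mul_inv_eq_one] at h1
    rw [← h1, mul_comm]
  refine ⟨β + ι (Additive.ofMul z), fun s hs' => ?_⟩
  have h1 := ha' s hs'
  rw [hz s hs', ofMul_mul, ofMul_inv, map_add, map_neg, he, hj0, zero_smul, sub_zero,
    eq_sub_iff_add_eq] at h1
  rw [← h1, smul_add]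
  abel

theorem h2z (ax : PrimeAx G C) (hi : Function.Injective ι)
    (he : ∀ (s : G) (x : C), ι (Additive.ofMul (s • x)) = s • ι (Additive.ofMul x))
    (hr : ι.range = π.ker) (hπ : ∀ f : G → ℤ, f ∈ π.range ↔ ∑ s, f s = 0)
    (hs : ∀ (s : G) (x : B) (t : G), π (s • x) t = π x (s⁻¹ * t))
    (hδ : ∀ s t, s • b t + b s - b (s * t) = ι (Additive.ofMul (u s t)))
    {p : ℕ} (hp : p.Prime) {P : Subgroup G} (hP : IsPGroup p P) (hu : Fund P u) : H2z B P := by
  intro w hw
  obtain ⟨z, hz⟩ := h2Z P (fun s s' => π (w s s')) fun s h s' h' s'' h'' t => by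
    have h1 := congrFun (congrArg π (hw s h s' h' s'' h'')) t
    rwa [map_add, map_add, Pi.add_apply, Pi.add_apply, hs] at h1
  have h0 : ∀ s ∈ P, ∑ t, z s t = 0 := by
    intro s h
    refine hom_zero P (fun s => ∑ t, z s t) (fun s h s' h' => ?_) h
    have h1 := (hπ (π (w s s'))).1 ⟨_, rfl⟩
    rw [Finset.sum_congr rfl fun t _ => hz s h s' h' t, Finset.sum_sub_distrib,
      Finset.sum_add_distrib, sum_shift s⁻¹ (z s')] at h1
    linarith
  have h2 : ∀ s, ∃ β : B, s ∈ P → π β = z s := by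
    intro s
    by_cases h : s ∈ P
    · obtain ⟨β, hβ⟩ := (hπ (z s)).2 (h0 s h)
      exact ⟨β, fun _ => hβ⟩
    · exact ⟨0, fun h' => absurd h' h⟩
  choose β hβ using h2
  choose v hv using fun s t => exists_pre hr (w s t - (s • β t + β s - β (s * t)))
  have hv' : ∀ s ∈ P, ∀ t ∈ P,
      ι (Additive.ofMul (v s t)) = w s t - (s • β t + β s - β (s * t)) := by
    intro s h t h'
    refine hv s t (funext fun r => ?_)
    simp only [map_sub, map_add, Pi.sub_apply, Pi.add_apply, hs, hβ s h, hβ t h',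
      hβ _ (P.mul_mem h h'), hz s h t h' r, Pi.zero_apply, sub_self]
  have hc : Coc2 P v := by
    intro s h t h' r h''
    refine Additive.ofMul.injective (hi ?_)
    have h3 := hw s h t h' r h''
    rw [ofMul_mul, ofMul_mul, map_add, map_add, he, hv' t h' r h'', hv' s h _ (P.mul_mem h' h''),
      hv' _ (P.mul_mem h h') r h'', hv' s h t h', mul_smul, mul_assoc]
    simp only [smul_sub, smul_add]
    linear_combination (norm := abel1) h3
  obtain ⟨j, y, hy⟩ := ax.gen hp hP hu hc
  refine ⟨fun s => β s + j • b s + ι (Additive.ofMul (y s)), fun s h t h' => ?_⟩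
  have h3 := congrArg (fun x => ι (Additive.ofMul x)) (hy s h t h')
  simp only [Pi.div_apply, Pi.pow_apply, ofMul_div, ofMul_pow, ofMul_mul, ofMul_inv, map_sub,
    map_add, map_neg, map_nsmul, he, hv' s h t h', ← hδ, smul_sub, smul_add] at h3
  simp only [smul_add, smul_comm s j]
  linear_combination (norm := abel1) h3

end Abs

variable (G) in
/-- The augmentation ideal. -/
def II : AddSubgroup (G → ℤ) where
  carrier := {f | ∑ s, f s = 0}
  zero_mem' := by simp
  add_mem' := fun {f g} hf hg => by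
    change ∑ s, (f s + g s) = 0
    rw [Finset.sum_add_distrib, hf, hg, add_zero]
  neg_mem' := fun {f} hf => by
    change ∑ s, -f s = 0
    rw [Finset.sum_neg_distrib, hf, neg_zero]

/-- The splitting module. -/
def SB (_u : G → G → C) : Type := Additive C × II G

instance (u : G → G → C) : AddCommGroup (SB u) :=
  inferInstanceAs (AddCommGroup (Additive C × II G))

/-- The action on the additive group. -/
def sg (s : G) : Additive C →+ Additive C := MonoidHom.toAdditive (act C s)

/-- The twisted action of one element. -/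
def sm (u : G → G → C) (s : G) (x : Additive C × II G) : Additive C × II G :=
  (sg s x.1 + ∑ t, x.2.1 t • Additive.ofMul (u s t),
    ⟨fun t => x.2.1 (s⁻¹ * t), (sum_shift s⁻¹ x.2.1).trans x.2.2⟩)

omit [Fintype G] in
theorem coc {u : G → G → C} (hu : Coc2 ⊤ u) (s t r : G) :
    sg s (Additive.ofMul (u t r)) + Additive.ofMul (u s (t * r)) =
      Additive.ofMul (u (s * t) r) + Additive.ofMul (u s t) :=
  congrArg Additive.ofMul (hu s trivial t trivial r trivial)

omit [Fintype G] in
theorem sg_one (x : Additive C) : sg (1 : G) x = x := congrArg Additive.ofMul (one_smul G x.toMul)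

omit [Fintype G] in
theorem sg_mul (s t : G) (x : Additive C) : sg (s * t) x = sg s (sg t x) :=
  congrArg Additive.ofMul (mul_smul s t x.toMul)

omit [Group G] [MulDistribMulAction G C] in
theorem sum_const (f : II G) (a : Additive C) : ∑ t, f.1 t • a = 0 := by
  have h : ∑ t, f.1 t = 0 := f.2
  rw [← Finset.sum_smul, h, zero_smul]

/-- The twisted action. -/
@[reducible] def inst {u : G → G → C} (hu : Coc2 ⊤ u) : DistribMulAction G (SB u) where
  smul := sm u
  one_smul x := by
    change sm u 1 x = x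
    refine Prod.ext ?_ (Subtype.ext (funext fun t => ?_))
    · have h1 : ∀ t, Additive.ofMul (u 1 t) = Additive.ofMul (u 1 1) := fun t => by
        have h := coc hu 1 1 t
        rw [sg_one, one_mul, one_mul] at h
        exact add_left_cancel h
      change sg 1 x.1 + ∑ t, x.2.1 t • Additive.ofMul (u 1 t) = x.1
      simp only [h1]
      rw [sum_const, sg_one, add_zero]
    · change x.2.1 (1⁻¹ * t) = x.2.1 t
      rw [inv_one, one_mul]
  mul_smul s r x := by
    change sm u (s * r) x = sm u s (sm u r x)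
    refine Prod.ext ?_ (Subtype.ext (funext fun t => ?_))
    · change sg (s * r) x.1 + ∑ t, x.2.1 t • Additive.ofMul (u (s * r) t) =
        sg s (sg r x.1 + ∑ t, x.2.1 t • Additive.ofMul (u r t)) +
          ∑ t, x.2.1 (r⁻¹ * t) • Additive.ofMul (u s t)
      rw [← sum_shift r fun t => x.2.1 (r⁻¹ * t) • Additive.ofMul (u s t), map_add, map_sum,
        sg_mul, add_assoc, ← Finset.sum_add_distrib]
      simp only [inv_mul_cancel_left, map_zsmul, ← smul_add, coc hu]
      simp only [smul_add, Finset.sum_add_distrib]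
      rw [sum_const, add_zero]
    · change x.2.1 ((s * r)⁻¹ * t) = x.2.1 (r⁻¹ * (s⁻¹ * t))
      rw [mul_inv_rev, mul_assoc]
  smul_zero s := by
    change sm u s 0 = 0
    refine Prod.ext ?_ rfl
    change sg s 0 + ∑ t, (0 : ℤ) • Additive.ofMul (u s t) = 0
    simp
  smul_add s x y := by
    change sm u s (x + y) = sm u s x + sm u s y
    refine Prod.ext ?_ rfl
    change sg s (x.1 + y.1) + ∑ t, (x.2.1 t + y.2.1 t) • Additive.ofMul (u s t) =
      (sg s x.1 + ∑ t, x.2.1 t • Additive.ofMul (u s t)) +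
        (sg s y.1 + ∑ t, y.2.1 t • Additive.ofMul (u s t))
    simp only [map_add, add_smul, Finset.sum_add_distrib]
    abel

end Coh4Aux

open Coh4Aux in
theorem exists_splitting (ax : PrimeAx G C) {u : G → G → C} (hu : Fund ⊤ u) :
    ∃ (B : Type) (_ : AddCommGroup B) (_ : DistribMulAction G B) (ι : Additive C →+ B)
      (π : B →+ G → ℤ), Function.Injective ι ∧
      (∀ (s : G) (x : C), ι (Additive.ofMul (s • x)) = s • ι (Additive.ofMul x)) ∧
      ι.range = π.ker ∧ (∀ f : G → ℤ, f ∈ π.range ↔ ∑ s, f s = 0) ∧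
      (∀ (s : G) (b : B) (t : G), π (s • b) t = π b (s⁻¹ * t)) ∧
      ∀ p : ℕ, p.Prime → ∀ P : Subgroup G, IsPGroup p P → H1z B P ∧ H2z B P := by
  letI := inst hu.1
  let ι : Additive C →+ SB u := AddMonoidHom.inl (Additive C) (II G)
  let π : SB u →+ G → ℤ := (II G).subtype.comp (AddMonoidHom.snd (Additive C) (II G))
  let b : G → SB u := fun s => (Additive.ofMul (u 1 1), ⟨fun t => dl s t - dl 1 t, by
    change ∑ t, (dl s t - dl 1 t) = 0
    rw [Finset.sum_sub_distrib, sum_dl, sum_dl, sub_self]⟩)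
  have hi : Function.Injective ι := fun x y h => congrArg Prod.fst h
  have he : ∀ (s : G) (x : C), ι (Additive.ofMul (s • x)) = s • ι (Additive.ofMul x) := by
    intro s x
    refine Prod.ext ?_ rfl
    change Additive.ofMul (s • x) =
      Additive.ofMul (s • x) + ∑ t, (0 : ℤ) • Additive.ofMul (u s t)
    simp
  have hr : ι.range = π.ker := by
    ext x
    constructor
    · rintro ⟨a, rfl⟩
      rfl
    · intro h
      exact ⟨x.1, Prod.ext rfl (Subtype.ext (Eq.symm h))⟩
  have hπ : ∀ f : G → ℤ, f ∈ π.range ↔ ∑ s, f s = 0 := fun f =>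
    ⟨fun ⟨x, hx⟩ => hx ▸ x.2.2, fun h => ⟨(0, ⟨f, h⟩), rfl⟩⟩
  have hs : ∀ (s : G) (x : SB u) (t : G), π (s • x) t = π x (s⁻¹ * t) := fun _ _ _ => rfl
  have hδ : ∀ s t, s • b t + b s - b (s * t) = ι (Additive.ofMul (u s t)) := by
    intro s t
    refine Prod.ext ?_ (Subtype.ext (funext fun r => ?_))
    · change sg s (Additive.ofMul (u 1 1)) + ∑ r, (dl t r - dl 1 r) • Additive.ofMul (u s r) +
        Additive.ofMul (u 1 1) - Additive.ofMul (u 1 1) = Additive.ofMul (u s t)
      have h := coc hu.1 s 1 1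
      rw [mul_one, mul_one] at h
      simp only [sub_smul, Finset.sum_sub_distrib, sum_dl_smul]
      rw [add_right_cancel h]
      abel
    · change dl t (s⁻¹ * r) - dl 1 (s⁻¹ * r) + (dl s r - dl 1 r) - (dl (s * t) r - dl 1 r) = 0
      rw [dl_shift, dl_shift, mul_one]
      ring
  exact ⟨SB u, inferInstance, inferInstance, ι, π, hi, he, hr, hπ, hs, fun p hp P hP =>
    ⟨h1z ax hi he hr hπ hs (fun _ _ => rfl) hδ (hu.mono le_top),
      h2z ax hi he hr hπ hs hδ hp hP (hu.mono le_top)⟩⟩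

end Pool.Agent.Lib.CFT
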