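import Pool.Agent.Lib.CFT.HDefs

/-! CFT-Coh5: cohomological triviality. -/

namespace Pool.Agent.Lib.CFT

namespace Coh5Aux

variable {Γ B X : Type} [Group Γ] [AddCommGroup B] [DistribMulAction Γ B]
  [AddCommGroup X] [DistribMulAction Γ X]

theorem smul_zsmul' {Y : Type} [AddCommGroup Y] [DistribMulAction Γ Y] (s : Γ) (n : ℤ) (y : Y) :
    s • (n • y) = n • (s • y) := map_zsmul (DistribSMul.toAddMonoidHom Y s) n y

theorem transfer [Finite Γ] (H : Subgroup Γ) (z : Γ → X →+ B)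
    (hz : ∀ s t x, z (s * t) x = z s x + s • z t (s⁻¹ • x)) (θ : X →+ B)
    (h : ∀ s ∈ H, ∀ x, z s x = s • θ (s⁻¹ • x) - θ x) :
    ∃ θ' : X →+ B, ∀ s x, H.index • z s x = s • θ' (s⁻¹ • x) - θ' x := by
  have := Fintype.ofFinite (Γ ⧸ H)
  let w : Γ → X → B := fun s x => z s x - (s • θ (s⁻¹ • x) - θ x)
  have hw : ∀ s t x, w (s * t) x = w s x + s • w t (s⁻¹ • x) := by
    intro s t x
    simp only [w, hz, mul_inv_rev, mul_smul, smul_sub]
    abel
  have hw' : ∀ s, ∀ t ∈ H, ∀ x, w (s * t) x = w s x := by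
    intro s t ht x
    rw [hw]
    simp only [w, h t ht, sub_self, smul_zero, add_zero]
  have hq : ∀ (s : Γ) (q : Γ ⧸ H) x, w (s * q.out) x = w (s • q).out x := by
    intro s q x
    have h1 : (s * q.out)⁻¹ * (s • q).out ∈ H := by
      rw [← QuotientGroup.eq, QuotientGroup.out_eq', ← smul_eq_mul, MulAction.Quotient.mk_smul_out]
    rw [← hw' _ _ h1, mul_inv_cancel_left]
  let W : X →+ B := AddMonoidHom.mk' (fun x => ∑ q : Γ ⧸ H, w q.out x) fun x y => by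
    rw [← Finset.sum_add_distrib]
    refine Finset.sum_congr rfl fun q _ => ?_
    simp only [w, map_add, smul_add]
    abel
  have hW : ∀ s x, W x = H.index • w s x + s • W (s⁻¹ • x) := by
    intro s x
    change ∑ q : Γ ⧸ H, w q.out x = _ + s • ∑ q : Γ ⧸ H, w q.out (s⁻¹ • x)
    rw [← Equiv.sum_comp (MulAction.toPerm s)]
    simp only [MulAction.toPerm_apply, ← hq, hw]
    rw [Finset.sum_add_distrib, Finset.sum_const, Finset.smul_sum, Subgroup.index,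
      Nat.card_eq_fintype_card, Finset.card_univ]
  refine ⟨H.index • θ - W, fun s x => ?_⟩
  rw [AddMonoidHom.sub_apply, AddMonoidHom.sub_apply, AddMonoidHom.nsmul_apply,
    AddMonoidHom.nsmul_apply, hW s x, smul_sub, smul_comm s H.index]
  simp only [w, smul_sub]
  abel

/-- Additivity on a submodule. -/
def AddOn (S : Submodule ℤ X) (f : X → B) : Prop := ∀ x ∈ S, ∀ y ∈ S, f (x + y) = f x + f y

/-- The homomorphism attached to a function additive on a submodule. -/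
def AddOn.hom {S : Submodule ℤ X} {f : X → B} (h : AddOn S f) : S →+ B :=
  AddMonoidHom.mk' (fun x => f x) fun x y => h x x.2 y y.2

theorem AddOn.zsmul {S : Submodule ℤ X} {f : X → B} (h : AddOn S f) (n : ℤ) {x : X} (hx : x ∈ S) :
    f (n • x) = n • f x := map_zsmul h.hom n ⟨x, hx⟩

theorem AddOn.sub {S : Submodule ℤ X} {f : X → B} (h : AddOn S f) {x y : X} (hx : x ∈ S)
    (hy : y ∈ S) : f (x - y) = f x - f y := map_sub h.hom ⟨x, hx⟩ ⟨y, hy⟩

theorem exists_ext {S : Submodule ℤ X} {x₀ : X} {p : ℤ} (hp : p • x₀ ∈ S)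
    (hp' : ∀ n : ℤ, n • x₀ ∈ S → p ∣ n) {f : X → B} (hf : AddOn S f) (y : B)
    (hy : f (p • x₀) = p • y) :
    ∃ g : X → B, ∀ x ∈ S, ∀ n : ℤ, g (x + n • x₀) = f x + n • y := by
  classical
  refine ⟨fun x => if h : ∃ n : ℤ, x - n • x₀ ∈ S then f (x - h.choose • x₀) + h.choose • y else 0,
    fun x hx n => ?_⟩
  have h : ∃ m : ℤ, x + n • x₀ - m • x₀ ∈ S := ⟨n, by simpa using hx⟩
  beta_reduce
  rw [dif_pos h]
  have h1 := h.choose_spec
  generalize h.choose = m at h1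
  have h2 : (n - m) • x₀ ∈ S := by
    have := sub_mem h1 hx
    rwa [show x + n • x₀ - m • x₀ - x = (n - m) • x₀ by rw [sub_smul]; abel] at this
  obtain ⟨k, hk⟩ := hp' _ h2
  have h3 : x + n • x₀ - m • x₀ = x + k • p • x₀ := by
    rw [smul_smul, mul_comm, ← hk, sub_smul]; abel
  rw [h3, hf x hx _ (S.smul_mem k hp), hf.zsmul k hp, hy, smul_smul, mul_comm, ← hk, sub_smul]
  abel

theorem exists_lam [Module.Free ℤ X] [Module.Finite ℤ X] {S : Submodule ℤ X} {x₀ : X} {p : ℕ}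
    (hpp : p.Prime) (hp : (p : ℤ) • x₀ ∈ S) (hx : x₀ ∉ S) :
    ∃ (l : X → ℤ) (m : ℤ), AddOn S l ∧ l ((p : ℤ) • x₀) = 1 + p * m := by
  classical
  let b := Module.Free.chooseBasis ℤ S
  obtain ⟨i, hi⟩ : ∃ i, ¬ (p : ℤ) ∣ b.repr ⟨_, hp⟩ i := by
    by_contra h
    push Not at h
    choose c hc using h
    apply hx
    have h1 : (⟨_, hp⟩ : S) = (p : ℤ) • ∑ i, c i • b i := by
      rw [← b.sum_repr ⟨_, hp⟩, Finset.smul_sum]
      exact Finset.sum_congr rfl fun i _ => by rw [hc, mul_smul]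
    have h2 : (p : ℤ) • x₀ = (p : ℤ) • ((∑ i, c i • b i : S) : X) := congrArg Subtype.val h1
    rw [smul_right_injective X (Int.natCast_ne_zero.2 hpp.ne_zero) h2]
    exact Subtype.prop _
  obtain ⟨u, v, huv⟩ := (Nat.prime_iff_prime_int.1 hpp).irreducible.coprime_iff_not_dvd.2 hi
  refine ⟨fun x => if h : x ∈ S then v * b.repr ⟨x, h⟩ i else 0, -u, fun x hx y hy => ?_, ?_⟩
  · beta_reduce
    rw [dif_pos hx, dif_pos hy, dif_pos (add_mem hx hy), ← mul_add, ← Finsupp.add_apply, ← map_add]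
    rfl
  · beta_reduce
    rw [dif_pos hp]
    linear_combination huv

/-- Cocycles with values in the homomorphisms defined on a submodule. -/
structure CocOn (S : Submodule ℤ X) (z : Γ → X → B) : Prop where
  add : ∀ s, AddOn S (z s)
  coc : ∀ s t, ∀ x ∈ S, z (s * t) x = z s x + s • z t (s⁻¹ • x)

theorem step [Module.Free ℤ X] [Module.Finite ℤ X]
    (h₁ : ∀ c : Γ → B, (∀ s t, c (s * t) = c s + s • c t) → ∃ z : B, ∀ s, c s = s • z - z)
    (h₂ : ∀ u : Γ → Γ → B, (∀ s t r, s • u t r + u s (t * r) = u (s * t) r + u s t) →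
      ∃ z : Γ → B, ∀ s t, u s t = s • z t + z s - z (s * t))
    {S : Submodule ℤ X} (hS : ∀ (s : Γ), ∀ x ∈ S, s • x ∈ S) {x₀ : X} {p : ℕ} (hpp : p.Prime)
    (hp : (p : ℤ) • x₀ ∈ S) (hx : x₀ ∉ S) (ha : ∀ s : Γ, s • x₀ - x₀ ∈ S)
    {z : Γ → X → B} (hz : CocOn S z) :
    ∃ (w : Γ → X → B) (θ : X → B), CocOn (S ⊔ Submodule.span ℤ {x₀}) w ∧ AddOn S θ ∧
      ∀ s, ∀ x ∈ S, z s x = w s x + (s • θ (s⁻¹ • x) - θ x) := by
  have hp' : ∀ n : ℤ, n • x₀ ∈ S → (p : ℤ) ∣ n := by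
    intro n hn
    by_contra h
    obtain ⟨u, v, huv⟩ := (Nat.prime_iff_prime_int.1 hpp).irreducible.coprime_iff_not_dvd.2 h
    apply hx
    rw [← one_smul ℤ x₀, ← huv, add_smul, mul_smul, mul_smul]
    exact add_mem (S.smul_mem _ hp) (S.smul_mem _ hn)
  obtain ⟨a, ha'⟩ : ∃ a : Γ → X, ∀ s, a s = s⁻¹ • x₀ - x₀ := ⟨_, fun _ => rfl⟩
  have haS : ∀ s, a s ∈ S := fun s => ha' s ▸ ha _
  have hmul : ∀ s t, a (s * t) = t⁻¹ • a s + a t := by
    intro s t
    simp only [ha', mul_inv_rev, mul_smul, smul_sub]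
    abel
  have hpx : ∀ s : Γ, s⁻¹ • (p : ℤ) • x₀ = (p : ℤ) • x₀ + (p : ℤ) • a s := by
    intro s
    rw [smul_zsmul', ha', smul_sub]
    abel
  obtain ⟨y, hy⟩ := h₂ (fun s t => -(s • z t (a s))) (fun s t r => by
    rw [hmul, hz.coc t r _ (haS s), hz.add r _ (hS _ _ (haS s)) _ (haS t)]
    simp only [smul_neg, smul_add, mul_smul]
    abel)
  have hy' : ∀ s t, y (s * t) = y s + s • y t + s • z t (a s) := by
    intro s t
    rw [← sub_eq_zero, ← neg_eq_zero, ← sub_eq_zero.2 (hy s t).symm]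
    abel
  obtain ⟨b, hb⟩ := h₁ (fun s => z s ((p : ℤ) • x₀) - (p : ℤ) • y s) (fun s t => by
    rw [hz.coc s t _ hp, hpx, hz.add t _ hp _ (S.smul_mem _ (haS s)), (hz.add t).zsmul _ (haS s),
      hy']
    simp only [smul_add, smul_sub, smul_zsmul']
    abel)
  obtain ⟨l, m, hl, hlm⟩ := exists_lam hpp hp hx
  have hf : ∀ s, AddOn S fun x => z s x - (l (s⁻¹ • x) • s • b - l x • b) := by
    intro s x hx x' hx'
    beta_reduce
    rw [hz.add s x hx x' hx', smul_add, hl _ (hS _ _ hx) _ (hS _ _ hx'), hl x hx x' hx', add_smul,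
      add_smul]
    abel
  choose g hg using fun s => exists_ext hp hp' (hf s) (y s - ((l (a s) + m) • s • b - m • b)) (by
    rw [hpx, hl _ hp _ (S.smul_mem _ (haS s)), hl.zsmul _ (haS s), hlm, eq_add_of_sub_eq (hb s),
      smul_eq_mul]
    generalize s • b = b'
    module)
  have hmem : ∀ x ∈ S ⊔ Submodule.span ℤ {x₀}, ∃ x' ∈ S, ∃ n : ℤ, x = x' + n • x₀ := by
    intro x hx
    obtain ⟨x', hx', x'', hx'', rfl⟩ := Submodule.mem_sup.1 hx
    obtain ⟨n, rfl⟩ := Submodule.mem_span_singleton.1 hx''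
    exact ⟨x', hx', n, rfl⟩
  refine ⟨g, fun x => l x • b, ⟨fun s x hx x' hx' => ?_, fun s t x hx => ?_⟩,
    fun x hx x' hx' => ?_, fun s x hx => ?_⟩
  · obtain ⟨x, h, n, rfl⟩ := hmem x hx
    obtain ⟨x', h', n', rfl⟩ := hmem x' hx'
    rw [show x + n • x₀ + (x' + n' • x₀) = (x + x') + (n + n') • x₀ by rw [add_smul]; abel,
      hg s _ (add_mem h h'), hg s _ h, hg s _ h']
    have := hf s x h x' h'
    beta_reduce at this
    rw [this, add_smul]
    abel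
  · obtain ⟨x, h, n, rfl⟩ := hmem x hx
    have h1 : s⁻¹ • (x + n • x₀) = (s⁻¹ • x + n • a s) + n • x₀ := by
      rw [smul_add, smul_zsmul', ha', smul_sub]; abel
    have h2 := hS s⁻¹ x h
    have h3 := S.smul_mem n (haS s)
    rw [h1, hg _ _ h, hg _ _ h, hg _ _ (add_mem h2 h3), hz.coc s t x h, hz.add t _ h2 _ h3,
      (hz.add t).zsmul n (haS s), hy', hmul, hl _ (hS _ _ (haS s)) _ (haS t), smul_add t⁻¹,
      hl _ (hS _ _ h2) _ (hS _ _ h3), hl _ h2 _ h3, smul_zsmul' t⁻¹, hl.zsmul n (haS s),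
      hl.zsmul n (hS _ _ (haS s)), mul_inv_rev, mul_smul, mul_smul]
    simp only [smul_add, smul_sub, smul_zsmul', smul_eq_mul]
    generalize s • t • b = b₁
    generalize s • b = b₂
    generalize s • y t = b₃
    generalize s • z t (a s) = b₄
    generalize s • z t (s⁻¹ • x) = b₅
    module
  · beta_reduce
    rw [hl x hx x' hx', add_smul]
  · have := hg s x hx 0
    rw [zero_smul, add_zero, zero_smul, add_zero] at this
    rw [this, smul_zsmul']
    abel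

theorem exists_fixed [Module.Finite ℤ X] [Finite Γ] {p : ℕ} (hpp : p.Prime) (hΓ : IsPGroup p Γ)
    {S : Submodule ℤ X} (hS : ∀ (s : Γ), ∀ x ∈ S, s • x ∈ S) (hp : ∀ x, (p : ℤ) • x ∈ S)
    (hne : S ≠ ⊤) : ∃ x₀, x₀ ∉ S ∧ ∀ s : Γ, s • x₀ - x₀ ∈ S := by
  have := Fact.mk hpp
  have hq : ∀ q : X ⧸ S, p • q = 0 := by
    intro q
    obtain ⟨x, rfl⟩ := S.mkQ_surjective q
    rw [← map_nsmul, Submodule.mkQ_apply, Submodule.Quotient.mk_eq_zero, ← natCast_zsmul]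
    exact hp x
  have : Finite (X ⧸ S) := Module.finite_of_fg_torsion _ fun q =>
    ⟨⟨(p : ℤ), mem_nonZeroDivisors_of_ne_zero (Int.natCast_ne_zero.2 hpp.ne_zero)⟩, by
      simpa [Submonoid.smul_def] using hq q⟩
  let φ : Γ → X ⧸ S →ₗ[ℤ] X ⧸ S := fun s =>
    S.mapQ S (DistribSMul.toAddMonoidHom X s).toIntLinearMap (hS s)
  have hφ : ∀ s x, φ s (S.mkQ x) = S.mkQ (s • x) := fun s x => rfl
  let _ : MulAction Γ (X ⧸ S) :=
    { smul := fun s q => φ s q
      one_smul := fun q => by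
        obtain ⟨x, rfl⟩ := S.mkQ_surjective q
        change φ 1 _ = _
        rw [hφ, one_smul]
      mul_smul := fun s t q => by
        obtain ⟨x, rfl⟩ := S.mkQ_surjective q
        change φ _ _ = φ _ (φ _ _)
        rw [hφ, hφ, hφ, mul_smul] }
  have hdvd : p ∣ Nat.card (X ⧸ S) := by
    obtain ⟨x, hx⟩ : ∃ x, x ∉ S := by
      by_contra h
      push Not at h
      exact hne (eq_top_iff.2 fun x _ => h x)
    rw [← addOrderOf_eq_prime (hq (S.mkQ x)) fun h => hx ((Submodule.Quotient.mk_eq_zero S).1 h)]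
    exact addOrderOf_dvd_natCard _
  obtain ⟨q, hq1, hq2⟩ := hΓ.exists_fixed_point_of_prime_dvd_card_of_fixed_point (X ⧸ S) hdvd
    (a := 0) (fun s => map_zero (φ s))
  obtain ⟨x, rfl⟩ := S.mkQ_surjective q
  exact ⟨x, fun h => hq2 ((Submodule.Quotient.mk_eq_zero S).2 h).symm,
    fun s => (Submodule.Quotient.eq S).1 (hq1 s)⟩

theorem extend [Module.Free ℤ X] [Module.Finite ℤ X] [Finite Γ] {p : ℕ} (hpp : p.Prime)
    (hΓ : IsPGroup p Γ)
    (h₁ : ∀ c : Γ → B, (∀ s t, c (s * t) = c s + s • c t) → ∃ z : B, ∀ s, c s = s • z - z)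
    (h₂ : ∀ u : Γ → Γ → B, (∀ s t r, s • u t r + u s (t * r) = u (s * t) r + u s t) →
      ∃ z : Γ → B, ∀ s t, u s t = s • z t + z s - z (s * t))
    (S : Submodule ℤ X) (hS : ∀ (s : Γ), ∀ x ∈ S, s • x ∈ S) (hp : ∀ x, (p : ℤ) • x ∈ S)
    (z : Γ → X → B) (hz : CocOn S z) :
    ∃ (w : Γ → X → B) (θ : X → B), CocOn ⊤ w ∧ AddOn S θ ∧
      ∀ s, ∀ x ∈ S, z s x = w s x + (s • θ (s⁻¹ • x) - θ x) := by
  induction S using WellFoundedGT.induction generalizing z with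
  | ind S ih =>
    rcases eq_or_ne S ⊤ with rfl | hne
    · exact ⟨z, 0, hz, fun _ _ _ _ => by simp, fun _ _ _ => by simp⟩
    obtain ⟨x₀, hx, ha⟩ := exists_fixed hpp hΓ hS hp hne
    obtain ⟨w, θ, hw, hθ, e⟩ := step h₁ h₂ hS hpp (hp x₀) hx ha hz
    have hle : S ≤ S ⊔ Submodule.span ℤ {x₀} := le_sup_left
    have hx₀ : x₀ ∈ S ⊔ Submodule.span ℤ {x₀} :=
      Submodule.mem_sup_right (Submodule.mem_span_singleton_self x₀)
    obtain ⟨w', θ', hw', hθ', e'⟩ := ih (S ⊔ Submodule.span ℤ {x₀})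
      (lt_of_le_of_ne hle fun h => hx (h ▸ hx₀)) (fun s x hx => by
        obtain ⟨x', hx', x'', hx'', rfl⟩ := Submodule.mem_sup.1 hx
        obtain ⟨n, rfl⟩ := Submodule.mem_span_singleton.1 hx''
        rw [smul_add, smul_zsmul', ← sub_add_cancel (s • x₀) x₀]
        exact add_mem (hle (hS s _ hx')) (Submodule.smul_mem _ _ (add_mem (hle (ha s)) hx₀)))
      (fun x => hle (hp x)) w hw
    refine ⟨w', fun x => θ x + θ' x, hw', fun x h x' h' => ?_, fun s x h => ?_⟩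
    · beta_reduce
      rw [hθ x h x' h', hθ' x (hle h) x' (hle h')]
      abel
    · beta_reduce
      rw [e s x h, e' s x (hle h), smul_add]
      abel

theorem divide [Module.Free ℤ X] [Module.Finite ℤ X] [Finite Γ] {p : ℕ} (hpp : p.Prime)
    (hΓ : IsPGroup p Γ)
    (h₁ : ∀ c : Γ → B, (∀ s t, c (s * t) = c s + s • c t) → ∃ z : B, ∀ s, c s = s • z - z)
    (h₂ : ∀ u : Γ → Γ → B, (∀ s t r, s • u t r + u s (t * r) = u (s * t) r + u s t) →
      ∃ z : Γ → B, ∀ s t, u s t = s • z t + z s - z (s * t))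
    (z : Γ → X →+ B) (hz : ∀ s t x, z (s * t) x = z s x + s • z t (s⁻¹ • x)) :
    ∃ (w : Γ → X →+ B) (θ : X →+ B), (∀ s t x, w (s * t) x = w s x + s • w t (s⁻¹ • x)) ∧
      ∀ s x, z s x = p • w s x + (s • θ (s⁻¹ • x) - θ x) := by
  let μ : X →ₗ[ℤ] X := (p : ℤ) • LinearMap.id
  have hμ : Function.Injective μ := smul_right_injective X (Int.natCast_ne_zero.2 hpp.ne_zero)
  have : Nonempty X := ⟨0⟩
  have hq : ∀ x, Function.invFun μ (μ x) = x := Function.leftInverse_invFun hμ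
  have hc : ∀ (s : Γ) x, s • μ x = μ (s • x) := fun s x => smul_zsmul' s _ x
  obtain ⟨w, θ, hw, hθ, e⟩ := extend hpp hΓ h₁ h₂ (LinearMap.range μ)
    (by rintro s _ ⟨x, rfl⟩; exact ⟨_, (hc s x).symm⟩) (fun x => ⟨x, rfl⟩)
    (fun s x => z s (Function.invFun μ x))
    ⟨fun s => by
      rintro _ ⟨x, rfl⟩ _ ⟨y, rfl⟩
      beta_reduce
      rw [← map_add, hq, hq, hq, map_add],
    fun s t => by
      rintro _ ⟨x, rfl⟩
      rw [hc, hq, hq, hz]⟩
  refine ⟨fun s => AddMonoidHom.mk' (w s) fun x y => hw.add s x trivial y trivial,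
    AddMonoidHom.mk' (fun x => θ (μ x)) fun x y => by
      rw [map_add, hθ _ ⟨x, rfl⟩ _ ⟨y, rfl⟩], fun s t x => hw.coc s t x trivial, fun s x => ?_⟩
  have h1 := e s (μ x) ⟨x, rfl⟩
  rw [hq, hc] at h1
  rw [h1]
  congr 1
  exact ((hw.add s).zsmul p trivial).trans (natCast_zsmul _ _)

theorem main [Module.Free ℤ X] [Module.Finite ℤ X] [Finite Γ] {p : ℕ} (hpp : p.Prime)
    (hΓ : IsPGroup p Γ)
    (h₁ : ∀ c : Γ → B, (∀ s t, c (s * t) = c s + s • c t) → ∃ z : B, ∀ s, c s = s • z - z)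
    (h₂ : ∀ u : Γ → Γ → B, (∀ s t r, s • u t r + u s (t * r) = u (s * t) r + u s t) →
      ∃ z : Γ → B, ∀ s t, u s t = s • z t + z s - z (s * t))
    (z : Γ → X →+ B) (hz : ∀ s t x, z (s * t) x = z s x + s • z t (s⁻¹ • x)) :
    ∃ θ : X →+ B, ∀ s x, z s x = s • θ (s⁻¹ • x) - θ x := by
  have := Fact.mk hpp
  have key : ∀ k : ℕ, ∃ (w : Γ → X →+ B) (θ : X →+ B),
      (∀ s t x, w (s * t) x = w s x + s • w t (s⁻¹ • x)) ∧
      ∀ s x, z s x = p ^ k • w s x + (s • θ (s⁻¹ • x) - θ x) := by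
    intro k
    induction k with
    | zero => exact ⟨z, 0, hz, fun s x => by simp⟩
    | succ k ih =>
      obtain ⟨w, θ, hw, e⟩ := ih
      obtain ⟨w', θ', hw', e'⟩ := divide hpp hΓ h₁ h₂ w hw
      refine ⟨w', θ + p ^ k • θ', hw', fun s x => ?_⟩
      rw [e, e', AddMonoidHom.add_apply, AddMonoidHom.add_apply, AddMonoidHom.nsmul_apply,
        AddMonoidHom.nsmul_apply, smul_add s, smul_comm s (p ^ k), pow_succ, mul_smul, smul_add,
        smul_sub]
      abel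
  obtain ⟨k, hk⟩ := hΓ.exists_card_eq
  obtain ⟨w, θ, hw, e⟩ := key k
  obtain ⟨θ', e'⟩ := transfer ⊥ w hw 0 (fun s hs x => by
    rw [Subgroup.mem_bot.1 hs]
    have := hw 1 1 x
    simpa using this)
  rw [Subgroup.index_bot, hk] at e'
  refine ⟨θ' + θ, fun s x => ?_⟩
  rw [e, e', AddMonoidHom.add_apply, AddMonoidHom.add_apply, smul_add]
  abel

end Coh5Aux

variable {G B X : Type} [Group G] [Finite G] [AddCommGroup B] [DistribMulAction G B]
  [AddCommGroup X] [Module.Free ℤ X] [Module.Finite ℤ X] [DistribMulAction G X]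

theorem h1Hom_of_isPGroup {p : ℕ} (hp : p.Prime) {P : Subgroup G} (hP : IsPGroup p P)
    (h₁ : H1z B P) (h₂ : H2z B P) : H1Hom B X P := by
  classical
  intro z hz
  obtain ⟨θ, hθ⟩ := Coh5Aux.main (Γ := P) (B := B) (X := X) hp hP
    (fun c hc => by
      obtain ⟨b, hb⟩ := h₁ (fun s => if h : s ∈ P then c ⟨s, h⟩ else 0) (fun s hs t ht => by
        rw [dif_pos hs, dif_pos ht, dif_pos (mul_mem hs ht)]
        exact hc ⟨s, hs⟩ ⟨t, ht⟩)
      refine ⟨b, fun s => ?_⟩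
      have := hb s s.2
      rwa [dif_pos s.2] at this)
    (fun u hu => by
      obtain ⟨y, hy⟩ := h₂
        (fun s t => if h : s ∈ P ∧ t ∈ P then u ⟨s, h.1⟩ ⟨t, h.2⟩ else 0)
        (fun s hs t ht r hr => by
          rw [dif_pos ⟨ht, hr⟩, dif_pos ⟨hs, mul_mem ht hr⟩, dif_pos ⟨mul_mem hs ht, hr⟩,
            dif_pos ⟨hs, ht⟩]
          exact hu ⟨s, hs⟩ ⟨t, ht⟩ ⟨r, hr⟩)
      refine ⟨fun s => y s, fun s t => ?_⟩
      have := hy s s.2 t t.2
      rwa [dif_pos ⟨s.2, t.2⟩] at this)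
    (fun s => z s) (fun s t x => hz s s.2 t t.2 x)
  exact ⟨θ, fun s hs x => hθ ⟨s, hs⟩ x⟩

omit [Module.Free ℤ X] [Module.Finite ℤ X] in
theorem h1Hom_top (h : ∀ p : ℕ, p.Prime → ∀ P : Subgroup G, IsPGroup p P → H1Hom B X P) :
    H1Hom B X (⊤ : Subgroup G) := by
  intro z hz
  let I : Ideal ℤ :=
    { carrier := {n | ∃ θ : X →+ B, ∀ s x, n • z s x = s • θ (s⁻¹ • x) - θ x}
      add_mem' := by
        rintro a b ⟨θ, e⟩ ⟨θ', e'⟩
        refine ⟨θ + θ', fun s x => ?_⟩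
        rw [add_smul, e, e', AddMonoidHom.add_apply, AddMonoidHom.add_apply, smul_add]
        abel
      zero_mem' := ⟨0, fun s x => by simp⟩
      smul_mem' := by
        rintro c a ⟨θ, e⟩
        refine ⟨c • θ, fun s x => ?_⟩
        rw [smul_assoc, e, AddMonoidHom.zsmul_apply, AddMonoidHom.zsmul_apply,
          Coh5Aux.smul_zsmul', smul_sub] }
  have hI : ∀ p : ℕ, p.Prime → ∃ n : ℕ, (n : ℤ) ∈ I ∧ ¬ p ∣ n := by
    intro p hp
    have := Fact.mk hp
    obtain ⟨P⟩ : Nonempty (Sylow p G) := inferInstance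
    obtain ⟨θ, hθ⟩ := h p hp P P.isPGroup' z fun s _ t _ x => hz s trivial t trivial x
    obtain ⟨θ', e⟩ := Coh5Aux.transfer (P : Subgroup G) z
      (fun s t x => hz s trivial t trivial x) θ hθ
    exact ⟨_, ⟨θ', fun s x => by rw [natCast_zsmul, e]⟩, P.not_dvd_index⟩
  have h1 : (1 : ℤ) ∈ I := by
    obtain ⟨d, hd⟩ := (IsPrincipalIdealRing.principal I).principal
    have h2 : d.natAbs = 1 := by
      by_contra h3
      obtain ⟨p, hp, hpd⟩ := Nat.exists_prime_and_dvd h3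
      obtain ⟨n, hn, hn'⟩ := hI p hp
      rw [hd] at hn
      exact hn' (hpd.trans (Int.natAbs_dvd_natAbs.2 (Ideal.mem_span_singleton.1 hn)))
    rw [hd]
    exact Ideal.mem_span_singleton.2 (Int.isUnit_iff_natAbs_eq.2 h2).dvd
  obtain ⟨θ, e⟩ := h1
  exact ⟨θ, fun s _ x => by rw [← e, one_smul]⟩

end Pool.Agent.Lib.CFT
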