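import Pool.Agent.Lib.CFT.Coh4
import Pool.Agent.Lib.CFT.Coh5

/-! CFT-Coh6: the theorem of Tate and Nakayama, abstract form. -/

namespace Pool.Agent.Lib.CFT

variable {G C : Type} [Group G] [Fintype G] [CommGroup C] [MulDistribMulAction G C]

theorem tate_nakayama_abs (ax : PrimeAx G C) {u : G → G → C} (hu : Fund ⊤ u) {X X' : Type}
    [AddCommGroup X] [Module.Free ℤ X] [Module.Finite ℤ X] [DistribMulAction G X] [AddCommGroup X']
    [DistribMulAction G X'] (f : X' →+ X) (hf : ∀ (s : G) x, f (s • x) = s • f x) (n : ℕ)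
    (hn : ∀ m : X →+ ℤ, (∀ x, ∑ s : G, m (s • x) = 0) →
      ∃ μ : G → X' →+ ℤ, ∀ x, (n : ℤ) * m (f x) = ∑ s : G, (μ s (s⁻¹ • x) - μ s x))
    (z : G → X →+ Additive C)
    (hz : ∀ (s t : G) x, (z (s * t) x).toMul = (z s x).toMul * s • (z t (s⁻¹ • x)).toMul) :
    ∃ θ : X' →+ Additive C, ∀ (s : G) x,
      (z s (f x)).toMul ^ n = s • (θ (s⁻¹ • x)).toMul * (θ x).toMul⁻¹ := by
  classical
  obtain ⟨B, _, _, ι, π, hι, hιs, hker, hrange, hπ, hH⟩ := exists_splitting ax hu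
  obtain ⟨Θ, hΘ⟩ := h1Hom_top (B := B) (X := X)
    (fun p hp P hP => h1Hom_of_isPGroup hp hP (hH p hp P hP).1 (hH p hp P hP).2)
    (fun s => ι.comp (z s)) fun s _ t _ x => by
      have e := congrArg (fun c => ι (Additive.ofMul c)) (hz s t x)
      simpa only [ofMul_mul, map_add, hιs, ofMul_toMul, AddMonoidHom.comp_apply] using e
  have hπι : ∀ c, π (ι c) = 0 := fun c => by
    rw [← AddMonoidHom.mem_ker, ← hker]
    exact ⟨c, rfl⟩
  have hm : ∀ (x : X) (t : G), π (Θ x) t = π (Θ (t⁻¹ • x)) 1 := fun x t => by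
    have e := congrFun (congrArg π (hΘ t trivial x)) t
    rw [AddMonoidHom.comp_apply, hπι, map_sub, Pi.sub_apply, hπ, inv_mul_cancel] at e
    exact (sub_eq_zero.1 e.symm).symm
  obtain ⟨μ, hμ⟩ := hn ((Pi.evalAddMonoidHom (fun _ : G => ℤ) 1).comp (π.comp Θ)) fun x => by
    rw [← (hrange _).1 ⟨Θ x, rfl⟩, ← Equiv.sum_comp (Equiv.inv G)]
    exact Finset.sum_congr rfl fun t _ => (hm x t).symm
  have hb : ∀ s : G, ∃ b, π b = Pi.single s⁻¹ 1 - Pi.single 1 1 := fun s =>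
    (hrange _).2 (by simp)
  choose b hb using hb
  have hΨ : ∃ Ψ : X' →+ B, ∀ x, Ψ x = ∑ t : G, ∑ s : G, μ s (t⁻¹ • x) • t • b s :=
    ⟨AddMonoidHom.mk' (fun x => ∑ t : G, ∑ s : G, μ s (t⁻¹ • x) • t • b s) fun x y => by
      simp only [smul_add, map_add, add_smul, Finset.sum_add_distrib], fun _ => rfl⟩
  obtain ⟨Ψ, hΨ⟩ := hΨ
  have h1 : ∀ (r : G) (x : X'), r • Ψ (r⁻¹ • x) = Ψ x := fun r x => by
    rw [hΨ, hΨ, ← Equiv.sum_comp (Equiv.mulLeft r) fun t => ∑ s : G, μ s (t⁻¹ • x) • t • b s]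
    simp only [Finset.smul_sum, smul_comm r (_ : ℤ), Equiv.coe_mulLeft, mul_inv_rev, mul_smul]
  have h2 : ∀ x : X', ∃ c, ι c = n • Θ (f x) - Ψ x := fun x => by
    rw [← AddMonoidHom.mem_range, hker, AddMonoidHom.mem_ker, map_sub, sub_eq_zero]
    funext r
    have e := hμ (r⁻¹ • x)
    simp only [AddMonoidHom.comp_apply, Pi.evalAddMonoidHom_apply, hf, ← hm] at e
    rw [map_nsmul, Pi.smul_apply, nsmul_eq_mul, e, hΨ, Finset.sum_comm]
    simp only [map_sum, map_zsmul, Finset.sum_apply, Pi.smul_apply, hπ, hb, Pi.sub_apply,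
      smul_eq_mul, mul_sub, Finset.sum_sub_distrib]
    congr 1 <;> refine Finset.sum_congr rfl fun s _ => ?_
    · rw [Finset.sum_eq_single (r * s)]
      · simp [mul_smul]
      · intro t _ ht
        rw [Pi.single_eq_of_ne, mul_zero]
        rintro e'
        exact ht (by rw [inv_mul_eq_iff_eq_mul.1 e', inv_mul_cancel_right])
      · simp
    · rw [Finset.sum_eq_single r]
      · simp
      · intro t _ ht
        rw [Pi.single_eq_of_ne, mul_zero]
        exact fun e' => ht (inv_mul_eq_one.1 e')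
      · simp
  choose θ hθ using h2
  refine ⟨AddMonoidHom.mk' θ fun x y => hι ?_, fun s x => Additive.ofMul.injective (hι ?_)⟩
  · rw [map_add, hθ, hθ, hθ, map_add, map_add, map_add, smul_add]
    abel
  · have e := hΘ s trivial (f x)
    rw [AddMonoidHom.comp_apply] at e
    simp only [ofMul_pow, ofMul_mul, ofMul_inv, map_nsmul, map_add, map_neg, hιs, ofMul_toMul,
      AddMonoidHom.mk'_apply, hθ, e, hf, smul_sub, h1, smul_comm s n]
    abel

end Pool.Agent.Lib.CFT
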