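import Mathlib

/-!
Ideles and idele classes of a number field `M`, built from the algebras `ℚ_p ⊗ M` and `ℝ ⊗ M`,
with the action of the automorphism group of `M`.
-/

namespace Pool.Agent.Lib.CFT

open scoped TensorProduct

set_option linter.unusedVariables false

instance factPrimes (p : Nat.Primes) : Fact p.1.Prime := ⟨p.2⟩

variable (M : Type) [Field M] [NumberField M]

/-- The automorphism group of `M`. -/
abbrev Aut : Type := M ≃ₐ[ℚ] M

variable {M}

/-- The action of an automorphism of `M` on `k ⊗ M`. -/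
noncomputable def lact (k : Type) [CommRing k] [Algebra ℚ k] (s : Aut M) :
    k ⊗[ℚ] M ≃ₐ[k] k ⊗[ℚ] M := Algebra.TensorProduct.congr AlgEquiv.refl s

@[simp] theorem lact_tmul (k : Type) [CommRing k] [Algebra ℚ k] (s : Aut M) (a : k) (x : M) :
    lact k s (a ⊗ₜ x) = a ⊗ₜ s x := rfl

theorem lact_one (k : Type) [CommRing k] [Algebra ℚ k] (x : k ⊗[ℚ] M) : lact k 1 x = x := by
  induction x using TensorProduct.induction_on with
  | zero => simp
  | tmul a x => rfl
  | add x y hx hy => rw [map_add, hx, hy]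

theorem lact_mul (k : Type) [CommRing k] [Algebra ℚ k] (s t : Aut M) (x : k ⊗[ℚ] M) :
    lact k (s * t) x = lact k s (lact k t x) := by
  induction x using TensorProduct.induction_on with
  | zero => simp
  | tmul a x => rfl
  | add x y hx hy => simp only [map_add, hx, hy]

/-- The inclusion of `M` into `k ⊗ M`. -/
noncomputable abbrev inc (k : Type) [CommRing k] [Algebra ℚ k] (M : Type) [Field M] [NumberField M] :
    M →+* k ⊗[ℚ] M := (Algebra.TensorProduct.includeRight : M →ₐ[ℚ] k ⊗[ℚ] M).toRingHom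

theorem lact_inc (k : Type) [CommRing k] [Algebra ℚ k] (s : Aut M) (x : M) :
    lact k s (inc k M x) = inc k M (s x) := rfl

/-- The action on units. -/
noncomputable def uact (k : Type) [CommRing k] [Algebra ℚ k] (s : Aut M) :
    (k ⊗[ℚ] M)ˣ →* (k ⊗[ℚ] M)ˣ := Units.map (lact k s).toRingEquiv.toRingHom.toMonoidHom

@[simp] theorem uact_val (k : Type) [CommRing k] [Algebra ℚ k] (s : Aut M) (x : (k ⊗[ℚ] M)ˣ) :
    (uact k s x).1 = lact k s x.1 := rfl

/-- The units that are integral with integral inverse. -/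
def IntU (p : ℕ) [Fact p.Prime] (M : Type) [Field M] [NumberField M] :
    Subgroup (ℚ_[p] ⊗[ℚ] M)ˣ where
  carrier := {x | IsIntegral ℤ_[p] x.1 ∧ IsIntegral ℤ_[p] (x⁻¹).1}
  one_mem' := ⟨isIntegral_one, by simpa using isIntegral_one⟩
  mul_mem' := fun {x y} hx hy => ⟨hx.1.mul hy.1, by
    simpa only [mul_inv_rev, Units.val_mul] using hy.2.mul hx.2⟩
  inv_mem' := fun {x} hx => ⟨hx.2, by simpa using hx.1⟩

theorem isIntegral_lact {p : ℕ} [Fact p.Prime] (s : Aut M) {x : ℚ_[p] ⊗[ℚ] M}
    (hx : IsIntegral ℤ_[p] x) : IsIntegral ℤ_[p] (lact ℚ_[p] s x) :=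
  hx.map ((lact ℚ_[p] s).toAlgHom.restrictScalars ℤ_[p])

theorem uact_mem {p : ℕ} [Fact p.Prime] (s : Aut M) {x : (ℚ_[p] ⊗[ℚ] M)ˣ} (hx : x ∈ IntU p M) :
    uact ℚ_[p] s x ∈ IntU p M :=
  ⟨isIntegral_lact s hx.1, by
    rw [← map_inv]
    exact isIntegral_lact s hx.2⟩

variable (M)

/-- The product of all local unit groups. -/
abbrev Amb : Type := (∀ p : Nat.Primes, (ℚ_[p] ⊗[ℚ] M)ˣ) × (ℝ ⊗[ℚ] M)ˣ

/-- The ideles. -/
def Idele : Subgroup (Amb M) where
  carrier := {x | {p : Nat.Primes | x.1 p ∉ IntU p M}.Finite}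
  one_mem' := by simp
  mul_mem' := fun {x y} hx hy => (Set.Finite.union hx hy).subset fun p hp => by
    by_contra h
    simp only [Set.mem_union, Set.mem_ofPred_eq, not_or, not_not] at h
    exact hp (mul_mem h.1 h.2)
  inv_mem' := fun {x} hx => by simpa using hx

variable {M}

theorem finite_not_isIntegral (x : M) :
    {p : Nat.Primes | ¬ IsIntegral ℤ_[p] (inc ℚ_[p] M x)}.Finite := by
  obtain ⟨d, hd, hx⟩ := IsAlgebraic.exists_integral_multiple
    ((IsFractionRing.isAlgebraic_iff ℤ ℚ M).2 (Algebra.IsAlgebraic.isAlgebraic (R := ℚ) x))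
  refine (Set.Finite.preimage (f := fun p : Nat.Primes => p.1) Subtype.val_injective.injOn
    (Set.finite_Iic d.natAbs)).subset fun p hp => ?_
  by_contra hlt
  apply hp
  have hu : IsUnit (d : ℤ_[p]) := by
    rw [PadicInt.isUnit_iff]
    refine le_antisymm (PadicInt.norm_le_one _) (not_lt.1 fun h => hlt ?_)
    rw [PadicInt.norm_int_lt_one_iff_dvd] at h
    exact Nat.le_of_dvd (Int.natAbs_pos.2 hd) (Int.natCast_dvd.1 h)
  obtain ⟨u, hu⟩ := hu
  have h2 : IsIntegral ℤ_[p] (inc ℚ_[p] M (d • x)) :=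
    hx.map_of_comp_eq (Int.castRingHom ℤ_[p]) (inc ℚ_[p] M) (RingHom.ext_int _ _)
  have h3 := h2.smul (u⁻¹).1
  rwa [map_zsmul, ← Int.cast_smul_eq_zsmul ℤ_[p], ← hu, smul_smul, Units.inv_mul, one_smul] at h3

variable (M)

/-- The principal ideles. -/
noncomputable def prin : Mˣ →* Idele M :=
  ((MonoidHom.pi fun p : Nat.Primes => Units.map (inc ℚ_[p] M).toMonoidHom).prod
    (Units.map (inc ℝ M).toMonoidHom)).codRestrict _ fun x =>
      ((finite_not_isIntegral x.1).union (finite_not_isIntegral (x⁻¹).1)).subset fun p hp => by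
        by_contra h
        simp only [Set.mem_union, Set.mem_ofPred_eq, not_or, not_not] at h
        exact hp h

noncomputable instance : MulDistribMulAction (Aut M) (Idele M) where
  smul s x := ⟨(fun p => uact ℚ_[p] s (x.1.1 p), uact ℝ s x.1.2),
    Set.Finite.subset x.2 fun p hp h => hp (uact_mem s h)⟩
  one_smul x := Subtype.ext (Prod.ext (funext fun p => Units.ext (lact_one _ _))
    (Units.ext (lact_one _ _)))
  mul_smul s t x := Subtype.ext (Prod.ext (funext fun p => Units.ext (lact_mul _ _ _ _))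
    (Units.ext (lact_mul _ _ _ _)))
  smul_mul s x y := Subtype.ext (Prod.ext (funext fun p => map_mul (uact _ s) _ _)
    (map_mul (uact _ s) _ _))
  smul_one s := Subtype.ext (Prod.ext (funext fun p => map_one (uact _ s)) (map_one (uact _ s)))

variable {M}

theorem smul_fst (s : Aut M) (x : Idele M) (p : Nat.Primes) :
    (s • x).1.1 p = uact ℚ_[p] s (x.1.1 p) := rfl

theorem smul_snd (s : Aut M) (x : Idele M) : (s • x).1.2 = uact ℝ s x.1.2 := rfl

theorem prin_fst (x : Mˣ) (p : Nat.Primes) : ((prin M x).1.1 p).1 = inc ℚ_[p] M x.1 := rfl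

theorem prin_snd (x : Mˣ) : (prin M x).1.2.1 = inc ℝ M x.1 := rfl

theorem smul_prin (s : Aut M) (x : Mˣ) :
    s • prin M x = prin M (Units.map s.toRingEquiv.toRingHom.toMonoidHom x) := rfl

variable (M)

/-- The idele class group. -/
abbrev Cl : Type := Idele M ⧸ (prin M).range

noncomputable instance : MulDistribMulAction (Aut M) (Cl M) where
  smul s := QuotientGroup.map _ _ (MulDistribMulAction.toMonoidHom (Idele M) s) (by
    rintro _ ⟨x, rfl⟩
    exact ⟨_, (smul_prin s x).symm⟩)
  one_smul x := by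
    induction x using QuotientGroup.induction_on with
    | H x => exact congrArg QuotientGroup.mk (one_smul _ x)
  mul_smul s t x := by
    induction x using QuotientGroup.induction_on with
    | H x => exact congrArg QuotientGroup.mk (mul_smul s t x)
  smul_mul s x y := map_mul (QuotientGroup.map _ _ _ _) x y
  smul_one s := map_one (QuotientGroup.map _ _ _ _)

variable {M}

theorem smul_mk (s : Aut M) (x : Idele M) :
    s • (QuotientGroup.mk x : Cl M) = QuotientGroup.mk (s • x) := rfl

/-- The reduced norm of `x + y w + z w²` in the cyclic algebra with `w a = ρ(a) w`, `w³ = μ`. -/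
def nrdC {K : Type} [CommRing K] (ρ : K ≃+* K) (μ x y z : K) : K :=
  Matrix.det !![x, y, z; μ * ρ z, ρ x, ρ y; μ * ρ (ρ y), μ * ρ (ρ z), ρ (ρ x)]

end Pool.Agent.Lib.CFT
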