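import Pool.Agent.Lib.CFT.Herb1

/-! CFT-Herb2: computing Herbrand quotients. -/

namespace Pool.Agent.Lib.CFT

variable {A B : Type} [CommGroup A] [CommGroup B] {α : A →* A} {β : B →* B} {l : ℕ}

namespace Herb2Aux

theorem mem_ker_Dm {x : A} : x ∈ (Dm α).ker ↔ α x = x := by
  rw [MonoidHom.mem_ker, Dm_apply, div_eq_one]

theorem map_Dm (f : A →* B) (ef : ∀ x, f (α x) = β (f x)) (x : A) : f (Dm α x) = Dm β (f x) := by
  rw [Dm_apply, Dm_apply, map_div, ef]

theorem rel_equiv (e : A ≃* B) {D N : A →* A} {D' N' : B →* B} (hD : ∀ x, e (D x) = D' (e x))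
    (hN : ∀ x, e (N x) = N' (e x)) : N.range.relIndex D.ker = N'.range.relIndex D'.ker := by
  have h1 : N.range = N'.range.comap (e : A →* B) := by
    ext x
    constructor
    · rintro ⟨y, rfl⟩
      exact ⟨e y, (hN y).symm⟩
    · rintro ⟨y, hy⟩
      refine ⟨e.symm y, e.injective ?_⟩
      rw [hN, e.apply_symm_apply]
      exact hy
  have h2 : D.ker.map (e : A →* B) = D'.ker := by
    ext y
    constructor
    · rintro ⟨x, hx, rfl⟩
      have hx' : D x = 1 := hx
      change D' (e x) = 1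
      rw [← hD, hx', map_one]
    · intro hy
      have hy' : D' y = 1 := hy
      refine ⟨e.symm y, e.injective ?_, e.apply_symm_apply y⟩
      rw [hD, e.apply_symm_apply, hy', map_one]
  rw [h1, Subgroup.relIndex_comap, h2]

theorem rel_card [Finite A] {D N : A →* A} (h : N.range ≤ D.ker) :
    N.range.relIndex D.ker * (Nat.card D.range * Nat.card N.range) = Nat.card A := by
  rw [← Subgroup.index_ker D, ← mul_assoc, Subgroup.relIndex_mul_index h, mul_comm,
    Subgroup.card_mul_index]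

theorem rel_pi {ι : Type} [Fintype ι] {X : ι → Type} [∀ i, CommGroup (X i)]
    (D N : ∀ i, X i →* X i) {D' N' : (∀ i, X i) →* ∀ i, X i} (hD : ∀ x i, D' x i = D i (x i))
    (hN : ∀ x i, N' x i = N i (x i)) :
    N'.range.relIndex D'.ker = ∏ i, (N i).range.relIndex (D i).ker := by
  let φ : D'.ker →* ∀ i, (D i).ker ⧸ (N i).range.subgroupOf (D i).ker :=
    MonoidHom.pi fun i => (QuotientGroup.mk' _).comp
      (((Pi.evalMonoidHom X i).comp D'.ker.subtype).codRestrict (D i).ker fun x =>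
        (hD x.1 i).symm.trans (congrFun x.2 i))
  have h1 : N'.range.subgroupOf D'.ker = φ.ker := by
    ext x
    rw [Subgroup.mem_subgroupOf, MonoidHom.mem_ker, funext_iff]
    constructor
    · rintro ⟨y, hy⟩ i
      exact (QuotientGroup.eq_one_iff _).2 ⟨y i, (hN y i).symm.trans (congrFun hy i)⟩
    · intro h
      have h2 : ∀ i, ∃ y, N i y = x.1 i := fun i => (QuotientGroup.eq_one_iff _).1 (h i)
      choose y hy using h2
      exact ⟨y, funext fun i => (hN y i).trans (hy i)⟩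
  have h3 : φ.range = ⊤ := by
    refine MonoidHom.range_eq_top.2 fun z => ?_
    choose y hy using fun i => QuotientGroup.mk_surjective (z i)
    exact ⟨⟨fun i => (y i).1, funext fun i => (hD _ i).trans (y i).2⟩, funext hy⟩
  rw [Subgroup.relIndex, h1, Subgroup.index_ker, h3, Subgroup.card_top, Nat.card_pi]
  rfl

theorem Nm_id : Nm (MonoidHom.id A) l = powMonoidHom l :=
  MonoidHom.ext fun x => by
    rw [Nm_apply, powMonoidHom_apply, Finset.prod_congr rfl fun i _ =>
      Function.iterate_fixed (MonoidHom.id_apply A x) i, Finset.prod_const, Finset.card_range]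

theorem Dm_id : Dm (MonoidHom.id A) = 1 := MonoidHom.ext fun x => div_self' x

theorem iter_of_surj {f : A →* B} (hf : Function.Surjective f) (ef : ∀ x, f (α x) = β (f x))
    (hl : ∀ x, α^[l] x = x) (y : B) : β^[l] y = y := by
  obtain ⟨x, rfl⟩ := hf y
  rw [← Function.Semiconj.iterate_right (f := f) ef l x, hl]

theorem iter_of_inj {f : A →* B} (hf : Function.Injective f) (ef : ∀ x, f (α x) = β (f x))
    (hl : ∀ x, β^[l] x = x) (x : A) : α^[l] x = x :=
  hf (by rw [Function.Semiconj.iterate_right (f := f) ef l x, hl])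

theorem card_mul {Q : Type} [CommGroup Q] (φ : (Dm α).ker →* Q) (hs : Function.Surjective φ)
    (hN : ∀ x : (Dm α).ker, x.1 ∈ (Nm α l).range → φ x = 1) :
    ((Nm α l).range.subgroupOf (Dm α).ker).relIndex φ.ker * Nat.card Q = h0 α l := by
  have h : (Nm α l).range.subgroupOf (Dm α).ker ≤ φ.ker := fun x hx => hN x hx
  have h1 := Subgroup.relIndex_mul_index h
  rwa [Subgroup.index_ker, MonoidHom.range_eq_top.2 hs, Subgroup.card_top] at h1

end Herb2Aux

open Herb2Aux

theorem map_Nm (f : A →* B) (ef : ∀ x, f (α x) = β (f x)) (x : A) :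
    f (Nm α l x) = Nm β l (f x) := by
  rw [Nm_apply, Nm_apply, map_prod]
  exact Finset.prod_congr rfl fun i _ => Function.Semiconj.iterate_right (f := f) ef i x

theorem apply_Nm (hl : ∀ x, α^[l] x = x) (x : A) : α (Nm α l x) = Nm α l x := by
  have h := Finset.prod_range_succ' (fun i => α^[i] x) l
  rw [Finset.prod_range_succ, hl, Function.iterate_zero_apply] at h
  rw [Nm_apply, map_prod]
  exact (Finset.prod_congr rfl fun i _ => (Function.iterate_succ_apply' α i x).symm).trans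
    (mul_right_cancel h).symm

theorem Nm_apply_self (hl : ∀ x, α^[l] x = x) (x : A) : Nm α l (α x) = Nm α l x :=
  (map_Nm α (fun _ => rfl) x).symm.trans (apply_Nm hl x)

theorem Nm_of_fixed {x : A} (hx : α x = x) : Nm α l x = x ^ l := by
  rw [Nm_apply, Finset.prod_congr rfl fun i _ => Function.iterate_fixed hx i, Finset.prod_const,
    Finset.card_range]

theorem resS_iterate (S : Subgroup A) (h : ∀ x ∈ S, α x ∈ S) (i : ℕ) (x : S) :
    ((resS α S h)^[i] x : A) = α^[i] x :=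
  Function.Semiconj.iterate_right (f := (Subtype.val : S → A)) (resS_val α S h) i x

theorem HerbQ.pos {q : ℚ} (h : HerbQ α l q) : 0 < q := by
  have h1 : (0 : ℚ) < h0 α l := Nat.cast_pos.2 (Nat.pos_of_ne_zero h.1)
  rw [h.2.2] at h1
  exact pos_of_mul_pos_left h1 (Nat.cast_nonneg _)

theorem h0_eq_one_iff : h0 α l = 1 ↔ ∀ x, α x = x → ∃ y, Nm α l y = x :=
  Subgroup.relIndex_eq_one.trans
    ⟨fun h _ hx => h (mem_ker_Dm.2 hx), fun h x hx => h x (mem_ker_Dm.1 hx)⟩

theorem h1_eq_one_iff : h1 α l = 1 ↔ ∀ x, Nm α l x = 1 → ∃ y, α y / y = x :=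
  Subgroup.relIndex_eq_one.trans ⟨fun h _ hx => h hx, fun h x hx => h x hx⟩

theorem h0_equiv (e : A ≃* B) (he : ∀ x, e (α x) = β (e x)) : h0 α l = h0 β l :=
  rel_equiv e (map_Dm (e : A →* B) he) (map_Nm (e : A →* B) he)

theorem h1_equiv (e : A ≃* B) (he : ∀ x, e (α x) = β (e x)) : h1 α l = h1 β l :=
  rel_equiv e (map_Nm (e : A →* B) he) (map_Dm (e : A →* B) he)

theorem h0_retract (i : A →* B) (r : B →* A) (hr : ∀ x, r (i x) = x)
    (ei : ∀ x, i (α x) = β (i x)) (er : ∀ x, r (β x) = α (r x)) (h : h0 β l = 1) :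
    h0 α l = 1 := by
  refine h0_eq_one_iff.2 fun x hx => ?_
  obtain ⟨y, hy⟩ := h0_eq_one_iff.1 h (i x) (by rw [← ei, hx])
  exact ⟨r y, by rw [← map_Nm r er, hy, hr]⟩

theorem h1_retract (i : A →* B) (r : B →* A) (hr : ∀ x, r (i x) = x)
    (ei : ∀ x, i (α x) = β (i x)) (er : ∀ x, r (β x) = α (r x)) (h : h1 β l = 1) :
    h1 α l = 1 := by
  refine h1_eq_one_iff.2 fun x hx => ?_
  obtain ⟨y, hy⟩ := h1_eq_one_iff.1 h (i x) (by rw [← map_Nm i ei, hx, map_one])
  exact ⟨r y, by rw [← er, ← map_div, hy, hr]⟩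

theorem herbQ_finite [Finite A] (hl : ∀ x, α^[l] x = x) : HerbQ α l 1 := by
  have h1 : (Nm α l).range ≤ (Dm α).ker := by
    rintro _ ⟨x, rfl⟩
    exact mem_ker_Dm.2 (apply_Nm hl x)
  have h2 : (Dm α).range ≤ (Nm α l).ker := by
    rintro _ ⟨x, rfl⟩
    rw [MonoidHom.mem_ker, Dm_apply, map_div, Nm_apply_self hl, div_self']
  have h3 := rel_card h1
  have h4 := rel_card h2
  rw [mul_comm (Nat.card _)] at h4
  refine ⟨Subgroup.index_ne_zero_of_finite, Subgroup.index_ne_zero_of_finite, ?_⟩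
  rw [one_mul, Nat.cast_inj]
  exact Nat.eq_of_mul_eq_mul_right (Nat.mul_pos Nat.card_pos Nat.card_pos) (h3.trans h4.symm)

/-- A map with finite kernel and finite cokernel preserves the Herbrand quotient. -/
theorem herbQ_iff (f : A →* B) (ef : ∀ x, f (α x) = β (f x)) (hα : ∀ x, α^[l] x = x)
    (hβ : ∀ x, β^[l] x = x) (hk : Finite f.ker) (hc : f.range.index ≠ 0) {q : ℚ} :
    HerbQ α l q ↔ HerbQ β l q := by
  have sK : ∀ x ∈ f.ker, α x ∈ f.ker := fun x hx => by
    rw [MonoidHom.mem_ker] at hx ⊢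
    rw [ef, hx, map_one]
  have sR : ∀ y ∈ f.range, β y ∈ f.range := by
    rintro _ ⟨x, rfl⟩
    exact ⟨α x, ef x⟩
  have hfin : Finite (B ⧸ f.range) := Nat.finite_of_card_ne_zero hc
  have e1 : ∀ x, f.ker.subtype (resS α f.ker sK x) = α (f.ker.subtype x) := fun _ => rfl
  have e2 : ∀ x, f.rangeRestrict (α x) = resS β f.range sR (f.rangeRestrict x) :=
    fun x => Subtype.ext (ef x)
  have e3 : ∀ x, f.range.subtype (resS β f.range sR x) = β (f.range.subtype x) := fun _ => rfl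
  have e4 : ∀ x, QuotientGroup.mk' f.range (β x) =
      QuotientGroup.map f.range f.range β sR (QuotientGroup.mk' f.range x) := fun _ => rfl
  have r1 : f.ker.subtype.range = f.rangeRestrict.ker := by
    rw [Subgroup.range_subtype, MonoidHom.ker_rangeRestrict]
  have r2 : f.range.subtype.range = (QuotientGroup.mk' f.range).ker := by
    rw [Subgroup.range_subtype, QuotientGroup.ker_mk']
  have hK : HerbQ (resS α f.ker sK) l 1 := herbQ_finite (iter_of_inj f.ker.subtype_injective e1 hα)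
  have hQ : HerbQ (QuotientGroup.map f.range f.range β sR) l 1 :=
    herbQ_finite (iter_of_surj (QuotientGroup.mk'_surjective _) e4 hβ)
  constructor
  · intro h
    have h1 := HerbQ.right f.ker.subtype_injective f.rangeRestrict_surjective r1 e1 e2 hα hK h
    have h2 := HerbQ.mid f.range.subtype_injective (QuotientGroup.mk'_surjective _) r2 e3 e4 hβ h1 hQ
    rwa [div_one, mul_one] at h2
  · intro h
    have h1 := HerbQ.left f.range.subtype_injective (QuotientGroup.mk'_surjective _) r2 e3 e4 hβ h hQ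
    have h2 := HerbQ.mid f.ker.subtype_injective f.rangeRestrict_surjective r1 e1 e2 hα hK h1
    rwa [div_one, one_mul] at h2

theorem HerbQ.prod (hα : ∀ x, α^[l] x = x) (hβ : ∀ x, β^[l] x = x) {a b : ℚ} (ha : HerbQ α l a)
    (hb : HerbQ β l b) : HerbQ (α.prodMap β) l (a * b) := by
  refine HerbQ.mid (β := α.prodMap β) (f := MonoidHom.inl A B) (g := MonoidHom.snd A B)
    (fun x y h => congrArg Prod.fst h) Prod.snd_surjective ?_
    (fun x => Prod.ext (Eq.refl (α x)) (map_one β).symm) (fun _ => rfl) (fun x => ?_) ha hb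
  · ext x
    exact ⟨fun ⟨y, hy⟩ => hy ▸ rfl, fun h => ⟨x.1, Prod.ext rfl (Eq.symm h)⟩⟩
  · rw [MonoidHom.coe_prodMap, Prod.map_iterate]
    exact Prod.ext (hα _) (hβ _)

theorem herbQ_pi {ι : Type} [Fintype ι] {X : ι → Type} [∀ i, CommGroup (X i)]
    (σ : ∀ i, X i →* X i) (hσ : ∀ i x, (σ i)^[l] x = x) (q : ι → ℚ) (h : ∀ i, HerbQ (σ i) l (q i)) :
    HerbQ (MonoidHom.pi fun i => (σ i).comp (Pi.evalMonoidHom X i)) l (∏ i, q i) := by
  have _ := hσ
  have hD : ∀ x i, Dm (MonoidHom.pi fun i => (σ i).comp (Pi.evalMonoidHom X i)) x i =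
      Dm (σ i) (x i) := fun x i => rfl
  have hN : ∀ x i, Nm (MonoidHom.pi fun i => (σ i).comp (Pi.evalMonoidHom X i)) l x i =
      Nm (σ i) l (x i) := fun x i => map_Nm (Pi.evalMonoidHom X i) (fun _ => rfl) x
  have e0 : h0 (MonoidHom.pi fun i => (σ i).comp (Pi.evalMonoidHom X i)) l = ∏ i, h0 (σ i) l :=
    rel_pi _ _ hD hN
  have e1 : h1 (MonoidHom.pi fun i => (σ i).comp (Pi.evalMonoidHom X i)) l = ∏ i, h1 (σ i) l :=
    rel_pi _ _ hN hD
  unfold HerbQ
  rw [e0, e1]
  refine ⟨Finset.prod_ne_zero_iff.2 fun i _ => (h i).1, Finset.prod_ne_zero_iff.2 fun i _ => (h i).2.1,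
    ?_⟩
  rw [Nat.cast_prod, Nat.cast_prod, ← Finset.prod_mul_distrib]
  exact Finset.prod_congr rfl fun i _ => (h i).2.2

theorem h0_id : h0 (MonoidHom.id A) l = (powMonoidHom l : A →* A).range.index := by
  rw [h0, Nm_id, Dm_id, MonoidHom.ker_one, Subgroup.relIndex_top_right]

theorem h1_id : h1 (MonoidHom.id A) l = Nat.card (powMonoidHom l : A →* A).ker := by
  rw [h1, Nm_id, Dm_id, MonoidHom.range_one, Subgroup.relIndex_bot_left]

theorem herbQ_int (hl : l ≠ 0) : HerbQ (MonoidHom.id (Multiplicative ℤ)) l l := by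
  have e0 : (powMonoidHom l : Multiplicative ℤ →* Multiplicative ℤ).range =
      AddSubgroup.toSubgroup (AddSubgroup.zmultiples (l : ℤ)) := by
    ext x
    constructor
    · rintro ⟨y, rfl⟩
      exact ⟨y.toAdd, by simp [mul_comm]⟩
    · rintro ⟨k, hk⟩
      refine ⟨Multiplicative.ofAdd k, Multiplicative.toAdd.injective ?_⟩
      refine Eq.trans ?_ hk
      simp [mul_comm]
  have e1 : (powMonoidHom l : Multiplicative ℤ →* Multiplicative ℤ).ker = ⊥ := by
    refine (Subgroup.eq_bot_iff_forall _).2 fun x hx => ?_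
    exact (pow_eq_one_iff_left hl).1 hx
  unfold HerbQ
  rw [h0_id, h1_id, e0, e1, AddSubgroup.index_toSubgroup, Int.index_zmultiples, Subgroup.card_bot,
    Int.natAbs_natCast]
  exact ⟨hl, one_ne_zero, by rw [Nat.cast_one, mul_one]⟩

theorem card_le_h0 {Q : Type} [CommGroup Q] (φ : (Dm α).ker →* Q) (hs : Function.Surjective φ)
    (hN : ∀ x : (Dm α).ker, x.1 ∈ (Nm α l).range → φ x = 1) (h : h0 α l ≠ 0) :
    Nat.card Q ≤ h0 α l :=
  Nat.le_of_dvd (Nat.pos_of_ne_zero h) (Dvd.intro_left _ (card_mul φ hs hN))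

theorem mem_range_of_card {Q : Type} [CommGroup Q] (φ : (Dm α).ker →* Q)
    (hs : Function.Surjective φ) (hN : ∀ x : (Dm α).ker, x.1 ∈ (Nm α l).range → φ x = 1)
    (h : h0 α l ≠ 0) (hle : h0 α l ≤ Nat.card Q) {x : (Dm α).ker} (hx : φ x = 1) :
    x.1 ∈ (Nm α l).range := by
  have h1 := card_mul φ hs hN
  have h2 := mul_ne_zero_iff.1 (h1.trans_ne h)
  have h3 : ((Nm α l).range.subgroupOf (Dm α).ker).relIndex φ.ker ≤ 1 :=
    Nat.le_of_mul_le_mul_right (by rw [h1, one_mul]; exact hle) (Nat.pos_of_ne_zero h2.2)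
  exact Subgroup.relIndex_eq_one.1 (le_antisymm h3 (Nat.pos_of_ne_zero h2.1)) hx

end Pool.Agent.Lib.CFT
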