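import Pool.Agent.Lib.CFT.Loc1
import Pool.Agent.Lib.CFT.Herb2

/-! CFT-Tr1: Galois descent for local algebras; Hilbert 90. -/

namespace Pool.Agent.Lib.CFT

open scoped TensorProduct
open NumberField
open Pool.Agent.P.MP_9ec3f0_nt.SY

variable {M E : Type} [Field M] [NumberField M] [Field E] [NumberField E]


namespace Tr1Aux

theorem exists_unit {A : Type} [CommRing A] [Finite (MaximalSpectrum A)] [Algebra ℚ A]
    (f : M →+* A) {ι : Type} [Fintype ι] [Nonempty ι] (s : ι → Aut M) (hs : Function.Injective s)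
    (c : ι → Aˣ) : ∃ b : M, IsUnit (∑ i, (c i).1 * f (s i b)) := by
  classical
  obtain ⟨P, hP⟩ : ∃ P : M →ₗ[ℚ] A, ∀ b, P b = ∑ i, (c i).1 * f (s i b) :=
    ⟨AddMonoidHom.toRatLinearMap ⟨⟨fun b => ∑ i, (c i).1 * f (s i b), by simp⟩, fun a b => by
      simp only [map_add, mul_add, Finset.sum_add_distrib]⟩, fun _ => rfl⟩
  have := Fintype.ofFinite (MaximalSpectrum A)
  have h : ⊤ ∉ Finset.univ.image fun m : MaximalSpectrum A =>
      (m.asIdeal.restrictScalars ℚ).comap P := by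
    intro h
    obtain ⟨m, -, hm⟩ := Finset.mem_image.1 h
    have := m.isMaximal
    have li := (linearIndependent_monoidHom M (A ⧸ m.asIdeal)).comp
      (fun i => (((Ideal.Quotient.mk m.asIdeal).comp f).comp
        (s i).toRingEquiv.toRingHom).toMonoidHom) fun i i' e => hs (AlgEquiv.ext fun x =>
          ((Ideal.Quotient.mk m.asIdeal).comp f).injective (DFunLike.congr_fun e x))
    have e := Fintype.linearIndependent_iff.1 li (fun i => Ideal.Quotient.mk m.asIdeal (c i).1)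
      (funext fun b => by
        have : P b ∈ m.asIdeal := (hm.ge : ⊤ ≤ _) Submodule.mem_top
        rw [← Ideal.Quotient.eq_zero_iff_mem, hP, map_sum] at this
        rw [Finset.sum_apply]
        exact (Finset.sum_congr rfl fun i _ => (map_mul _ _ _).symm).trans this)
      (Classical.arbitrary ι)
    exact m.isMaximal.ne_top (Ideal.eq_top_of_isUnit_mem _
      (Ideal.Quotient.eq_zero_iff_mem.1 e) (c _).isUnit)
  obtain ⟨b, hb⟩ := (Set.ne_univ_iff_exists_notMem _).1
    (Subspace.biUnion_ne_univ_of_top_notMem h)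
  refine ⟨b, hP b ▸ by_contra fun hu => ?_⟩
  obtain ⟨m, hm, hbm⟩ := exists_max_ideal_of_mem_nonunits hu
  exact hb (Set.mem_biUnion (Finset.mem_image_of_mem _
    (Finset.mem_univ (⟨m, hm⟩ : MaximalSpectrum A))) hbm)

theorem forall_zpowers {σ : Aut M} {x : M} : (∀ s ∈ Subgroup.zpowers σ, s x = x) ↔ σ x = x :=
  ⟨fun h => h σ (Subgroup.mem_zpowers σ), fun h _ hs =>
    (Subgroup.zpowers_le (H := MulAction.stabilizer (Aut M) x)).2 h hs⟩

end Tr1Aux

open Tr1Aux

section Local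

variable {κ : Type} [Field κ] [Algebra ℚ κ] {j : E →+* M} {N : Subgroup (Aut M)}

theorem lmap_injective (κ : Type) [Field κ] [Algebra ℚ κ] (j : E →+* M) :
    Function.Injective (lmap κ j) :=
  Module.Flat.lTensor_preserves_injective_linearMap (M := κ) j.toRatAlgHom.toLinearMap j.injective

theorem umap_injective (κ : Type) [Field κ] [Algebra ℚ κ] (j : E →+* M) :
    Function.Injective (umap κ j) := Units.map_injective (lmap_injective κ j)

theorem lact_lmap {s : Aut M} {t : Aut E} (h : ∀ x, s (j x) = j (t x)) (x : κ ⊗[ℚ] E) :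
    lact κ s (lmap κ j x) = lmap κ j (lact κ t x) := by
  induction x using TensorProduct.induction_on with
  | zero => simp
  | tmul a x => simp only [lmap_tmul, lact_tmul, h]
  | add x y hx hy => simp only [map_add, hx, hy]

theorem lact_lmap_fixed {s : Aut M} (h : ∀ x, s (j x) = j x) (x : κ ⊗[ℚ] E) :
    lact κ s (lmap κ j x) = lmap κ j x := by
  rw [lact_lmap (t := 1) h, lact_one]

theorem IsFix.exists_lmap (hN : IsFix j N) {x : κ ⊗[ℚ] M} (hx : ∀ s ∈ N, lact κ s x = x) :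
    ∃ y, lmap κ j y = x := by
  have := Fintype.ofFinite N
  have key : ∀ x : κ ⊗[ℚ] M, ∃ y, lmap κ j y = ∑ s : N, lact κ s.1 x := by
    intro x
    induction x using TensorProduct.induction_on with
    | zero => exact ⟨0, by simp⟩
    | tmul a m =>
      obtain ⟨y, hy⟩ := (hN (∑ s : N, s.1 m)).1 fun t ht => by
        rw [map_sum]
        exact Fintype.sum_equiv (Equiv.mulLeft (⟨t, ht⟩ : N)) _ _ fun _ => rfl
      exact ⟨a ⊗ₜ y, by simp only [lmap_tmul, lact_tmul, hy, TensorProduct.tmul_sum]⟩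
    | add x y hx hy =>
      obtain ⟨x', hx⟩ := hx
      obtain ⟨y', hy⟩ := hy
      exact ⟨x' + y', by simp only [map_add, hx, hy, Finset.sum_add_distrib]⟩
  obtain ⟨y, hy⟩ := key x
  have := algebraRat.charZero κ
  refine ⟨(Fintype.card N : κ)⁻¹ • y, ?_⟩
  rw [map_smul, hy, Finset.sum_congr rfl fun s _ => hx s.1 s.2, Finset.sum_const, Finset.card_univ,
    ← Nat.cast_smul_eq_nsmul κ, inv_smul_smul₀ (Nat.cast_ne_zero.2 Fintype.card_ne_zero)]

theorem IsFix.exists_umap (hN : IsFix j N) {x : (κ ⊗[ℚ] M)ˣ} (hx : ∀ s ∈ N, uact κ s x = x) :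
    ∃ y, umap κ j y = x := by
  obtain ⟨y, hy⟩ := hN.exists_lmap (x := x.1) fun s hs => congrArg Units.val (hx s hs)
  obtain ⟨z, hz⟩ := hN.exists_lmap (x := (x⁻¹).1) fun s hs =>
    congrArg Units.val ((map_inv (uact κ s) x).trans (congrArg _ (hx s hs)))
  have e : y * z = 1 := lmap_injective κ j (by rw [map_mul, hy, hz, map_one, Units.mul_inv])
  exact ⟨⟨y, z, e, (mul_comm _ _).trans e⟩, Units.ext hy⟩

theorem sm_lmap_iff {p : ℕ} [Fact p.Prime] (n : ℕ) (x : Ap p E) :
    Sm n (lmap ℚ_[p] j x) ↔ Sm n x := by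
  have i := fun y => isIntegral_algHom_iff ((lmap ℚ_[p] j).restrictScalars ℤ_[p])
    (lmap_injective _ j) (x := y)
  refine ⟨fun ⟨y, hy, e⟩ => ?_, fun ⟨y, hy, e⟩ => ⟨_, (i y).2 hy, ?_⟩⟩
  · obtain ⟨z, rfl⟩ := ((isUnit_p (p := p) (M := E)).pow n).dvd (a := x)
    rw [map_mul, map_pow, map_natCast] at e
    rw [← ((isUnit_p (p := p) (M := M)).pow n).mul_left_cancel e] at hy
    exact ⟨z, (i z).1 hy, rfl⟩
  · rw [e, map_mul, map_pow, map_natCast]
    rfl

theorem umap_mem_iff {p : ℕ} [Fact p.Prime] (x : (Ap p E)ˣ) :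
    umap ℚ_[p] j x ∈ IntU p M ↔ x ∈ IntU p E := by
  have i := fun y => isIntegral_algHom_iff ((lmap ℚ_[p] j).restrictScalars ℤ_[p])
    (lmap_injective _ j) (x := y)
  exact ⟨fun h => ⟨(i _).1 h.1, (i _).1 h.2⟩, umap_mem j⟩

theorem uact_iterate (s : Aut M) (i : ℕ) (x : (κ ⊗[ℚ] M)ˣ) :
    (uact κ s)^[i] x = uact κ (s ^ i) x := by
  induction i with
  | zero => exact Units.ext (lact_one κ _).symm
  | succ i ih =>
    rw [Function.iterate_succ_apply', ih, pow_succ']
    exact Units.ext (lact_mul κ _ _ _).symm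

theorem uact_one (x : (κ ⊗[ℚ] M)ˣ) : uact κ (1 : Aut M) x = x := Units.ext (lact_one κ _)

theorem gact_iterate (s : Aut M) (i : ℕ) (x : Mˣ) : (gact s)^[i] x = gact (s ^ i) x := by
  induction i with
  | zero => rfl
  | succ i ih =>
    rw [Function.iterate_succ_apply', ih, pow_succ']
    rfl

theorem uact_incU (s : Aut M) (x : Mˣ) : uact κ s (incU κ M x) = incU κ M (gact s x) := rfl

end Local

theorem exists_fix (N : Subgroup (Aut M)) : ∃ (E : Type) (_ : Field E) (_ : NumberField E)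
    (_ : Algebra E M), IsFix (algebraMap E M) N :=
  ⟨IntermediateField.fixedField N, inferInstance, inferInstance, inferInstance, fun x =>
    ⟨fun h => ⟨⟨x, (IntermediateField.mem_fixedField_iff N x).2 h⟩, rfl⟩, fun ⟨y, h⟩ =>
      h ▸ (IntermediateField.mem_fixedField_iff N y.1).1 y.2⟩⟩

theorem isFix_zpowers {j : E →+* M} {σ : Aut M} (h : ∀ x : M, σ x = x ↔ ∃ y, j y = x) :
    IsFix j (Subgroup.zpowers σ) := fun x => forall_zpowers.trans (h x)

theorem IsFix.zpowers {j : E →+* M} {σ : Aut M} (h : IsFix j (Subgroup.zpowers σ)) (x : M) :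
    σ x = x ↔ ∃ y, j y = x := forall_zpowers.symm.trans (h x)

theorem IsFix.mem_iff {j : E →+* M} {N : Subgroup (Aut M)} (hN : IsFix j N) (s : Aut M) :
    s ∈ N ↔ ∀ y, s (j y) = j y := by
  refine ⟨fun h y => (hN _).2 ⟨y, rfl⟩ s h, fun h => ?_⟩
  rw [← IntermediateField.fixingSubgroup_fixedField N, IntermediateField.mem_fixingSubgroup_iff]
  intro x hx
  obtain ⟨y, rfl⟩ := (hN x).1 ((IntermediateField.mem_fixedField_iff N x).1 hx)
  exact h y

theorem IsFix.exists_res {j : E →+* M} {N : Subgroup (Aut M)} (hN : IsFix j N) {σ : Aut M}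
    (h : ∀ n ∈ N, σ⁻¹ * n * σ ∈ N) : ∃ τ : Aut E, ∀ x, σ (j x) = j (τ x) := by
  choose τ hτ using fun x => (hN (σ (j x))).1 fun n hn => by
    have := congrArg σ ((hN (j x)).2 ⟨x, rfl⟩ _ (h n hn))
    rwa [← AlgEquiv.mul_apply, ← mul_assoc, ← mul_assoc, mul_inv_cancel, one_mul] at this
  let t : E →+* E :=
    { toFun := τ
      map_one' := j.injective (by simp only [hτ, map_one])
      map_mul' := fun x y => j.injective (by simp only [hτ, map_mul])
      map_zero' := j.injective (by simp only [hτ, map_zero])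
      map_add' := fun x y => j.injective (by simp only [hτ, map_add]) }
  exact ⟨AlgEquiv.ofBijective t.toRatAlgHom (Algebra.IsAlgebraic.algHom_bijective _),
    fun x => (hτ x).symm⟩

theorem isFix_top [IsGalois ℚ M] : IsFix (algebraMap ℚ M) ⊤ := fun x =>
  ⟨fun h => (IsGalois.mem_range_algebraMap_iff_fixed x).2 fun s => h s (Subgroup.mem_top s),
    fun h s _ => (IsGalois.mem_range_algebraMap_iff_fixed x).1 h s⟩

theorem hilbert90 (N : Subgroup (Aut M)) (c : Aut M → Mˣ)
    (hc : ∀ s ∈ N, ∀ t ∈ N, c (s * t) = c s * gact s (c t)) :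
    ∃ z : Mˣ, ∀ s ∈ N, c s = gact s z * z⁻¹ := by
  have := Fintype.ofFinite N
  obtain ⟨b, y, hy⟩ := exists_unit (RingHom.id M) (fun s : N => s.1) Subtype.val_injective
    fun s => c s.1
  refine ⟨y⁻¹, fun s hs => ?_⟩
  rw [map_inv, inv_inv, eq_inv_mul_iff_mul_eq, mul_comm]
  refine Units.ext ?_
  rw [Units.val_mul, gact_val, hy, map_sum, Finset.mul_sum]
  refine Fintype.sum_equiv (Equiv.mulLeft (⟨s, hs⟩ : N)) _ _ fun t => ?_
  rw [map_mul, ← mul_assoc]
  exact congrArg (fun z : Mˣ => z.1 * s (t.1 b)) (hc s hs t.1 t.2).symm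

variable {l : ℕ} {σ : Aut M}

theorem h1_uact (κ : Type) [Field κ] [Algebra ℚ κ] (hl : l.Prime) (hσ : σ ^ l = 1) (h1' : σ ≠ 1) :
    h1 (uact κ σ) l = 1 := by
  have := Fact.mk hl
  have := IsArtinianRing.of_finite κ (κ ⊗[ℚ] M)
  have : Nonempty (Fin l) := ⟨⟨0, hl.pos⟩⟩
  refine h1_eq_one_iff.2 fun x hx => ?_
  obtain ⟨b, y, hy⟩ := exists_unit (inc κ M) (fun i : Fin l => σ ^ i.1)
    (fun i i' e => Fin.ext (pow_injOn_Iio_orderOf (x := σ)
      (by rw [orderOf_eq_prime hσ h1']; exact i.2) (by rw [orderOf_eq_prime hσ h1']; exact i'.2) e))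
    fun i => Nm (uact κ σ) i.1 x
  refine ⟨y⁻¹, ?_⟩
  rw [map_inv, inv_div_inv, div_eq_iff_eq_mul]
  refine Units.ext ?_
  rw [Fin.sum_univ_eq_sum_range (fun i => (Nm (uact κ σ) i x).1 * inc κ M ((σ ^ i) b))] at hy
  have e := (Finset.sum_range_succ (fun i => (Nm (uact κ σ) i x).1 * inc κ M ((σ ^ i) b)) l).symm.trans
    (Finset.sum_range_succ' _ l)
  rw [hx, hσ, pow_zero, show Nm (uact κ σ) 0 x = 1 from rfl, add_left_inj] at e
  rw [Units.val_mul, uact_val, hy, map_sum, Finset.mul_sum, e]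
  refine Finset.sum_congr rfl fun i _ => ?_
  have k : Nm (uact κ σ) (i + 1) x = x * uact κ σ (Nm (uact κ σ) i x) := by
    rw [Nm_apply, Nm_apply, Finset.prod_range_succ', map_prod, mul_comm]
    simp only [Function.iterate_succ_apply', Function.iterate_zero_apply]
  rw [k, map_mul, pow_succ', Units.val_mul, mul_assoc]
  rfl

theorem h1_pact {κ : Type} [Field κ] [Algebra ℚ κ] (hl : l.Prime) (hσ : σ ^ l = 1) (h1' : σ ≠ 1)
    {e : κ ⊗[ℚ] M} (he : IsIdempotentElem e) (hs : lact κ σ e = e) : h1 (pact σ hs) l = 1 := by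
  refine h1_retract (Pc e).subtype ((pcj he).codRestrict (Pc e) (pcj_mem he)) (fun x => ?_)
    (fun _ => rfl) (fun x => ?_) (h1_uact κ hl hσ h1')
  · refine Subtype.ext (Units.ext ?_)
    have := mem_Pc.1 x.2
    change e * x.1.1 + (1 - e) = x.1.1
    linear_combination -this
  · refine Subtype.ext (Units.ext ?_)
    change e * lact κ σ x.1 + (1 - e) = lact κ σ (e * x.1 + (1 - e))
    rw [map_add, map_mul, map_sub, map_one, hs]

end Pool.Agent.Lib.CFT
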