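import Pool.Agent.Lib.CFT.Herb3
import Pool.Agent.Lib.CFT.Tr1

/-! CFT-Glo1: the Herbrand quotient of the `S`-units. -/

namespace Pool.Agent.Lib.CFT

open scoped TensorProduct
open NumberField
open Pool.Agent.P.MP_9ec3f0_nt.SY

variable {M : Type} [Field M] [NumberField M] {l : ℕ} {σ : Aut M}

namespace Glo1Aux

open NumberField.Units NumberField.Units.dirichletUnitTheorem

/-- The action on the primes as a homomorphism to the permutations. -/
noncomputable def cjH (M : Type) [Field M] [NumberField M] : Aut M →* Equiv.Perm (Pr M) :=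
  MonoidHom.toHomPerm
    { toFun := fun s => (cj s : Function.End (Pr M))
      map_one' := funext cj_one
      map_mul' := fun s t => funext (cj_mul s t) }

theorem cjH_apply (s : Aut M) (w : Pr M) : cjH M s w = cj s w := rfl

/-- The permutation of the places. -/
noncomputable def pl (σ : Aut M) {X : Finset (Pr M)} (hX : ∀ w, cj σ w ∈ X ↔ w ∈ X) :
    Equiv.Perm (X ⊕ InfinitePlace M) :=
  Equiv.Perm.sumCongrHom _ _ ((cjH M σ).subtypePerm hX, MulAction.toPermHom (Aut M) _ σ)

theorem pl_pow (hσ : σ ^ l = 1) {X : Finset (Pr M)} (hX : ∀ w, cj σ w ∈ X ↔ w ∈ X) :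
    pl σ hX ^ l = 1 := by
  have h1 : ((cjH M σ).subtypePerm hX : Equiv.Perm X) ^ l = 1 := by
    refine (Equiv.Perm.subtypePerm_pow _ _ _).trans (Equiv.ext fun x => Subtype.ext ?_)
    change (cjH M σ ^ l) x.1 = x.1
    rw [← map_pow, hσ, map_one]
    rfl
  rw [pl, ← map_pow, Prod.pow_mk, h1, ← map_pow, hσ, map_one]
  exact map_one _

theorem card_fix {X : Finset (Pr M)} (hX : ∀ w, cj σ w ∈ X ↔ w ∈ X) :
    Nat.card {x // pl σ hX x = x} = Nat.card {w : Pr M // w ∈ X ∧ cj σ w = w} +
      Nat.card {w : InfinitePlace M // σ • w = w} := by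
  rw [Nat.card_congr Equiv.subtypeSum, Nat.card_sum]
  congr 1
  · refine Nat.card_congr
      { toFun := fun x => ⟨x.1.1, x.1.2, congrArg Subtype.val (Sum.inl.inj x.2)⟩
        invFun := fun x => ⟨⟨x.1, x.2.1⟩, congrArg Sum.inl (Subtype.ext x.2.2)⟩
        left_inv := fun _ => rfl
        right_inv := fun _ => rfl }
  · exact Nat.card_congr (Equiv.subtypeEquivRight fun w => Sum.inr_injective.eq_iff)

/-- The logarithmic map. -/
noncomputable def lam (X : Finset (Pr M)) (a : SU X × Multiplicative ℤ) :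
    X ⊕ InfinitePlace M → ℝ :=
  Sum.elim (fun w => (ord w.1 (a.1.1 : M) : ℝ))
    (fun w => Real.log (w (a.1.1 : M)) + (a.2.toAdd : ℝ))

theorem lam_mul (X : Finset (Pr M)) (a b : SU X × Multiplicative ℤ) :
    lam X (a * b) = lam X a + lam X b := by
  funext x
  rcases x with w | w
  · simp [lam, ord_mul w.1 (Units.ne_zero _) (Units.ne_zero _)]
  · have h1 : w (a.1.1 : M) ≠ 0 := (InfinitePlace.pos_iff.2 (Units.ne_zero _)).ne'
    have h2 : w (b.1.1 : M) ≠ 0 := (InfinitePlace.pos_iff.2 (Units.ne_zero _)).ne'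
    simp [lam, Real.log_mul h1 h2]
    ring

theorem coeff_zero (c : InfinitePlace M → ℝ) (h1 : ∑ w, c w = 0)
    (h2 : ∀ u : (𝓞 M)ˣ, ∑ w, c w * Real.log (w (u : M)) = 0) : c = 0 := by
  classical
  have hm : ∀ w : InfinitePlace M, (0 : ℝ) < w.mult := fun w => by
    exact_mod_cast InfinitePlace.mult_pos
  set t := c w₀ / (w₀ : InfinitePlace M).mult with ht
  let ψ : logSpace M →ₗ[ℝ] ℝ := ∑ w : {w : InfinitePlace M // w ≠ w₀},
    (c w / w.1.mult - t) • LinearMap.proj w
  have hψ : ∀ g, ψ g = ∑ w : {w : InfinitePlace M // w ≠ w₀}, (c w / w.1.mult - t) * g w := by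
    intro g
    simp [ψ]
  have h3 : Submodule.span ℝ (unitLattice M : Set (logSpace M)) ≤ LinearMap.ker ψ := by
    rw [Submodule.span_le]
    rintro _ ⟨u, -, rfl⟩
    have e1 := sum_logEmbedding_component (Additive.toMul u)
    have e2 := h2 (Additive.toMul u)
    rw [Fintype.sum_eq_add_sum_subtype_ne _ w₀] at e2
    change ψ (logEmbedding M (Additive.ofMul (Additive.toMul u))) = 0
    rw [hψ]
    simp only [sub_mul, Finset.sum_sub_distrib, ← Finset.mul_sum, e1]
    have e3 : ∀ w : {w : InfinitePlace M // w ≠ w₀},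
        c w / w.1.mult * logEmbedding M (Additive.ofMul (Additive.toMul u)) w =
          c w * Real.log (w.1 (Additive.toMul u : (𝓞 M)ˣ)) := fun w => by
      rw [logEmbedding_component]
      have := (hm w).ne'
      field_simp
    simp only [e3]
    have := (hm w₀).ne'
    have e4 : t * (w₀ : InfinitePlace M).mult = c w₀ := by rw [ht]; field_simp
    linear_combination e2 + Real.log ((w₀ : InfinitePlace M) (Additive.toMul u : (𝓞 M)ˣ)) * e4
  rw [unitLattice_span_eq_top] at h3
  have h4 : ∀ w, c w = t * w.mult := fun w => by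
    have := (hm w).ne'
    by_cases hw : w = w₀
    · rw [hw, ht]
      have := (hm w₀).ne'
      field_simp
    · have e := h3 (Submodule.mem_top (x := Pi.single ⟨w, hw⟩ 1))
      rw [LinearMap.mem_ker, hψ, Finset.sum_eq_single ⟨w, hw⟩ (fun b _ hb => by simp [hb])
        (by simp)] at e
      simp only [Pi.single_eq_same, mul_one, sub_eq_zero] at e
      rw [← e]
      field_simp
  have h5 : t = 0 := by
    simp only [h4, ← Finset.mul_sum] at h1
    exact (mul_eq_zero.1 h1).resolve_right
      (Finset.sum_pos (fun w _ => hm w) Finset.univ_nonempty).ne'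
  funext w
  simp [h4, h5]

theorem lam_span (X : Finset (Pr M)) : Submodule.span ℝ (Set.range (lam X)) = ⊤ := by
  classical
  by_contra hne
  obtain ⟨f, hf0, hf⟩ := Submodule.exists_le_ker_of_lt_top _ (lt_top_iff_ne_top.2 hne)
  set c : X ⊕ InfinitePlace M → ℝ := fun y => f (Pi.single y 1) with hc
  have hfc : ∀ g, f g = ∑ y, g y * c y := fun g => by
    rw [LinearMap.pi_apply_eq_sum_univ]
    refine Finset.sum_congr rfl fun y _ => ?_
    rw [smul_eq_mul, hc]
    congr 2
    funext j
    simp [Pi.single_apply, eq_comm]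
  have h0 : ∀ a, ∑ y, lam X a y * c y = 0 := fun a =>
    (hfc _).symm.trans (hf (Submodule.subset_span ⟨a, rfl⟩))
  have h1 : (fun w => c (Sum.inr w)) = 0 := by
    refine coeff_zero _ ?_ fun u => ?_
    · simpa [lam, Fintype.sum_sum_type, ord_one] using h0 (1, Multiplicative.ofAdd 1)
    · have := h0 (Additive.toMul (SUnitAux.unitMap X (Additive.ofMul u)), 1)
      simpa [lam, Fintype.sum_sum_type, SUnitAux.unitMap_apply, SUnitAux.ord_unit, mul_comm]
        using this
  have h2 : ∀ v : X, c (Sum.inl v) = 0 := fun v => by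
    obtain ⟨x, hx0, hx1, hx2⟩ := SUnitAux.exists_pure v.1
    have := h0 (⟨Units.mk0 x hx0, (mem_SU X _).2 fun w hw => hx2 w fun h => hw (h ▸ v.2)⟩, 1)
    rw [Fintype.sum_sum_type, Finset.sum_eq_single v (fun b _ hb => by
      simp [lam, hx2 b.1 fun h => hb (Subtype.ext h)]) (by simp),
      Finset.sum_eq_zero fun w _ => by rw [congrFun h1 w]; simp] at this
    simpa [lam, hx1] using this
  refine hf0 (LinearMap.ext fun g => ?_)
  rw [hfc]
  refine Finset.sum_eq_zero fun y _ => ?_
  rcases y with v | w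
  · rw [h2, mul_zero]
  · rw [congrFun h1 w]
    simp

/-- The splitting of the additive group. -/
noncomputable def spl (A : Type) [CommGroup A] :
    Additive (A × Multiplicative ℤ) ≃ₗ[ℤ] Additive A × ℤ :=
  AddEquiv.toIntLinearEquiv
    { toFun := fun x => (Additive.ofMul x.toMul.1, x.toMul.2.toAdd)
      invFun := fun x => Additive.ofMul (x.1.toMul, Multiplicative.ofAdd x.2)
      left_inv := fun _ => rfl
      right_inv := fun _ => rfl
      map_add' := fun _ _ => rfl }

theorem finrank_prod_int (N : Type) [AddCommGroup N] [Module.Finite ℤ N] :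
    Module.finrank ℤ (N × ℤ) = Module.finrank ℤ N + 1 := by
  rw [← Submodule.finrank_quotient_add_finrank (LinearMap.ker (LinearMap.snd ℤ N ℤ)),
    ((LinearMap.snd ℤ N ℤ).quotKerEquivOfSurjective Prod.snd_surjective).finrank_eq,
    ← LinearMap.range_inl, LinearMap.finrank_range_of_inj LinearMap.inl_injective,
    Module.finrank_self, add_comm]

theorem herbQ_left {A : Type} [CommGroup A] {α : A →* A} (hl : l ≠ 0) {q : ℚ}
    (hβ : ∀ a, (α.prodMap (MonoidHom.id (Multiplicative ℤ)))^[l] a = a)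
    (key : HerbQ (α.prodMap (MonoidHom.id (Multiplicative ℤ))) l q) : HerbQ α l (q / l) := by
  refine HerbQ.left (f := MonoidHom.inl A (Multiplicative ℤ))
    (g := MonoidHom.snd A (Multiplicative ℤ)) (fun _ _ e => congrArg Prod.fst e)
    Prod.snd_surjective ?_ (fun _ => rfl) (fun _ => rfl) hβ key (herbQ_int hl)
  ext x
  constructor
  · rintro ⟨a, rfl⟩
    rfl
  · exact fun hx => ⟨x.1, Prod.ext rfl (Eq.symm hx)⟩

end Glo1Aux

open Glo1Aux

theorem gact_mem_SU {X : Finset (Pr M)} (hX : ∀ w, cj σ w ∈ X ↔ w ∈ X) :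
    ∀ x ∈ SU X, gact σ x ∈ SU X := by
  intro x hx
  rw [mem_SU] at hx ⊢
  intro v hv
  obtain ⟨w, rfl⟩ := (cjH M σ).surjective v
  rw [cjH_apply] at hv ⊢
  rw [gact_val, ord_cj]
  exact hx w fun h => hv ((hX w).2 h)

theorem herbQ_su (hl : l.Prime) (hσ : σ ^ l = 1) (X : Finset (Pr M))
    (hX : ∀ w, cj σ w ∈ X ↔ w ∈ X) (h : ∀ x ∈ SU X, gact σ x ∈ SU X) :
    HerbQ (resS (gact σ) (SU X) h) l ((l : ℚ) ^ (Nat.card {w : Pr M // w ∈ X ∧ cj σ w = w} +
      Nat.card {w : InfinitePlace M // σ • w = w}) / l) := by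
  have hfin := su_finite X
  have : Module.Finite ℤ (Additive (SU X × Multiplicative ℤ)) :=
    Module.Finite.equiv (spl (SU X)).symm
  have hβ : ∀ a, ((resS (gact σ) (SU X) h).prodMap (MonoidHom.id (Multiplicative ℤ)))^[l] a = a := by
    intro a
    rw [MonoidHom.coe_prodMap, Prod.map_iterate]
    refine Prod.ext (Subtype.ext ?_) (by simp)
    rw [Prod.map_fst, resS_iterate, gact_iterate, hσ]
    rfl
  have key := herbQ_lattice hl (pl_pow hσ hX) hβ (lam X) (lam_mul X) (fun a x => by
      rcases x with w | w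
      · exact congrArg Int.cast (ord_cj σ w.1 _)
      · change Real.log (w (σ.symm (σ _))) + _ = _
        rw [σ.symm_apply_apply]
        rfl) (lam_span X) (by
      rw [(spl (SU X)).finrank_eq, finrank_prod_int, su_finrank, Fintype.card_sum,
        Fintype.card_coe, Units.rank]
      have := Fintype.card_pos (α := InfinitePlace M)
      omega)
  rw [card_fix] at key
  exact herbQ_left hl.ne_zero hβ key

theorem index_pow_su (hl : l.Prime) {ζ : M} (hζ : IsPrimitiveRoot ζ l) (X : Finset (Pr M)) :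
    (powMonoidHom l : SU X →* SU X).range.index = l ^ (Units.rank M + 1 + X.card) := by
  have hfin := su_finite X
  have : NeZero l := ⟨hl.ne_zero⟩
  have h1 := SUnitAux.index_nsmul (Additive (SU X)) hl.ne_zero
  have h2 : Nat.card (nsmulAddMonoidHom (α := Additive (SU X)) l).ker = l := by
    refine Eq.trans (Nat.card_congr ?_) hζ.card_rootsOfUnity
    exact
      { toFun := fun x => ⟨x.1.toMul.1, congrArg (fun y : Additive (SU X) => y.toMul.1) x.2⟩
        invFun := fun x => ⟨Additive.ofMul ⟨x.1, (mem_SU X _).2 fun v _ => by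
          have e := ord_pow v (x.1 : M) l
          rw [(mem_rootsOfUnity' l x.1).1 x.2, ord_one] at e
          exact (mul_eq_zero.1 e.symm).resolve_left (by exact_mod_cast hl.ne_zero)⟩,
          Additive.toMul.injective (Subtype.ext x.2)⟩
        left_inv := fun _ => rfl
        right_inv := fun _ => rfl }
  rw [h2, ← pow_succ, su_finrank] at h1
  rw [add_right_comm, ← h1, ← Subgroup.index_toAddSubgroup]
  rfl

end Pool.Agent.Lib.CFT
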