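import Pool.Agent.Lib.CFT.Loc5
import Pool.Agent.Lib.CFT.Tr1
import Pool.Agent.P.MP_3c2f8c_gt.NT.WA

/-! CFT-Inf: the infinite places; weak approximation. -/

namespace Pool.Agent.Lib.CFT

open scoped TensorProduct
open NumberField
open Pool.Agent.P.MP_9ec3f0_nt.SY

variable {M : Type} [Field M] [NumberField M] {l : ℕ}

theorem exists_mix (M : Type) [Field M] [NumberField M] :
    ∃ φ : Ai M ≃ₐ[ℝ] mixedEmbedding.mixedSpace M, ∀ m, φ (inc ℝ M m) = mixedEmbedding M m := by
  let f : Ai M →ₐ[ℝ] mixedEmbedding.mixedSpace M := Algebra.TensorProduct.lift (Algebra.ofId ℝ _)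
    (mixedEmbedding M).toRatAlgHom fun _ _ => Commute.all _ _
  have hf : ∀ m, f (inc ℝ M m) = mixedEmbedding M m := fun m =>
    (Algebra.TensorProduct.lift_tmul ..).trans (by rw [map_one, one_mul]; rfl)
  have h : f.toLinearMap = ((Algebra.TensorProduct.basis ℝ (integralBasis M)).equiv
      (mixedEmbedding.latticeBasis M) (Equiv.refl _)).toLinearMap :=
    (Algebra.TensorProduct.basis ℝ (integralBasis M)).ext fun i => by
      rw [LinearEquiv.coe_coe, Module.Basis.equiv_apply, Algebra.TensorProduct.basis_apply,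
        mixedEmbedding.latticeBasis_apply]
      exact hf _
  refine ⟨AlgEquiv.ofBijective f ?_, hf⟩
  rw [← f.coe_toLinearMap, h]
  exact LinearEquiv.bijective _

namespace InfAux

open InfinitePlace

/-- Evaluation at a complex embedding. -/
noncomputable def ev (ψ : M →+* ℂ) : Ai M →ₐ[ℝ] ℂ :=
  Algebra.TensorProduct.lift (Algebra.ofId ℝ ℂ) ψ.toRatAlgHom fun _ _ => Commute.all _ _

theorem ev_tmul (ψ : M →+* ℂ) (a : ℝ) (m : M) : ev ψ (a ⊗ₜ m) = a * ψ m := rfl

theorem ev_lact (ψ : M →+* ℂ) (σ : Aut M) (x : Ai M) :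
    ev ψ (lact ℝ σ x) = ev (ψ.comp σ) x := by
  induction x using TensorProduct.induction_on with
  | zero => simp
  | tmul a m => rfl
  | add x y hx hy => simp only [map_add, hx, hy]

theorem ev_conj (ψ : M →+* ℂ) (x : Ai M) :
    ev (ComplexEmbedding.conjugate ψ) x = starRingEnd ℂ (ev ψ x) := by
  induction x using TensorProduct.induction_on with
  | zero => simp
  | tmul a m => simp [ev_tmul]
  | add x y hx hy => simp only [map_add, hx, hy]

variable (M) in
/-- The isomorphism with the mixed space. -/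
noncomputable def mix : Ai M ≃ₐ[ℝ] mixedEmbedding.mixedSpace M := (exists_mix M).choose

theorem mix_tmul (a : ℝ) (m : M) : mix M (a ⊗ₜ m) = a • mixedEmbedding M m := by
  rw [← (exists_mix M).choose_spec, mix, ← map_smul]
  simp [TensorProduct.smul_tmul']

theorem ev_real (w : {w : InfinitePlace M // IsReal w}) (x : Ai M) :
    ev w.1.embedding x = (mix M x).1 w := by
  induction x using TensorProduct.induction_on with
  | zero => simp
  | tmul a m => simp [ev_tmul, mix_tmul]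
  | add x y hx hy => simp [hx, hy]

theorem ev_complex (w : {w : InfinitePlace M // IsComplex w}) (x : Ai M) :
    ev w.1.embedding x = (mix M x).2 w := by
  induction x using TensorProduct.induction_on with
  | zero => simp
  | tmul a m => simp [ev_tmul, mix_tmul]
  | add x y hx hy => simp [hx, hy]

theorem ev_ext {x y : Ai M} (h : ∀ ψ, ev ψ x = ev ψ y) : x = y :=
  (mix M).injective (Prod.ext
    (funext fun w => Complex.ofReal_injective (by rw [← ev_real, ← ev_real, h]))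
    (funext fun w => by rw [← ev_complex, ← ev_complex, h]))

theorem exists_ev (f : InfinitePlace M → ℝ) : ∃ x : Ai M, ∀ ψ, ev ψ x = f (mk ψ) := by
  refine ⟨(mix M).symm (fun w => f w, fun w => f w), fun ψ => ?_⟩
  have h : ev (mk ψ).embedding ((mix M).symm (fun w => f w, fun w => f w)) = f (mk ψ) := by
    rcases (mk ψ).isReal_or_isComplex with h | h
    · rw [ev_real ⟨_, h⟩, AlgEquiv.apply_symm_apply]
    · rw [ev_complex ⟨_, h⟩, AlgEquiv.apply_symm_apply]
  rcases embedding_mk_eq ψ with e | e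
  · rwa [e] at h
  · rw [e, ev_conj] at h
    simpa using congrArg (starRingEnd ℂ) h

theorem root (hl : l ≠ 0) (x : (Ai M)ˣ) (h : ∀ w, Odd l ∨ 0 < (mix M x).1 w) :
    ∃ y, y ^ l = x := by
  have h1 : ∀ w, ∃ r : ℝ, r ^ l = (mix M x).1 w := fun w => by
    rcases le_total 0 ((mix M x).1 w) with h0 | h0
    · exact ⟨_, Real.rpow_inv_natCast_pow h0 hl⟩
    · exact ⟨-_, by rw [((h w).resolve_right h0.not_gt).neg_pow,
        Real.rpow_inv_natCast_pow (neg_nonneg.2 h0) hl, neg_neg]⟩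
  choose r hr using h1
  choose c hc using fun w => IsAlgClosed.exists_pow_nat_eq ((mix M x).2 w) (Nat.pos_of_ne_zero hl)
  have h2 : (mix M).symm (r, c) ^ l = x := by
    rw [← map_pow, AlgEquiv.symm_apply_eq]
    exact Prod.ext (funext hr) (funext hc)
  obtain ⟨y, hy⟩ := (isUnit_pow_iff hl).1 (h2 ▸ x.isUnit)
  exact ⟨y, Units.ext (by rw [Units.val_pow_eq_pow_val, hy, h2])⟩

/-- The sign of a real character. -/
noncomputable def sg {A : Type} [Group A] (c : A → ℝ) (h1 : c 1 = 1)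
    (hm : ∀ x y, c (x * y) = c x * c y) : A →* ℤˣ :=
  MonoidHom.mk' (fun x => if 0 < c x then 1 else -1) fun x y => by
    have h0 : ∀ x, c x ≠ 0 := fun x =>
      left_ne_zero_of_mul_eq_one ((hm x x⁻¹).symm.trans (by rw [mul_inv_cancel, h1]))
    rw [hm]
    rcases (h0 x).lt_or_gt with h | h <;> rcases (h0 y).lt_or_gt with h' | h' <;>
      simp [mul_pos_iff, h, h', h.not_gt, h'.not_gt]

theorem approx (S : Finset Nat.Primes) (x : ∀ p : Nat.Primes, Ap p.1 M) (j : Nat.Primes → ℕ)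
    (u : (Ai M)ˣ) : ∃ m : M, (∀ p ∈ S, Sm (j p) (x p - inc ℚ_[p] M m)) ∧
      ∀ ψ, 0 < (ev ψ (inc ℝ M m * (u⁻¹).1)).re := by
  let b := Algebra.TensorProduct.basis ℝ (integralBasis M)
  let L := LinearMap.pi fun ψ : M →+* ℂ => Complex.reLm ∘ₗ (ev ψ).toLinearMap ∘ₗ
    LinearMap.mulRight ℝ (u⁻¹).1 ∘ₗ b.equivFun.symm.toLinearMap
  obtain ⟨ε, h0, hε⟩ := Metric.continuous_iff.1 L.continuous_of_finiteDimensional (b.equivFun u) 1
    one_pos
  have h1 : ∀ᶠ δ : ℝ in nhdsWithin 0 (Set.Ioi 0), 0 < δ ∧ δ < ε ∧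
      ∀ p ∈ S, δ < (p : ℝ) ^ (-(j p : ℤ)) :=
    Filter.Eventually.and self_mem_nhdsWithin (eventually_nhdsWithin_of_eventually_nhds
      (Filter.Eventually.and (gt_mem_nhds h0) ((Filter.eventually_all_finset S).2 fun p _ =>
        gt_mem_nhds (zpow_pos (Nat.cast_pos.2 p.2.pos) _))))
  obtain ⟨δ, h1, h2, h3⟩ := h1.exists
  choose q hq hq' using fun i => P.MP_3c2f8c_gt.rat_approx S
    (fun p => (Algebra.TensorProduct.basis ℚ_[p] (integralBasis M)).repr (x p) i) (b.repr u i) h1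
  have h4 : ∀ (κ : Type) [Field κ] [Algebra ℚ κ] i, (Algebra.TensorProduct.basis κ
      (integralBasis M)).repr (inc κ M ((integralBasis M).equivFun.symm q)) i = q i := by
    intro κ _ _ i
    refine (DFunLike.congr_fun (Algebra.TensorProduct.basis_repr_tmul _ _ _) i).trans ?_
    rw [one_smul, Finsupp.mapRange_apply, ← Module.Basis.equivFun_apply,
      LinearEquiv.apply_symm_apply, eq_ratCast]
  refine ⟨(integralBasis M).equivFun.symm q, fun p hp => (sm_iff_repr _ _).2 fun i => ?_,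
    fun ψ => ?_⟩
  · rw [map_sub, Finsupp.sub_apply, h4, norm_sub_rev]
    exact ((hq i p hp).trans (h3 p hp)).le
  · have h5 := (dist_pi_lt_iff one_pos).1 (hε (b.equivFun (inc ℝ M
      ((integralBasis M).equivFun.symm q))) ((dist_pi_lt_iff h0).2 fun i => by
        rw [b.equivFun_apply, h4]
        exact (hq' i).trans h2)) ψ
    simp only [L, LinearMap.pi_apply, LinearMap.comp_apply, LinearEquiv.coe_coe,
      LinearEquiv.symm_apply_apply, LinearMap.mulRight_apply, Units.mul_inv,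
      AlgHom.toLinearMap_apply, map_one, Complex.reLm_coe, Complex.one_re, Real.dist_eq] at h5
    linarith [(abs_lt.1 h5).1]

end InfAux

open InfAux InfinitePlace

theorem index_pow_inf (hl : l.Prime) :
    (powMonoidHom l : (Ai M)ˣ →* (Ai M)ˣ).range.index ≠ 0 ∧
    (powMonoidHom l : (Ai M)ˣ →* (Ai M)ˣ).range.index ≤
      if l = 2 then 2 ^ InfinitePlace.nrRealPlaces M else 1 := by
  classical
  split_ifs with h
  · let s : (Ai M)ˣ →* {w : InfinitePlace M // IsReal w} → ℤˣ := MonoidHom.pi fun w =>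
      sg (fun x => (mix M x.1).1 w) (by simp) fun x y => by simp
    have h1 : (powMonoidHom l : (Ai M)ˣ →* (Ai M)ˣ).range.index ∣ Nat.card s.range := by
      rw [← Subgroup.index_ker]
      refine Subgroup.index_dvd_of_le fun x hx => root hl.ne_zero x fun w => Or.inr ?_
      by_contra h2
      have h3 : (if 0 < (mix M x.1).1 w then 1 else -1 : ℤˣ) = 1 :=
        congrFun (MonoidHom.mem_ker.1 hx) w
      exact absurd ((if_neg h2).symm.trans h3) (by decide)
    refine ⟨ne_zero_of_dvd_ne_zero Nat.card_pos.ne' h1, (Nat.le_of_dvd Nat.card_pos h1).trans ?_⟩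
    refine (Subgroup.card_le_card_group _).trans_eq ?_
    simp
  · rw [MonoidHom.range_eq_top.2 fun x => root hl.ne_zero x fun _ =>
      Or.inl (hl.odd_of_ne_two h), Subgroup.index_top]
    simp

theorem exists_pow_inf [IsTotallyComplex M] (hl : l ≠ 0) (x : (Ai M)ˣ) : ∃ y, y ^ l = x :=
  root hl x fun w => (not_isReal_iff_isComplex.2 (IsTotallyComplex.isComplex w.1) w.2).elim

theorem herbQ_inf {σ : Aut M} (hl : l.Prime) (hσ : σ ^ l = 1) (h1' : σ ≠ 1) :
    ∃ q : ℚ, (l : ℚ) ^ Nat.card {w : InfinitePlace M // σ • w = w} ≤ q ∧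
      HerbQ (uact ℝ σ) l q := by
  classical
  have h0' : h0 (uact ℝ σ) l ≠ 0 := by
    obtain ⟨k, _, _, _, hk⟩ := exists_fix (Subgroup.zpowers σ)
    have h2 : ∀ y, uact ℝ σ (umap ℝ (algebraMap k M) y) = umap ℝ (algebraMap k M) y := fun y =>
      Units.ext (lact_lmap_fixed (fun x => (hk.zpowers _).2 ⟨x, rfl⟩) _)
    have h3 : (umap ℝ (algebraMap k M)).range = (Dm (uact ℝ σ)).ker := by
      ext x
      rw [MonoidHom.mem_ker, Dm_apply, div_eq_one]
      refine ⟨fun ⟨y, hy⟩ => hy ▸ h2 y, fun hx => hk.exists_umap fun s hs => ?_⟩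
      obtain ⟨i, rfl⟩ := mem_powers_iff_mem_zpowers.2 hs
      rw [← uact_iterate]
      exact Function.iterate_fixed hx i
    rw [h0, ← h3, ← Subgroup.index_comap]
    refine fun e => (index_pow_inf (M := k) hl).1 (zero_dvd_iff.1 (e ▸ Subgroup.index_dvd_of_le ?_))
    rintro _ ⟨y, rfl⟩
    exact ⟨_, (Nm_of_fixed (h2 y)).trans (map_pow _ _ _).symm⟩
  refine ⟨h0 (uact ℝ σ) l, ?_, h0', by simp [h1_uact ℝ hl hσ h1'], by simp [h1_uact ℝ hl hσ h1']⟩
  rcases isEmpty_or_nonempty {w : InfinitePlace M // σ • w = w} with h | ⟨⟨w₀⟩⟩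
  · simpa using Nat.one_le_iff_ne_zero.2 h0'
  have hc : ∀ w : {w : InfinitePlace M // σ • w = w}, ComplexEmbedding.IsConj w.1.embedding σ :=
    fun w => ((mem_stabilizer_mk_iff _ _).1 (by rw [mk_embedding]; exact w.2)).resolve_left h1'
  obtain rfl : l = 2 := (orderOf_eq_prime_iff (hp := ⟨hl⟩).2 ⟨hσ, h1'⟩).symm.trans
    (ComplexEmbedding.orderOf_isConj_two_of_ne_one (hc w₀) h1')
  have h4 : ∀ (w : {w : InfinitePlace M // σ • w = w}) x,
      ev w.1.embedding (lact ℝ σ x) = starRingEnd ℂ (ev w.1.embedding x) := fun w x => by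
    rw [ev_lact, ← hc w, ev_conj]
  have h5 : ∀ (w : {w : InfinitePlace M // σ • w = w}) (x : (Dm (uact ℝ σ)).ker),
      (ev w.1.embedding x.1.1).im = 0 := fun w x => by
    rw [← Complex.conj_eq_iff_im, ← h4]
    exact congrArg (fun y : (Ai M)ˣ => ev w.1.embedding y.1) (div_eq_one.1 x.2)
  let s : (Dm (uact ℝ σ)).ker →* {w : InfinitePlace M // σ • w = w} → ℤˣ := MonoidHom.pi fun w =>
    sg (fun x => (ev w.1.embedding x.1.1).re) (by simp) fun x y => by simp [h5]
  refine le_trans ?_ (Nat.cast_le.2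
    (card_le_h0 s (fun ε => ?_) (fun x ⟨y, hy⟩ => funext fun w => if_pos ?_) h0'))
  · rw [Nat.card_fun, Nat.card_eq_fintype_card (α := ℤˣ), Fintype.card_units_int, Nat.cast_pow]
  · obtain ⟨x, hx⟩ := exists_ev fun w : InfinitePlace M =>
      if h : σ • w = w then ((ε ⟨w, h⟩ : ℤ) : ℝ) else 1
    have h7 : x * x = 1 := ev_ext fun ψ => by
      rw [map_mul, hx, map_one]
      split_ifs with h
      · rw [← Complex.ofReal_mul, ← Int.cast_mul, ← Units.val_mul, Int.units_mul_self]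
        simp
      · simp
    refine ⟨⟨⟨x, x, h7, h7⟩, div_eq_one.2 (Units.ext (ev_ext fun ψ => ?_))⟩, funext fun w => ?_⟩
    · change ev ψ (lact ℝ σ x) = ev ψ x
      rw [ev_lact, hx, hx, show mk (ψ.comp σ) = σ⁻¹ • mk ψ from rfl]
      by_cases h : σ • mk ψ = mk ψ
      · rw [inv_smul_eq_iff.2 h.symm]
      · rw [dif_neg h, dif_neg fun e => h (eq_inv_smul_iff.1 ((smul_inv_smul _ _).symm.trans e))]
    · change (if 0 < (ev w.1.embedding x).re then 1 else -1) = _
      simp only [hx, mk_embedding, dif_pos w.2, Complex.ofReal_re]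
      rcases Int.units_eq_one_or (ε w) with e | e <;> simp [e]
  · beta_reduce
    rw [← hy, Nm_apply, Finset.prod_range_succ, Finset.prod_range_one]
    simp only [Function.iterate_zero, Function.iterate_one, id, Units.val_mul, map_mul, uact_val, h4,
      Complex.mul_conj, Complex.ofReal_re]
    exact Complex.normSq_pos.2 (y.isUnit.map _).ne_zero

theorem norm_pos_inf [IsTotallyComplex M] [IsGalois ℚ M] (z : (Ai M)ˣ) {r : ℝ}
    (h : (∏ s : Aut M, uact ℝ s z).1 = r ⊗ₜ 1) : 0 < r := by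
  obtain ⟨y, rfl⟩ := exists_pow_inf two_ne_zero z
  obtain ⟨t, ht⟩ := isFix_top.exists_umap (x := ∏ s : Aut M, uact ℝ s y) fun t _ => by
    rw [map_prod]
    exact Fintype.prod_equiv (Equiv.mulLeft t) _ _ fun s => Units.ext (lact_mul _ _ _ _).symm
  obtain ⟨r', hr⟩ := (Algebra.TensorProduct.rid ℚ ℝ ℝ).symm.surjective t.1
  obtain ⟨ψ⟩ : Nonempty (M →+* ℂ) := inferInstance
  have h1 : ev ψ (umap ℝ (algebraMap ℚ M) t).1 = r' := by
    rw [umap_val, ← hr]
    simp [ev_tmul]
  have h2 : (r' : ℂ) ≠ 0 := h1 ▸ ((Units.isUnit _).map _).ne_zero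
  simp only [map_pow, Finset.prod_pow, ← ht] at h
  have h3 := congrArg (ev ψ) h
  rw [Units.val_pow_eq_pow_val, map_pow, h1, ev_tmul, map_one, mul_one] at h3
  rw [← (by exact_mod_cast h3 : r' ^ 2 = r)]
  exact pow_pos (abs_pos.2 (Complex.ofReal_ne_zero.1 h2)) 2 |>.trans_eq (sq_abs _)

theorem approx_sm (S : Finset Nat.Primes) (x : ∀ p : Nat.Primes, Ap p.1 M) (j : ℕ) :
    ∃ m : M, ∀ p ∈ S, Sm j (x p - inc ℚ_[p] M m) :=
  (approx S x (fun _ => j) 1).imp fun _ h => h.1

theorem approx_pow (hl : l.Prime) (S : Finset Nat.Primes) (x : Amb M) : ∃ m : Mˣ,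
    (∀ p ∈ S, ∃ y, x.1 p = incU ℚ_[p] M m * y ^ l) ∧ ∃ y, x.2 = incU ℝ M m * y ^ l := by
  choose n hn using fun p : Nat.Primes => exists_isIntegral_mul ((x.1 p)⁻¹).1
  obtain ⟨m, h1, h2⟩ := approx S (fun p => x.1 p) (fun p => 3 + n p) x.2
  obtain ⟨ψ⟩ : Nonempty (M →+* ℂ) := inferInstance
  have h0 : m ≠ 0 := fun e => by simpa [e] using h2 ψ
  have key : ∀ {G : Type} [CommGroup G] {a b y : G}, y ^ l = a * b⁻¹ → ∃ y, b = a * y ^ l :=
    fun {_} _ a b y h => ⟨y⁻¹, by rw [inv_pow, h, mul_inv_rev, inv_inv, mul_comm b, mul_inv_cancel_left]⟩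
  refine ⟨Units.mk0 m h0, fun p hp => ?_, ?_⟩
  · obtain ⟨y, hy, e⟩ := h1 p hp
    obtain ⟨z, -, hz, -⟩ := exists_pow_of_sm hl (x := incU ℚ_[p] M (Units.mk0 m h0) * (x.1 p)⁻¹)
      ⟨_, (hy.mul (hn p)).neg, by
        have := (x.1 p).mul_inv
        change inc ℚ_[p] M m * _ - 1 = _
        linear_combination this - ((x.1 p)⁻¹).1 * e⟩
    exact key hz
  · obtain ⟨y, hy⟩ := root hl.ne_zero (incU ℝ M (Units.mk0 m h0) * x.2⁻¹) fun w => Or.inr <| by
      have := h2 w.1.embedding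
      rwa [ev_real] at this
    exact key hy

end Pool.Agent.Lib.CFT
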