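import Pool.Agent.Lib.CFT.Herb2

/-! CFT-Herb3: permutation modules and lattices. -/

namespace Pool.Agent.Lib.CFT

variable {l : ℕ} {X : Type} [Fintype X] {π : Equiv.Perm X}

namespace Herb3Aux

open Finset

omit [Fintype X] in
theorem iter_l (hπ : π ^ l = 1) (x : X) : π.symm^[l] x = x := by
  have h : (π⁻¹ ^ l) x = x := by rw [inv_pow, hπ, inv_one, Equiv.Perm.one_apply]
  rwa [Equiv.Perm.coe_pow] at h

omit [Fintype X] in
theorem perm_iter (i : ℕ) (f : Multiplicative (X → ℤ)) (x : X) :
    ((permH π)^[i] f).toAdd x = f.toAdd (π.symm^[i] x) := by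
  induction i generalizing x with
  | zero => rfl
  | succ i ih =>
    rw [Function.iterate_succ_apply', Function.iterate_succ_apply, ← ih]
    rfl

omit [Fintype X] in
theorem perm_l (hπ : π ^ l = 1) (f : Multiplicative (X → ℤ)) : (permH π)^[l] f = f :=
  Multiplicative.toAdd.injective (funext fun x => by rw [perm_iter, iter_l hπ])

omit [Fintype X] in
theorem nm_perm (f : Multiplicative (X → ℤ)) (x : X) :
    (Nm (permH π) l f).toAdd x = ∑ i ∈ range l, f.toAdd (π.symm^[i] x) := by
  rw [Nm_apply, toAdd_prod, Finset.sum_apply]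
  exact sum_congr rfl fun i _ => perm_iter i f x

theorem exists_idx (hl : l.Prime) (hπ : π ^ l = 1) : ∃ idx : X → ℕ, ∀ x, π.symm x ≠ x →
    idx x < l ∧ (∀ i < l, idx (π.symm^[i] x) = 0 ↔ i = idx x) ∧
      (idx x = idx (π.symm x) + 1 ∨ idx x = 0 ∧ idx (π.symm x) + 1 = l) := by
  let s := Equiv.Perm.SameCycle.setoid π⁻¹
  let rep : X → X := fun x => (Quotient.mk s x).out
  have h1 : ∀ x, ∃ i < l, π.symm^[i] x = rep x := fun x => by
    obtain ⟨i, hi, e⟩ := Equiv.Perm.SameCycle.exists_pow_eq' (s.symm (Quotient.mk_out (s := s) x))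
    refine ⟨i, hi.trans_le (orderOf_le_of_pow_eq_one hl.pos ?_), ?_⟩
    · rw [inv_pow, hπ, inv_one]
    · rwa [Equiv.Perm.coe_pow] at e
  have h2 : ∀ x, rep (π.symm x) = rep x := fun x =>
    congrArg Quotient.out (Quotient.sound (s := s) (Equiv.Perm.SameCycle.refl π⁻¹ x).apply_left)
  have h3 : ∀ i x, rep (π.symm^[i] x) = rep x := fun i x => by
    induction i with
    | zero => rfl
    | succ i ih => rw [Function.iterate_succ_apply', h2, ih]
  choose idx hi he using h1
  have h4 : ∀ x, π.symm x ≠ x → ∀ i < l, π.symm^[i] x = rep x → i = idx x := fun x hx i h e => by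
    have := Fact.mk hl
    have hm : Function.minimalPeriod π.symm x = l :=
      Function.minimalPeriod_eq_prime_iff.2 ⟨iter_l hπ x, hx⟩
    exact (Function.iterate_eq_iterate_iff_of_lt_minimalPeriod (hm ▸ h) (hm ▸ hi x)).1
      (e.trans (he x).symm)
  refine ⟨idx, fun x hx => ⟨hi x, fun i h => ⟨fun e => h4 x hx i h ?_, fun e => ?_⟩, ?_⟩⟩
  · have := he (π.symm^[i] x)
    rw [e, h3] at this
    exact this
  · refine (h4 _ (fun a => hx ?_) 0 hl.pos ?_).symm
    · rw [← Function.iterate_succ_apply' π.symm, Function.iterate_succ_apply] at a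
      exact π.symm.injective.iterate i a
    · rw [h3, e]
      exact he x
  · have e : π.symm^[idx (π.symm x) + 1] x = rep x := by
      rw [Function.iterate_succ_apply, he, h2]
    rcases (Nat.succ_le_of_lt (hi (π.symm x))).lt_or_eq with h | h
    · exact Or.inl (h4 x hx _ h e).symm
    · rw [show idx (π.symm x) + 1 = l from h, iter_l hπ] at e
      exact Or.inr ⟨(h4 x hx 0 hl.pos e).symm, h⟩

theorem exists_one (hl : l.Prime) (hπ : π ^ l = 1) {f : X → ℤ}
    (h : ∀ x, ∑ i ∈ range l, f (π.symm^[i] x) = 0) :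
    ∃ g : X → ℤ, (∀ x, π.symm x = x → g x = 0) ∧ ∀ x, g (π.symm x) - g x = f x := by
  obtain ⟨idx, hi⟩ := exists_idx hl hπ
  have h0 : ∀ x, π.symm x = x → f x = 0 := fun x hx => by
    have := h x
    simp only [Function.iterate_fixed hx, sum_const, card_range, nsmul_eq_mul] at this
    exact (mul_eq_zero.1 this).resolve_left (Nat.cast_ne_zero.2 hl.ne_zero)
  refine ⟨fun x => -∑ i ∈ range (idx x), f (π.symm^[i] x), fun x hx => ?_, fun x => ?_⟩
  · simp only [Function.iterate_fixed hx, h0 x hx, sum_const_zero, neg_zero]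
  · by_cases hx : π.symm x = x
    · rw [hx, sub_self, h0 x hx]
    · have e := sum_range_succ' (fun i => f (π.symm^[i] x)) (idx (π.symm x))
      simp only [Function.iterate_succ_apply, Function.iterate_zero_apply] at e
      rcases (hi x hx).2.2 with a | ⟨a, b⟩
      · dsimp only
        rw [a, e]
        ring
      · rw [b, h x] at e
        dsimp only
        rw [a, sum_range_zero]
        linarith

theorem exists_zero (hl : l.Prime) (hπ : π ^ l = 1) {f : X → ℤ} (h0 : ∀ x, π.symm x = x → f x = 0)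
    (h : ∀ x, f (π.symm x) = f x) : ∃ g : X → ℤ, (∀ x, π.symm x = x → g x = 0) ∧
      ∀ x, ∑ i ∈ range l, g (π.symm^[i] x) = f x := by
  obtain ⟨idx, hi⟩ := exists_idx hl hπ
  have h1 : ∀ i x, f (π.symm^[i] x) = f x := fun i x => by
    induction i with
    | zero => rfl
    | succ i ih => rw [Function.iterate_succ_apply', h, ih]
  refine ⟨fun x => if idx x = 0 then f x else 0, fun x hx => by simp only [h0 x hx, ite_self],
    fun x => ?_⟩
  by_cases hx : π.symm x = x
  · simp only [h1, h0 x hx, ite_self, sum_const_zero]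
  · rw [sum_eq_single_of_mem (idx x) (mem_range.2 (hi x hx).1) fun i hi' e =>
      if_neg fun a => e (((hi x hx).2.1 i (mem_range.1 hi')).1 a)]
    rw [if_pos (((hi x hx).2.1 _ (hi x hx).1).2 rfl), h1]

/-- Restriction to the fixed points. -/
def res (π : Equiv.Perm X) : Multiplicative (X → ℤ) →* ({x // π x = x} → Multiplicative ℤ) where
  toFun f x := Multiplicative.ofAdd (f.toAdd x.1)
  map_one' := rfl
  map_mul' _ _ := rfl

omit [Fintype X] in
theorem mem_ker {f : Multiplicative (X → ℤ)} :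
    f ∈ (res π).ker ↔ ∀ x, π.symm x = x → f.toAdd x = 0 :=
  ⟨fun h x hx => congrFun h ⟨x, (π.symm_apply_eq.1 hx).symm⟩,
    fun h => funext fun x => h x.1 (π.symm_apply_eq.2 x.2.symm)⟩

omit [Fintype X] in
theorem ker_stable : ∀ f ∈ (res π).ker, permH π f ∈ (res π).ker := fun f hf =>
  mem_ker.2 fun x hx => (congrArg f.toAdd hx).trans (mem_ker.1 hf x hx)

theorem herbQ_ker (hl : l.Prime) (hπ : π ^ l = 1) :
    HerbQ (resS (permH π) (res π).ker ker_stable) l 1 := by
  have hN : ∀ (f : (res π).ker) x, (Nm (resS (permH π) (res π).ker ker_stable) l f).1.toAdd x =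
      ∑ i ∈ range l, f.1.toAdd (π.symm^[i] x) := fun f x => by
    rw [← nm_perm]
    exact congrArg (fun g : Multiplicative (X → ℤ) => g.toAdd x)
      (map_Nm (α := resS (permH π) (res π).ker ker_stable) (β := permH π) (res π).ker.subtype
        (fun _ => rfl) f)
  have a : h0 (resS (permH π) (res π).ker ker_stable) l = 1 := h0_eq_one_iff.2 fun f hf => by
    obtain ⟨g, g0, g1⟩ := exists_zero hl hπ (mem_ker.1 f.2)
      fun x => congrArg (fun g : (res π).ker => g.1.toAdd x) hf
    exact ⟨⟨Multiplicative.ofAdd g, mem_ker.2 g0⟩, Subtype.ext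
      (Multiplicative.toAdd.injective (funext fun x => (hN _ x).trans (g1 x)))⟩
  have b : h1 (resS (permH π) (res π).ker ker_stable) l = 1 := h1_eq_one_iff.2 fun f hf => by
    obtain ⟨g, g0, g1⟩ := exists_one hl hπ (f := f.1.toAdd) fun x => by
      rw [← hN, hf]
      rfl
    exact ⟨⟨Multiplicative.ofAdd g, mem_ker.2 g0⟩, Subtype.ext
      (Multiplicative.toAdd.injective (funext g1))⟩
  rw [HerbQ, a, b]
  norm_num

theorem approx {B : Type} [AddCommGroup B] (Λ : B →+ (X → ℝ)) {v : X → ℝ}
    (hv : v ∈ Submodule.span ℝ (Set.range Λ)) : ∃ r, ∀ t : ℝ, ∃ a, ‖Λ a - t • v‖ ≤ r := by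
  induction hv using Submodule.span_induction with
  | mem v hv =>
    obtain ⟨a, rfl⟩ := hv
    refine ⟨‖Λ a‖, fun t => ⟨⌊t⌋ • a, ?_⟩⟩
    rw [map_zsmul, ← Int.cast_smul_eq_zsmul ℝ, ← sub_smul, norm_smul, Real.norm_eq_abs]
    refine mul_le_of_le_one_left (norm_nonneg _) (abs_le.2 ⟨?_, ?_⟩)
    · linarith [Int.lt_floor_add_one t]
    · linarith [Int.floor_le t]
  | zero => exact ⟨0, fun t => ⟨0, by simp⟩⟩
  | add v w _ _ hv hw =>
    obtain ⟨r, hr⟩ := hv
    obtain ⟨r', hr'⟩ := hw
    refine ⟨r + r', fun t => ?_⟩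
    obtain ⟨a, ha⟩ := hr t
    obtain ⟨b, hb⟩ := hr' t
    refine ⟨a + b, ?_⟩
    rw [map_add, smul_add, add_sub_add_comm]
    exact norm_add_le_of_le ha hb
  | smul c v _ hv =>
    obtain ⟨r, hr⟩ := hv
    exact ⟨r, fun t => by simpa only [smul_smul] using hr (t * c)⟩

theorem inj [DecidableEq X] {B : Type} [AddCommGroup B] (Λ : B →+ (X → ℝ)) (Y : X → B) {T R : ℝ}
    (h : ∀ x, ‖Λ (Y x) - T • Pi.single x (1 : ℝ)‖ ≤ R) (hT : Fintype.card X * R < T) (h0 : 0 ≤ R) :
    Function.Injective (Fintype.linearCombination ℤ Y) := by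
  refine (injective_iff_map_eq_zero _).2 fun f hf => ?_
  let F : X → ℝ := fun x => f x
  have e1 : ∑ x, F x • Λ (Y x) = 0 := by
    have := congrArg Λ hf
    rw [Fintype.linearCombination_apply, map_sum, map_zero] at this
    simpa only [map_zsmul, F, Int.cast_smul_eq_zsmul] using this
  have e2 : ∑ x, F x • (Λ (Y x) - T • Pi.single x (1 : ℝ)) = -(T • F) := by
    simp only [smul_sub, sum_sub_distrib, e1, zero_sub, smul_comm (F _) T, ← smul_sum]
    rw [← pi_eq_sum_univ' F]
  have hT0 : 0 ≤ T := (mul_nonneg (Nat.cast_nonneg _) h0).trans hT.le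
  have e3 : T * ‖F‖ ≤ Fintype.card X * R * ‖F‖ := by
    rw [← Real.norm_of_nonneg hT0, ← norm_smul, ← norm_neg, ← e2]
    refine (norm_sum_le _ _).trans ((sum_le_card_nsmul _ _ (R * ‖F‖) fun x _ => ?_).trans_eq ?_)
    · rw [norm_smul, mul_comm]
      exact mul_le_mul (h x) (norm_le_pi_norm F x) (norm_nonneg _) h0
    · rw [card_univ, nsmul_eq_mul, mul_assoc]
  have e4 : F = 0 := norm_le_zero_iff.1 (by nlinarith [norm_nonneg F])
  exact funext fun x => Int.cast_eq_zero.1 (congrFun e4 x)

end Herb3Aux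

open Herb3Aux Finset

theorem h1_perm (hl : l.Prime) (hπ : π ^ l = 1) : h1 (permH π) l = 1 := h1_eq_one_iff.2 fun f hf => by
  obtain ⟨g, -, g1⟩ := exists_one hl hπ (f := f.toAdd) fun x => by
    rw [← nm_perm, hf]
    rfl
  exact ⟨Multiplicative.ofAdd g, Multiplicative.toAdd.injective (funext g1)⟩

theorem herbQ_perm (hl : l.Prime) (hπ : π ^ l = 1) :
    HerbQ (permH π) l ((l : ℚ) ^ Nat.card {x // π x = x}) := by
  classical
  have h := herbQ_pi (ι := {x // π x = x}) (fun _ => MonoidHom.id (Multiplicative ℤ))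
    (fun _ x => Function.iterate_fixed rfl l) (fun _ => l) fun _ => herbQ_int hl.ne_zero
  rw [prod_const, card_univ, ← Nat.card_eq_fintype_card] at h
  rw [← one_mul ((l : ℚ) ^ _)]
  refine HerbQ.mid (f := (res π).ker.subtype) (g := res π) Subtype.val_injective (fun c => ?_)
    (Subgroup.range_subtype _) (fun _ => rfl) (fun f => funext fun x => ?_) (perm_l hπ)
    (herbQ_ker hl hπ) h
  · exact ⟨Multiplicative.ofAdd fun x => if hx : π x = x then (c ⟨x, hx⟩).toAdd else 0,
      funext fun x => congrArg Multiplicative.ofAdd (dif_pos x.2)⟩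
  · exact congrArg (fun z => Multiplicative.ofAdd (f.toAdd z)) (π.symm_apply_eq.2 x.2.symm)

/-- A finitely generated group that maps onto a full lattice of the real permutation module has
the Herbrand quotient of the integral permutation module. -/
theorem herbQ_lattice {A : Type} [CommGroup A] [Module.Finite ℤ (Additive A)] {σ : A →* A}
    (hl : l.Prime) (hπ : π ^ l = 1) (hσ : ∀ a, σ^[l] a = a) (lam : A → X → ℝ)
    (hadd : ∀ a b, lam (a * b) = lam a + lam b) (heq : ∀ a x, lam (σ a) (π x) = lam a x)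
    (hspan : Submodule.span ℝ (Set.range lam) = ⊤)
    (hrk : Module.finrank ℤ (Additive A) ≤ Fintype.card X) :
    HerbQ σ l ((l : ℚ) ^ Nat.card {x // π x = x}) := by
  classical
  let Λ : Additive A →+ (X → ℝ) := AddMonoidHom.mk' (fun a => lam a.toMul) fun a b => hadd _ _
  have hr : ∀ x : X, ∃ r, ∀ t : ℝ, ∃ a, ‖Λ a - t • Pi.single x (1 : ℝ)‖ ≤ r := fun x =>
    approx Λ (by
      rw [show Set.range Λ = Set.range lam from Additive.toMul.surjective.range_comp lam, hspan]
      trivial)
  choose r hr using hr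
  obtain ⟨R, hR⟩ := (Set.finite_range r).bddAbove
  choose a ha using fun x => hr x (Fintype.card X * |R| + 1)
  let y : X → A := fun x => ∏ i ∈ range l, σ^[i] (a (π.symm^[i] x)).toMul
  have hy : ∀ x, y (π x) = σ (y x) := fun x => by
    have e := (prod_range_succ (fun i => σ^[i] (a (π.symm^[i] (π x))).toMul) l).symm.trans
      (prod_range_succ' _ l)
    rw [hσ, iter_l hπ] at e
    refine (mul_right_cancel e).trans ?_
    simp only [y, map_prod, Function.iterate_succ_apply' σ, Function.iterate_succ_apply π.symm,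
      Equiv.symm_apply_apply]
  have hi : ∀ i b z, lam (σ^[i] b) z = lam b (π.symm^[i] z) := fun i b z => by
    induction i generalizing z with
    | zero => rfl
    | succ i ih =>
      rw [Function.iterate_succ_apply', Function.iterate_succ_apply, ← ih, ← heq _ (π.symm z),
        Equiv.apply_symm_apply]
  have hl0 : (0 : ℝ) < l := Nat.cast_pos.2 hl.pos
  have hinj := inj Λ (fun x => Additive.ofMul (y x)) (T := l * (Fintype.card X * |R| + 1))
    (R := l * |R|) (fun x => ?_) (by nlinarith) (by positivity)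
  · let ψ := Fintype.linearCombination ℤ fun x => Additive.ofMul (y x)
    let Ψ : Multiplicative (X → ℤ) →* A :=
      MonoidHom.mk' (fun f => (ψ f.toAdd).toMul) fun f g => congrArg Additive.toMul (map_add ψ _ _)
    have hΨ : ∀ f, Ψ f = ∏ x, y x ^ f.toAdd x := fun f => by
      change (ψ f.toAdd).toMul = _
      rw [Fintype.linearCombination_apply, toMul_sum]
      rfl
    have hf : Finite (Additive A ⧸ LinearMap.range ψ) := by
      refine Module.finite_of_fg_torsion _ (Module.finrank_eq_zero_iff_isTorsion.1 ?_)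
      have := Submodule.finrank_quotient_add_finrank (LinearMap.range ψ)
      rw [LinearMap.finrank_range_of_inj hinj, Module.finrank_fintype_fun_eq_card] at this
      omega
    refine (herbQ_iff Ψ (fun f => ?_) (perm_l hπ) hσ ?_ ?_).1 (herbQ_perm hl hπ)
    · rw [hΨ, hΨ, map_prod, ← Equiv.prod_comp π]
      refine prod_congr rfl fun x _ => ?_
      rw [hy, map_zpow]
      exact congrArg (fun z => σ (y x) ^ f.toAdd z) (π.symm_apply_apply x)
    · rw [(MonoidHom.ker_eq_bot_iff Ψ).2 fun f g e =>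
        Multiplicative.toAdd.injective (hinj (Additive.toMul.injective e))]
      infer_instance
    · have e : Subgroup.toAddSubgroup Ψ.range = (LinearMap.range ψ).toAddSubgroup :=
        AddSubgroup.ext fun b => ⟨fun ⟨f, e⟩ => ⟨f.toAdd, congrArg Additive.ofMul e⟩,
          fun ⟨f, e⟩ => ⟨Multiplicative.ofAdd f, congrArg Additive.toMul e⟩⟩
      rw [← Subgroup.index_toAddSubgroup, e]
      exact (Nat.card_pos (α := Additive A ⧸ LinearMap.range ψ)).ne'
  · refine (pi_norm_le_iff_of_nonneg (by positivity)).2 fun z => ?_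
    have e : (Λ (Additive.ofMul (y x)) - (l * (Fintype.card X * |R| + 1) : ℝ) •
        Pi.single x (1 : ℝ) : X → ℝ) z = ∑ i ∈ range l, (Λ (a (π.symm^[i] x)) -
          (Fintype.card X * |R| + 1 : ℝ) • Pi.single (π.symm^[i] x) (1 : ℝ) : X → ℝ)
            (π.symm^[i] z) := by
      simp only [y, ofMul_prod, map_sum, Pi.sub_apply, Finset.sum_apply, Pi.smul_apply,
        sum_sub_distrib, Pi.single_apply, (π.symm.injective.iterate _).eq_iff, sum_const,
        card_range, nsmul_eq_mul, smul_eq_mul, mul_assoc]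
      exact congrArg (· - _) (sum_congr rfl fun i _ => hi i _ z)
    rw [e]
    refine (norm_sum_le _ _).trans ((sum_le_card_nsmul _ _ |R| fun i _ => ?_).trans_eq ?_)
    · exact (norm_le_pi_norm _ _).trans ((ha _).trans ((hR ⟨_, rfl⟩).trans (le_abs_self R)))
    · rw [card_range, nsmul_eq_mul]

end Pool.Agent.Lib.CFT
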