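import Pool.Agent.Lib.CFT.Loc3
import Pool.Agent.Lib.CFT.Herb2

/-! CFT-Loc5: powers in the semi-local algebra. -/

namespace Pool.Agent.Lib.CFT

open scoped TensorProduct
open NumberField
open Pool.Agent.P.MP_9ec3f0_nt.SY

variable {p : ℕ} [Fact p.Prime] {M : Type} [Field M] [NumberField M]

namespace Loc5Aux

variable {l : ℕ}

theorem isIntegral_nat (n : ℕ) : IsIntegral ℤ_[p] (n : Ap p M) := by
  have h := isIntegral_algebraMap (R := ℤ_[p]) (A := Ap p M) (x := (n : ℤ_[p]))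
  rwa [map_natCast] at h

theorem integral_of_sm {j : ℕ} {y : Ap p M} (h : Sm j (y - 1)) : IsIntegral ℤ_[p] y := by
  have h2 := h.isIntegral.add isIntegral_one
  rwa [sub_add_cancel] at h2

theorem sm_pow_sub {j : ℕ} {a b : Ap p M} (ha : IsIntegral ℤ_[p] a) (hb : IsIntegral ℤ_[p] b)
    (h : Sm j (a - b)) (n : ℕ) : Sm j (a ^ n - b ^ n) := by
  induction n with
  | zero => simpa using sm_zero j
  | succ n ih =>
    have e : a ^ (n + 1) - b ^ (n + 1) = a * (a ^ n - b ^ n) + b ^ n * (a - b) := by ring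
    rw [e]
    exact (Sm.mul_left ha ih).add (Sm.mul_left (hb.pow n) h)

theorem sm_expand {i : ℕ} {y d : Ap p M} (hy : IsIntegral ℤ_[p] y) (hd : Sm i d) (n : ℕ) :
    Sm (i + i) ((y + d) ^ n - y ^ n - (n : Ap p M) * y ^ (n - 1) * d) := by
  obtain ⟨k, hk⟩ := Polynomial.powAddExpansion (R := integralClosure ℤ_[p] (Ap p M)) ⟨y, hy⟩
    ⟨d, hd.isIntegral⟩ n
  have h : (y + d) ^ n = y ^ n + n * y ^ (n - 1) * d + k.1 * d ^ 2 := by
    have h2 := congrArg Subtype.val hk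
    simpa using h2
  have e : (y + d) ^ n - y ^ n - n * y ^ (n - 1) * d = k.1 * (d * d) := by
    rw [h]; ring
  rw [e]
  exact Sm.mul_left k.2 (hd.mul hd)

theorem sm_key {i k : ℕ} {y d : Ap p M} (hy : Sm 1 (y - 1)) (hd : Sm i d)
    (hk : Sm k ((l : Ap p M) * d)) (hik : k + 1 ≤ i + i) :
    Sm (k + 1) ((y + d) ^ l - y ^ l - (l : Ap p M) * d) := by
  have hy0 := integral_of_sm hy
  have h1 := (sm_expand hy0 hd l).mono hik
  have h2 := hk.mul (sm_pow_sub hy0 isIntegral_one hy (l - 1))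
  have e : (y + d) ^ l - y ^ l - l * d =
      ((y + d) ^ l - y ^ l - l * y ^ (l - 1) * d) + l * d * (y ^ (l - 1) - 1 ^ (l - 1)) := by
    rw [one_pow]; ring
  rw [e]
  exact h1.add h2

/-- The valuation of `l` at `p`. -/
def eps (p l : ℕ) : ℕ := if p = l then 1 else 0

theorem eps_le (p l : ℕ) : eps p l ≤ 1 := by
  unfold eps
  split_ifs <;> omega

theorem sm_l_mul (hl : l.Prime) {j : ℕ} {a : Ap p M} :
    Sm (j + eps p l) ((l : Ap p M) * a) ↔ Sm j a := by
  unfold eps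
  split_ifs with h
  · subst h
    exact sm_p_mul
  · rw [add_zero]
    refine ⟨fun H => ?_, fun H => Sm.mul_left (isIntegral_nat l) H⟩
    have hu : IsUnit (l : ℤ_[p]) := by
      rw [PadicInt.isUnit_iff, PadicInt.norm_natCast_eq_one_iff]
      exact (Nat.coprime_primes Fact.out hl).2 h
    obtain ⟨v, hv⟩ := hu.exists_left_inv
    have h2 := Sm.mul_left (isIntegral_algebraMap (R := ℤ_[p]) (A := Ap p M) (x := v)) H
    have h3 : algebraMap ℤ_[p] (Ap p M) v * (l : Ap p M) = 1 := by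
      rw [← map_natCast (algebraMap ℤ_[p] (Ap p M)), ← map_mul, hv, map_one]
    rwa [← mul_assoc, h3, one_mul] at h2

theorem exists_linv (hl : l.Prime) : ∃ v : Ap p M, (l : Ap p M) * v = 1 := by
  refine ⟨algebraMap ℚ_[p] (Ap p M) (l : ℚ_[p])⁻¹, ?_⟩
  rw [← map_natCast (algebraMap ℚ_[p] (Ap p M)), ← map_mul,
    mul_inv_cancel₀ (Nat.cast_ne_zero.2 hl.ne_zero), map_one]

theorem root (hl : l.Prime) {x : Ap p M} (hx : Sm (2 + eps p l) (x - 1)) :
    ∃ y : Ap p M, Sm 2 (y - 1) ∧ y ^ l = x := by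
  obtain ⟨v, hv⟩ := exists_linv (p := p) (M := M) hl
  let y : ℕ → Ap p M := fun j => Nat.rec 1 (fun _ z => z + v * (x - z ^ l)) j
  have hs : ∀ j, y (j + 1) = y j + v * (x - y j ^ l) := fun j => rfl
  have hd : ∀ j, (l : Ap p M) * (v * (x - y j ^ l)) = x - y j ^ l := fun j => by
    rw [← mul_assoc, hv, one_mul]
  have hsm : ∀ j, Sm (j + 2 + eps p l) (x - y j ^ l) → Sm (j + 2) (v * (x - y j ^ l)) :=
    fun j h => (sm_l_mul hl).1 (by rwa [hd])
  have key : ∀ j, Sm 2 (y j - 1) ∧ Sm (j + 2 + eps p l) (x - y j ^ l) := by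
    intro j
    induction j with
    | zero =>
      have h0 : y 0 = 1 := rfl
      rw [h0, sub_self, one_pow, zero_add]
      exact ⟨sm_zero 2, hx⟩
    | succ j ih =>
      have h1 := hsm j ih.2
      constructor
      · have e : y (j + 1) - 1 = (y j - 1) + v * (x - y j ^ l) := by rw [hs]; ring
        rw [e]
        exact ih.1.add (h1.mono (by omega))
      · have h2 := sm_key (l := l) (ih.1.mono (by omega)) h1 (k := j + 2 + eps p l)
          (by rw [hd]; exact ih.2) (by have := eps_le p l; omega)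
        rw [hd, ← hs] at h2
        have e : x - y (j + 1) ^ l = -(y (j + 1) ^ l - y j ^ l - (x - y j ^ l)) := by ring
        rw [e]
        exact h2.neg.mono (by omega)
  obtain ⟨z, hz⟩ := exists_lim y fun j => by
    have e : y (j + 1) - y j = v * (x - y j ^ l) := by rw [hs]; ring
    rw [e]
    exact (hsm j (key j).2).mono (by omega)
  have hz2 : Sm 2 (z - 1) := by
    have e : z - 1 = (z - y 2) + (y 2 - 1) := by ring
    rw [e]
    exact (hz 2).add (key 2).1
  refine ⟨z, hz2, sub_eq_zero.1 (eq_zero_of_sm fun j => ?_)⟩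
  have e : z ^ l - x = (z ^ l - y j ^ l) - (x - y j ^ l) := by ring
  rw [e]
  exact (sm_pow_sub (integral_of_sm hz2) (integral_of_sm (key j).1) (hz j) l).sub
    ((key j).2.mono (by omega))

theorem root_unique (hl : l.Prime) {y z : Ap p M} (hy : Sm 2 (y - 1)) (hz : Sm 2 (z - 1))
    (h : y ^ l = z ^ l) : y = z := by
  have key : ∀ i, Sm (i + 2) (z - y) := by
    intro i
    induction i with
    | zero =>
      have e : z - y = (z - 1) - (y - 1) := by ring
      rw [e]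
      exact hz.sub hy
    | succ i ih =>
      have h2 := sm_key (l := l) (hy.mono (by omega)) ih ((sm_l_mul hl).2 ih)
        (by have := eps_le p l; omega)
      rw [add_sub_cancel, h, sub_self, zero_sub] at h2
      have h3 := h2.neg
      rw [neg_neg, show i + 2 + eps p l + 1 = i + 1 + 2 + eps p l by omega] at h3
      exact (sm_l_mul hl).1 h3
  exact (sub_eq_zero.1 (eq_zero_of_sm fun j => (key j).mono (by omega))).symm

theorem root_unit (hl : l.Prime) {x : (Ap p M)ˣ} (hx : Sm (2 + eps p l) (x.1 - 1)) :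
    ∃ y ∈ IntU p M, Sm 2 (y.1 - 1) ∧ y ^ l = x := by
  obtain ⟨y, hy, e⟩ := root hl hx
  obtain ⟨u, hu, rfl⟩ := exists_unit_of_sm (hy.mono (by omega : 1 ≤ 2))
  exact ⟨u, hu, hy, Units.ext (by rw [Units.val_pow_eq_pow_val, e])⟩

theorem sm_pow_p {i : ℕ} {y : Ap p M} (h : Sm (i + 1) (y - 1)) : Sm (i + 2) (y ^ p - 1) := by
  have h1 := (sm_expand isIntegral_one h p).mono (by omega : i + 2 ≤ i + 1 + (i + 1))
  have h2 := sm_p_mul.2 h
  have e : y ^ p - 1 = ((1 + (y - 1)) ^ p - 1 ^ p - p * 1 ^ (p - 1) * (y - 1)) + p * (y - 1) := by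
    rw [add_sub_cancel, one_pow, one_pow]; ring
  rw [e]
  exact h1.add h2

theorem exists_sm_pow {z : Ap p M} (hz : IsIntegral ℤ_[p] z) {n : ℕ} (hn : Sm 1 (z ^ n)) :
    ∃ r : ℕ, Sm 3 ((1 + z) ^ p ^ r - 1) := by
  have hp : p.Prime := Fact.out
  have hr : n ≤ p ^ n := (Nat.lt_pow_self hp.one_lt).le
  obtain ⟨k, hk⟩ := exists_add_pow_prime_pow_eq (R := integralClosure ℤ_[p] (Ap p M)) hp 1
    ⟨z, hz⟩ n
  have h : (1 + z) ^ p ^ n = 1 + z ^ p ^ n + p * z * k.1 := by
    have h2 := congrArg Subtype.val hk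
    simpa using h2
  have h1 : Sm 1 ((1 + z) ^ p ^ n - 1) := by
    have e : (1 + z) ^ p ^ n - 1 = z ^ (p ^ n - n) * z ^ n + p * (z * k.1) := by
      rw [h, ← pow_add, Nat.sub_add_cancel hr]; ring
    rw [e]
    exact (Sm.mul_left (hz.pow _) hn).add (sm_p_mul.2 (sm_zero_iff.2 (hz.mul k.2)))
  refine ⟨n + 2, ?_⟩
  have h3 := sm_pow_p (sm_pow_p (i := 0) h1)
  rwa [← pow_mul, ← pow_mul, ← pow_two, ← pow_add] at h3

theorem exists_val_pow {e : Ap p M} {a : M} (h : ∀ w, Sup e w → w.valuation M a < 1) :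
    ∃ n : ℕ, ∀ w, Sup e w → w.valuation M (a ^ (n + 1)) ≤ w.valuation M (p : M) ^ 1 := by
  have hp : (p : M) ≠ 0 := Nat.cast_ne_zero.2 (Fact.out : p.Prime).ne_zero
  have h1 : ∀ w : Pr M, ∃ n : ℕ, Sup e w → w.valuation M a ^ n ≤ w.valuation M (p : M) := by
    intro w
    by_cases hw : Sup e w
    · obtain ⟨n, hn⟩ := exists_pow_lt₀ (h w hw)
        (Units.mk0 (w.valuation M (p : M)) ((Valuation.ne_zero_iff _).2 hp))
      exact ⟨n, fun _ => hn.le⟩
    · exact ⟨0, fun h => absurd h hw⟩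
  choose n hn using h1
  obtain ⟨N, hN⟩ := ((finite_Ab p M).image n).bddAbove
  refine ⟨N, fun w hw => ?_⟩
  rw [pow_one, map_pow]
  have h2 : n w ≤ N := hN ⟨w, hw.1, rfl⟩
  exact (pow_le_pow_right_of_le_one' (h w hw).le (by omega)).trans (hn w hw)

theorem index_le_of {G T : Type} [Group G] [Finite T] (H : Subgroup G) (f : G → T)
    (hf : ∀ x y, f x = f y → x⁻¹ * y ∈ H) : H.index ≠ 0 ∧ H.index ≤ Nat.card T := by
  have hi : Function.Injective fun q : G ⧸ H => f q.out := fun q q' h => by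
    rw [← q.out_eq, ← q'.out_eq]
    exact QuotientGroup.eq.2 (hf _ _ h)
  have : Finite (G ⧸ H) := Finite.of_injective _ hi
  exact ⟨Subgroup.index_ne_zero_of_finite, Nat.card_le_card_of_injective _ hi⟩

variable (p M) in
/-- The units congruent to one modulo `p ^ 2`. -/
def V : Subgroup (Ap p M)ˣ where
  carrier := {x | Sm 2 (x.1 - 1)}
  one_mem' := by simpa using sm_zero 2
  mul_mem' := fun {x y} hx hy => by
    have e : (x * y).1 - 1 = x.1 * (y.1 - 1) + (x.1 - 1) := by rw [Units.val_mul]; ring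
    show Sm 2 ((x * y).1 - 1)
    rw [e]
    exact (Sm.mul_left (integral_of_sm hx) hy).add hx
  inv_mem' := fun {x} hx => Sm.inv_sub_one (j := 1) hx

theorem mem_V {x : (Ap p M)ˣ} : x ∈ V p M ↔ Sm 2 (x.1 - 1) := Iff.rfl

theorem V_le : V p M ≤ IntU p M := fun _ hx => mem_IntU_of_sm ((mem_V.1 hx).mono (by omega))

theorem sm_div {j : ℕ} {x y : (Ap p M)ˣ} (hx : x ∈ IntU p M) (h : Sm j (x.1 - y.1)) :
    Sm j ((x⁻¹ * y).1 - 1) := by
  have e : (x⁻¹ * y).1 - 1 = -((x⁻¹).1 * (x.1 - y.1)) := by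
    rw [Units.val_mul, mul_sub, Units.inv_mul]; ring
  rw [e]
  exact (Sm.mul_left hx.2 h).neg

theorem index_V : (Subgroup.inclusion (V_le (p := p) (M := M))).range.index ≠ 0 := by
  obtain ⟨s, hs⟩ := exists_reps (p := p) (M := M) 2
  choose f hf hf' using fun x : IntU p M => hs x.1.1 x.2.1
  refine (index_le_of _ (fun x => (⟨f x, hf x⟩ : s)) fun x y h => ?_).1
  rw [Subgroup.inclusion_range, Subgroup.mem_subgroupOf]
  have h1 : f x = f y := congrArg Subtype.val h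
  refine sm_div x.2 ?_
  have e : x.1.1 - y.1.1 = (x.1.1 - inc ℚ_[p] M (f x)) - (y.1.1 - inc ℚ_[p] M (f y)) := by
    rw [h1]; ring
  rw [e]
  exact (hf' x).sub (hf' y)

theorem exists_res0 : ∃ r : ℚ_[p] → ZMod p,
    ∀ a b, ‖a‖ ≤ 1 → ‖b‖ ≤ 1 → r a = r b → ‖a - b‖ < 1 := by
  classical
  have h0 : ∀ a : ℚ_[p], ∃ z : ℤ_[p], ‖a‖ ≤ 1 → (z : ℚ_[p]) = a := fun a => by
    by_cases h : ‖a‖ ≤ 1
    · exact ⟨⟨a, h⟩, fun _ => rfl⟩
    · exact ⟨0, fun h' => absurd h' h⟩
  choose z hz using h0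
  refine ⟨fun a => PadicInt.toZMod (z a), fun a b ha hb h => ?_⟩
  have h1 : PadicInt.toZMod (z a) = PadicInt.toZMod (z b) := h
  rwa [← sub_eq_zero, ← map_sub, ← RingHom.mem_ker, PadicInt.ker_toZMod,
    IsLocalRing.mem_maximalIdeal, PadicInt.mem_nonunits, PadicInt.norm_def, PadicInt.coe_sub,
    hz a ha, hz b hb] at h1

theorem exists_res : ∃ f : Ap p M → Module.Free.ChooseBasisIndex ℤ (𝓞 M) → ZMod p,
    ∀ a b, IsIntegral ℤ_[p] a → IsIntegral ℤ_[p] b → f a = f b → Sm 1 (a - b) := by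
  obtain ⟨r, hr⟩ := exists_res0 (p := p)
  refine ⟨fun a i => r ((Algebra.TensorProduct.basis ℚ_[p] (integralBasis M)).repr a i),
    fun a b ha hb h => ?_⟩
  rw [sm_iff_repr]
  intro i
  have h1 := hr _ _ ((isIntegral_iff_repr a).1 ha i) ((isIntegral_iff_repr b).1 hb i)
    (congrFun h i)
  rw [Padic.norm_le_pow_iff_norm_lt_pow_add_one, map_sub, Finsupp.sub_apply]
  simpa using h1

theorem mem_range_V (hl : l.Prime) {x : V p M} (hx : Sm (2 + eps p l) (x.1.1 - 1)) :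
    x ∈ (powMonoidHom l : V p M →* V p M).range := by
  obtain ⟨y, -, hy, e⟩ := root_unit hl hx
  exact ⟨⟨y, hy⟩, Subtype.ext e⟩

theorem h0_V (hl : l.Prime) : h0 (MonoidHom.id (V p M)) l ≠ 0 ∧
    h0 (MonoidHom.id (V p M)) l ≤ l ^ (if p = l then Module.finrank ℚ M else 0) := by
  rw [h0_id]
  split_ifs with h
  · subst h
    obtain ⟨f, hf⟩ := exists_res (p := p) (M := M)
    choose a ha ha' using fun x : V p M => mem_V.1 x.2
    have h1 := index_le_of (powMonoidHom p : V p M →* V p M).range (fun x => f (a x))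
      fun x y h => by
        refine mem_range_V hl ?_
        have h2 := hf _ _ (ha x) (ha y) h
        have h3 : Sm 3 (x.1.1 - y.1.1) := by
          have e : x.1.1 - y.1.1 = p * (p * (a x - a y)) := by
            linear_combination ha' x - ha' y
          rw [e]
          exact sm_p_mul.2 (sm_p_mul.2 h2)
        exact (sm_div (V_le x.2) h3).mono (by have := eps_le p p; omega)
    rwa [Nat.card_fun, Nat.card_zmod, Nat.card_eq_fintype_card,
      ← Module.finrank_eq_card_basis (integralBasis M)] at h1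
  · have h1 : (powMonoidHom l : V p M →* V p M).range = ⊤ := by
      rw [eq_top_iff]
      intro x _
      refine mem_range_V hl ?_
      rw [eps, if_neg h]
      exact x.2
    rw [h1, Subgroup.index_top]
    simp

theorem h1_V (hl : l.Prime) : h1 (MonoidHom.id (V p M)) l = 1 := by
  rw [h1_eq_one_iff]
  intro x hx
  rw [Nm_of_fixed rfl] at hx
  refine ⟨1, ?_⟩
  have h1 : x.1.1 ^ l = 1 ^ l := by
    have h2 := congrArg (fun t : V p M => t.1.1) hx
    simpa using h2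
  have h3 : x.1.1 = 1 := root_unique hl x.2 (by simpa using sm_zero 2) h1
  have h4 : x = 1 := Subtype.ext (Units.ext h3)
  rw [h4]
  simp

theorem herbQ_IntU (hl : l.Prime) :
    HerbQ (MonoidHom.id (IntU p M)) l (h0 (MonoidHom.id (V p M)) l) := by
  have h1 : HerbQ (MonoidHom.id (V p M)) l (h0 (MonoidHom.id (V p M)) l) :=
    ⟨(h0_V hl).1, by rw [h1_V hl]; exact one_ne_zero, by rw [h1_V hl]; simp⟩
  refine (herbQ_iff (Subgroup.inclusion V_le) (fun _ => rfl) (fun x => ?_) (fun x => ?_) ?_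
    index_V).1 h1
  · exact Function.iterate_fixed rfl l
  · exact Function.iterate_fixed rfl l
  · rw [(MonoidHom.ker_eq_bot_iff _).2 (Subgroup.inclusion_injective _)]
    infer_instance

variable (p M) in
/-- The vector of valuations. -/
noncomputable def ordV : (Ap p M)ˣ →* ({w : Pr M // Ab p w} → Multiplicative ℤ) where
  toFun x w := Multiplicative.ofAdd (ordA w.1 x)
  map_one' := funext fun w => by rw [ordA_one w.2]; rfl
  map_mul' x y := funext fun w => by rw [ordA_mul w.2]; rfl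

theorem herbQ_units (hl : l.Prime) : HerbQ (MonoidHom.id (Ap p M)ˣ) l
    (h0 (MonoidHom.id (V p M)) l * (l : ℚ) ^ Nat.card {w : Pr M // Ab p w}) := by
  have : Finite {w : Pr M // Ab p w} := (finite_Ab p M).to_subtype
  have := Fintype.ofFinite {w : Pr M // Ab p w}
  have hc := herbQ_pi (ι := {w : Pr M // Ab p w}) (X := fun _ => Multiplicative ℤ) (l := l)
    (fun _ => MonoidHom.id _) (fun _ x => Function.iterate_fixed rfl l) (fun _ => (l : ℚ))
    fun _ => herbQ_int hl.ne_zero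
  rw [Finset.prod_const, Finset.card_univ, ← Nat.card_eq_fintype_card] at hc
  refine HerbQ.mid (f := (IntU p M).subtype) (g := ordV p M) (IntU p M).subtype_injective
    (fun n => ?_) ?_ (fun _ => rfl) (fun _ => rfl) (fun x => Function.iterate_fixed rfl l)
    (herbQ_IntU hl) hc
  · classical
    obtain ⟨m, hm⟩ := exists_ordA (p := p)
      fun w : Pr M => if h : Ab p w then (n ⟨w, h⟩).toAdd else 0
    refine ⟨incU ℚ_[p] M m, funext fun w => ?_⟩
    show Multiplicative.ofAdd (ordA w.1 (incU ℚ_[p] M m)) = n w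
    rw [ordA_incU w.2, hm w.1 w.2, dif_pos w.2]
    rfl
  · ext x
    rw [Subgroup.range_subtype, mem_IntU_iff, MonoidHom.mem_ker]
    refine ⟨fun h => funext fun w => ?_, fun h w hw => ?_⟩
    · show Multiplicative.ofAdd (ordA w.1 x) = 1
      rw [h w.1 w.2]
      rfl
    · exact congrFun h ⟨w, hw⟩

end Loc5Aux

variable {l : ℕ}

theorem exists_pow_of_sm (hl : l.Prime) {x : (Ap p M)ˣ} (hx : Sm 3 (x.1 - 1)) :
    ∃ y ∈ IntU p M, y ^ l = x ∧ ∀ s : Aut M, uact ℚ_[p] s x = x → uact ℚ_[p] s y = y := by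
  obtain ⟨y, hy, hy2, e⟩ := Loc5Aux.root_unit hl
    (hx.mono (by have := Loc5Aux.eps_le p l; omega))
  refine ⟨y, hy, e, fun s hs => Units.ext ?_⟩
  refine Loc5Aux.root_unique hl ?_ hy2 ?_
  · have h := hy2.lact s
    rwa [map_sub, map_one] at h
  · rw [← Units.val_pow_eq_pow_val, ← Units.val_pow_eq_pow_val, ← map_pow, e, hs]

theorem exists_pow_piece (hl : l.Prime) (hp : p ≠ l) {e : Ap p M} (he : IsIdempotentElem e)
    {m : Mˣ} (hm : ∀ w, Sup e w → w.valuation M (m.1 - 1) < 1) :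
    ∃ y ∈ Pc e, y ^ l = pcj he (incU ℚ_[p] M m) ∧
      ∀ s : Aut M, lact ℚ_[p] s e = e → s m.1 = m.1 → uact ℚ_[p] s y = y := by
  have hx1 : (pcj he (incU ℚ_[p] M m)).1 = 1 + e * inc ℚ_[p] M (m.1 - 1) := by
    rw [pcj_val, map_sub, map_one]
    show e * inc ℚ_[p] M m.1 + (1 - e) = _
    ring
  have hz : IsIntegral ℤ_[p] (e * inc ℚ_[p] M (m.1 - 1)) :=
    (sm_idem_mul he 0 fun w hw => by rw [pow_zero]; exact (hm w hw).le).isIntegral
  obtain ⟨n, hn⟩ := Loc5Aux.exists_val_pow hm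
  have hzn : Sm 1 ((e * inc ℚ_[p] M (m.1 - 1)) ^ (n + 1)) := by
    rw [mul_pow, he.pow_succ_eq, ← map_pow]
    exact sm_idem_mul he 1 hn
  obtain ⟨r, hr⟩ := Loc5Aux.exists_sm_pow hz hzn
  rw [← hx1, ← Units.val_pow_eq_pow_val] at hr
  obtain ⟨y, -, hy, hy'⟩ := exists_pow_of_sm hl hr
  have hc : IsCoprime ((p ^ r : ℕ) : ℤ) (l : ℤ) :=
    Nat.isCoprime_iff_coprime.2 (((Nat.coprime_primes Fact.out hl).2 hp).pow_left r)
  obtain ⟨a, b, hab⟩ := hc
  have hmem := pcj_mem he (incU ℚ_[p] M m)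
  have hinv : ∀ s : Aut M, lact ℚ_[p] s e = e → s m.1 = m.1 →
      uact ℚ_[p] s (pcj he (incU ℚ_[p] M m)) = pcj he (incU ℚ_[p] M m) := fun s hs hsm => by
    rw [uact_pcj he hs]
    refine congrArg (pcj he) (Units.ext ?_)
    show lact ℚ_[p] s (inc ℚ_[p] M m.1) = inc ℚ_[p] M m.1
    rw [lact_inc, hsm]
  generalize pcj he (incU ℚ_[p] M m) = x at hy hy' hmem hinv
  refine ⟨pcj he (y ^ a * x ^ b), pcj_mem he _, ?_, fun s hs hsm => ?_⟩
  · have h1 : (y ^ a * x ^ b) ^ l = x := by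
      rw [mul_pow, ← zpow_natCast, ← zpow_natCast, ← zpow_mul, ← zpow_mul, mul_comm a, zpow_mul,
        zpow_natCast, hy, ← zpow_natCast, ← zpow_mul, ← zpow_add, mul_comm _ a, hab, zpow_one]
    rw [← map_pow, h1, pcj_of_mem he hmem]
  · have h2 := hinv s hs hsm
    rw [uact_pcj he hs, map_mul, map_zpow, map_zpow, h2, hy' s (by rw [map_pow, h2])]

theorem index_pow (hl : l.Prime) :
    (powMonoidHom l : (Ap p M)ˣ →* (Ap p M)ˣ).range.index ≠ 0 ∧
    (powMonoidHom l : (Ap p M)ˣ →* (Ap p M)ˣ).range.index ≤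
      l ^ (2 * Nat.card {w : Pr M // Ab p w} + if p = l then Module.finrank ℚ M else 0) := by
  obtain ⟨h1, -, h3⟩ := Loc5Aux.herbQ_units (p := p) (M := M) hl
  rw [h0_id] at h1 h3
  rw [h1_id] at h3
  refine ⟨h1, ?_⟩
  have h4 : (powMonoidHom l : (Ap p M)ˣ →* (Ap p M)ˣ).range.index =
      h0 (MonoidHom.id (Loc5Aux.V p M)) l * l ^ Nat.card {w : Pr M // Ab p w} *
        Nat.card (powMonoidHom l : (Ap p M)ˣ →* (Ap p M)ˣ).ker := by exact_mod_cast h3
  rw [h4, two_mul, pow_add, pow_add, mul_comm (_ * _) (l ^ ite _ _ _), mul_assoc]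
  exact Nat.mul_le_mul (Loc5Aux.h0_V hl).2
    (Nat.mul_le_mul_left _ (card_roots hl.ne_zero).2)

end Pool.Agent.Lib.CFT
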