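import Pool.Agent.Lib.CFT.Tr1

/-! CFT-Tr2: Galois descent for ideles and idele classes. -/

namespace Pool.Agent.Lib.CFT

open scoped TensorProduct
open NumberField
open Pool.Agent.P.MP_9ec3f0_nt.SY

variable {M E : Type} [Field M] [NumberField M] [Field E] [NumberField E]


variable {j : E →+* M} {N : Subgroup (Aut M)}

theorem prin_injective : Function.Injective (prin M) := fun x y h =>
  Units.ext ((inc ℝ M).injective (by rw [← prin_snd, ← prin_snd, h]))

theorem smul_prin' (s : Aut M) (x : Mˣ) : s • prin M x = prin M (gact s x) := rfl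

theorem imap_injective (j : E →+* M) : Function.Injective (imap j) := fun x y h =>
  Subtype.ext (Prod.ext (funext fun p => umap_injective ℚ_[p] j (by rw [← imap_fst, ← imap_fst, h]))
    (umap_injective ℝ j (by rw [← imap_snd, ← imap_snd, h])))

theorem smul_imap {s : Aut M} {t : Aut E} (h : ∀ x, s (j x) = j (t x)) (x : Idele E) :
    s • imap j x = imap j (t • x) :=
  Subtype.ext (Prod.ext (funext fun p => Units.ext (lact_lmap (κ := ℚ_[p]) h _))
    (Units.ext (lact_lmap (κ := ℝ) h _)))

theorem smul_cmap {s : Aut M} {t : Aut E} (h : ∀ x, s (j x) = j (t x)) (x : Cl E) :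
    s • cmap j x = cmap j (t • x) := by
  induction x using QuotientGroup.induction_on with
  | H x => rw [cmap_mk, smul_mk, smul_mk, cmap_mk, smul_imap h]

theorem IsFix.range_imap (hN : IsFix j N) : (imap j).range = Inv (Idele M) N := by
  ext x
  constructor
  · rintro ⟨y, rfl⟩ s hs
    exact (smul_imap (t := 1) (fun x => (hN (j x)).2 ⟨x, rfl⟩ s hs) y).trans
      (congrArg _ (one_smul _ y))
  · intro hx
    choose y hy using fun p : Nat.Primes => hN.exists_umap (κ := ℚ_[p]) (x := x.1.1 p)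
      fun s hs => by rw [← smul_fst, hx s hs]
    obtain ⟨z, hz⟩ := hN.exists_umap (κ := ℝ) (x := x.1.2) fun s hs => by rw [← smul_snd, hx s hs]
    refine ⟨⟨(y, z), Set.Finite.subset x.2 fun p hp h => hp ?_⟩, Subtype.ext (Prod.ext (funext hy) hz)⟩
    rw [← hy p] at h
    exact (umap_mem_iff _).1 h

theorem exists_fixed_rep (N : Subgroup (Aut M)) {c : Cl M} (hc : c ∈ Inv (Cl M) N) :
    ∃ x ∈ Inv (Idele M) N, QuotientGroup.mk x = c := by
  induction c using QuotientGroup.induction_on with
  | H x =>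
    have h1 : ∀ s : Aut M, ∃ c : Mˣ, s ∈ N → prin M c = x⁻¹ * s • x := fun s => by
      by_cases hs : s ∈ N
      · obtain ⟨c, e⟩ := QuotientGroup.eq.1 ((smul_mk s x).symm.trans (hc s hs)).symm
        exact ⟨c, fun _ => e⟩
      · exact ⟨1, fun h => absurd h hs⟩
    choose c hc' using h1
    obtain ⟨z, hz⟩ := hilbert90 N c fun s hs t ht => prin_injective (by
      rw [map_mul, ← smul_prin', hc' s hs, hc' t ht, hc' _ (mul_mem hs ht), smul_mul', smul_inv',
        mul_smul, mul_assoc, mul_inv_cancel_left])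
    refine ⟨x * (prin M z)⁻¹, fun s hs => ?_, ?_⟩
    · have e := hc' s hs
      rw [hz s hs, map_mul, map_inv, ← smul_prin'] at e
      rw [smul_mul', smul_inv', ← mul_inv_cancel_left x (s • x), ← e, mul_assoc,
        mul_right_comm, mul_inv_cancel, one_mul]
    · exact QuotientGroup.mk_mul_of_mem x (inv_mem ⟨z, rfl⟩)

theorem IsFix.cmap_injective (hN : IsFix j N) : Function.Injective (cmap j) := by
  refine (injective_iff_map_eq_one _).2 fun x hx => ?_
  induction x using QuotientGroup.induction_on with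
  | H x =>
    obtain ⟨m, hm⟩ := (QuotientGroup.eq_one_iff _).1 ((cmap_mk j x).symm.trans hx)
    have h1 : imap j x ∈ Inv (Idele M) N := hN.range_imap ▸ ⟨x, rfl⟩
    have h2 : prin M m ∈ Inv (Idele M) N := hm ▸ h1
    obtain ⟨y, hy⟩ := (hN m.1).1 fun s hs => congrArg Units.val
      (prin_injective ((smul_prin' s m).symm.trans (h2 s hs)))
    have h0 : y ≠ 0 := fun e => m.ne_zero (by rw [← hy, e, map_zero])
    refine (QuotientGroup.eq_one_iff _).2 ⟨Units.mk0 y h0, imap_injective j ?_⟩
    rw [imap_prin, ← hm]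
    exact congrArg _ (Units.ext hy)

theorem IsFix.range_cmap (hN : IsFix j N) : (cmap j).range = Inv (Cl M) N := by
  ext c
  constructor
  · rintro ⟨y, rfl⟩ s hs
    exact (smul_cmap (t := 1) (fun x => (hN (j x)).2 ⟨x, rfl⟩ s hs) y).trans
      (congrArg _ (one_smul _ y))
  · intro hc
    obtain ⟨x, hx, rfl⟩ := exists_fixed_rep N hc
    rw [← hN.range_imap] at hx
    obtain ⟨y, rfl⟩ := hx
    exact ⟨QuotientGroup.mk y, rfl⟩

theorem Tr2Aux.lmap_lmap {F : Type} [Field F] [NumberField F] (k : Type) [CommRing k] [Algebra ℚ k]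
    (i : F →+* E) (j : E →+* M) (x : k ⊗[ℚ] F) : lmap k j (lmap k i x) = lmap k (j.comp i) x := by
  induction x using TensorProduct.induction_on with
  | zero => simp
  | tmul a x => rfl
  | add x y hx hy => simp only [map_add, hx, hy]

theorem cmap_cmap {F : Type} [Field F] [NumberField F] (i : F →+* E) (j : E →+* M) (x : Cl F) :
    cmap j (cmap i x) = cmap (j.comp i) x := by
  induction x using QuotientGroup.induction_on with
  | H x =>
    exact congrArg QuotientGroup.mk (Subtype.ext (Prod.ext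
      (funext fun p => Units.ext (Tr2Aux.lmap_lmap ℚ_[p] i j _))
      (Units.ext (Tr2Aux.lmap_lmap ℝ i j _))) : imap j (imap i x) = imap (j.comp i) x)

theorem act_iterate {G C : Type} [Group G] [CommGroup C] [MulDistribMulAction G C] (s : G) (i : ℕ)
    (x : C) : (act C s)^[i] x = s ^ i • x := by
  induction i with
  | zero => simp
  | succ i ih => rw [Function.iterate_succ_apply', ih, pow_succ', mul_smul]; rfl

theorem Tr2Aux.map_Nm {A B : Type} [CommGroup A] [CommGroup B] {α : A →* A} {β : B →* B}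
    (f : A →* B) (h : ∀ x, f (α x) = β (f x)) (l : ℕ) (x : A) : f (Nm α l x) = Nm β l (f x) := by
  rw [Nm_apply, Nm_apply, map_prod]
  exact Finset.prod_congr rfl fun i _ => (Function.Semiconj.iterate_right h i) x

theorem Nm_fst (s : Aut M) (l : ℕ) (x : Idele M) (p : Nat.Primes) :
    (Nm (act (Idele M) s) l x).1.1 p = Nm (uact ℚ_[p] s) l (x.1.1 p) :=
  Tr2Aux.map_Nm (((Pi.evalMonoidHom _ p).comp (MonoidHom.fst _ _)).comp (Idele M).subtype)
    (fun _ => rfl) l x

theorem Nm_snd (s : Aut M) (l : ℕ) (x : Idele M) :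
    (Nm (act (Idele M) s) l x).1.2 = Nm (uact ℝ s) l x.1.2 :=
  Tr2Aux.map_Nm ((MonoidHom.snd _ _).comp (Idele M).subtype) (fun _ => rfl) l x

theorem Nm_mk (s : Aut M) (l : ℕ) (x : Idele M) :
    Nm (act (Cl M) s) l (QuotientGroup.mk x) = QuotientGroup.mk (Nm (act (Idele M) s) l x) :=
  (Tr2Aux.map_Nm (α := act (Idele M) s) (β := act (Cl M) s) (QuotientGroup.mk' (prin M).range)
    (fun _ => rfl) l x).symm

/-- The layers are the idele class groups of the fixed fields. -/
theorem IsFix.lay_eq (hN : IsFix j N) {σ : Aut M} (h : ∀ n ∈ N, σ⁻¹ * n * σ ∈ N) {τ : Aut E}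
    (hτ : ∀ x, σ (j x) = j (τ x)) (l : ℕ) :
    h0 (lay (Cl M) N σ h) l = h0 (act (Cl E) τ) l ∧
      h1 (lay (Cl M) N σ h) l = h1 (act (Cl E) τ) l := by
  let e : Cl E ≃* Inv (Cl M) N :=
    (MonoidHom.ofInjective hN.cmap_injective).trans (MulEquiv.subgroupCongr hN.range_cmap)
  have he : ∀ x, e (act (Cl E) τ x) = lay (Cl M) N σ h (e x) := fun x =>
    Subtype.ext (smul_cmap hτ x).symm
  exact ⟨(h0_equiv e he).symm, (h1_equiv e he).symm⟩

end Pool.Agent.Lib.CFT
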