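import Pool.Agent.Lib.CFT.Loc4
import Pool.Agent.Lib.CFT.Loc5
import Pool.Agent.Lib.CFT.Herb3
import Pool.Agent.Lib.CFT.Tr2

/-! CFT-Loc6: local norms. -/

namespace Pool.Agent.Lib.CFT

open scoped TensorProduct
open NumberField
open Pool.Agent.P.MP_9ec3f0_nt.SY

variable {p : ℕ} [Fact p.Prime] {M : Type} [Field M] [NumberField M]


variable {l : ℕ} {σ : Aut M}

namespace Loc6Aux

theorem finite_sup (e : Ap p M) : Finite {w : Pr M // Sup e w} :=
  ((finite_Ab p M).subset fun _ h => h.1).to_subtype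

theorem cj_pow (i : ℕ) (w : Pr M) : (cj σ)^[i] w = cj (σ ^ i) w := by
  induction i with
  | zero => rw [pow_zero, cj_one, Function.iterate_zero_apply]
  | succ i ih => rw [Function.iterate_succ_apply', ih, pow_succ', cj_mul]

theorem sup_cj {e : Ap p M} (hs : lact ℚ_[p] σ e = e) (w : Pr M) :
    Sup e (cj σ w) ↔ Sup e w := by
  have := sup_lact (e := e) σ w
  rwa [hs] at this

theorem cj_inv (w : Pr M) : cj σ (cj σ⁻¹ w) = w := by
  rw [← cj_mul, mul_inv_cancel, cj_one]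

/-- The permutation of the support of a fixed idempotent. -/
noncomputable def pm {e : Ap p M} (hs : lact ℚ_[p] σ e = e) :
    Equiv.Perm {w : Pr M // Sup e w} where
  toFun w := ⟨cj σ w.1, (sup_cj hs _).2 w.2⟩
  invFun w := ⟨cj σ⁻¹ w.1, (sup_cj hs _).1 (by rw [cj_inv]; exact w.2)⟩
  left_inv w := Subtype.ext (by
    change cj σ⁻¹ (cj σ w.1) = w.1
    rw [← cj_mul, inv_mul_cancel, cj_one])
  right_inv w := Subtype.ext (cj_inv w.1)

theorem pm_pow_val {e : Ap p M} (hs : lact ℚ_[p] σ e = e) (i : ℕ) (w : {w : Pr M // Sup e w}) :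
    ((pm hs ^ i) w).1 = cj (σ ^ i) w.1 := by
  induction i with
  | zero => rw [pow_zero, pow_zero, cj_one, Equiv.Perm.one_apply]
  | succ i ih =>
    rw [pow_succ', pow_succ', cj_mul, Equiv.Perm.mul_apply, ← ih]
    rfl

theorem pm_pow (hσ : σ ^ l = 1) {e : Ap p M} (hs : lact ℚ_[p] σ e = e) : pm hs ^ l = 1 := by
  ext w : 1
  refine Subtype.ext ?_
  rw [pm_pow_val, hσ, cj_one, Equiv.Perm.one_apply]

theorem card_pm {e : Ap p M} (hs : lact ℚ_[p] σ e = e) :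
    Nat.card {x // pm hs x = x} = Nat.card {w : Pr M // Sup e w ∧ cj σ w = w} :=
  Nat.card_congr ((Equiv.subtypeEquivRight fun _ => Subtype.ext_iff).trans
    (Equiv.subtypeSubtypeEquivSubtypeInter (fun w : Pr M => Sup e w) fun w => cj σ w = w))

/-- The vector of valuations at the primes in the support of `e`. -/
noncomputable def ordH (e : Ap p M) :
    (Ap p M)ˣ →* Multiplicative ({w : Pr M // Sup e w} → ℤ) where
  toFun x := Multiplicative.ofAdd fun w => ordA w.1 x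
  map_one' := congrArg Multiplicative.ofAdd (funext fun w => ordA_one w.2.1)
  map_mul' x y := congrArg Multiplicative.ofAdd (funext fun w => ordA_mul w.2.1 x y)

theorem ordH_eq_one {e : Ap p M} {x : (Ap p M)ˣ} :
    ordH e x = 1 ↔ ∀ w, Sup e w → ordA w x = 0 :=
  ⟨fun h w hw => congrFun (congrArg Multiplicative.toAdd h) ⟨w, hw⟩,
    fun h => congrArg Multiplicative.ofAdd (funext fun w => h w.1 w.2)⟩

theorem ordH_uact {e : Ap p M} (hs : lact ℚ_[p] σ e = e) (x : (Ap p M)ˣ) :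
    ordH e (uact ℚ_[p] σ x) = permH (pm hs) (ordH e x) := by
  refine congrArg Multiplicative.ofAdd (funext fun w => ?_)
  have h := ordA_uact ((pm hs).symm w).2.1 σ x
  have h2 : cj σ ((pm hs).symm w).1 = w.1 := cj_inv w.1
  rw [h2] at h
  exact h

theorem ordH_surj {e : Ap p M} (he : IsIdempotentElem e)
    (n : Multiplicative ({w : Pr M // Sup e w} → ℤ)) : ∃ x ∈ Pc e, ordH e x = n := by
  classical
  obtain ⟨m, hm⟩ := exists_ordA (p := p) (M := M)
    fun w => if h : Sup e w then n.toAdd ⟨w, h⟩ else 0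
  refine ⟨pcj he (incU ℚ_[p] M m), pcj_mem he _, ?_⟩
  refine congrArg Multiplicative.ofAdd (funext fun w => ?_)
  rw [ordA_pcj_pos he w.2, ordA_incU w.2.1, hm w.1 w.2.1, dif_pos w.2]
  rfl

theorem uact_iter (hσ : σ ^ l = 1) (x : (Ap p M)ˣ) : (uact ℚ_[p] σ)^[l] x = x := by
  rw [uact_iterate, hσ, uact_one]

theorem resS_iter {A : Type} [CommGroup A] {α : A →* A} (hl : ∀ x, α^[l] x = x) (S : Subgroup A)
    (h : ∀ x ∈ S, α x ∈ S) (x : S) : (resS α S h)^[l] x = x :=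
  Subtype.ext ((resS_iterate S h l x).trans (hl _))

theorem resS_Nm {A : Type} [CommGroup A] {α : A →* A} (S : Subgroup A)
    (h : ∀ x ∈ S, α x ∈ S) (x : S) : (Nm (resS α S h) l x).1 = Nm α l x.1 :=
  map_Nm S.subtype (fun _ => rfl) x

theorem herbQ_congr {A : Type} [CommGroup A] {α : A →* A} {S T : Subgroup A} (e : S = T)
    (h : ∀ x ∈ S, α x ∈ S) (h' : ∀ x ∈ T, α x ∈ T) {q : ℚ} (hq : HerbQ (resS α S h) l q) :
    HerbQ (resS α T h') l q := by
  subst e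
  exact hq

theorem pc_one {A : Type} [CommRing A] : Pc (1 : A) = ⊤ :=
  eq_top_iff.2 fun x _ => by rw [mem_Pc, sub_self, zero_mul]

end Loc6Aux

open Loc6Aux

theorem herbQ_piece (hl : l.Prime) (hσ : σ ^ l = 1) (h1' : σ ≠ 1) {e : Ap p M}
    (he : IsIdempotentElem e) (hs : lact ℚ_[p] σ e = e) :
    HerbQ (pact σ hs) l ((l : ℚ) ^ Nat.card {w : Pr M // Sup e w ∧ cj σ w = w}) := by
  have := finite_sup e
  have := Fintype.ofFinite {w : Pr M // Sup e w}
  have hst : ∀ x ∈ Pc e ⊓ IntU p M, uact ℚ_[p] σ x ∈ Pc e ⊓ IntU p M :=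
    fun x hx => ⟨uact_mem_Pc hs x hx.1, uact_mem σ hx.2⟩
  have h := HerbQ.mid (β := pact σ hs) (f := Subgroup.inclusion inf_le_left)
    (g := (ordH e).comp (Pc e).subtype) (Subgroup.inclusion_injective _)
    (fun n => by
      obtain ⟨x, hx, hn⟩ := ordH_surj he n
      exact ⟨⟨x, hx⟩, hn⟩)
    (by
      ext x
      rw [MonoidHom.mem_ker, MonoidHom.comp_apply, ordH_eq_one]
      constructor
      · rintro ⟨y, rfl⟩ w hw
        exact mem_IntU_iff.1 y.2.2 w hw.1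
      · intro h
        refine ⟨⟨x.1, x.2, mem_IntU_iff.2 fun w hw => ?_⟩, rfl⟩
        by_contra h0
        exact h0 (h w ⟨hw, x.1, x.2, h0⟩))
    (fun _ => rfl) (fun x => ordH_uact hs x.1) (resS_iter (uact_iter hσ) _ _)
    (herbQ_unit hl hσ h1' he hs hst) (herbQ_perm hl (pm_pow hσ hs))
  rwa [one_mul, card_pm] at h

theorem h0_piece (hl : l.Prime) (hσ : σ ^ l = 1) (h1' : σ ≠ 1) {e : Ap p M}
    (he : IsIdempotentElem e) (hs : lact ℚ_[p] σ e = e) :
    h0 (pact σ hs) l = l ^ Nat.card {w : Pr M // Sup e w ∧ cj σ w = w} := by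
  have h := (herbQ_piece hl hσ h1' he hs).2.2
  rw [h1_pact hl hσ h1' he hs, Nat.cast_one, mul_one] at h
  exact_mod_cast h

theorem herbQ_uact (hl : l.Prime) (hσ : σ ^ l = 1) (h1' : σ ≠ 1) :
    HerbQ (uact ℚ_[p] σ) l ((l : ℚ) ^ Nat.card {w : Pr M // Ab p w ∧ cj σ w = w}) := by
  have hs : lact ℚ_[p] σ (1 : Ap p M) = 1 := map_one _
  have h := herbQ_piece hl hσ h1' IsIdempotentElem.one hs
  simp only [sup_one] at h
  have hb : Function.Bijective (Pc (1 : Ap p M)).subtype :=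
    ⟨Subtype.val_injective, fun x => ⟨⟨x, by rw [pc_one]; trivial⟩, rfl⟩⟩
  have e0 := h0_equiv (l := l) (α := pact σ hs) (β := uact ℚ_[p] σ) (MulEquiv.ofBijective _ hb)
    fun _ => rfl
  have e1 := h1_equiv (l := l) (α := pact σ hs) (β := uact ℚ_[p] σ) (MulEquiv.ofBijective _ hb)
    fun _ => rfl
  unfold HerbQ at h ⊢
  rwa [e0, e1] at h

/-- A unit that is a norm is the norm of a unit. -/
theorem exists_norm_unit (hl : l.Prime) (hσ : σ ^ l = 1) {z : (Ap p M)ˣ}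
    (hz : Nm (uact ℚ_[p] σ) l z ∈ IntU p M) :
    ∃ y ∈ IntU p M, Nm (uact ℚ_[p] σ) l y = Nm (uact ℚ_[p] σ) l z := by
  have hs : lact ℚ_[p] σ (1 : Ap p M) = 1 := map_one _
  have := finite_sup (1 : Ap p M)
  have := Fintype.ofFinite {w : Pr M // Sup (1 : Ap p M) w}
  have h1 : Nm (permH (pm hs)) l (ordH 1 z) = 1 := by
    rw [← map_Nm (ordH 1) (ordH_uact hs), ordH_eq_one]
    exact fun w hw => mem_IntU_iff.1 hz w hw.1
  obtain ⟨g, hg⟩ := h1_eq_one_iff.1 (h1_perm hl (pm_pow hσ hs)) _ h1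
  obtain ⟨u, -, rfl⟩ := ordH_surj IsIdempotentElem.one g
  refine ⟨z / (uact ℚ_[p] σ u / u), mem_IntU_iff.2 fun w hw => ?_, ?_⟩
  · refine ordH_eq_one.1 ?_ w (sup_one.2 hw)
    rw [map_div, map_div, ordH_uact hs, hg, div_self']
  · rw [map_div, map_div, Nm_apply_self (uact_iter hσ), div_self', div_one]

namespace Loc6Aux

/-- It is enough to treat the pieces that belong to fixed primes. -/
theorem norm_of_pieces (hl : l.Prime) (hσ : σ ^ l = 1) (h1' : σ ≠ 1) {x : (Ap p M)ˣ}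
    (hx : uact ℚ_[p] σ x = x)
    (h : ∀ (e : Ap p M) (he : IsIdempotentElem e), lact ℚ_[p] σ e = e → ∀ w, cj σ w = w →
      (∀ w', Sup e w' ↔ w' = w) → ∃ y, Nm (uact ℚ_[p] σ) l y = pcj he x) :
    ∃ y, Nm (uact ℚ_[p] σ) l y = x := by
  obtain ⟨ι, _, e, he, hs, hc⟩ := exists_pieces (p := p) σ
  have key : ∀ i, ∃ y, Nm (uact ℚ_[p] σ) l y = pcj (he.idem i) x := by
    intro i
    rcases hc i with ⟨w, hw, hw'⟩ | hn
    · exact h _ _ (hs i) w hw hw'
    · have h0' := h0_piece hl hσ h1' (he.idem i) (hs i)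
      have : IsEmpty {w : Pr M // Sup (e i) w ∧ cj σ w = w} := ⟨fun w => hn w.1 w.2.1 w.2.2⟩
      rw [Nat.card_of_isEmpty, pow_zero] at h0'
      obtain ⟨y, hy⟩ := h0_eq_one_iff.1 h0' ⟨pcj (he.idem i) x, pcj_mem _ _⟩
        (Subtype.ext ((uact_pcj (he.idem i) (hs i) x).trans (by rw [hx])))
      exact ⟨y.1, (resS_Nm _ _ y).symm.trans (congrArg Subtype.val hy)⟩
  choose y hy using key
  refine ⟨∏ i, y i, ?_⟩
  rw [map_prod, Finset.prod_congr rfl fun i _ => hy i, prod_pcj he]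

/-- The valuation at one prime. -/
noncomputable def ordW {w : Pr M} (hw : Ab p w) : (Ap p M)ˣ →* Multiplicative ℤ where
  toFun x := Multiplicative.ofAdd (ordA w x)
  map_one' := congrArg Multiplicative.ofAdd (ordA_one hw)
  map_mul' x y := congrArg Multiplicative.ofAdd (ordA_mul hw x y)

theorem ordA_Nm {w : Pr M} (hw : Ab p w) (hc : cj σ w = w) (y : (Ap p M)ˣ) :
    ordA w (Nm (uact ℚ_[p] σ) l y) = l * ordA w y := by
  have h := map_Nm (l := l) (α := uact ℚ_[p] σ) (β := MonoidHom.id _) (ordW hw) (fun x => by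
    have := ordA_uact hw σ x
    rw [hc] at this
    exact congrArg Multiplicative.ofAdd this) y
  rw [Nm_of_fixed (α := MonoidHom.id _) rfl] at h
  have h2 := congrArg Multiplicative.toAdd h
  rw [toAdd_pow, nsmul_eq_mul] at h2
  exact h2

theorem fixed_pcj {e : Ap p M} (he : IsIdempotentElem e) (hs : lact ℚ_[p] σ e = e) {m : Mˣ}
    (hm : σ m.1 = m.1) :
    uact ℚ_[p] σ (pcj he (incU ℚ_[p] M m)) = pcj he (incU ℚ_[p] M m) := by
  rw [uact_pcj he hs, uact_incU, show gact σ m = m from Units.ext hm]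

/-- Units at an unramified fixed prime are norms. -/
theorem norm_unr_piece (hl : l.Prime) (hσ : σ ^ l = 1) (h1' : σ ≠ 1) {e : Ap p M}
    (he : IsIdempotentElem e) (hs : lact ℚ_[p] σ e = e) {w : Pr M} (hc : cj σ w = w)
    (hw : ∀ w', Sup e w' ↔ w' = w) {π : M} (hπ : σ π = π) (hπ1 : ord w π = 1) {x : (Ap p M)ˣ}
    (hx : uact ℚ_[p] σ x = x) (h0x : ordA w x = 0) :
    ∃ y, Nm (uact ℚ_[p] σ) l y = pcj he x := by
  have hsw : Sup e w := (hw w).2 rfl
  have h0' := h0_piece hl hσ h1' he hs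
  have : Unique {w' : Pr M // Sup e w' ∧ cj σ w' = w'} :=
    ⟨⟨⟨w, hsw, hc⟩⟩, fun a => Subtype.ext ((hw a.1).1 a.2.1)⟩
  rw [Nat.card_unique, pow_one] at h0'
  have hπ0 : π ≠ 0 := by
    rintro rfl
    simp [ord] at hπ1
  have : NeZero l := ⟨hl.ne_zero⟩
  have hker : ∀ z ∈ Pc e, uact ℚ_[p] σ z = z → ∀ hz : z ∈ Pc e,
      (⟨z, hz⟩ : Pc e) ∈ (Dm (pact σ hs)).ker := by
    intro z _ h hz
    rw [MonoidHom.mem_ker, Dm_apply, div_eq_one]
    exact Subtype.ext h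
  let φ : (Dm (pact σ hs)).ker →* Multiplicative (ZMod l) :=
    (AddMonoidHom.toMultiplicative (Int.castAddHom (ZMod l))).comp
      ((ordW hsw.1).comp ((Pc e).subtype.comp (Dm (pact σ hs)).ker.subtype))
  have hφ : ∀ z, φ z = Multiplicative.ofAdd ((ordA w z.1.1 : ℤ) : ZMod l) := fun _ => rfl
  have hsurj : Function.Surjective φ := by
    intro n
    obtain ⟨k, hk⟩ := ZMod.intCast_surjective n.toAdd
    refine ⟨(⟨⟨pcj he (incU ℚ_[p] M (Units.mk0 π hπ0)), pcj_mem he _⟩,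
      hker _ (pcj_mem he _) (fixed_pcj he hs hπ) _⟩ : (Dm (pact σ hs)).ker) ^ k, ?_⟩
    rw [map_zpow, hφ, ordA_pcj_pos he hsw, ordA_incU hsw.1, Units.val_mk0, hπ1,
      ← ofAdd_zsmul, Int.cast_one, zsmul_one, hk]
    rfl
  have hN : ∀ z : (Dm (pact σ hs)).ker, z.1 ∈ (Nm (pact σ hs) l).range → φ z = 1 := by
    rintro z ⟨y, hy⟩
    have e1 : z.1.1 = Nm (uact ℚ_[p] σ) l y.1 :=
      (congrArg Subtype.val hy).symm.trans (resS_Nm _ _ y)
    rw [hφ, e1, ordA_Nm hsw.1 hc, Int.cast_mul, Int.cast_natCast, ZMod.natCast_self, zero_mul]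
    rfl
  obtain ⟨y, hy⟩ := mem_range_of_card φ hsurj hN (by rw [h0']; exact hl.ne_zero)
    (by rw [h0', Nat.card_congr Multiplicative.toAdd, Nat.card_zmod])
    (x := ⟨⟨pcj he x, pcj_mem he _⟩,
      hker _ (pcj_mem he _) ((uact_pcj he hs x).trans (by rw [hx])) _⟩)
    (by
      rw [hφ, ordA_pcj_pos he hsw, h0x, Int.cast_zero]
      rfl)
  exact ⟨y.1, (resS_Nm _ _ y).symm.trans (congrArg Subtype.val hy)⟩

end Loc6Aux

theorem exists_norm_of_unr (hl : l.Prime) (hσ : σ ^ l = 1) (h1' : σ ≠ 1) {x : (Ap p M)ˣ}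
    (hx : uact ℚ_[p] σ x = x)
    (h : ∀ w : Pr M, Ab p w → cj σ w = w → (∃ π : M, σ π = π ∧ ord w π = 1) ∧ ordA w x = 0) :
    ∃ y, Nm (uact ℚ_[p] σ) l y = x := by
  refine norm_of_pieces hl hσ h1' hx fun e he hs w hc hw => ?_
  obtain ⟨⟨π, hπ, hπ1⟩, h0x⟩ := h w ((hw w).2 rfl).1 hc
  exact norm_unr_piece hl hσ h1' he hs hc hw hπ hπ1 hx h0x

theorem exists_norm_mixed (hl : l.Prime) (hσ : σ ^ l = 1) (h1' : σ ≠ 1) (hp : p ≠ l) {m : Mˣ}
    (hm : σ m.1 = m.1)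
    (h : ∀ w : Pr M, Ab p w → cj σ w = w → ((∃ π : M, σ π = π ∧ ord w π = 1) ∧ ord w m.1 = 0) ∨
      ∃ y : M, y ≠ 0 ∧ σ y = y ∧ w.valuation M (m.1 / y ^ l - 1) < 1) :
    ∃ y, Nm (uact ℚ_[p] σ) l y = incU ℚ_[p] M m := by
  have hx : uact ℚ_[p] σ (incU ℚ_[p] M m) = incU ℚ_[p] M m := by
    rw [uact_incU, show gact σ m = m from Units.ext hm]
  refine norm_of_pieces hl hσ h1' hx fun e he hs w hc hw => ?_
  have hab : Ab p w := ((hw w).2 rfl).1
  rcases h w hab hc with ⟨⟨π, hπ, hπ1⟩, h0x⟩ | ⟨y, hy0, hy, hv⟩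
  · exact norm_unr_piece hl hσ h1' he hs hc hw hπ hπ1 hx ((ordA_incU hab m).trans h0x)
  · have hval : (m / Units.mk0 y hy0 ^ l).1 = m.1 / y ^ l := by
      rw [Units.val_div_eq_div_val, Units.val_pow_eq_pow_val, Units.val_mk0]
    obtain ⟨z, -, hz, hz'⟩ := exists_pow_piece hl hp he (m := m / Units.mk0 y hy0 ^ l)
      (fun w' hw' => by
        rw [(hw w').1 hw', hval]
        exact hv)
    have hzf := hz' σ hs (by rw [hval, map_div₀, map_pow, hm, hy])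
    refine ⟨z * pcj he (incU ℚ_[p] M (Units.mk0 y hy0)), ?_⟩
    rw [Nm_of_fixed (by rw [map_mul, hzf, fixed_pcj he hs hy]), mul_pow, hz, ← map_pow, ← map_pow,
      ← map_mul, ← map_mul, div_mul_cancel]

theorem h_unram (hl : l.Prime) (hσ : σ ^ l = 1) (h1' : σ ≠ 1) (hp : Unram p M) :
    h0 (resS (uact ℚ_[p] σ) (IntU p M) fun _ hx => uact_mem σ hx) l = 1 ∧
      h1 (resS (uact ℚ_[p] σ) (IntU p M) fun _ hx => uact_mem σ hx) l = 1 := by
  have a0 : h0 (resS (uact ℚ_[p] σ) (IntU p M) fun _ hx => uact_mem σ hx) l = 1 := by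
    refine h0_eq_one_iff.2 fun x hx => ?_
    obtain ⟨z, hz⟩ := exists_norm_of_unr hl hσ h1' (x := x.1) (congrArg Subtype.val hx)
      fun w hw _ => ⟨⟨p, map_natCast σ p, hp w hw⟩, mem_IntU_iff.1 x.2 w hw⟩
    obtain ⟨y, hy, hy'⟩ := exists_norm_unit hl hσ (z := z) (by rw [hz]; exact x.2)
    exact ⟨⟨y, hy⟩, Subtype.ext ((resS_Nm _ _ _).trans (hy'.trans hz))⟩
  have hs : lact ℚ_[p] σ (1 : Ap p M) = 1 := map_one _
  have hq := herbQ_congr (T := IntU p M) (by rw [pc_one, top_inf_eq]) _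
    (fun _ hx => uact_mem σ hx) (herbQ_unit hl hσ h1' IsIdempotentElem.one hs
      fun x hx => ⟨uact_mem_Pc hs x hx.1, uact_mem σ hx.2⟩)
  refine ⟨a0, ?_⟩
  have h2 := hq.2.2
  rw [a0, one_mul] at h2
  exact_mod_cast h2.symm

/-- An idele that is everywhere a local norm is the norm of an idele. -/
theorem exists_idele_norm (hl : l.Prime) (hσ : σ ^ l = 1) (x : Idele M)
    (hp : ∀ p : Nat.Primes, ∃ y, Nm (uact ℚ_[p] σ) l y = x.1.1 p)
    (hi : ∃ y, Nm (uact ℝ σ) l y = x.1.2) : ∃ y, Nm (act (Idele M) σ) l y = x := by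
  have key : ∀ q : Nat.Primes, ∃ y, Nm (uact ℚ_[q] σ) l y = x.1.1 q ∧
      (x.1.1 q ∈ IntU q M → y ∈ IntU q M) := by
    intro q
    obtain ⟨z, hz⟩ := hp q
    by_cases h : x.1.1 q ∈ IntU q M
    · obtain ⟨y, hy, hy'⟩ := exists_norm_unit hl hσ (z := z) (by rw [hz]; exact h)
      exact ⟨y, hy'.trans hz, fun _ => hy⟩
    · exact ⟨z, hz, fun h' => absurd h' h⟩
  choose y hy hy' using key
  obtain ⟨yi, hyi⟩ := hi
  refine ⟨⟨(y, yi), Set.Finite.subset x.2 fun q hq h => hq (hy' q h)⟩,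
    Subtype.ext (Prod.ext (funext fun q => ?_) ?_)⟩
  · rw [Nm_fst]
    exact hy q
  · rw [Nm_snd]
    exact hyi

end Pool.Agent.Lib.CFT
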