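import Pool.Agent.Lib.CFT.Glo1
import Pool.Agent.Lib.CFT.Loc6
import Pool.Agent.Lib.CFT.Inf

/-! CFT-Glo2: the first inequality. -/

namespace Pool.Agent.Lib.CFT

open scoped TensorProduct
open NumberField
open Pool.Agent.P.MP_9ec3f0_nt.SY

variable {M : Type} [Field M] [NumberField M] {l : ℕ} {σ : Aut M}

namespace Glo2Aux

variable (M) in
/-- The ideles that are units outside `S`. -/
def JS (S : Finset Nat.Primes) : Subgroup (Idele M) where
  carrier := {x | ∀ p ∉ S, x.1.1 p ∈ IntU p M}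
  one_mem' := fun _ _ => one_mem _
  mul_mem' := fun hx hy p hp => mul_mem (hx p hp) (hy p hp)
  inv_mem' := fun hx p hp => inv_mem (hx p hp)

theorem act_mem (σ : Aut M) (S : Finset Nat.Primes) :
    ∀ x ∈ JS M S, act (Idele M) σ x ∈ JS M S := fun _ hx p hp => uact_mem σ (hx p hp)

/-- The action on the local units. -/
noncomputable def iact (σ : Aut M) (p : Nat.Primes) : IntU p M →* IntU p M :=
  resS (uact ℚ_[p] σ) (IntU p M) fun _ hx => uact_mem σ hx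

theorem herbQ_pi_one {ι : Type} {X : ι → Type} [∀ i, CommGroup (X i)] (τ : ∀ i, X i →* X i)
    (h : ∀ i, h0 (τ i) l = 1 ∧ h1 (τ i) l = 1) :
    HerbQ (MonoidHom.pi fun i => (τ i).comp (Pi.evalMonoidHom X i)) l 1 := by
  have e : ∀ (y : ∀ i, X i) (i : ι),
      Nm (MonoidHom.pi fun i => (τ i).comp (Pi.evalMonoidHom X i)) l y i = Nm (τ i) l (y i) :=
    fun y i => map_Nm (Pi.evalMonoidHom X i) (fun _ => rfl) y
  have e0 : h0 (MonoidHom.pi fun i => (τ i).comp (Pi.evalMonoidHom X i)) l = 1 := by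
    refine h0_eq_one_iff.2 fun x hx => ?_
    choose y hy using fun i => h0_eq_one_iff.1 (h i).1 (x i) (congrFun hx i)
    exact ⟨y, funext fun i => (e y i).trans (hy i)⟩
  have e1 : h1 (MonoidHom.pi fun i => (τ i).comp (Pi.evalMonoidHom X i)) l = 1 := by
    refine h1_eq_one_iff.2 fun x hx => ?_
    choose y hy using fun i => h1_eq_one_iff.1 (h i).2 (x i) ((e x i).symm.trans (congrFun hx i))
    exact ⟨y, funext hy⟩
  rw [HerbQ, e0, e1]
  simp

theorem uact_pow {κ : Type} [Field κ] [Algebra ℚ κ] (hσ : σ ^ l = 1) (x : (κ ⊗[ℚ] M)ˣ) :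
    (uact κ σ)^[l] x = x := by
  rw [uact_iterate, hσ, uact_one]

theorem pi_iterate {ι : Type} {X : ι → Type} [∀ i, CommGroup (X i)] (τ : ∀ i, X i →* X i)
    (n : ℕ) (x : ∀ i, X i) (i : ι) :
    (MonoidHom.pi fun i => (τ i).comp (Pi.evalMonoidHom X i))^[n] x i = (τ i)^[n] (x i) := by
  induction n with
  | zero => rfl
  | succ n ih =>
    rw [Function.iterate_succ_apply', Function.iterate_succ_apply', ← ih]
    rfl

variable (M) in
/-- The components of an idele that is a unit outside `S`. -/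
noncomputable def comp (S : Finset Nat.Primes) : JS M S →*
    (∀ p : {p : Nat.Primes // p ∉ S}, IntU p.1 M) × (∀ p : S, (Ap p.1.1 M)ˣ) × (Ai M)ˣ where
  toFun x := (fun p => ⟨x.1.1.1 p.1, x.2 p.1 p.2⟩, fun p => x.1.1.1 p.1, x.1.1.2)
  map_one' := rfl
  map_mul' _ _ := rfl

theorem comp_bijective (S : Finset Nat.Primes) : Function.Bijective (comp M S) := by
  classical
  refine ⟨fun x y h => Subtype.ext (Subtype.ext (Prod.ext (funext fun p => ?_)
    (congrArg (fun z => z.2.2) h))), fun z => ?_⟩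
  · by_cases hp : p ∈ S
    · exact congrArg (fun z => z.2.1 ⟨p, hp⟩) h
    · exact congrArg (fun z => (z.1 ⟨p, hp⟩).1) h
  · let y : ∀ p : Nat.Primes, (Ap p.1 M)ˣ := fun p =>
      if hp : p ∈ S then z.2.1 ⟨p, hp⟩ else (z.1 ⟨p, hp⟩).1
    have h1 : ∀ p ∉ S, y p ∈ IntU p M := fun p hp => by
      simp only [y, dif_neg hp]
      exact (z.1 ⟨p, hp⟩).2
    refine ⟨⟨⟨(y, z.2.2), S.finite_toSet.subset fun p hp => by_contra fun e => hp (h1 p e)⟩, h1⟩,
      Prod.ext (funext fun p => Subtype.ext ?_) (Prod.ext (funext fun p => ?_) rfl)⟩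
    · exact dif_neg p.2
    · exact dif_pos p.2

theorem herbQ_JS (hl : l.Prime) (hσ : σ ^ l = 1) (h1' : σ ≠ 1) {S : Finset Nat.Primes}
    (hS : ∀ p ∉ S, Unram p.1 M) {q : ℚ} (hq : HerbQ (uact ℝ σ) l q) :
    HerbQ (resS (act (Idele M) σ) (JS M S) (act_mem σ S)) l
      ((l : ℚ) ^ (∑ p : S, Nat.card {w : Pr M // Ab p.1.1 w ∧ cj σ w = w}) * q) := by
  have ha := herbQ_pi_one (l := l) (fun p : {p : Nat.Primes // p ∉ S} => iact σ p.1)
    fun p => h_unram hl hσ h1' (hS p.1 p.2)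
  have hb := herbQ_pi (fun p : S => uact ℚ_[p.1] σ) (fun _ => uact_pow hσ) _
    fun p => herbQ_uact (p := p.1) hl hσ h1'
  have ib : ∀ x, (MonoidHom.pi fun p : S => (uact ℚ_[p.1] σ).comp
      (Pi.evalMonoidHom (fun p : S => (Ap p.1.1 M)ˣ) p))^[l] x = x := fun x => funext fun p =>
    (pi_iterate _ l x p).trans (uact_pow hσ _)
  have hc := HerbQ.prod ib (uact_pow hσ) hb hq
  have hd := HerbQ.prod (fun x => funext fun p => (pi_iterate _ l x p).trans
    (Subtype.ext ((resS_iterate _ _ l _).trans (uact_pow hσ _)))) (fun x => by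
      rw [MonoidHom.coe_prodMap, Prod.map_iterate]
      exact Prod.ext (ib _) (uact_pow hσ _)) ha hc
  rw [one_mul, Finset.prod_pow_eq_pow_sum] at hd
  rw [HerbQ, ← h0_equiv (α := resS (act (Idele M) σ) (JS M S) (act_mem σ S))
      (MulEquiv.ofBijective _ (comp_bijective S)) fun _ => rfl,
    ← h1_equiv (α := resS (act (Idele M) σ) (JS M S) (act_mem σ S))
      (MulEquiv.ofBijective _ (comp_bijective S)) fun _ => rfl] at hd
  exact hd

theorem card_le {S : Finset Nat.Primes} {X : Finset (Pr M)} (hX : ∀ w, w ∈ X ↔ AbS S w) :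
    Nat.card {w : Pr M // w ∈ X ∧ cj σ w = w} ≤
      ∑ p : S, Nat.card {w : Pr M // Ab p.1.1 w ∧ cj σ w = w} := by
  have : ∀ p : S, Finite {w : Pr M // Ab p.1.1 w ∧ cj σ w = w} := fun p =>
    ((finite_Ab p.1.1 M).subset fun _ h => h.1).to_subtype
  rw [← Nat.card_sigma]
  refine Nat.card_le_card_of_surjective
    (fun z => ⟨z.2.1, (hX _).2 ⟨z.1.1, z.1.2, z.2.2.1⟩, z.2.2.2⟩) fun w => ?_
  obtain ⟨p, hp, h⟩ := (hX _).1 w.2.1
  exact ⟨⟨⟨p, hp⟩, w.1, h, w.2.2⟩, rfl⟩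

theorem prin_mem {S : Finset Nat.Primes} {X : Finset (Pr M)} (hX : ∀ w, w ∈ X ↔ AbS S w)
    (m : Mˣ) : prin M m ∈ JS M S ↔ m ∈ SU X := by
  rw [mem_SU]
  refine ⟨fun h w hw => ?_, fun h p hp => mem_IntU_iff.2 fun w hw => ?_⟩
  · obtain ⟨p, hp⟩ := exists_Ab w
    rw [← ordA_incU hp]
    exact mem_IntU_iff.1 (h p fun e => hw ((hX w).2 ⟨p, e, hp⟩)) w hp
  · refine (ordA_incU hw m).trans (h w fun e => ?_)
    obtain ⟨q, hq, h'⟩ := (hX w).1 e
    exact hp (hw.unique h' ▸ hq)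

end Glo2Aux

open Glo2Aux in
theorem first_ineq (hl : l.Prime) (hσ : σ ^ l = 1) (h1' : σ ≠ 1) :
    ∃ q : ℚ, (l : ℚ) ≤ q ∧ HerbQ (act (Cl M) σ) l q := by
  classical
  obtain ⟨X₀, hX₀⟩ := exists_classGen M
  obtain ⟨S₀, hS₀⟩ := exists_cover X₀
  let S := S₀ ∪ (finite_not_unram M).toFinset
  have hS : ∀ p ∉ S, Unram p.1 M := fun p hp => by_contra fun e =>
    hp (Finset.mem_union_right _ ((Set.Finite.mem_toFinset _).2 e))
  obtain ⟨X, hX⟩ := exists_abS (M := M) S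
  have hg : ClassGen X := hX₀.mono fun w hw => by
    obtain ⟨p, hp, h⟩ := hS₀ w hw
    exact (hX w).2 ⟨p, Finset.mem_union_left _ hp, h⟩
  have hXσ : ∀ w, cj σ w ∈ X ↔ w ∈ X := fun w => by
    simp only [hX, AbS, ab_cj]
  obtain ⟨q, hq, hq'⟩ := herbQ_inf hl hσ h1'
  have ha := herbQ_su hl hσ X hXσ (gact_mem_SU hXσ)
  have hb := herbQ_JS hl hσ h1' hS hq'
  have hc := HerbQ.right (γ := act (Cl M) σ) (α := resS (gact σ) (SU X) (gact_mem_SU hXσ))
    (β := resS (act (Idele M) σ) (JS M S) (act_mem σ S))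
    (f := ((prin M).comp (SU X).subtype).codRestrict (JS M S) fun m => (prin_mem hX m.1).2 m.2)
    (g := (QuotientGroup.mk' _).comp (JS M S).subtype)
    (fun a b h => Subtype.ext (prin_injective (congrArg Subtype.val h))) (fun c => ?_) ?_
    (fun m => Subtype.ext (smul_prin' σ m.1).symm) (fun _ => rfl)
    (fun x => Subtype.ext ((resS_iterate _ _ l _).trans (by rw [act_iterate, hσ, one_smul]))) ha hb
  · refine ⟨_, ?_, hc⟩
    have h0 : (0 : ℚ) < l := by exact_mod_cast hl.pos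
    have h1 : (1 : ℚ) ≤ l := by exact_mod_cast hl.one_le
    rw [le_div_iff₀ (by positivity), mul_div_cancel₀ _ h0.ne', pow_add]
    exact mul_le_mul (pow_le_pow_right₀ h1 (card_le hX)) hq (by positivity) (by positivity)
  · obtain ⟨x, rfl⟩ := QuotientGroup.mk_surjective c
    obtain ⟨m, hm⟩ := ClassGen.idele hg x
    refine ⟨⟨x * (prin M m)⁻¹, fun p hp => mem_IntU_iff.2 fun w hw => ?_⟩,
      QuotientGroup.mk_mul_of_mem x (inv_mem ⟨m, rfl⟩)⟩
    have e : w ∉ X := fun e => by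
      obtain ⟨p', hp', h'⟩ := (hX w).1 e
      exact hp (hw.unique h' ▸ hp')
    change ordA w (x.1.1 p * (incU ℚ_[p] M m)⁻¹) = 0
    rw [ordA_mul hw, ordA_inv hw, ordA_incU hw, hm p w hw e, add_neg_cancel]
  · ext x
    refine ⟨?_, fun h => ?_⟩
    · rintro ⟨m, rfl⟩
      exact (QuotientGroup.eq_one_iff _).2 ⟨m.1, rfl⟩
    · obtain ⟨m, hm⟩ := (QuotientGroup.eq_one_iff _).1 h
      exact ⟨⟨m, (prin_mem hX m).1 (hm ▸ x.2)⟩, Subtype.ext hm⟩

theorem not_forall_norm (hl : l.Prime) (hσ : σ ^ l = 1) (h1' : σ ≠ 1) {k : Type} [Field k]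
    [NumberField k] {j : k →+* M} (hj : ∀ x : M, σ x = x ↔ ∃ y, j y = x) :
    ¬ ∀ x : Idele k, ∃ (m : kˣ) (y : Idele M),
      imap j (x * prin k m) = Nm (act (Idele M) σ) l y := fun h => by
  obtain ⟨q, hq, -, h2, h3⟩ := first_ineq hl hσ h1'
  have e : h0 (act (Cl M) σ) l = 1 := by
    refine h0_eq_one_iff.2 fun c hc => ?_
    have hc' : c ∈ Inv (Cl M) (Subgroup.zpowers σ) := fun s hs =>
      Subgroup.zpowers_le_of_mem (show σ ∈ MulAction.stabilizer _ c from hc) hs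
    rw [← (isFix_zpowers hj).range_cmap] at hc'
    obtain ⟨d, rfl⟩ := hc'
    obtain ⟨x, rfl⟩ := QuotientGroup.mk_surjective d
    obtain ⟨m, y, hy⟩ := h x
    refine ⟨QuotientGroup.mk y, ?_⟩
    rw [Nm_mk, ← hy, ← cmap_mk, QuotientGroup.mk_mul_of_mem x (MonoidHom.mem_range.2 ⟨m, rfl⟩)]
  have h4 : (1 : ℚ) ≤ h1 (act (Cl M) σ) l := by exact_mod_cast Nat.one_le_iff_ne_zero.2 h2
  have h5 : (2 : ℚ) ≤ l := by exact_mod_cast hl.two_le
  rw [e, Nat.cast_one] at h3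
  nlinarith

theorem exists_fixed_prime (hl : l.Prime) (hσ : σ ^ l = 1) (h1' : σ ≠ 1) (X : Finset (Pr M)) :
    ∃ w : Pr M, w ∉ X ∧ cj σ w = w := by
  by_contra hn
  obtain ⟨k, _, _, _, hk⟩ := exists_fix (Subgroup.zpowers σ)
  obtain ⟨S, hS⟩ := exists_cover X
  have hf : ∀ x, σ (algebraMap k M x) = algebraMap k M x := fun x => (hk.zpowers _).2 ⟨x, rfl⟩
  have hu : ∀ (κ : Type) [Field κ] [Algebra ℚ κ] (y : (κ ⊗[ℚ] k)ˣ),
      uact κ σ (umap κ (algebraMap k M) y) = umap κ (algebraMap k M) y := fun κ _ _ y =>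
    Units.ext (lact_lmap_fixed hf y.1)
  refine not_forall_norm hl hσ h1' hk.zpowers fun x => ?_
  obtain ⟨m, h1, y, h2⟩ := approx_pow hl S x.1
  refine ⟨m⁻¹, (exists_idele_norm hl hσ (imap (algebraMap k M) (x * prin k m⁻¹))
    (fun p => ?_) ⟨umap ℝ (algebraMap k M) y, ?_⟩).imp fun _ => Eq.symm⟩
  · by_cases hp : p ∈ S
    · obtain ⟨y', h3⟩ := h1 p hp
      refine ⟨umap ℚ_[p] (algebraMap k M) y', ?_⟩
      rw [Nm_of_fixed (hu _ _), ← map_pow, imap_fst]
      change _ = umap ℚ_[p] (algebraMap k M) (x.1.1 p * incU ℚ_[p] k m⁻¹)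
      rw [h3, map_inv, mul_inv_cancel_comm]
    · refine exists_norm_of_unr hl hσ h1' (hu _ _) fun w hw e => absurd ?_ hp
      obtain ⟨q, hq, h'⟩ := hS w (by_contra fun e' => hn ⟨w, e', e⟩)
      exact hw.unique h' ▸ hq
  · rw [Nm_of_fixed (hu _ _), ← map_pow, imap_snd]
    change _ = umap ℝ (algebraMap k M) (x.1.2 * incU ℝ k m⁻¹)
    rw [h2, map_inv, mul_inv_cancel_comm]

end Pool.Agent.Lib.CFT
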