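import Pool.Agent.Lib.CFT.Kum4

/-! CFT-Glo3: the second inequality, the axioms, the Hasse norm theorem. -/

namespace Pool.Agent.Lib.CFT

open scoped TensorProduct
open NumberField
open Pool.Agent.P.MP_9ec3f0_nt.SY

variable {M : Type} [Field M] [NumberField M] {l : ℕ} {σ : Aut M}


namespace Glo3Aux

open Polynomial

theorem h0_le_abs {G C A : Type} [Group G] [CommGroup C] [MulDistribMulAction G C] [CommGroup A]
    {α : A →* A} {f : A →* C} {N : Subgroup G} [Finite N] (hi : Function.Injective f)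
    (hN : f.range = Inv C N) {τ : G} (e : ∀ x, f (α x) = act C τ (f x))
    (hc : ∀ s ∈ N, s * τ = τ * s) (hd : (Nat.card N).Coprime l) (h : h0 (act C τ) l ≠ 0) :
    h0 α l ≤ h0 (act C τ) l := by
  have := Fintype.ofFinite N
  have h1 : (Nm α l).range ⊓ (Dm α).ker = (Nm (act C τ) l).range.comap f ⊓ (Dm α).ker := by
    refine le_antisymm (inf_le_inf_right _ ?_) fun x hx => ⟨?_, hx.2⟩
    · rintro _ ⟨y, rfl⟩
      exact ⟨_, (map_Nm f e y).symm⟩
    · obtain ⟨⟨y, hy⟩, hx⟩ := hx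
      have a1 : ∏ s : N, s.1 • y ∈ f.range := by
        rw [hN]
        intro t ht
        rw [Finset.smul_prod']
        exact Fintype.prod_equiv (Equiv.mulLeft (⟨t, ht⟩ : N)) _ _ fun s => (mul_smul t s.1 y).symm
      obtain ⟨z, hz⟩ := a1
      have a2 : Nm α l z = x ^ Nat.card N := by
        refine hi ?_
        rw [map_Nm f e, hz, map_prod, map_pow, Nat.card_eq_fintype_card,
          ← Finset.card_univ, ← Finset.prod_const]
        refine Finset.prod_congr rfl fun s _ => ?_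
        have a3 : f x ∈ Inv C N := hN ▸ ⟨x, rfl⟩
        rw [← a3 s.1 s.2, ← hy]
        exact (map_Nm (α := act C τ) (act C s.1) (fun w => (mul_smul s.1 τ w).symm.trans
          ((congrArg (· • w) (hc s.1 s.2)).trans (mul_smul τ s.1 w))) y).symm
      have a4 : Nm α l x = x ^ l := Nm_of_fixed (div_eq_one.mp hx)
      have a5 : x ^ Nat.gcd (Nat.card N) l ∈ (Nm α l).range := by
        rw [← zpow_natCast, Nat.gcd_eq_gcd_ab, zpow_add, zpow_mul, zpow_mul, zpow_natCast,
          zpow_natCast]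
        exact mul_mem (zpow_mem (MonoidHom.mem_range.mpr ⟨z, a2⟩) _)
          (zpow_mem (MonoidHom.mem_range.mpr ⟨x, a4⟩) _)
      rwa [hd, pow_one] at a5
  rw [h0, ← Subgroup.inf_relIndex_right, h1, Subgroup.inf_relIndex_right,
    Subgroup.relIndex_comap]
  refine Subgroup.relIndex_le_of_le_right ?_ h
  rintro _ ⟨x, hx, rfl⟩
  exact div_eq_one.mpr ((e x).symm.trans (congrArg _ (div_eq_one.mp hx)))

/-- Comparison of the norm indices after a base change of degree prime to `l`. -/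
theorem h0_le {L : Type} [Field L] [NumberField L] {j : M →+* L} {N : Subgroup (Aut L)}
    (hN : IsFix j N) {τ : Aut L} (hτ : ∀ x, τ (j x) = j (σ x)) (hc : ∀ s ∈ N, s * τ = τ * s)
    (hd : (Nat.card N).Coprime l) (h : h0 (act (Cl L) τ) l ≠ 0) :
    h0 (act (Cl M) σ) l ≤ h0 (act (Cl L) τ) l :=
  h0_le_abs (A := Cl M) (C := Cl L) (f := cmap j) hN.cmap_injective hN.range_cmap
    (fun x => (smul_cmap hτ x).symm) hc hd h

theorem exists_lift {L : Type} [Field L] [NumberField L] [Algebra M L] [NeZero l]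
    [IsCyclotomicExtension {l} M L] {ζ : L} (hζ : IsPrimitiveRoot ζ l) (σ : Aut M) :
    ∃ τ : Aut L, ∀ x, τ (algebraMap M L x) = algebraMap M L (σ x) := by
  obtain ⟨φ, hφ⟩ := IntermediateField.exists_algHom_of_adjoin_splits' (S := {ζ})
    ((IsScalarTower.toAlgHom ℚ M L).comp σ.toAlgHom) (by
      intro s hs
      rw [hs]
      refine ⟨Algebra.IsIntegral.isIntegral _, (X_pow_sub_one_splits hζ).of_dvd
        (X_pow_sub_C_ne_zero (NeZero.pos l) 1) ?_⟩
      have := Polynomial.map_dvd ((IsScalarTower.toAlgHom ℚ M L).comp σ.toAlgHom).toRingHom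
        (minpoly.dvd M ζ (show aeval ζ (X ^ l - C 1 : M[X]) = 0 by simp [hζ.pow_eq_one]))
      simpa using this)
    (IntermediateField.adjoin_eq_top_of_algebra _ _
      (IsCyclotomicExtension.adjoin_primitive_root_eq_top hζ))
  exact ⟨AlgEquiv.ofBijective φ (Algebra.IsAlgebraic.algHom_bijective φ),
    fun x => DFunLike.congr_fun hφ x⟩

theorem iter {L : Type} [Field L] [NumberField L] {j : M →+* L} {τ : Aut L}
    (hτ : ∀ x, τ (j x) = j (σ x)) (n : ℕ) (x : M) : (τ ^ n) (j x) = j ((σ ^ n) x) := by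
  induction n with
  | zero => rfl
  | succ n ih => rw [pow_succ', pow_succ', AlgEquiv.mul_apply, AlgEquiv.mul_apply, ih, hτ]

end Glo3Aux

theorem second_ineq (hl : l.Prime) (hσ : σ ^ l = 1) (h1' : σ ≠ 1) : h0 (act (Cl M) σ) l ≤ l := by
  have := Fact.mk hl
  let L := CyclotomicField l M
  have : NumberField L := IsCyclotomicExtension.numberField {l} M L
  have := IsCyclotomicExtension.isGalois {l} M L
  have hζ := IsCyclotomicExtension.zeta_spec l M L
  generalize IsCyclotomicExtension.zeta l M L = ζ at hζ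
  have ext : ∀ s t : Aut L, (∀ x, s (algebraMap M L x) = t (algebraMap M L x)) → s ζ = t ζ →
      s = t := by
    intro s t h1 h2
    ext x
    have hx : x ∈ Algebra.adjoin M {ζ} :=
      IsCyclotomicExtension.adjoin_primitive_root_eq_top (A := M) hζ ▸ Algebra.mem_top
    induction hx using Algebra.adjoin_induction with
    | mem _ h => exact h ▸ h2
    | algebraMap r => exact h1 r
    | add _ _ _ _ a b => rw [map_add, map_add, a, b]
    | mul _ _ _ _ a b => rw [map_mul, map_mul, a, b]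
  have hχ : ∀ s t : Aut L, hζ.autToPow ℚ s = hζ.autToPow ℚ t → s ζ = t ζ := fun s t h => by
    rw [← hζ.autToPow_spec ℚ s, h, hζ.autToPow_spec ℚ t]
  let N : Subgroup (Aut L) := fixingSubgroup (Aut L) (Set.range (algebraMap M L))
  have mN : ∀ s, s ∈ N ↔ ∀ x, s (algebraMap M L x) = algebraMap M L x := fun s => by
    rw [mem_fixingSubgroup_iff, Set.forall_mem_range]
    rfl
  have hN : IsFix (algebraMap M L) N := fun x => ⟨fun h => by
    refine (IsGalois.mem_range_algebraMap_iff_fixed x).mpr fun s => ?_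
    exact h (s.restrictScalars ℚ) ((mN _).2 s.commutes), fun ⟨y, hy⟩ s hs => hy ▸ (mN s).1 hs y⟩
  obtain ⟨τ₀, h₀⟩ := Glo3Aux.exists_lift hζ σ
  have hτ : ∀ x, (τ₀ ^ ((l - 1) * (l - 1))) (algebraMap M L x) = algebraMap M L (σ x) := by
    intro x
    obtain ⟨m, rfl⟩ := Nat.exists_eq_add_of_le' hl.two_le
    rw [Glo3Aux.iter h₀, show (m + 2 - 1) * (m + 2 - 1) = (m + 2) * m + 1 by
      rw [show m + 2 - 1 = m + 1 from rfl]; ring, pow_succ, pow_mul, hσ, one_pow, one_mul]
  have h2 : hζ.autToPow ℚ (τ₀ ^ ((l - 1) * (l - 1))) = 1 := by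
    rw [map_pow, pow_mul, ZMod.units_pow_card_sub_one_eq_one]
  generalize τ₀ ^ ((l - 1) * (l - 1)) = τ at hτ h2
  have h3 : τ ^ l = 1 := ext _ _ (fun x => by rw [Glo3Aux.iter hτ, hσ]; rfl)
    (hχ _ _ (by rw [map_pow, h2, one_pow, map_one]))
  have h4 : τ ≠ 1 := by
    rintro rfl
    exact h1' (AlgEquiv.ext fun x => ((algebraMap M L).injective (hτ x)).symm)
  have h5 : Nat.card N ∣ l - 1 := by
    rw [← ZMod.card_units l, ← Nat.card_eq_fintype_card]
    exact Subgroup.card_dvd_of_injective ((hζ.autToPow ℚ).comp N.subtype) fun s t h =>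
      Subtype.ext (ext _ _ (fun x => ((mN _).1 s.2 x).trans ((mN _).1 t.2 x).symm) (hχ _ _ h))
  obtain ⟨q, -, hq⟩ := first_ineq hl h3 h4
  refine (Glo3Aux.h0_le hN hτ (fun s hs => ext _ _ (fun x => ?_) (hχ _ _ ?_)) ?_ hq.1).trans ?_
  · rw [AlgEquiv.mul_apply, AlgEquiv.mul_apply, (mN s).1 hs, hτ, (mN s).1 hs]
  · rw [map_mul, map_mul, mul_comm]
  · exact Nat.Coprime.coprime_dvd_left h5 ((Nat.coprime_self_sub_left hl.one_le).mpr (by simp))
  · obtain ⟨k, _, _, _, hk⟩ := exists_fix (Subgroup.zpowers τ)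
    obtain ⟨ζ₀, rfl⟩ := (hk.zpowers ζ).1 (hχ τ 1 (by rw [h2, map_one]))
    obtain ⟨Q, rfl⟩ := exists_kum hl (hζ.of_map_of_injective (algebraMap k L).injective) h3 h4
      hk.zpowers
    exact Q.second_ineq

theorem h_cl (hl : l.Prime) (hσ : σ ^ l = 1) (h1' : σ ≠ 1) :
    h0 (act (Cl M) σ) l = l ∧ h1 (act (Cl M) σ) l = 1 := by
  obtain ⟨q, hq, -, a2, a3⟩ := first_ineq hl hσ h1'
  have a4 := second_ineq hl hσ h1'
  have a5 : (l : ℚ) * h1 (act (Cl M) σ) l ≤ h0 (act (Cl M) σ) l :=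
    a3 ▸ mul_le_mul_of_nonneg_right hq (Nat.cast_nonneg _)
  have a6 : l * h1 (act (Cl M) σ) l ≤ h0 (act (Cl M) σ) l := by exact_mod_cast a5
  have a7 := Nat.le_of_mul_le_mul_left (a6.trans (a4.trans (mul_one l).ge)) hl.pos
  have a8 : h1 (act (Cl M) σ) l = 1 := by omega
  rw [a8, mul_one] at a6
  exact ⟨le_antisymm a4 a6, a8⟩

theorem primeAx (M : Type) [Field M] [NumberField M] : PrimeAx (Aut M) (Cl M) := by
  intro N σ h l hl h1 h2
  obtain ⟨E, _, _, _, hN⟩ := exists_fix N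
  obtain ⟨τ, hτ⟩ := hN.exists_res h
  rw [(hN.lay_eq h hτ l).1, (hN.lay_eq h hτ l).2]
  refine h_cl hl (AlgEquiv.ext fun x => (algebraMap E M).injective ?_) ?_
  · rw [← Glo3Aux.iter hτ, (hN.mem_iff _).1 h2]
    rfl
  · rintro rfl
    exact h1 ((hN.mem_iff σ).2 hτ)

theorem hasse_norm (hl : l.Prime) (hσ : σ ^ l = 1) (h1' : σ ≠ 1) (x : Mˣ)
    (hp : ∀ p : Nat.Primes, ∃ y, Nm (uact ℚ_[p] σ) l y = incU ℚ_[p] M x)
    (hi : ∃ y, Nm (uact ℝ σ) l y = incU ℝ M x) : ∃ y, Nm (gact σ) l y = x := by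
  obtain ⟨y, hy⟩ := exists_idele_norm hl hσ (prin M x) hp hi
  obtain ⟨c, hc⟩ := h1_eq_one_iff.1 (h_cl hl hσ h1').2 (QuotientGroup.mk y) (by
    rw [Nm_mk, hy, QuotientGroup.eq_one_iff]
    exact ⟨x, rfl⟩)
  obtain ⟨w, rfl⟩ := QuotientGroup.mk_surjective c
  obtain ⟨m, hm⟩ := QuotientGroup.eq.1 (show (QuotientGroup.mk (σ • w / w) : Cl M) = _ from hc)
  refine ⟨m, prin_injective ?_⟩
  have e := Nm_apply_self (α := act (Idele M) σ) (l := l)
    (fun x => by rw [act_iterate, hσ, one_smul]) w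
  rw [map_Nm (prin M) (β := act (Idele M) σ) fun x => (smul_prin' σ x).symm, hm, map_mul, map_inv,
    map_div, hy, show Nm (act (Idele M) σ) l (σ • w) = _ from e, div_self', inv_one, one_mul]

end Pool.Agent.Lib.CFT
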