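import Mathlib

/-!
Herbrand quotients and explicit low-dimensional group cohomology, in multiplicative form.
-/

namespace Pool.Agent.Lib.CFT

section Herbrand

variable {A : Type} [CommGroup A]

/-- The map `x ↦ σ x / x`. -/
def Dm (σ : A →* A) : A →* A := σ / MonoidHom.id A

theorem Dm_apply (σ : A →* A) (x : A) : Dm σ x = σ x / x := rfl

/-- The norm `x ↦ x * σ x * ⋯ * σ ^ (l - 1) x`. -/
def Nm (σ : A →* A) (l : ℕ) : A →* A where
  toFun x := ∏ i ∈ Finset.range l, σ^[i] x
  map_one' := Finset.prod_eq_one fun i _ => iterate_map_one σ i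
  map_mul' x y := by simp only [iterate_map_mul, Finset.prod_mul_distrib]

theorem Nm_apply (σ : A →* A) (l : ℕ) (x : A) : Nm σ l x = ∏ i ∈ Finset.range l, σ^[i] x := rfl

/-- The order of the Tate group in degree `0` (zero if infinite). -/
noncomputable def h0 (σ : A →* A) (l : ℕ) : ℕ := (Nm σ l).range.relIndex (Dm σ).ker

/-- The order of the Tate group in degree `1` (zero if infinite). -/
noncomputable def h1 (σ : A →* A) (l : ℕ) : ℕ := (Dm σ).range.relIndex (Nm σ l).ker

/-- The Herbrand quotient is defined and equal to `q`. -/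
def HerbQ (σ : A →* A) (l : ℕ) (q : ℚ) : Prop :=
  h0 σ l ≠ 0 ∧ h1 σ l ≠ 0 ∧ (h0 σ l : ℚ) = q * h1 σ l

/-- The restriction of `σ` to a stable subgroup. -/
def resS (σ : A →* A) (S : Subgroup A) (h : ∀ x ∈ S, σ x ∈ S) : S →* S :=
  (σ.comp S.subtype).codRestrict S fun x => h x.1 x.2

theorem resS_val (σ : A →* A) (S : Subgroup A) (h : ∀ x ∈ S, σ x ∈ S) (x : S) :
    (resS σ S h x : A) = σ x := rfl

/-- The permutation module `ℤ ^ X`. -/
def permH {X : Type} (π : Equiv.Perm X) : Multiplicative (X → ℤ) →* Multiplicative (X → ℤ) where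
  toFun f := Multiplicative.ofAdd fun x => f.toAdd (π.symm x)
  map_one' := rfl
  map_mul' _ _ := rfl

end Herbrand

section Cohomology

variable {G : Type} [Group G] (C : Type) [CommGroup C] [MulDistribMulAction G C]

/-- The action of one group element. -/
abbrev act (s : G) : C →* C := MulDistribMulAction.toMonoidHom C s

/-- The invariants of a subgroup. -/
def Inv (N : Subgroup G) : Subgroup C where
  carrier := {x | ∀ s ∈ N, s • x = x}
  one_mem' := fun s _ => smul_one s
  mul_mem' := fun {x y} hx hy s hs => by rw [smul_mul', hx s hs, hy s hs]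
  inv_mem' := fun {x} hx s hs => by rw [smul_inv', hx s hs]

variable {C}

theorem mem_Inv {N : Subgroup G} {x : C} : x ∈ Inv C N ↔ ∀ s ∈ N, s • x = x := Iff.rfl

theorem smul_mem_Inv {N : Subgroup G} {σ : G} (h : ∀ n ∈ N, σ⁻¹ * n * σ ∈ N) :
    ∀ x ∈ Inv C N, act C σ x ∈ Inv C N := fun x hx s hs => by
  have e := congrArg (σ • ·) (hx _ (h s hs))
  simp only [smul_smul, ← mul_assoc, mul_inv_cancel, one_mul] at e
  exact (mul_smul s σ x).symm.trans e

variable (C) in
/-- The action of an element of the normaliser of `N` on the invariants of `N`. -/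
def lay (N : Subgroup G) (σ : G) (h : ∀ n ∈ N, σ⁻¹ * n * σ ∈ N) : Inv C N →* Inv C N :=
  resS (act C σ) (Inv C N) (smul_mem_Inv h)

variable (G C) in
/-- The two inequalities in all layers of prime degree. -/
def PrimeAx : Prop :=
  ∀ (N : Subgroup G) (σ : G) (h : ∀ n ∈ N, σ⁻¹ * n * σ ∈ N) (l : ℕ), l.Prime → σ ∉ N → σ ^ l ∈ N →
    h0 (lay C N σ h) l = l ∧ h1 (lay C N σ h) l = 1

/-- One-cocycles on a subgroup. -/
def Coc1 (H : Subgroup G) (c : G → C) : Prop := ∀ s ∈ H, ∀ t ∈ H, c (s * t) = c s * s • c t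

/-- One-coboundaries on a subgroup. -/
def Cob1 (H : Subgroup G) (c : G → C) : Prop := ∃ z : C, ∀ s ∈ H, c s = s • z * z⁻¹

/-- Two-cocycles on a subgroup. -/
def Coc2 (H : Subgroup G) (u : G → G → C) : Prop :=
  ∀ s ∈ H, ∀ t ∈ H, ∀ r ∈ H, s • u t r * u s (t * r) = u (s * t) r * u s t

/-- Two-coboundaries on a subgroup. -/
def Cob2 (H : Subgroup G) (u : G → G → C) : Prop :=
  ∃ z : G → C, ∀ s ∈ H, ∀ t ∈ H, u s t = s • z t * z s * (z (s * t))⁻¹

/-- `u` is a two-cocycle on `H` whose class has order exactly `|H|`. -/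
def Fund (H : Subgroup G) (u : G → G → C) : Prop :=
  Coc2 H u ∧ ∀ j : ℕ, Cob2 H (u ^ j) → Nat.card H ∣ j

end Cohomology

section Additive

variable {G : Type} [Group G] (B : Type) [AddCommGroup B] [DistribMulAction G B]

/-- The first cohomology of the subgroup `H` vanishes. -/
def H1z (H : Subgroup G) : Prop :=
  ∀ c : G → B, (∀ s ∈ H, ∀ t ∈ H, c (s * t) = c s + s • c t) → ∃ z : B, ∀ s ∈ H, c s = s • z - z

/-- The second cohomology of the subgroup `H` vanishes. -/
def H2z (H : Subgroup G) : Prop :=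
  ∀ u : G → G → B, (∀ s ∈ H, ∀ t ∈ H, ∀ r ∈ H, s • u t r + u s (t * r) = u (s * t) r + u s t) →
    ∃ z : G → B, ∀ s ∈ H, ∀ t ∈ H, u s t = s • z t + z s - z (s * t)

/-- The first cohomology of `H` with values in `Hom (X, B)` vanishes. -/
def H1Hom (X : Type) [AddCommGroup X] [DistribMulAction G X] (H : Subgroup G) : Prop :=
  ∀ z : G → X →+ B, (∀ s ∈ H, ∀ t ∈ H, ∀ x, z (s * t) x = z s x + s • z t (s⁻¹ • x)) →
    ∃ θ : X →+ B, ∀ s ∈ H, ∀ x, z s x = s • θ (s⁻¹ • x) - θ x

end Additive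

end Pool.Agent.Lib.CFT
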