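import Pool.Agent.Lib.CFT.HDefs

/-! CFT-Herb1: multiplicativity of the Herbrand quotient. -/

namespace Pool.Agent.Lib.CFT

variable {A B C : Type} [CommGroup A] [CommGroup B] [CommGroup C] {α : A →* A} {β : B →* B}
  {γ : C →* C} {l : ℕ} {f : A →* B} {g : B →* C}

namespace Herb1Aux

open Subgroup

/-- One half of the exact hexagon, in terms of indices. -/
theorem half (hf : Function.Injective f) (hg : Function.Surjective g) (hfg : f.range = g.ker)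
    {DA NA : A →* A} {DB NB : B →* B} {DC NC : C →* C} (fD : ∀ x, f (DA x) = DB (f x))
    (fN : ∀ x, f (NA x) = NB (f x)) (gD : ∀ x, g (DB x) = DC (g x))
    (gN : ∀ x, g (NB x) = NC (g x)) (DN : ∀ x, DB (NB x) = 1) (ND : ∀ x, NB (DB x) = 1) :
    ∃ r s : ℕ, NB.range.relIndex DB.ker = (NB.range.comap f).relIndex DA.ker * r ∧
      NC.range.relIndex DC.ker = r * s ∧
        DA.range.relIndex NA.ker = s * (DB.range.comap f).relIndex NA.ker := by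
  have gf : ∀ a, g (f a) = 1 := fun a => MonoidHom.mem_ker.1 (hfg ▸ ⟨a, rfl⟩)
  have ex : ∀ b, g b = 1 → ∃ a, f a = b := fun b hb => by
    have : b ∈ f.range := hfg ▸ MonoidHom.mem_ker.2 hb
    exact this
  refine ⟨(NC.range.comap g).relIndex DB.ker, (DB.ker.map g).relIndex DC.ker, ?_, ?_, ?_⟩
  · have e : NC.range.comap g ⊓ DB.ker = DA.ker.map f ⊔ NB.range := by
      refine le_antisymm ?_ (sup_le ?_ ?_)
      · rintro b ⟨⟨c, hc⟩, hb⟩
        obtain ⟨b', rfl⟩ := hg c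
        obtain ⟨a, ha⟩ := ex (b / NB b') (by rw [map_div, gN, hc, div_self'])
        refine mem_sup.2 ⟨f a, ⟨a, hf ?_, rfl⟩, NB b', ⟨b', rfl⟩, by rw [ha, div_mul_cancel]⟩
        rw [fD, ha, map_div, DN, MonoidHom.mem_ker.1 hb, map_one, div_one]
      · rintro _ ⟨a, ha, rfl⟩
        refine ⟨⟨1, by rw [map_one, gf]⟩, MonoidHom.mem_ker.2 ?_⟩
        rw [← fD, MonoidHom.mem_ker.1 ha, map_one]
      · rintro _ ⟨b, rfl⟩
        exact ⟨⟨g b, (gN b).symm⟩, DN b⟩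
    rw [← inf_relIndex_right (NC.range.comap g), relIndex_comap NB.range,
      ← relIndex_sup_right (DA.ker.map f), ← e]
    exact (relIndex_mul_relIndex _ _ _ (e ▸ le_sup_right) inf_le_right).symm
  · rw [relIndex_comap]
    refine (relIndex_mul_relIndex _ _ _ ?_ ?_).symm
    · rintro _ ⟨c, rfl⟩
      obtain ⟨b, rfl⟩ := hg c
      exact ⟨NB b, DN b, gN b⟩
    · rintro _ ⟨b, hb, rfl⟩
      rw [MonoidHom.mem_ker, ← gD, MonoidHom.mem_ker.1 hb, map_one]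
  · have e1 : (DB.range.comap f).map f = (DC.ker.comap g).map DB := by
      ext x
      constructor
      · rintro ⟨a, ⟨b, hb⟩, rfl⟩
        refine ⟨b, ?_, hb⟩
        change DC (g b) = 1
        rw [← gD, hb, gf]
      · rintro ⟨b, hb, rfl⟩
        obtain ⟨a, ha⟩ := ex (DB b) ((gD b).trans hb)
        exact ⟨a, ⟨b, ha.symm⟩, ha⟩
    have e2 : (DA.range.map f).comap DB = (DB.ker.map g).comap g := by
      ext b
      constructor
      · rintro ⟨_, ⟨a, rfl⟩, ha⟩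
        refine ⟨b / f a, ?_, by rw [map_div, gf, div_one]⟩
        change DB (b / f a) = 1
        rw [map_div, ← fD, ha, div_self']
      · rintro ⟨b', hb', e⟩
        obtain ⟨a, ha⟩ := ex (b / b') (by rw [map_div, e, div_self'])
        refine ⟨DA a, ⟨a, rfl⟩, ?_⟩
        rw [fD, ha, map_div, MonoidHom.mem_ker.1 hb', div_one]
    have e3 : DA.range.relIndex (DB.range.comap f) = (DB.ker.map g).relIndex DC.ker := by
      conv_lhs => rw [← comap_map_eq_self_of_injective hf DA.range]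
      rw [relIndex_comap, e1, ← relIndex_comap, e2, relIndex_comap,
        map_comap_eq_self_of_surjective hg]
    rw [← e3]
    refine (relIndex_mul_relIndex _ _ _ ?_ ?_).symm
    · rintro _ ⟨a, rfl⟩
      exact ⟨f a, (fD a).symm⟩
    · rintro a ⟨b, hb⟩
      refine hf ?_
      rw [fN, ← hb, ND, map_one]

theorem map_iter (ef : ∀ x, f (α x) = β (f x)) (i : ℕ) (x : A) : f (α^[i] x) = β^[i] (f x) :=
  Function.Semiconj.iterate_right (f := f) ef i x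

theorem map_Nm (ef : ∀ x, f (α x) = β (f x)) (x : A) : f (Nm α l x) = Nm β l (f x) := by
  simp only [Nm_apply, map_prod, map_iter ef]

theorem Nm_self (hl : ∀ x, β^[l] x = x) (x : B) : Nm β l (β x) = Nm β l x := by
  have h := (Finset.prod_range_succ' (fun i => β^[i] x) l).symm.trans
    (Finset.prod_range_succ (fun i => β^[i] x) l)
  rw [hl] at h
  exact mul_right_cancel h

theorem hexagon (hf : Function.Injective f) (hg : Function.Surjective g) (hfg : f.range = g.ker)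
    (ef : ∀ x, f (α x) = β (f x)) (eg : ∀ x, g (β x) = γ (g x)) (hl : ∀ x, β^[l] x = x) :
    ∃ r₁ r₂ r₃ r₄ r₅ r₆ : ℕ, h0 α l = r₆ * r₁ ∧ h0 β l = r₁ * r₂ ∧ h0 γ l = r₂ * r₃ ∧
      h1 α l = r₃ * r₄ ∧ h1 β l = r₄ * r₅ ∧ h1 γ l = r₅ * r₆ := by
  have fD : ∀ x, f (Dm α x) = Dm β (f x) := fun x => by rw [Dm_apply, Dm_apply, map_div, ef]
  have gD : ∀ x, g (Dm β x) = Dm γ (g x) := fun x => by rw [Dm_apply, Dm_apply, map_div, eg]
  have DN : ∀ x, Dm β (Nm β l x) = 1 := fun x => by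
    rw [Dm_apply, map_Nm (f := β) (α := β) (β := β) (fun _ => rfl), Nm_self hl, div_self']
  have ND : ∀ x, Nm β l (Dm β x) = 1 := fun x => by
    rw [Dm_apply, map_div, Nm_self hl, div_self']
  obtain ⟨r₂, r₃, a1, a2, a3⟩ := half hf hg hfg fD (map_Nm ef) gD (map_Nm eg) DN ND
  obtain ⟨r₅, r₆, b1, b2, b3⟩ := half hf hg hfg (map_Nm ef) fD (map_Nm eg) gD ND DN
  exact ⟨_, r₂, r₃, _, r₅, r₆, b3, a1, a2, a3, b1, b2⟩

theorem eq_div {q : ℚ} {r s r' s' : ℕ} (h : r' * s' ≠ 0) (e : ((r * s : ℕ) : ℚ) = q * (r' * s' : ℕ)) :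
    q = r * s / (r' * s') := by
  have : (r' : ℚ) * s' ≠ 0 := by exact_mod_cast h
  rw [eq_div_iff this]
  exact_mod_cast e.symm

end Herb1Aux

theorem HerbQ.mid (hf : Function.Injective f) (hg : Function.Surjective g) (hfg : f.range = g.ker)
    (ef : ∀ x, f (α x) = β (f x)) (eg : ∀ x, g (β x) = γ (g x)) (hl : ∀ x, β^[l] x = x)
    {a c : ℚ} (ha : HerbQ α l a) (hc : HerbQ γ l c) : HerbQ β l (a * c) := by
  obtain ⟨r₁, r₂, r₃, r₄, r₅, r₆, e1, e2, e3, e4, e5, e6⟩ := Herb1Aux.hexagon hf hg hfg ef eg hl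
  unfold HerbQ at *
  rw [e1, e4] at ha
  rw [e3, e6] at hc
  rw [e2, e5, Herb1Aux.eq_div ha.2.1 ha.2.2, Herb1Aux.eq_div hc.2.1 hc.2.2]
  obtain ⟨⟨h6, h1⟩, ⟨h3, h4⟩⟩ := And.intro (mul_ne_zero_iff.1 ha.1) (mul_ne_zero_iff.1 ha.2.1)
  obtain ⟨⟨h2, -⟩, ⟨h5, -⟩⟩ := And.intro (mul_ne_zero_iff.1 hc.1) (mul_ne_zero_iff.1 hc.2.1)
  refine ⟨mul_ne_zero h1 h2, mul_ne_zero h4 h5, ?_⟩
  push_cast
  field_simp

theorem HerbQ.left (hf : Function.Injective f) (hg : Function.Surjective g) (hfg : f.range = g.ker)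
    (ef : ∀ x, f (α x) = β (f x)) (eg : ∀ x, g (β x) = γ (g x)) (hl : ∀ x, β^[l] x = x)
    {b c : ℚ} (hb : HerbQ β l b) (hc : HerbQ γ l c) : HerbQ α l (b / c) := by
  obtain ⟨r₁, r₂, r₃, r₄, r₅, r₆, e1, e2, e3, e4, e5, e6⟩ := Herb1Aux.hexagon hf hg hfg ef eg hl
  unfold HerbQ at *
  rw [e2, e5] at hb
  rw [e3, e6] at hc
  rw [e1, e4, Herb1Aux.eq_div hb.2.1 hb.2.2, Herb1Aux.eq_div hc.2.1 hc.2.2]
  obtain ⟨⟨h1, h2⟩, ⟨h4, h5⟩⟩ := And.intro (mul_ne_zero_iff.1 hb.1) (mul_ne_zero_iff.1 hb.2.1)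
  obtain ⟨⟨-, h3⟩, ⟨-, h6⟩⟩ := And.intro (mul_ne_zero_iff.1 hc.1) (mul_ne_zero_iff.1 hc.2.1)
  refine ⟨mul_ne_zero h6 h1, mul_ne_zero h3 h4, ?_⟩
  push_cast
  field_simp

theorem HerbQ.right (hf : Function.Injective f) (hg : Function.Surjective g) (hfg : f.range = g.ker)
    (ef : ∀ x, f (α x) = β (f x)) (eg : ∀ x, g (β x) = γ (g x)) (hl : ∀ x, β^[l] x = x)
    {a b : ℚ} (ha : HerbQ α l a) (hb : HerbQ β l b) : HerbQ γ l (b / a) := by
  obtain ⟨r₁, r₂, r₃, r₄, r₅, r₆, e1, e2, e3, e4, e5, e6⟩ := Herb1Aux.hexagon hf hg hfg ef eg hl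
  unfold HerbQ at *
  rw [e1, e4] at ha
  rw [e2, e5] at hb
  rw [e3, e6, Herb1Aux.eq_div ha.2.1 ha.2.2, Herb1Aux.eq_div hb.2.1 hb.2.2]
  obtain ⟨⟨h6, h1⟩, ⟨h3, h4⟩⟩ := And.intro (mul_ne_zero_iff.1 ha.1) (mul_ne_zero_iff.1 ha.2.1)
  obtain ⟨⟨-, h2⟩, ⟨-, h5⟩⟩ := And.intro (mul_ne_zero_iff.1 hb.1) (mul_ne_zero_iff.1 hb.2.1)
  refine ⟨mul_ne_zero h2 h3, mul_ne_zero h5 h6, ?_⟩
  push_cast
  field_simp

end Pool.Agent.Lib.CFT
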