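import Pool.Agent.Lib.CFT.Loc2
import Pool.Agent.Lib.CFT.Tr1

/-! CFT-Kum1: Kummer extensions of prime degree. -/

namespace Pool.Agent.Lib.CFT

open scoped TensorProduct
open NumberField
open Pool.Agent.P.MP_9ec3f0_nt.SY

variable {l : ℕ} {k M : Type} [Field k] [NumberField k] [Field M] [NumberField M] [Algebra k M]

namespace Kum1Aux

open Polynomial

theorem geom_zero {A : Type} [CommRing A] {s : A} (hs : s ^ l = 1) (hu : IsUnit (s - 1)) :
    ∑ i ∈ Finset.range l, s ^ i = 0 := by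
  have h := geom_sum_mul s l
  rw [hs, sub_self] at h
  exact (hu.mul_left_eq_zero).1 h

theorem pow_apply_mul (σ : Aut M) (j : ℕ) (x : M) : σ ((σ ^ j) x) = (σ ^ (j + 1)) x := by
  rw [pow_succ', AlgEquiv.mul_apply]

/-- The Lagrange resolvents. -/
theorem resolvent (hl : l.Prime) {z : M} (hz : IsPrimitiveRoot z l) {σ : Aut M} (hσ : σ ^ l = 1)
    (hσz : σ z = z) (x : M) : ∃ p : ℕ → M, (∀ i, σ (p i) = z ^ i * p i) ∧
      ∑ i ∈ Finset.range l, p i = x ∧
      ∀ w : Pr M, cj σ w = w → w.valuation M (l : M) = 1 → ∀ i,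
        w.valuation M (p i) ≤ w.valuation M x := by
  have hz0 : z ≠ 0 := hz.ne_zero hl.ne_zero
  have hl0 : (l : M) ≠ 0 := Nat.cast_ne_zero.2 hl.ne_zero
  have hη : IsPrimitiveRoot z⁻¹ l := hz.inv
  refine ⟨fun i => (l : M)⁻¹ * ∑ j ∈ Finset.range l, (z⁻¹ ^ i) ^ j * (σ ^ j) x, fun i => ?_, ?_,
    fun w hw hwl i => ?_⟩
  · have h1 := Finset.sum_range_succ (fun j => (z⁻¹ ^ i) ^ j * (σ ^ j) x) l
    rw [Finset.sum_range_succ', hσ, ← pow_mul z⁻¹ i l, mul_comm i l, pow_mul, hη.pow_eq_one,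
      one_pow, pow_zero, pow_zero, add_left_inj] at h1
    simp only [map_mul, map_inv₀, map_natCast, map_sum, map_pow, hσz, pow_apply_mul]
    rw [← h1, mul_left_comm, Finset.mul_sum _ _ (z ^ i)]
    congr 1
    refine Finset.sum_congr rfl fun j _ => ?_
    rw [pow_succ (z⁻¹ ^ i), inv_pow z i]
    field_simp
  · rw [← Finset.mul_sum, Finset.sum_comm, Finset.sum_eq_single 0]
    · simp only [pow_zero, one_mul, AlgEquiv.one_apply, Finset.sum_const, Finset.card_range,
        nsmul_eq_mul]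
      field_simp
    · intro j hj h0
      simp only [← pow_mul, mul_comm _ j]
      simp only [pow_mul]
      rw [← Finset.sum_mul, geom_zero, zero_mul]
      · rw [← pow_mul, mul_comm, pow_mul, hη.pow_eq_one, one_pow]
      · exact (sub_ne_zero.2 (hη.pow_ne_one_of_pos_of_lt h0 (Finset.mem_range.1 hj))).isUnit
    · intro h
      exact absurd (Finset.mem_range.2 hl.pos) h
  · have hv := (fixes_iff σ w).1 hw
    have hvj : ∀ j : ℕ, w.valuation M ((σ ^ j) x) = w.valuation M x := by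
      intro j
      induction j with
      | zero => rfl
      | succ j ih => rw [← pow_apply_mul, hv, ih]
    have hvz : w.valuation M z = 1 := by
      have := congrArg (w.valuation M) hz.pow_eq_one
      rw [map_pow, map_one] at this
      exact (pow_eq_one_iff_left hl.ne_zero).1 this
    simp only [map_mul, map_inv₀, hwl, inv_one, one_mul]
    refine Valuation.map_sum_le _ fun j _ => ?_
    simp only [map_mul, map_pow, map_inv₀, hvz, inv_one, one_pow, one_mul, hvj, le_refl]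

theorem kum_of (hl : l.Prime) {ζ : k} (hζ : IsPrimitiveRoot ζ l) {b : k} (hb : b ≠ 0)
    (τ : M ≃ₐ[k] M) {β : M} (hβ : β ^ l = algebraMap k M b) (hτ : τ β = algebraMap k M ζ * β)
    (hτl : τ ^ l = 1) (hr : Module.finrank k M = l) : ∃ Q : Kum l k M, Q.b = b := by
  have hβ0 : β ≠ 0 := by
    rintro rfl
    rw [zero_pow hl.ne_zero, eq_comm, map_eq_zero] at hβ
    exact hb hβ
  refine ⟨⟨τ.restrictScalars ℚ, ζ, β, b, hl, hζ, hb, hβ, hτ, ?_, fun x => ⟨fun hx => ?_, ?_⟩⟩, rfl⟩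
  · ext x
    have h1 := DFunLike.congr_fun hτl x
    rw [AlgEquiv.coe_pow] at h1 ⊢
    exact h1
  · rcases (Subalgebra.isSimpleOrder_of_finrank_prime k M (hr ▸ hl)).eq_bot_or_eq_top
      (AlgHom.equalizer τ.toAlgHom (AlgHom.id k M)) with h | h
    · have h1 : x ∈ AlgHom.equalizer τ.toAlgHom (AlgHom.id k M) := hx
      rw [h, Algebra.mem_bot] at h1
      exact h1
    · have h1 : β ∈ AlgHom.equalizer τ.toAlgHom (AlgHom.id k M) := h ▸ Algebra.mem_top
      have h2 : τ β = β := h1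
      rw [hτ, mul_eq_right₀ hβ0, map_eq_one_iff _ (algebraMap k M).injective] at h2
      exact absurd h2 (hζ.ne_one hl.one_lt)
  · rintro ⟨y, rfl⟩
    exact τ.commutes y

theorem val_pow_eq_one {v : Pr k} {x : k} {n : ℕ} (hn : n ≠ 0) (h : v.valuation k (x ^ n) = 1) :
    v.valuation k x = 1 := by
  rw [map_pow] at h
  exact (pow_eq_one_iff_left hn).1 h

theorem val_pow_sub {v : Pr k} {a b : k} (ha : v.valuation k a ≤ 1) (hb : v.valuation k b ≤ 1)
    (h : v.valuation k (a - b) < 1) (n : ℕ) : v.valuation k (a ^ n - b ^ n) < 1 := by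
  induction n with
  | zero => simp
  | succ n ih =>
    have e : a ^ (n + 1) - b ^ (n + 1) = (a ^ n - b ^ n) * a + (a - b) * b ^ n := by ring
    rw [e]
    refine Valuation.map_add_lt _ ?_ ?_
    · rw [map_mul]
      exact lt_of_le_of_lt (mul_le_of_le_one_right' ha) ih
    · rw [map_mul, map_pow]
      exact lt_of_le_of_lt (mul_le_of_le_one_right' (pow_le_one' hb n)) h

theorem cyc {G : Type} [CommGroup G] [IsCyclic G] (hl : l.Prime) {b : G} (hb : ∀ t, t ^ l ≠ b)
    (u : G) : ∃ (i : ℕ) (t : G), u = b ^ i * t ^ l := by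
  obtain ⟨g, hg⟩ := IsCyclic.exists_generator (α := G)
  obtain ⟨m, rfl⟩ := Subgroup.mem_zpowers_iff.1 (hg b)
  obtain ⟨n, rfl⟩ := Subgroup.mem_zpowers_iff.1 (hg u)
  have h1 : ¬ (l : ℤ) ∣ m := by
    rintro ⟨c, rfl⟩
    exact hb (g ^ c) (by rw [← zpow_natCast, ← zpow_mul, mul_comm])
  obtain ⟨a, c, h⟩ := (Nat.prime_iff_prime_int.1 hl).coprime_iff_not_dvd.2 h1
  have hl0 : (0 : ℤ) < l := by exact_mod_cast hl.pos
  obtain ⟨i, hi⟩ := Int.eq_ofNat_of_zero_le (Int.emod_nonneg (c * n) hl0.ne')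
  refine ⟨i, g ^ (a * n + m * (c * n / l)), ?_⟩
  rw [← zpow_natCast, ← zpow_natCast, ← zpow_mul, ← zpow_mul, ← zpow_add]
  congr 1
  have h2 := Int.emod_add_mul_ediv (c * n) l
  rw [hi] at h2
  linear_combination (-n) * h - m * h2

theorem powMod_of_sub {v : Pr k} {x y : k} (hy : v.valuation k y = 1)
    (h : v.valuation k (x - y ^ l) < 1) : PowMod l v x := by
  have hy0 : y ≠ 0 := by
    rintro rfl
    simp at hy
  refine ⟨y, hy0, ?_⟩
  have e : x / y ^ l - 1 = (x - y ^ l) / y ^ l := by field_simp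
  rwa [e, map_div₀, map_pow, hy, one_pow, div_one]

theorem prod_orth {A : Type} [CommRing A] (e : ℕ → A) (X : A) (n : ℕ)
    (h : ∀ i < n, ∀ j < n, i ≠ j → e i * e j = 0) :
    ∏ j ∈ Finset.range n, (e j * X + (1 - e j)) =
      (∑ j ∈ Finset.range n, e j) * X + (1 - ∑ j ∈ Finset.range n, e j) := by
  induction n with
  | zero => simp
  | succ n ih =>
    have h0 : (∑ j ∈ Finset.range n, e j) * e n = 0 := by
      rw [Finset.sum_mul]
      refine Finset.sum_eq_zero fun j hj => ?_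
      have := Finset.mem_range.1 hj
      exact h j (by omega) n (by omega) (by omega)
    rw [Finset.prod_range_succ, Finset.sum_range_succ,
      ih fun i hi j hj => h i (by omega) j (by omega)]
    linear_combination (X - 1) ^ 2 * h0

theorem idem {A : Type} [CommRing A] (φ : A →+* A) {t z r : A} (hl : 0 < l) (ht : t ^ l = 1)
    (hz : z ^ l = 1) (hφt : φ t = z * t) (hφz : φ z = z) (hφr : φ r = r) (hr : r * l = 1)
    (hu : ∀ i < l, ∀ j < l, i ≠ j → IsUnit (z ^ i - z ^ j)) :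
    ∃ ε : A, IsIdempotentElem ε ∧ ∀ X, φ X = X →
      ∏ j ∈ Finset.range l, φ^[j] (ε * X + (1 - ε)) = X := by
  set e : ℕ → A := fun j => r * ∑ i ∈ Finset.range l, (z ^ j * t) ^ i with he
  have h1 : ∀ j, z ^ j * t * e j = e j := by
    intro j
    have h := geom_sum_mul (z ^ j * t) l
    rw [mul_pow, ht, ← pow_mul, mul_comm j l, pow_mul, hz, one_pow, mul_one, sub_self] at h
    simp only [he]
    linear_combination r * h
  have h2 : ∀ j, φ (e j) = e (j + 1) := by
    intro j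
    simp only [he, map_mul, map_sum, map_pow, hφt, hφz, hφr, pow_succ z, mul_assoc]
  have h3 : ∑ j ∈ Finset.range l, e j = 1 := by
    simp only [he]
    rw [← Finset.mul_sum, Finset.sum_comm, Finset.sum_eq_single 0]
    · simpa using hr
    · intro i hi h0
      simp only [mul_pow, ← pow_mul, mul_comm _ i]
      simp only [pow_mul]
      rw [← Finset.sum_mul, geom_zero, zero_mul]
      · rw [← pow_mul, mul_comm, pow_mul, hz, one_pow]
      · simpa using hu i (Finset.mem_range.1 hi) 0 hl h0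
    · intro h
      exact absurd (Finset.mem_range.2 hl) h
  have htu : IsUnit t := IsUnit.of_pow_eq_one ht hl.ne'
  have h4 : ∀ i < l, ∀ j < l, i ≠ j → e i * e j = 0 := by
    intro i hi j hj hij
    rw [← ((hu i hi j hj hij).mul htu).mul_right_eq_zero]
    linear_combination e j * h1 i - e i * h1 j
  refine ⟨e 0, ?_, fun X hX => ?_⟩
  · have h5 : e 0 * ∑ j ∈ Finset.range l, e j = e 0 * e 0 := by
      rw [Finset.mul_sum, Finset.sum_eq_single 0]
      · intro j hj h0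
        exact h4 0 hl j (Finset.mem_range.1 hj) h0.symm
      · intro h
        exact absurd (Finset.mem_range.2 hl) h
    rw [h3, mul_one] at h5
    exact h5.symm
  · have h6 : ∀ j, φ^[j] (e 0 * X + (1 - e 0)) = e j * X + (1 - e j) := by
      intro j
      induction j with
      | zero => rfl
      | succ j ih => rw [Function.iterate_succ_apply', ih, map_add, map_mul, map_sub, map_one, hX,
          h2]
    simp only [h6]
    rw [prod_orth e X l h4, h3, one_mul, sub_self, add_zero]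

theorem β_ne (Q : Kum l k M) : Q.β ≠ 0 := by
  intro h
  have h1 := Q.pow
  rw [h, zero_pow Q.prime.ne_zero, eq_comm, map_eq_zero] at h1
  exact Q.b_ne h1

theorem prim (Q : Kum l k M) : IsPrimitiveRoot (algebraMap k M Q.ζ) l :=
  Q.prim.map_of_injective (algebraMap k M).injective

theorem eigen (Q : Kum l k M) {y : M} {i : ℕ} (h : Q.σ y = algebraMap k M Q.ζ ^ i * y) :
    ∃ c : k, y = algebraMap k M c * Q.β ^ i := by
  have h0 := β_ne Q
  have h1 := (prim Q).ne_zero Q.prime.ne_zero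
  obtain ⟨c, hc⟩ := (Q.fix (y / Q.β ^ i)).1 (by
    rw [map_div₀, map_pow, h, Q.σ_β]
    field_simp
    ring)
  exact ⟨c, by rw [hc, div_mul_cancel₀ _ (pow_ne_zero i h0)]⟩

theorem val_β (Q : Kum l k M) {w : Pr M} (hb : (dn k w).valuation k Q.b = 1) :
    w.valuation M Q.β = 1 :=
  val_pow_eq_one Q.prime.ne_zero (by rw [Q.pow, val_algebraMap_eq_one_iff, hb])

theorem val_l {w : Pr M} (hl : (dn k w).valuation k (l : k) = 1) : w.valuation M (l : M) = 1 := by
  rw [← map_natCast (algebraMap k M), val_algebraMap_eq_one_iff, hl]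

end Kum1Aux

open Polynomial in
theorem exists_kum_ext (hl : l.Prime) {ζ : k} (hζ : IsPrimitiveRoot ζ l) {b : k} (hb : b ≠ 0)
    (hn : ¬ ∃ y : k, y ^ l = b) : ∃ (M : Type) (_ : Field M) (_ : NumberField M) (_ : Algebra k M)
      (Q : Kum l k M), Q.b = b := by
  haveI : Fact (Irreducible (X ^ l - C b : k[X])) :=
    ⟨(X_pow_sub_C_irreducible_iff_of_prime hl).2 fun y hy => hn ⟨y, hy⟩⟩
  have hm : (X ^ l - C b : k[X]).Monic := monic_X_pow_sub_C b hl.ne_zero
  have hr : Module.finrank k (AdjoinRoot (X ^ l - C b : k[X])) = l := by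
    rw [(AdjoinRoot.powerBasis hm.ne_zero).finrank, AdjoinRoot.powerBasis_dim,
      natDegree_X_pow_sub_C]
  haveI : Module.Finite k (AdjoinRoot (X ^ l - C b : k[X])) :=
    (AdjoinRoot.powerBasis hm.ne_zero).finite
  have hβ : AdjoinRoot.root (X ^ l - C b : k[X]) ^ l = algebraMap k _ b := by
    have := AdjoinRoot.eval₂_root (X ^ l - C b : k[X])
    rwa [eval₂_sub, eval₂_X_pow, eval₂_C, sub_eq_zero] at this
  obtain ⟨τ₀, hτ₀⟩ :
      ∃ τ₀ : AdjoinRoot (X ^ l - C b : k[X]) →ₐ[k] AdjoinRoot (X ^ l - C b : k[X]),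
        τ₀ (AdjoinRoot.root _) = algebraMap k _ ζ * AdjoinRoot.root _ :=
    ⟨AdjoinRoot.liftAlgHom _ (Algebra.ofId _ _) (algebraMap k _ ζ * AdjoinRoot.root _) (by
      rw [eval₂_sub, eval₂_X_pow, eval₂_C, mul_pow, hβ, ← map_pow, hζ.pow_eq_one, map_one, one_mul,
        sub_eq_zero]
      rfl), AdjoinRoot.liftAlgHom_root _ _ _ _⟩
  let τ := AlgEquiv.ofBijective τ₀ (Algebra.IsAlgebraic.algHom_bijective τ₀)
  have hτ : τ (AdjoinRoot.root _) = algebraMap k _ ζ * AdjoinRoot.root _ := hτ₀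
  have hτi : ∀ i : ℕ, (τ ^ i) (AdjoinRoot.root _) = algebraMap k _ (ζ ^ i) * AdjoinRoot.root _ := by
    intro i
    induction i with
    | zero => simp
    | succ i ih =>
      rw [pow_succ', AlgEquiv.mul_apply, ih, map_mul, AlgEquiv.commutes, hτ, pow_succ, map_mul,
        mul_assoc]
  have hτl : τ ^ l = 1 := by
    refine AlgEquiv.coe_algHom_injective (AdjoinRoot.algHom_ext ?_)
    have := hτi l
    rw [hζ.pow_eq_one, map_one, one_mul] at this
    exact this
  haveI := NumberField.of_module_finite k (AdjoinRoot (X ^ l - C b : k[X]))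
  exact ⟨AdjoinRoot (X ^ l - C b : k[X]), inferInstance, inferInstance, inferInstance,
    Kum1Aux.kum_of hl hζ hb τ hβ hτ hτl hr⟩

theorem exists_kum (hl : l.Prime) {ζ : k} (hζ : IsPrimitiveRoot ζ l) {σ : Aut M} (hσ : σ ^ l = 1)
    (h1' : σ ≠ 1) (hfix : ∀ x : M, σ x = x ↔ ∃ y : k, algebraMap k M y = x) :
    ∃ Q : Kum l k M, Q.σ = σ := by
  have hz : IsPrimitiveRoot (algebraMap k M ζ) l := hζ.map_of_injective (algebraMap k M).injective
  obtain ⟨x, hx⟩ : ∃ x, σ x ≠ x := by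
    by_contra h
    push Not at h
    exact h1' (AlgEquiv.ext h)
  obtain ⟨p, hp, hs, -⟩ := Kum1Aux.resolvent hl hz hσ ((hfix _).2 ⟨ζ, rfl⟩) x
  obtain ⟨i, hi, hi0, hpi⟩ : ∃ i < l, i ≠ 0 ∧ p i ≠ 0 := by
    by_contra h
    push Not at h
    rw [Finset.sum_eq_single 0 (fun i hi h0 => h i (Finset.mem_range.1 hi) h0)
      fun h => absurd (Finset.mem_range.2 hl.pos) h] at hs
    apply hx
    rw [← hs, hp, pow_zero, one_mul]
  obtain ⟨b, hb⟩ := (hfix (p i ^ l)).1 (by
    rw [map_pow, hp, mul_pow, ← pow_mul, mul_comm i l, pow_mul, hz.pow_eq_one, one_pow, one_mul])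
  refine ⟨⟨σ, ζ ^ i, p i, b, hl, hζ.pow_of_coprime i (Nat.coprime_of_lt_prime hi0 hi hl).symm, ?_,
    hb.symm, by rw [hp, map_pow], hσ, hfix⟩, rfl⟩
  rintro rfl
  rw [map_zero] at hb
  exact pow_ne_zero l hpi hb.symm

theorem Kum.σ_ne_one (Q : Kum l k M) : Q.σ ≠ 1 := by
  intro h
  have h1 := Q.σ_β
  rw [h, AlgEquiv.one_apply, eq_comm, mul_eq_right₀ (Kum1Aux.β_ne Q)] at h1
  exact (Kum1Aux.prim Q).ne_one Q.prime.one_lt h1

theorem Kum.σ_algebraMap (Q : Kum l k M) (x : k) : Q.σ (algebraMap k M x) = algebraMap k M x :=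
  (Q.fix _).2 ⟨x, rfl⟩

theorem Kum.pow_iff (Q : Kum l k M) {u : k} (hu : u ≠ 0) (h : ∃ y : M, y ^ l = algebraMap k M u) :
    ∃ (i : ℕ) (c : k), u = Q.b ^ i * c ^ l := by
  obtain ⟨y, hy⟩ := h
  haveI : NeZero l := ⟨Q.prime.ne_zero⟩
  have hu' : algebraMap k M u ≠ 0 := (map_ne_zero _).2 hu
  have hy0 : y ≠ 0 := by
    rintro rfl
    rw [zero_pow Q.prime.ne_zero] at hy
    exact hu' hy.symm
  obtain ⟨i, -, hi⟩ := (Kum1Aux.prim Q).eq_pow_of_pow_eq_one (ξ := Q.σ y / y) (by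
    rw [div_pow, ← map_pow, hy, Q.σ_algebraMap, div_self hu'])
  obtain ⟨c, hc⟩ := Kum1Aux.eigen Q (y := y) (i := i) (by rw [hi, div_mul_cancel₀ _ hy0])
  refine ⟨i, c, (algebraMap k M).injective ?_⟩
  rw [← hy, hc, map_mul, map_pow, map_pow, ← Q.pow]
  ring

theorem PowMod.mul {v : Pr k} {x y : k} (hx : PowMod l v x) (hy : PowMod l v y) :
    PowMod l v (x * y) := by
  obtain ⟨a, ha, ha'⟩ := hx
  obtain ⟨b, hb, hb'⟩ := hy
  refine ⟨a * b, mul_ne_zero ha hb, ?_⟩
  have e : x * y / (a * b) ^ l - 1 =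
      (x / a ^ l - 1) + (y / b ^ l - 1) + (x / a ^ l - 1) * (y / b ^ l - 1) := by
    rw [mul_pow, mul_div_mul_comm]
    ring
  rw [e]
  refine Valuation.map_add_lt _ (Valuation.map_add_lt _ ha' hb') ?_
  rw [map_mul]
  exact lt_of_le_of_lt (mul_le_of_le_one_right' hb'.le) ha'

theorem PowMod.inv {v : Pr k} {x : k} (hx : PowMod l v x) : PowMod l v x⁻¹ := by
  obtain ⟨a, ha, ha'⟩ := hx
  refine ⟨a⁻¹, inv_ne_zero ha, ?_⟩
  have h1 := Valuation.map_one_add_of_lt _ ha'
  rw [add_sub_cancel] at h1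
  have h0 : x / a ^ l ≠ 0 := by
    intro h
    rw [h, map_zero] at h1
    exact zero_ne_one h1
  have e : x⁻¹ / a⁻¹ ^ l - 1 = -(x / a ^ l - 1) / (x / a ^ l) := by
    rw [inv_pow, inv_div_inv, neg_sub, sub_div, div_self h0, one_div_div]
  rwa [e, map_div₀, h1, div_one, Valuation.map_neg]

theorem powMod_pow (v : Pr k) {x : k} (hx : x ≠ 0) : PowMod l v (x ^ l) :=
  ⟨x, hx, by rw [div_self (pow_ne_zero l hx), sub_self, map_zero]; exact zero_lt_one⟩

theorem PowMod.algebraMap {w : Pr M} {x : k} (hx : PowMod l (dn k w) x) :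
    PowMod l w (algebraMap k M x) := by
  obtain ⟨a, ha, ha'⟩ := hx
  refine ⟨Algebra.algebraMap k M a, (map_ne_zero _).2 ha, ?_⟩
  rw [← val_algebraMap_lt_one_iff, map_sub, map_div₀, map_pow, map_one] at ha'
  exact ha'

theorem powMod_cyc (hl : l.Prime) (v : Pr k) {b u : k} (hb : v.valuation k b = 1)
    (hu : v.valuation k u = 1) (hn : ¬ PowMod l v b) : ∃ i : ℕ, PowMod l v (u / b ^ i) := by
  obtain ⟨β, hβ⟩ := ValAux.exists_int_close v hb.le
  obtain ⟨υ, hυ⟩ := ValAux.exists_int_close v hu.le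
  haveI := v.isMaximal
  letI : Field (𝓞 k ⧸ v.asIdeal) := Ideal.Quotient.field _
  haveI : Finite (𝓞 k ⧸ v.asIdeal) := Ideal.finiteQuotientOfFreeOfNeBot _ v.ne_bot
  have one_of : ∀ {a : k} {α : 𝓞 k}, v.valuation k a = 1 →
      v.valuation k (a - algebraMap (𝓞 k) k α) < 1 → v.valuation k (algebraMap (𝓞 k) k α) = 1 := by
    intro a α ha h
    rw [← ha]
    refine Valuation.map_eq_of_sub_lt _ ?_
    rwa [Valuation.map_sub_swap, ha]
  have ne_iff : ∀ α : 𝓞 k, Ideal.Quotient.mk v.asIdeal α ≠ 0 ↔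
      v.valuation k (algebraMap (𝓞 k) k α) = 1 := by
    intro α
    rw [Ne, Ideal.Quotient.eq_zero_iff_mem, ← v.valuation_lt_one_iff_mem (K := k), not_lt]
    exact ⟨fun h => le_antisymm (v.valuation_le_one α) h, fun h => h.ge⟩
  have hβ1 := one_of hb hβ
  have hυ1 := one_of hu hυ
  have hlift : ∀ t : (𝓞 k ⧸ v.asIdeal)ˣ, ∃ τ : 𝓞 k, Ideal.Quotient.mk v.asIdeal τ = t ∧
      v.valuation k (algebraMap (𝓞 k) k τ) = 1 := by
    intro t
    obtain ⟨τ, hτ⟩ := Ideal.Quotient.mk_surjective (t : 𝓞 k ⧸ v.asIdeal)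
    exact ⟨τ, hτ, (ne_iff τ).1 (hτ ▸ t.ne_zero)⟩
  obtain ⟨i, t, ht⟩ := Kum1Aux.cyc hl (b := Units.mk0 _ ((ne_iff β).2 hβ1)) (fun t ht => by
    obtain ⟨τ, hτ, hτ1⟩ := hlift t
    refine hn (Kum1Aux.powMod_of_sub hτ1 ?_)
    have h1 := ValAux.val_lt_of_mk_eq v (α := β) (β := τ ^ l) (by
      rw [map_pow, hτ, ← Units.val_pow_eq_pow_val, ht, Units.val_mk0])
    have h2 := Valuation.map_add_lt _ hβ h1
    rwa [sub_add_sub_cancel, map_pow] at h2) (Units.mk0 _ ((ne_iff υ).2 hυ1))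
  obtain ⟨τ, hτ, hτ1⟩ := hlift t
  refine ⟨i, Kum1Aux.powMod_of_sub hτ1 ?_⟩
  have h1 := ValAux.val_lt_of_mk_eq v (α := υ) (β := β ^ i * τ ^ l) (by
    have := congrArg Units.val ht
    rw [Units.val_mul, Units.val_pow_eq_pow_val, Units.val_pow_eq_pow_val, Units.val_mk0,
      Units.val_mk0] at this
    rw [map_mul, map_pow, map_pow, hτ, this])
  have h2 := Kum1Aux.val_pow_sub hb.le hβ1.le hβ i
  have hb0 : b ≠ 0 := by
    rintro rfl
    simp at hb
  have e : u / b ^ i - algebraMap (𝓞 k) k τ ^ l =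
      ((u - algebraMap (𝓞 k) k υ) + (algebraMap (𝓞 k) k υ - algebraMap (𝓞 k) k (β ^ i * τ ^ l)) -
        (b ^ i - algebraMap (𝓞 k) k β ^ i) * algebraMap (𝓞 k) k τ ^ l) / b ^ i := by
    rw [map_mul, map_pow, map_pow]
    field_simp
    ring
  rw [e, map_div₀, map_pow (v.valuation k) b, hb, one_pow, div_one]
  refine Valuation.map_sub_lt _ (Valuation.map_add_lt _ hυ h1) ?_
  rwa [map_mul, map_pow (v.valuation k), hτ1, one_pow, mul_one]

theorem Kum.unram (Q : Kum l k M) {w : Pr M} (hw : cj Q.σ w = w)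
    (hl : (dn k w).valuation k (l : k) = 1) (hb : (dn k w).valuation k Q.b = 1) : UnrP k w := by
  obtain ⟨π, hπ⟩ := ExtAux.exists_unif w
  have hπ0 : π ≠ 0 := by
    rintro rfl
    simp [ord] at hπ
  obtain ⟨p, hp, hs, hv⟩ := Kum1Aux.resolvent Q.prime (Kum1Aux.prim Q) Q.σ_pow
    (Q.σ_algebraMap _) π
  obtain ⟨i, hi⟩ : ∃ i, w.valuation M (p i) = w.valuation M π := by
    by_contra h
    push Not at h
    have := Valuation.map_sum_lt (w.valuation M) (s := Finset.range l) (ValAux.val_ne w hπ0)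
      fun i _ => lt_of_le_of_ne (hv w hw (Kum1Aux.val_l hl) i) (h i)
    rw [hs] at this
    exact lt_irrefl _ this
  obtain ⟨c, hc⟩ := Kum1Aux.eigen Q (hp i)
  rw [hc, map_mul, map_pow, Kum1Aux.val_β Q hb, one_pow, mul_one] at hi
  exact ⟨c, by rw [← hπ, ord, ord, hi]⟩

theorem Kum.not_powMod (Q : Kum l k M) {w : Pr M} (hw : cj Q.σ w = w)
    (hl : (dn k w).valuation k (l : k) = 1) (hb : (dn k w).valuation k Q.b = 1) :
    ¬ PowMod l (dn k w) Q.b := by
  rintro ⟨y, hy, h⟩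
  have _ := hb
  have hv := (fixes_iff Q.σ w).1 hw
  have hz := Kum1Aux.prim Q
  set z := algebraMap k M Q.ζ with hzd
  set t := Q.β / algebraMap k M y with ht
  have hvz : w.valuation M z = 1 :=
    Kum1Aux.val_pow_eq_one Q.prime.ne_zero (by rw [hz.pow_eq_one, map_one])
  rw [← val_algebraMap_lt_one_iff, map_sub, map_div₀, map_pow, map_one, ← Q.pow, ← div_pow,
    ← ht] at h
  have e := congrArg (Polynomial.eval t) (X_pow_sub_C_eq_prod hz Q.prime.pos (one_pow l))
  simp only [Polynomial.eval_sub, Polynomial.eval_pow, Polynomial.eval_X, Polynomial.eval_C,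
    Polynomial.eval_prod, mul_one] at e
  obtain ⟨i, hi⟩ : ∃ i, w.valuation M (t - z ^ i) < 1 := by
    by_contra hc
    push Not at hc
    rw [e, map_prod] at h
    exact absurd (Finset.one_le_prod' fun i _ => hc i) (not_le.2 h)
  have ht1 : w.valuation M t = 1 := by
    have h1 : w.valuation M (z ^ i) = 1 := by rw [map_pow, hvz, one_pow]
    rw [← h1]
    exact Valuation.map_eq_of_sub_lt _ (by rwa [h1])
  have hi' : w.valuation M (z * t - z ^ i) < 1 := by
    rw [← hv, map_sub, map_pow, ht, map_div₀, Q.σ_β, Q.σ_algebraMap, Q.σ_algebraMap,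
      mul_div_assoc] at hi
    exact hi
  have h1 := Valuation.map_sub_lt _ hi hi'
  rw [sub_sub_sub_cancel_right, ← one_sub_mul, map_mul, ht1, mul_one] at h1
  have h2 := Valuation.map_sum_lt (w.valuation M) (s := Finset.range l) one_ne_zero
    fun j _ => Kum1Aux.val_pow_sub (map_one _).le hvz.le h1 j
  rw [Finset.sum_sub_distrib, hz.geom_sum_eq_zero Q.prime.one_lt] at h2
  simp only [one_pow, Finset.sum_const, Finset.card_range, nsmul_eq_mul, mul_one, sub_zero] at h2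
  exact absurd (Kum1Aux.val_l hl) h2.ne

theorem Kum.powMod_of_fixed (Q : Kum l k M) {w : Pr M} (hw : cj Q.σ w = w)
    (hl : (dn k w).valuation k (l : k) = 1) (hb : (dn k w).valuation k Q.b = 1) {u : k}
    (hu : (dn k w).valuation k u = 1) : PowMod l w (algebraMap k M u) := by
  obtain ⟨i, hi⟩ := powMod_cyc Q.prime _ hb hu (Q.not_powMod hw hl hb)
  have h := hi.algebraMap.mul (powMod_pow (l := l) w (pow_ne_zero i (Kum1Aux.β_ne Q)))
  rwa [← pow_mul, mul_comm i l, pow_mul, Q.pow, ← map_pow, ← map_mul,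
    div_mul_cancel₀ _ (pow_ne_zero i Q.b_ne)] at h

theorem Kum.norm_of_pow (Q : Kum l k M) (κ : Type) [Field κ] [Algebra ℚ κ] {c : κ ⊗[ℚ] k}
    (hc : c ^ l = inc κ k Q.b) (x : (κ ⊗[ℚ] k)ˣ) :
    ∃ y, Nm (uact κ Q.σ) l y = umap κ (algebraMap k M) x := by
  have hz := Kum1Aux.prim Q
  have hl0 : (l : M) ≠ 0 := Nat.cast_ne_zero.2 Q.prime.ne_zero
  have hcu : IsUnit c := by
    rw [← isUnit_pow_iff Q.prime.ne_zero, hc]
    exact Q.b_ne.isUnit.map _
  obtain ⟨c', rfl⟩ := hcu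
  have hfix := lact_lmap_fixed (κ := κ) Q.σ_algebraMap
  obtain ⟨ε, hε, h⟩ := Kum1Aux.idem (l := l) (lact κ Q.σ).toRingEquiv.toRingHom
    (t := inc κ M Q.β * lmap κ (algebraMap k M) (c'⁻¹).1) (z := inc κ M (algebraMap k M Q.ζ))
    (r := inc κ M (l : M)⁻¹) Q.prime.pos
    (by
      rw [mul_pow, ← map_pow, Q.pow, ← lmap_inc, ← hc, ← map_pow, ← map_mul, ← mul_pow,
        Units.mul_inv, one_pow, map_one])
    (by rw [← map_pow, hz.pow_eq_one, map_one])
    (by
      change lact κ Q.σ _ = _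
      rw [map_mul, hfix, lact_inc, Q.σ_β, map_mul, mul_assoc])
    (by
      change lact κ Q.σ _ = _
      rw [lact_inc, Q.σ_algebraMap])
    (by
      change lact κ Q.σ _ = _
      rw [lact_inc, map_inv₀, map_natCast])
    (by rw [← map_natCast (inc κ M), ← map_mul, inv_mul_cancel₀ hl0, map_one])
    (fun i hi j hj hij => by
      rw [← map_pow (inc κ M), ← map_pow (inc κ M), ← map_sub]
      exact (sub_ne_zero.2 fun e => hij (hz.pow_inj hi hj e)).isUnit.map _)
  refine ⟨pcj hε (umap κ (algebraMap k M) x), Units.ext ?_⟩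
  rw [umap_val, ← h _ (hfix x.1), Nm_apply, Units.coe_prod]
  refine Finset.prod_congr rfl fun j hj => ?_
  clear hj
  induction j with
  | zero => rfl
  | succ j ih => rw [Function.iterate_succ_apply', Function.iterate_succ_apply', ← ih]; rfl

end Pool.Agent.Lib.CFT
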