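import Pool.Agent.Lib.CFT.Kum1
import Pool.Agent.Lib.CFT.Glo2

/-! CFT-Kum2: the auxiliary set of split primes. -/

namespace Pool.Agent.Lib.CFT

open scoped TensorProduct
open NumberField
open Pool.Agent.P.MP_9ec3f0_nt.SY

variable {l : ℕ} {k M : Type} [Field k] [NumberField k] [Field M] [NumberField M] [Algebra k M]

namespace Kum2Aux

theorem index_dvd_of_gen {G : Type} [CommGroup G] (K : Subgroup G) (u : G) (hu : u ^ l ∈ K)
    (h : ∀ x, ∃ i : ℤ, x / u ^ i ∈ K) : K.index ∣ l := by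
  have h1 : ∀ y : G ⧸ K, y ∈ Subgroup.zpowers (QuotientGroup.mk u : G ⧸ K) := by
    intro y
    obtain ⟨x, rfl⟩ := QuotientGroup.mk_surjective y
    obtain ⟨i, hi⟩ := h x
    refine ⟨i, ?_⟩
    change (QuotientGroup.mk u : G ⧸ K) ^ i = _
    rw [← QuotientGroup.mk_zpow, eq_comm, QuotientGroup.eq_iff_div_mem]
    exact hi
  rw [Subgroup.index, ← orderOf_eq_card_of_forall_mem_zpowers h1, orderOf_dvd_iff_pow_eq_one,
    ← QuotientGroup.mk_pow, QuotientGroup.eq_one_iff]
  exact hu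

theorem exists_not_mem {G : Type} [CommGroup G] (hl : 1 < l) {P H : Subgroup G} (hPH : P ≤ H)
    {b : G} (hb : b ^ l ∈ P) {t s : ℕ} (hP : P.index = l ^ s) (hH : H.index ≤ l ^ t)
    (hts : t + 1 < s) : ∃ u ∈ H, ∀ i : ℕ, u / b ^ i ∉ P := by
  by_contra hcon
  have hle : H ≤ P ⊔ Subgroup.zpowers b := by
    intro u hu
    by_contra hn
    refine hcon ⟨u, hu, fun i hi => hn ?_⟩
    rw [Subgroup.mem_sup]
    exact ⟨_, hi, b ^ i, Subgroup.npow_mem_zpowers b i, div_mul_cancel _ _⟩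
  have hP0 : P.index ≠ 0 := by
    rw [hP]
    positivity
  have hH0 : H.index ≠ 0 := fun h => hP0 (Nat.eq_zero_of_zero_dvd (h ▸ Subgroup.index_dvd_of_le hPH))
  have h1 : (P ⊔ Subgroup.zpowers b).index ≤ l ^ t :=
    (Nat.le_of_dvd (Nat.pos_of_ne_zero hH0) (Subgroup.index_dvd_of_le hle)).trans hH
  have hbB : b ∈ P ⊔ Subgroup.zpowers b := Subgroup.mem_sup_right (Subgroup.mem_zpowers b)
  have h2 : P.relIndex (P ⊔ Subgroup.zpowers b) ∣ l := by
    refine index_dvd_of_gen _ ⟨b, hbB⟩ hb ?_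
    rintro ⟨x, hx⟩
    obtain ⟨y, hy, _, ⟨i, rfl⟩, rfl⟩ := Subgroup.mem_sup.1 hx
    refine ⟨i, ?_⟩
    rw [Subgroup.mem_subgroupOf]
    simpa using hy
  have h3 := Subgroup.relIndex_mul_index (le_sup_left : P ≤ P ⊔ Subgroup.zpowers b)
  have h4 : l ^ s ≤ l ^ (t + 1) := by
    rw [← hP, ← h3, pow_succ']
    exact Nat.mul_le_mul (Nat.le_of_dvd (by omega) h2) h1
  have := (Nat.pow_le_pow_iff_right hl).1 h4
  omega

theorem powMod_one (v : Pr k) : PowMod l v (1 : k) := by
  have := powMod_pow (l := l) v (one_ne_zero (α := k))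
  rwa [one_pow] at this

theorem powMod_npow {v : Pr k} {x : k} (hx : PowMod l v x) (i : ℕ) : PowMod l v (x ^ i) := by
  induction i with
  | zero => rw [pow_zero]; exact powMod_one v
  | succ i ih => rw [pow_succ]; exact ih.mul hx

/-- The `X`-units that are `l`-th powers modulo all primes in `T`. -/
def HT (l : ℕ) (X T : Finset (Pr k)) : Subgroup (SU X) where
  carrier := {u | ∀ v ∈ T, PowMod l v (u.1.1 : k)}
  one_mem' := fun v _ => powMod_one v
  mul_mem' := fun hx hy v hv => (hx v hv).mul (hy v hv)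
  inv_mem' := fun {x} hx v hv => by
    have := (hx v hv).inv
    rwa [← Units.val_inv_eq_inv_val] at this

theorem val_su {X : Finset (Pr k)} (u : SU X) {v : Pr k} (hv : v ∉ X) :
    v.valuation k (u.1.1 : k) = 1 :=
  (val_eq_one_iff v u.1.ne_zero).2 ((mem_SU X u.1).1 u.2 v hv)

theorem range_le_HT (X T : Finset (Pr k)) :
    (powMonoidHom l : SU X →* SU X).range ≤ HT l X T := by
  rintro _ ⟨x, rfl⟩ v -
  exact powMod_pow v x.1.ne_zero

/-- A unit that is not an `l`-th power in `M` is not an `l`-th power modulo a new split prime. -/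
theorem exists_prime (Q : Kum l k M) (X Y : Finset (Pr k)) (hXY : X ⊆ Y)
    (hl : ∀ v, v ∉ X → v.valuation k (l : k) = 1) (hb : ∀ v, v ∉ X → v.valuation k Q.b = 1)
    (u : SU X) (hu : ¬ ∃ y : M, y ^ l = algebraMap k M u.1.1) :
    ∃ v : Pr k, v ∉ Y ∧ ¬ PowMod l v (u.1.1 : k) ∧ ∀ w : Pr M, dn k w = v → cj Q.σ w ≠ w := by
  have hinj : Function.Injective (algebraMap k M) := (algebraMap k M).injective
  obtain ⟨M', _, _, _, Q', hQ'⟩ := exists_kum_ext Q.prime (Q.prim.map_of_injective hinj)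
    ((map_ne_zero (algebraMap k M)).2 u.1.ne_zero) hu
  obtain ⟨w', hw', hfix⟩ := exists_fixed_prime Q'.prime Q'.σ_pow Q'.σ_ne_one
    (finite_above M' (finite_above M Y).toFinset).toFinset
  have hvY : dn k (dn M w') ∉ Y := fun h => hw' (by simpa using h)
  have hvX : dn k (dn M w') ∉ X := fun h => hvY (hXY h)
  have hnp : ¬ PowMod l (dn M w') (algebraMap k M u.1.1) := by
    rw [← hQ']
    refine Q'.not_powMod hfix ?_ ?_
    · rw [← map_natCast (algebraMap k M), val_algebraMap_eq_one_iff]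
      exact hl _ hvX
    · rw [hQ', val_algebraMap_eq_one_iff]
      exact val_su u hvX
  refine ⟨_, hvY, fun h => hnp h.algebraMap, fun w hw hσ => hnp ?_⟩
  have h1 := Q.not_powMod hσ (by rw [hw]; exact hl _ hvX) (by rw [hw]; exact hb _ hvX)
  rw [hw] at h1
  obtain ⟨i, hi⟩ := powMod_cyc Q.prime _ (hb _ hvX) (val_su u hvX) h1
  have hbM : algebraMap k M Q.b ≠ 0 := (map_ne_zero _).2 Q.b_ne
  have hβ : Q.β ≠ 0 := by
    intro h
    apply hbM
    rw [← Q.pow, h, zero_pow Q.prime.ne_zero]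
  have h2 := hi.algebraMap.mul (powMod_pow (l := l) (dn M w') (pow_ne_zero i hβ))
  rwa [← pow_mul, mul_comm i l, pow_mul, Q.pow, map_div₀, map_pow,
    div_mul_cancel₀ _ (pow_ne_zero i hbM)] at h2

theorem exists_aux_ind (Q : Kum l k M) (X : Finset (Pr k))
    (hl : ∀ v, v ∉ X → v.valuation k (l : k) = 1) (hb : ∀ v, v ∉ X → v.valuation k Q.b = 1)
    (t : ℕ) (ht : t ≤ Units.rank k + X.card) :
    ∃ T : Finset (Pr k), Disjoint X T ∧ T.card = t ∧ (HT l X T).index ≤ l ^ t ∧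
      (∀ w : Pr M, dn k w ∈ T → cj Q.σ w ≠ w) ∧
      ∀ x : Pr k → k, (∀ v ∈ T, v.valuation k (x v) = 1) →
        ∃ u ∈ SU X, ∀ v ∈ T, PowMod l v (x v / u.1) := by
  classical
  induction t with
  | zero =>
    refine ⟨∅, Finset.disjoint_empty_right _, rfl, ?_, by simp, fun x _ => ⟨1, one_mem _, by simp⟩⟩
    have : HT l X ∅ = ⊤ := (Subgroup.eq_top_iff' _).2 fun u v hv => by simp at hv
    rw [this, Subgroup.index_top, pow_zero]
  | succ t ih =>
    obtain ⟨T, hd, hc, hi, hs, ho⟩ := ih (by omega)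
    have hbU : Units.mk0 Q.b Q.b_ne ∈ SU X :=
      (mem_SU X _).2 fun v hv => (val_eq_one_iff v Q.b_ne).1 (hb v hv)
    obtain ⟨u, huH, hu⟩ := exists_not_mem Q.prime.one_lt (range_le_HT X T)
      (b := ⟨_, hbU⟩) ⟨_, rfl⟩ (index_pow_su Q.prime Q.prim X) hi (by omega)
    have hnp : ¬ ∃ y : M, y ^ l = algebraMap k M u.1.1 := by
      intro h
      obtain ⟨i, c, hc⟩ := Q.pow_iff u.1.ne_zero h
      have hc0 : c ≠ 0 := by
        rintro rfl
        rw [zero_pow Q.prime.ne_zero, mul_zero] at hc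
        exact u.1.ne_zero hc
      have hcU : Units.mk0 c hc0 ∈ SU X := by
        refine (mem_SU X _).2 fun v hv => (val_eq_one_iff v hc0).1 ?_
        have h1 := val_su u hv
        rw [hc, map_mul, map_pow, map_pow, hb v hv, one_pow, one_mul] at h1
        exact (pow_eq_one_iff.1 h1).resolve_right Q.prime.ne_zero
      refine hu i ⟨⟨_, hcU⟩, ?_⟩
      rw [eq_div_iff_mul_eq', mul_comm]
      exact Subtype.ext (Units.ext hc.symm)
    obtain ⟨v, hvY, hv, hsv⟩ := exists_prime Q X (X ∪ T) Finset.subset_union_left hl hb u hnp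
    rw [Finset.mem_union, not_or] at hvY
    refine ⟨insert v T, Finset.disjoint_insert_right.2 ⟨hvY.1, hd⟩,
      by rw [Finset.card_insert_of_notMem hvY.2, hc], ?_, ?_, ?_⟩
    · have e : HT l X (insert v T) = HT l X T ⊓ HT l X {v} := by
        ext y
        exact ⟨fun h => ⟨fun w hw => h w (Finset.mem_insert_of_mem hw), fun w hw => h w (by
          rw [Finset.mem_singleton.1 hw]; exact Finset.mem_insert_self _ _)⟩, fun h w hw => by
          rcases Finset.mem_insert.1 hw with rfl | hw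
          · exact h.2 w (Finset.mem_singleton_self _)
          · exact h.1 w hw⟩
      have h1 : (HT l X {v}).index ∣ l := by
        refine index_dvd_of_gen _ u (range_le_HT X _ ⟨u, rfl⟩) fun y => ?_
        obtain ⟨i, hi⟩ := powMod_cyc Q.prime v (val_su u hvY.1) (val_su y hvY.1) hv
        refine ⟨i, fun w hw => ?_⟩
        rw [Finset.mem_singleton.1 hw]
        simpa using hi
      rw [e, pow_succ]
      exact Subgroup.index_inf_le.trans (Nat.mul_le_mul hi (Nat.le_of_dvd Q.prime.pos h1))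
    · intro w hw
      rcases Finset.mem_insert.1 hw with hw | hw
      · exact hsv w hw
      · exact hs w hw
    · intro x hx
      obtain ⟨u0, hu0, h0⟩ := ho x fun w hw => hx w (Finset.mem_insert_of_mem hw)
      have h1 : v.valuation k (x v / u0.1) = 1 := by
        rw [map_div₀, hx v (Finset.mem_insert_self _ _), val_su ⟨u0, hu0⟩ hvY.1, div_one]
      obtain ⟨i, hi⟩ := powMod_cyc Q.prime v (val_su u hvY.1) h1 hv
      refine ⟨u0 * u.1 ^ i, mul_mem hu0 (pow_mem u.2 i), fun w hw => ?_⟩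
      rw [Units.val_mul, Units.val_pow_eq_pow_val, ← div_div]
      rcases Finset.mem_insert.1 hw with rfl | hw
      · exact hi
      · rw [div_eq_mul_inv]
        exact (h0 w hw).mul (powMod_npow (huH w hw) i).inv

end Kum2Aux

theorem Kum.exists_aux (Q : Kum l k M) (X : Finset (Pr k))
    (hl : ∀ v, v ∉ X → v.valuation k (l : k) = 1) (hb : ∀ v, v ∉ X → v.valuation k Q.b = 1) :
    ∃ T : Finset (Pr k), Disjoint X T ∧ T.card = Units.rank k + X.card ∧
      (∀ w : Pr M, dn k w ∈ T → cj Q.σ w ≠ w) ∧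
      ∀ x : Pr k → k, (∀ v ∈ T, v.valuation k (x v) = 1) →
        ∃ u ∈ SU X, ∀ v ∈ T, PowMod l v (x v / u.1) := by
  obtain ⟨T, h1, h2, -, h3, h4⟩ := Kum2Aux.exists_aux_ind Q X hl hb _ le_rfl
  exact ⟨T, h1, h2, h3, h4⟩

end Pool.Agent.Lib.CFT
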