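import Pool.Agent.Lib.CFT.Kum1
import Pool.Agent.Lib.CFT.Glo2

/-! CFT-Kum3: a local-global principle for powers. -/

namespace Pool.Agent.Lib.CFT

open scoped TensorProduct
open NumberField
open Pool.Agent.P.MP_9ec3f0_nt.SY

variable {l : Nat.Primes} {k : Type} [Field k] [NumberField k]

open Classical in
theorem pow_of_local {ζ : k} (hζ : IsPrimitiveRoot ζ l.1) (S : Finset Nat.Primes) (hl : l ∈ S)
    (X T : Finset (Pr k)) (hX : ∀ v, v ∈ X ↔ AbS S v) (hc : ClassGen X) (hd : Disjoint X T)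
    (hT : ∀ x : Pr k → k, (∀ v ∈ T, v.valuation k (x v) = 1) →
      ∃ u ∈ SU X, ∀ v ∈ T, PowMod l.1 v (x v / u.1))
    {b : kˣ} (hb : b ∈ SU (X ∪ T)) (hp : ∀ p ∈ S, ∃ c, c ^ l.1 = incU ℚ_[p] k b)
    (hi : ∃ c, c ^ l.1 = incU ℝ k b) : ∃ y : k, y ^ l.1 = b.1 := by
  by_contra hn
  obtain ⟨M, _, _, _, Q, hQ⟩ := exists_kum_ext l.2 hζ b.ne_zero hn
  refine not_forall_norm l.2 Q.σ_pow Q.σ_ne_one Q.fix fun x => ?_
  obtain ⟨m, hm⟩ := ClassGen.idele hc x
  choose μ hμ0 hμ using fun p : Nat.Primes =>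
    exists_close_unit (x.1.1 p * incU ℚ_[p] k m⁻¹) 3
  have hord : ∀ (p : Nat.Primes) (v : Pr k), Ab p.1 v → v ∉ X → ord v (μ p) = 0 := by
    intro p v hv hvX
    rw [← ordA_eq hv (hμ0 p) ((hμ p).mono (by norm_num)), ordA_mul hv, ordA_incU hv,
      hm p v hv hvX, Units.val_inv_eq_inv_val, ord_inv, add_neg_cancel]
  choose P hP using fun v : Pr k => exists_Ab v
  obtain ⟨u, hu, hu'⟩ := hT (fun v => μ (P v)) fun v hv =>
    (val_eq_one_iff v (hμ0 _)).2 (hord _ v (hP v) (Finset.disjoint_right.1 hd hv))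
  refine ⟨m⁻¹ * u⁻¹, ?_⟩
  suffices h : ∃ y, Nm (act (Idele M) Q.σ) l.1 y =
      imap (algebraMap k M) (x * prin k (m⁻¹ * u⁻¹)) from h.imp fun _ e => e.symm
  refine exists_idele_norm l.2 Q.σ_pow _ (fun p => ?_) ?_
  · rw [imap_fst]
    by_cases hpS : p ∈ S
    · obtain ⟨c, hc'⟩ := hp p hpS
      exact Q.norm_of_pow ℚ_[p] (c := c.1) (by rw [hQ]; exact congrArg Units.val hc') _
    have hX' : ∀ v : Pr k, Ab p.1 v → v ∉ X := fun v hv h => by
      obtain ⟨q, hq, hq'⟩ := (hX v).1 h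
      exact hpS (hv.unique hq' ▸ hq)
    obtain ⟨y, -, hy, -⟩ := exists_pow_of_sm l.2
      (x := incU ℚ_[p] k (Units.mk0 (μ p) (hμ0 p)) * (x.1.1 p * incU ℚ_[p] k m⁻¹)⁻¹) (hμ p)
    have hn0 : μ p / u.1 ≠ 0 := div_ne_zero (hμ0 p) u.ne_zero
    obtain ⟨z, hz⟩ := exists_norm_mixed (p := p.1) l.2 Q.σ_pow Q.σ_ne_one
      (fun e => hpS ((Subtype.ext e : p = l) ▸ hl))
      (m := Units.map (algebraMap k M).toMonoidHom (Units.mk0 _ hn0)) (Q.σ_algebraMap _)
      (fun w hw hw' => by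
        have hv : Ab p.1 (dn k w) := (ab_dn w).2 hw
        have hvX := hX' _ hv
        by_cases hvT : dn k w ∈ T
        · obtain ⟨c, hc0, hc1⟩ := hu' _ hvT
          rw [(hP _).unique hv] at hc1
          refine Or.inr ⟨algebraMap k M c, (map_ne_zero _).2 hc0, Q.σ_algebraMap _, ?_⟩
          have := (val_algebraMap_lt_one_iff w _).2 hc1
          rwa [map_sub, map_one, map_div₀, map_pow] at this
        · have h1 : (dn k w).valuation k (l.1 : k) = 1 := by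
            refine le_antisymm ?_ (not_lt.1 fun h => hvX ((hX _).2 ⟨l, hl, ab_iff.2 h⟩))
            simpa using (dn k w).valuation_le_one (K := k) (l.1 : 𝓞 k)
          have h2 : (dn k w).valuation k Q.b = 1 := by
            rw [hQ, val_eq_one_iff _ b.ne_zero]
            exact (mem_SU _ _).1 hb _ fun h => (Finset.mem_union.1 h).elim hvX hvT
          obtain ⟨π, hπ⟩ := Q.unram hw' h1 h2
          refine Or.inl ⟨⟨_, Q.σ_algebraMap π, hπ⟩, ?_⟩
          change ord w (algebraMap k M (μ p / u.1)) = 0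
          rw [ord_of_unrP ⟨π, hπ⟩, ord_div _ (hμ0 p) u.ne_zero, hord p _ hv hvX,
            (mem_SU _ _).1 hu _ hvX, sub_zero])
    have e1 : (x * prin k (m⁻¹ * u⁻¹)).1.1 p = y⁻¹ ^ l.1 * incU ℚ_[p] k (Units.mk0 _ hn0) := by
      have e2 : Units.mk0 _ hn0 = Units.mk0 (μ p) (hμ0 p) * u⁻¹ := Units.ext (by
        simp [div_eq_mul_inv])
      change x.1.1 p * incU ℚ_[p] k (m⁻¹ * u⁻¹) = _
      rw [inv_pow, hy, e2, map_mul, map_mul, mul_inv, inv_inv, mul_comm _ (x.1.1 p * _),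
        mul_assoc, mul_assoc, inv_mul_cancel_left]
    refine ⟨umap ℚ_[p] (algebraMap k M) y⁻¹ * z, ?_⟩
    rw [map_mul, hz, e1, map_mul, map_pow,
      Nm_of_fixed (Units.ext (lact_lmap_fixed Q.σ_algebraMap _))]
    rfl
  · obtain ⟨c, hc'⟩ := hi
    exact Q.norm_of_pow ℝ (c := c.1) (by rw [hQ]; exact congrArg Units.val hc') _

end Pool.Agent.Lib.CFT
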