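import Pool.Agent.Lib.CFT.Kum2
import Pool.Agent.Lib.CFT.Kum3

/-! CFT-Kum4: the second inequality for Kummer extensions. -/

namespace Pool.Agent.Lib.CFT

open scoped TensorProduct
open NumberField
open Pool.Agent.P.MP_9ec3f0_nt.SY

variable {l : ℕ} {k M : Type} [Field k] [NumberField k] [Field M] [NumberField M] [Algebra k M]

namespace Kum4Aux

theorem key {A C : Type} [CommGroup A] [CommGroup C] (θ : A →* C) {J E U : Subgroup A}
    {R K : Subgroup C} (hK : K ≤ J.map θ) (hE : E ≤ J) (hU : U ≤ J) (hER : E ≤ R.comap θ)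
    (hUR : U ≤ R.comap θ) (h0 : E.relIndex J ≠ 0) :
    E.relIndex U * R.relIndex K ≤ E.relIndex J ∧ E.relIndex U ≠ 0 := by
  have h1 := Subgroup.relIndex_mul_relIndex E (E ⊔ U) J le_sup_left (sup_le hE hU)
  rw [Subgroup.relIndex_sup_left] at h1
  have h2 : E.relIndex U ≠ 0 ∧ (E ⊔ U).relIndex J ≠ 0 := by
    rw [← h1] at h0
    exact mul_ne_zero_iff.1 h0
  refine ⟨?_, h2.1⟩
  rw [← h1]
  refine Nat.mul_le_mul_left _ ?_
  have h3 : (R.comap θ).relIndex J ≤ (E ⊔ U).relIndex J :=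
    Subgroup.relIndex_le_of_le_left (sup_le hER hUR) h2.2
  have h4 : (R.comap θ).relIndex J ≠ 0 :=
    ne_zero_of_dvd_ne_zero h2.2 (Subgroup.relIndex_dvd_of_le_left J (sup_le hER hUR))
  rw [Subgroup.relIndex_comap] at h3 h4
  exact (Subgroup.relIndex_le_of_le_right hK h4).trans h3

theorem comap_le {A B : Type} [CommGroup A] [CommGroup B] (f : A →* B) (H : Subgroup B)
    (J : Subgroup A) (h : H.index ≠ 0) :
    (H.comap f).relIndex J ≠ 0 ∧ (H.comap f).relIndex J ≤ H.index := by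
  rw [Subgroup.relIndex_comap]
  refine ⟨fun h0 => h (Subgroup.index_eq_zero_of_relIndex_eq_zero h0), ?_⟩
  rw [← Subgroup.relIndex_top_right] at h ⊢
  exact Subgroup.relIndex_le_of_le_right le_top h

/-- The ideles that are units at the primes outside `Y`. -/
def JS (Y : Finset (Pr k)) : Subgroup (Idele k) where
  carrier := {x | ∀ (p : Nat.Primes) (v : Pr k), Ab p.1 v → v ∉ Y → ordA v (x.1.1 p) = 0}
  one_mem' := fun p v hv _ => ordA_one hv
  mul_mem' := fun {x y} hx hy p v hv hY => by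
    have h : ordA v (x.1.1 p * y.1.1 p) = 0 := by
      rw [ordA_mul hv, hx p v hv hY, hy p v hv hY, add_zero]
    exact h
  inv_mem' := fun {x} hx p v hv hY => by
    have h : ordA v (x.1.1 p)⁻¹ = 0 := by rw [ordA_inv hv, hx p v hv hY, neg_zero]
    exact h

variable (k) in
/-- The component at `p`. -/
def evP (p : Nat.Primes) : Idele k →* (Ap p.1 k)ˣ where
  toFun x := x.1.1 p
  map_one' := rfl
  map_mul' _ _ := rfl

variable (k) in
/-- The component at infinity. -/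
def evI : Idele k →* (Ai k)ˣ where
  toFun x := x.1.2
  map_one' := rfl
  map_mul' _ _ := rfl

variable (k) in
/-- The ideles that are `l`-th powers at the primes in `S` and at infinity. -/
noncomputable def EP (l : ℕ) (S : Finset Nat.Primes) : Subgroup (Idele k) :=
  (⨅ p : S, (powMonoidHom l : (Ap p.1.1 k)ˣ →* (Ap p.1.1 k)ˣ).range.comap (evP k p.1)) ⊓
    (powMonoidHom l : (Ai k)ˣ →* (Ai k)ˣ).range.comap (evI k)

theorem mem_EP {S : Finset Nat.Primes} {x : Idele k} : x ∈ EP k l S ↔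
    (∀ p ∈ S, ∃ c, c ^ l = x.1.1 p) ∧ ∃ c, c ^ l = x.1.2 := by
  rw [EP, Subgroup.mem_inf, Subgroup.mem_iInf]
  exact and_congr ⟨fun h p hp => h ⟨p, hp⟩, fun h p => h p.1 p.2⟩ Iff.rfl

theorem sum_card (S : Finset Nat.Primes) {X : Finset (Pr k)} (hX : ∀ v, v ∈ X ↔ AbS S v) :
    ∑ p ∈ S, Nat.card {v : Pr k // Ab p.1 v} = X.card := by
  classical
  have e : X = S.biUnion fun p => (finite_Ab p.1 k).toFinset := by
    ext v
    simp only [hX, Finset.mem_biUnion, Set.Finite.mem_toFinset, Set.mem_ofPred_eq]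
    rfl
  rw [e, Finset.card_biUnion]
  · refine Finset.sum_congr rfl fun p _ => ?_
    rw [← Set.ncard_eq_toFinset_card _ (finite_Ab p.1 k), ← Nat.card_coe_set_eq]
    rfl
  · intro p _ q _ hpq
    rw [Function.onFun, Finset.disjoint_left]
    intro v h1 h2
    rw [Set.Finite.mem_toFinset] at h1 h2
    exact hpq (Ab.unique h1 h2)

theorem index_EP (hl : l.Prime) (S : Finset Nat.Primes) {X : Finset (Pr k)}
    (hX : ∀ v, v ∈ X ↔ AbS S v) (J : Subgroup (Idele k)) :
    (EP k l S).relIndex J ≠ 0 ∧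
      (EP k l S).relIndex J ≤ l ^ (2 * (Units.rank k + 1 + X.card)) := by
  classical
  have hP := fun p : S => comap_le (evP k p.1) _ J (index_pow (p := p.1.1) (M := k) hl).1
  have hI := comap_le (evI k) _ J (index_pow_inf (M := k) hl).1
  refine ⟨Subgroup.relIndex_inf_ne_zero (Subgroup.relIndex_iInf_ne_zero fun p => (hP p).1) hI.1,
    Subgroup.relIndex_inf_le.trans ?_⟩
  have h1 : (⨅ p : S, (powMonoidHom l : (Ap p.1.1 k)ˣ →* (Ap p.1.1 k)ˣ).range.comap
      (evP k p.1)).relIndex J ≤ l ^ (2 * X.card + Module.finrank ℚ k) := by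
    refine (Subgroup.relIndex_iInf_le _).trans ?_
    refine (Finset.prod_le_prod' fun p _ =>
      (hP p).2.trans (index_pow (p := p.1.1) (M := k) hl).2).trans ?_
    rw [Finset.prod_pow_eq_pow_sum]
    refine Nat.pow_le_pow_right hl.pos ?_
    rw [Finset.sum_coe_sort S fun p : Nat.Primes =>
      2 * Nat.card {w : Pr k // Ab p.1 w} + if p.1 = l then Module.finrank ℚ k else 0,
      Finset.sum_add_distrib, ← Finset.mul_sum, sum_card S hX]
    refine Nat.add_le_add_left ?_ _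
    have e : ∀ p : Nat.Primes, (p.1 = l) = (p = ⟨l, hl⟩) := fun p =>
      propext ⟨fun h => Subtype.ext h, fun h => congrArg Subtype.val h⟩
    simp only [e]
    rw [Finset.sum_ite_eq']
    split_ifs
    · exact le_rfl
    · exact Nat.zero_le _
  have h2 : ((powMonoidHom l : (Ai k)ˣ →* (Ai k)ˣ).range.comap (evI k)).relIndex J ≤
      l ^ InfinitePlace.nrRealPlaces k := by
    refine hI.2.trans ((index_pow_inf (M := k) hl).2.trans ?_)
    split_ifs with h
    · rw [h]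
    · exact Nat.one_le_pow _ _ hl.pos
  refine (Nat.mul_le_mul h1 h2).trans ?_
  rw [← pow_add]
  refine Nat.pow_le_pow_right hl.pos ?_
  have h3 := InfinitePlace.card_add_two_mul_card_eq_rank k
  have h4 := InfinitePlace.card_eq_nrRealPlaces_add_nrComplexPlaces k
  have h5 : 0 < Fintype.card (InfinitePlace k) := Fintype.card_pos
  have h6 : Units.rank k = Fintype.card (InfinitePlace k) - 1 := rfl
  omega

theorem val_l {l : Nat.Primes} {v : Pr k} (h : ¬ Ab l.1 v) : v.valuation k (l.1 : k) = 1 := by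
  rw [ab_iff, not_lt] at h
  refine le_antisymm ?_ h
  have := v.valuation_le_one (K := k) (l.1 : 𝓞 k)
  simpa using this

theorem norm_fixed (Q : Kum l k M) (κ : Type) [Field κ] [Algebra ℚ κ] (c : (κ ⊗[ℚ] k)ˣ) :
    uact κ Q.σ (umap κ (algebraMap k M) c) = umap κ (algebraMap k M) c :=
  Units.ext (lact_lmap_fixed Q.σ_algebraMap c.1)

theorem exists_norm (Q : Kum l k M) {S : Finset Nat.Primes} (hS : ∀ p, p ∉ S → Unram p.1 M)
    {X T Y : Finset (Pr k)} (hX : ∀ v, v ∈ X ↔ AbS S v) (hY : ∀ v ∈ Y, v ∈ X ∨ v ∈ T)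
    (hT : ∀ w : Pr M, dn k w ∈ T → cj Q.σ w ≠ w) {x : Idele k} (h1 : x ∈ EP k l S)
    (h2 : x ∈ JS Y) : ∃ y, Nm (act (Idele M) Q.σ) l y = imap (algebraMap k M) x := by
  rw [mem_EP] at h1
  refine exists_idele_norm Q.prime Q.σ_pow _ (fun p => ?_) ?_
  · rw [imap_fst]
    by_cases hp : p ∈ S
    · obtain ⟨c, hc⟩ := h1.1 p hp
      exact ⟨umap _ _ c, by rw [Nm_of_fixed (norm_fixed Q _ c), ← map_pow, hc]⟩
    · refine exists_norm_of_unr Q.prime Q.σ_pow Q.σ_ne_one (norm_fixed Q _ _) fun w hw hf =>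
        ⟨⟨(p.1 : M), map_natCast _ _, hS p hp w hw⟩, ?_⟩
      obtain ⟨e, -, -, he⟩ := ordA_umap (E := k) hw
      have hw' : Ab p.1 (dn k w) := (ab_dn w).2 hw
      rw [he, h2 p _ hw' ?_, mul_zero]
      intro h
      rcases hY _ h with h | h
      · obtain ⟨q, hq, hq'⟩ := (hX _).1 h
        exact hp (Ab.unique hw' hq' ▸ hq)
      · exact hT w h hf
  · rw [imap_snd]
    obtain ⟨c, hc⟩ := h1.2
    exact ⟨umap _ _ c, by rw [Nm_of_fixed (norm_fixed Q _ c), ← map_pow, hc]⟩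

theorem ker_le (Q : Kum l k M) {X Y : Finset (Pr k)} (hc : ClassGen X) (hXY : X ⊆ Y) :
    (Dm (act (Cl M) Q.σ)).ker ≤ (JS Y).map
      ((cmap (algebraMap k M)).comp (QuotientGroup.mk' (prin k).range)) := by
  intro c hc'
  have h1 : Q.σ • c = c := by
    rw [MonoidHom.mem_ker, Dm_apply, div_eq_one] at hc'
    exact hc'
  have h2 : c ∈ Inv (Cl M) (Subgroup.zpowers Q.σ) := fun s hs =>
    (Subgroup.zpowers_le (H := MulAction.stabilizer (Aut M) c)).2 h1 hs
  rw [← (isFix_zpowers Q.fix).range_cmap] at h2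
  obtain ⟨d, rfl⟩ := h2
  obtain ⟨x, rfl⟩ := QuotientGroup.mk_surjective d
  obtain ⟨m, hm⟩ := ClassGen.idele hc x
  refine ⟨x * (prin k m)⁻¹, fun p v hv hY => ?_, ?_⟩
  · have h : ordA v (x.1.1 p * (incU ℚ_[p] k m)⁻¹) = 0 := by
      rw [ordA_mul hv, ordA_inv hv, ordA_incU hv, hm p v hv fun h => hY (hXY h), add_neg_cancel]
    exact h
  · have h : (QuotientGroup.mk (x * (prin k m)⁻¹) : Cl k) = QuotientGroup.mk x := by
      rw [QuotientGroup.eq]
      exact ⟨m, by group⟩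
    exact congrArg (cmap (algebraMap k M)) h

end Kum4Aux

open Kum4Aux in
theorem Kum.second_ineq (Q : Kum l k M) : h0 (act (Cl M) Q.σ) l ≤ l := by
  classical
  obtain ⟨X₀, hX₀⟩ := exists_classGen k
  obtain ⟨S₀, hS₀⟩ := exists_cover (X₀ ∪ (finite_ord Q.b_ne).toFinset)
  let l' : Nat.Primes := ⟨l, Q.prime⟩
  obtain ⟨S, hS1, hS2, hS3⟩ : ∃ S : Finset Nat.Primes, l' ∈ S ∧ S₀ ⊆ S ∧
      ∀ p, p ∉ S → Unram p.1 M :=
    ⟨insert l' (S₀ ∪ (finite_not_unram M).toFinset), Finset.mem_insert_self _ _,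
      fun p hp => Finset.mem_insert_of_mem (Finset.mem_union_left _ hp), fun p hp => by
        by_contra h
        exact hp (Finset.mem_insert_of_mem (Finset.mem_union_right _
          ((finite_not_unram M).mem_toFinset.2 h)))⟩
  obtain ⟨X, hX⟩ := exists_abS (M := k) S
  have hsub : X₀ ∪ (finite_ord Q.b_ne).toFinset ⊆ X := fun v hv => by
    obtain ⟨p, hp, hv'⟩ := hS₀ v hv
    exact (hX v).2 ⟨p, hS2 hp, hv'⟩
  have hc : ClassGen X := hX₀.mono (Finset.subset_union_left.trans hsub)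
  have hl : ∀ v, v ∉ X → v.valuation k (l : k) = 1 := fun v hv =>
    val_l (l := l') fun h => hv ((hX v).2 ⟨l', hS1, h⟩)
  have hb : ∀ v, v ∉ X → v.valuation k Q.b = 1 := fun v hv => by
    rw [val_eq_one_iff v Q.b_ne]
    by_contra h
    exact hv (hsub (Finset.mem_union_right _ ((finite_ord Q.b_ne).mem_toFinset.2 h)))
  obtain ⟨T, hd, hcard, hsplit, hT⟩ := Q.exists_aux X hl hb
  obtain ⟨hne, hle⟩ := index_EP Q.prime S hX (JS (X ∪ T))
  rw [← Subgroup.inf_relIndex_right] at hne hle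
  have hU : (SU (X ∪ T)).map (prin k) ≤ JS (X ∪ T) := by
    rintro _ ⟨u, hu, rfl⟩ p v hv hY
    have h : ordA v (incU ℚ_[p] k u) = 0 := by
      rw [ordA_incU hv]
      exact (mem_SU _ _).1 hu v hY
    exact h
  have hER : EP k l S ⊓ JS (X ∪ T) ≤ (Nm (act (Cl M) Q.σ) l).range.comap
      ((cmap (algebraMap k M)).comp (QuotientGroup.mk' (prin k).range)) := by
    intro x hx
    obtain ⟨y, hy⟩ := exists_norm Q hS3 hX (fun v hv => Finset.mem_union.1 hv) hsplit hx.1 hx.2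
    refine ⟨QuotientGroup.mk y, ?_⟩
    rw [Nm_mk, hy]
    rfl
  have hUR : (SU (X ∪ T)).map (prin k) ≤ (Nm (act (Cl M) Q.σ) l).range.comap
      ((cmap (algebraMap k M)).comp (QuotientGroup.mk' (prin k).range)) := by
    rintro _ ⟨u, -, rfl⟩
    have h : (QuotientGroup.mk' (prin k).range) (prin k u) = 1 :=
      (QuotientGroup.eq_one_iff _).2 ⟨u, rfl⟩
    rw [Subgroup.mem_comap, MonoidHom.comp_apply, h, map_one]
    exact one_mem _
  obtain ⟨h1, h2⟩ := key _ (ker_le Q hc Finset.subset_union_left) inf_le_right hU hER hUR hne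
  have h3 : l ^ (Units.rank k + 1 + (X ∪ T).card) ≤
      (EP k l S ⊓ JS (X ∪ T)).relIndex ((SU (X ∪ T)).map (prin k)) := by
    rw [← Subgroup.relIndex_comap] at h2 ⊢
    rw [← index_pow_su Q.prime Q.prim]
    refine Nat.le_of_dvd (Nat.pos_of_ne_zero h2) (Subgroup.index_dvd_of_le fun u hu => ?_)
    have hu' : prin k u.1 ∈ EP k l S := hu.1
    rw [mem_EP] at hu'
    obtain ⟨y, hy⟩ := pow_of_local (l := l') Q.prim S hS1 X T hX hc hd hT u.2 hu'.1 hu'.2
    have hy' : y ^ l = u.1.1 := hy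
    have hy0 : y ≠ 0 := by
      rintro rfl
      rw [zero_pow Q.prime.ne_zero] at hy'
      exact u.1.ne_zero hy'.symm
    refine ⟨⟨Units.mk0 y hy0, (mem_SU _ _).2 fun v hv => ?_⟩, Subtype.ext (Units.ext hy')⟩
    have h := (mem_SU _ _).1 u.2 v hv
    rw [← hy', ord_pow] at h
    exact (mul_eq_zero.1 h).resolve_left (Int.natCast_ne_zero.2 Q.prime.ne_zero)
  have h4 := (Nat.mul_le_mul_right _ h3).trans (h1.trans hle)
  rw [Finset.card_union_of_disjoint hd, hcard,
    show 2 * (Units.rank k + 1 + X.card) =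
      Units.rank k + 1 + (X.card + (Units.rank k + X.card)) + 1 by ring, pow_succ] at h4
  exact Nat.le_of_mul_le_mul_left h4 (pow_pos Q.prime.pos _)

end Pool.Agent.Lib.CFT
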