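import Pool.Agent.Lib.CFT.Defs
import Pool.Agent.Lib.CFT.HDefs
import Pool.Agent.P.MP_9ec3f0_nt.SY.Ext
import Pool.Agent.P.MP_9ec3f0_nt.SY.SUnit

/-!
Definitions for the semi-local and global parts of class field theory.
-/

namespace Pool.Agent.Lib.CFT

open scoped TensorProduct
open NumberField
open Pool.Agent.P.MP_9ec3f0_nt.SY

/-- The semi-local algebra of `M` at `p`. -/
abbrev Ap (p : ℕ) [Fact p.Prime] (M : Type) [Field M] [NumberField M] : Type := ℚ_[p] ⊗[ℚ] M

/-- The algebra of `M` at infinity. -/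
abbrev Ai (M : Type) [Field M] [NumberField M] : Type := ℝ ⊗[ℚ] M

variable {p : ℕ} [Fact p.Prime] {M : Type} [Field M] [NumberField M]

/-- `x` is `p ^ j` times an integral element. -/
def Sm (j : ℕ) (x : Ap p M) : Prop := ∃ y : Ap p M, IsIntegral ℤ_[p] y ∧ x = (p : Ap p M) ^ j * y

/-- The prime `w` lies above the rational prime `p`. -/
def Ab (p : ℕ) (w : Pr M) : Prop := (p : 𝓞 M) ∈ w.asIdeal

/-- The rational prime `p` is unramified in `M`. -/
def Unram (p : ℕ) (M : Type) [Field M] [NumberField M] : Prop :=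
  ∀ w : Pr M, Ab p w → ord w (p : M) = 1

/-- The image of a global unit in a local algebra. -/
noncomputable abbrev incU (k : Type) [CommRing k] [Algebra ℚ k] (M : Type) [Field M]
    [NumberField M] : Mˣ →* (k ⊗[ℚ] M)ˣ := Units.map (inc k M).toMonoidHom

/-- The valuation at `w` of a unit of the semi-local algebra: the valuation of any global element
close to it. -/
noncomputable def ordA (w : Pr M) (x : (Ap p M)ˣ) : ℤ :=
  ord w (Classical.epsilon fun m : M => m ≠ 0 ∧ Sm 1 (inc ℚ_[p] M m * (x⁻¹).1 - 1))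

/-- The units supported on the idempotent `e`. -/
def Pc {A : Type} [CommRing A] (e : A) : Subgroup Aˣ where
  carrier := {x | (1 - e) * x.1 = 1 - e}
  one_mem' := mul_one _
  mul_mem' := fun {x y} hx hy => by
    simp only [Set.mem_ofPred_eq] at hx hy ⊢
    rw [Units.val_mul, ← mul_assoc, hx, hy]
  inv_mem' := fun {x} hx => by
    simp only [Set.mem_ofPred_eq] at hx ⊢
    rw [← hx, mul_assoc, Units.mul_inv, mul_one, hx]

theorem mem_Pc {A : Type} [CommRing A] {e : A} {x : Aˣ} : x ∈ Pc e ↔ (1 - e) * x.1 = 1 - e :=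
  Iff.rfl

/-- The component of a unit on an idempotent. -/
def pcj {A : Type} [CommRing A] {e : A} (he : IsIdempotentElem e) : Aˣ →* Aˣ where
  toFun x := ⟨e * x.1 + (1 - e), e * (x⁻¹).1 + (1 - e), by
    have h : x.1 * (x⁻¹).1 = 1 := x.mul_inv
    linear_combination (x.1 * (x⁻¹).1 - x.1 - (x⁻¹).1 + 1) * he.eq + e * h, by
    have h : x.1 * (x⁻¹).1 = 1 := x.mul_inv
    linear_combination (x.1 * (x⁻¹).1 - x.1 - (x⁻¹).1 + 1) * he.eq + e * h⟩
  map_one' := Units.ext (by simp)
  map_mul' x y := Units.ext (by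
    simp only [Units.val_mul]
    linear_combination (x.1 + y.1 - x.1 * y.1 - 1) * he.eq)

theorem pcj_val {A : Type} [CommRing A] {e : A} (he : IsIdempotentElem e) (x : Aˣ) :
    (pcj he x).1 = e * x.1 + (1 - e) := rfl

theorem pcj_mem {A : Type} [CommRing A] {e : A} (he : IsIdempotentElem e) (x : Aˣ) :
    pcj he x ∈ Pc e := by
  rw [mem_Pc, pcj_val]
  linear_combination (1 - x.1) * he.eq

/-- The prime `w` above `p` lies in the support of the idempotent `e`. -/
def Sup (e : Ap p M) (w : Pr M) : Prop := Ab p w ∧ ∃ x ∈ Pc e, ordA w x ≠ 0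

theorem uact_mem_Pc {k : Type} [CommRing k] [Algebra ℚ k] {s : Aut M} {e : k ⊗[ℚ] M}
    (he : lact k s e = e) : ∀ x ∈ Pc e, uact k s x ∈ Pc e := fun x hx => by
  have h := congrArg (lact k s) (mem_Pc.1 hx)
  rw [map_mul, map_sub, map_one, he] at h
  exact h

/-- The action on the units supported on a fixed idempotent. -/
noncomputable def pact {k : Type} [CommRing k] [Algebra ℚ k] (s : Aut M) {e : k ⊗[ℚ] M}
    (he : lact k s e = e) : Pc e →* Pc e := resS (uact k s) (Pc e) (uact_mem_Pc he)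

/-- The action on the multiplicative group of `M`. -/
noncomputable def gact (s : Aut M) : Mˣ →* Mˣ := Units.map s.toRingEquiv.toRingHom.toMonoidHom

theorem gact_val (s : Aut M) (x : Mˣ) : (gact s x).1 = s x.1 := rfl

section Map

variable {E : Type} [Field E] [NumberField E]

/-- The map on local algebras induced by an embedding of number fields. -/
noncomputable def lmap (k : Type) [CommRing k] [Algebra ℚ k] (j : E →+* M) :
    k ⊗[ℚ] E →ₐ[k] k ⊗[ℚ] M := Algebra.TensorProduct.map (AlgHom.id k k) j.toRatAlgHom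

@[simp] theorem lmap_tmul (k : Type) [CommRing k] [Algebra ℚ k] (j : E →+* M) (a : k) (x : E) :
    lmap k j (a ⊗ₜ x) = a ⊗ₜ j x := rfl

theorem lmap_inc (k : Type) [CommRing k] [Algebra ℚ k] (j : E →+* M) (x : E) :
    lmap k j (inc k E x) = inc k M (j x) := rfl

/-- The map on local units. -/
noncomputable def umap (k : Type) [CommRing k] [Algebra ℚ k] (j : E →+* M) :
    (k ⊗[ℚ] E)ˣ →* (k ⊗[ℚ] M)ˣ := Units.map (lmap k j).toRingHom.toMonoidHom

theorem umap_val (k : Type) [CommRing k] [Algebra ℚ k] (j : E →+* M) (x : (k ⊗[ℚ] E)ˣ) :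
    (umap k j x).1 = lmap k j x.1 := rfl

theorem umap_mem (j : E →+* M) {x : (Ap p E)ˣ} (hx : x ∈ IntU p E) : umap ℚ_[p] j x ∈ IntU p M :=
  ⟨hx.1.map ((lmap ℚ_[p] j).restrictScalars ℤ_[p]), by
    rw [← map_inv]
    exact hx.2.map ((lmap ℚ_[p] j).restrictScalars ℤ_[p])⟩

/-- The map on ideles. -/
noncomputable def imap (j : E →+* M) : Idele E →* Idele M where
  toFun x := ⟨(fun p => umap ℚ_[p] j (x.1.1 p), umap ℝ j x.1.2),
    Set.Finite.subset x.2 fun p hp h => hp (umap_mem j h)⟩
  map_one' := Subtype.ext (Prod.ext (funext fun p => map_one (umap _ j)) (map_one (umap _ j)))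
  map_mul' x y := Subtype.ext (Prod.ext (funext fun p => map_mul (umap _ j) _ _)
    (map_mul (umap _ j) _ _))

theorem imap_fst (j : E →+* M) (x : Idele E) (p : Nat.Primes) :
    (imap j x).1.1 p = umap ℚ_[p] j (x.1.1 p) := rfl

theorem imap_snd (j : E →+* M) (x : Idele E) : (imap j x).1.2 = umap ℝ j x.1.2 := rfl

theorem imap_prin (j : E →+* M) (x : Eˣ) :
    imap j (prin E x) = prin M (Units.map j.toMonoidHom x) := rfl

/-- The map on idele classes. -/
noncomputable def cmap (j : E →+* M) : Cl E →* Cl M :=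
  QuotientGroup.map _ _ (imap j) (by
    rintro _ ⟨x, rfl⟩
    exact ⟨_, (imap_prin j x).symm⟩)

theorem cmap_mk (j : E →+* M) (x : Idele E) :
    cmap j (QuotientGroup.mk x) = QuotientGroup.mk (imap j x) := rfl

/-- The image of `j` is the fixed field of `N`. -/
def IsFix (j : E →+* M) (N : Subgroup (Aut M)) : Prop :=
  ∀ x : M, (∀ s ∈ N, s x = x) ↔ ∃ y, j y = x

end Map

/-- The data of a cyclic Kummer extension `M = k(β)`, `β ^ l = b`, of prime degree `l`. -/
structure Kum (l : ℕ) (k M : Type) [Field k] [NumberField k] [Field M] [NumberField M]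
    [Algebra k M] where
  σ : Aut M
  ζ : k
  β : M
  b : k
  prime : l.Prime
  prim : IsPrimitiveRoot ζ l
  b_ne : b ≠ 0
  pow : β ^ l = algebraMap k M b
  σ_β : σ β = algebraMap k M ζ * β
  σ_pow : σ ^ l = 1
  fix : ∀ x : M, σ x = x ↔ ∃ y : k, algebraMap k M y = x

/-- `x` is an `l`-th power modulo the prime `v`. -/
def PowMod (l : ℕ) (v : Pr M) (x : M) : Prop :=
  ∃ y : M, y ≠ 0 ∧ v.valuation M (x / y ^ l - 1) < 1

/-- The primes above the rational primes in `S`. -/
def AbS (S : Finset Nat.Primes) (w : Pr M) : Prop := ∃ p ∈ S, Ab p.1 w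

end Pool.Agent.Lib.CFT
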