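import Pool.Agent.Lib.CFT.LDefs

/-! CFT-Loc1: the integral structure of the semi-local algebra. -/

namespace Pool.Agent.Lib.CFT

open scoped TensorProduct
open NumberField
open Pool.Agent.P.MP_9ec3f0_nt.SY

variable {p : ℕ} [Fact p.Prime] {M : Type} [Field M] [NumberField M]


theorem inc_injective (κ : Type) [Field κ] [Algebra ℚ κ] : Function.Injective (inc κ M) :=
  Algebra.TensorProduct.includeRight_injective (algebraMap ℚ κ).injective

namespace Loc1Aux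

/-- The basis of the semi-local algebra coming from an integral basis. -/
noncomputable abbrev B (p : ℕ) [Fact p.Prime] (M : Type) [Field M] [NumberField M] :=
  Algebra.TensorProduct.basis ℚ_[p] (integralBasis M)

theorem repr_inc (m : M) (i) :
    (B p M).repr (inc ℚ_[p] M m) i = (((integralBasis M).repr m i : ℚ) : ℚ_[p]) := by
  have h : inc ℚ_[p] M m = (1 : ℚ_[p]) ⊗ₜ[ℚ] m := rfl
  rw [h, Algebra.TensorProduct.basis_repr_tmul]
  simp

theorem natCast_mul (n : ℕ) (x : Ap p M) : (n : Ap p M) * x = (n : ℚ_[p]) • x := by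
  rw [Algebra.smul_def, map_natCast]

theorem ppow_mul (j : ℕ) (x : Ap p M) : (p : Ap p M) ^ j * x = ((p : ℚ_[p]) ^ j) • x := by
  rw [Algebra.smul_def, map_pow, map_natCast]

theorem repr_ppow_mul (j : ℕ) (x : Ap p M) (i) :
    (B p M).repr ((p : Ap p M) ^ j * x) i = (p : ℚ_[p]) ^ j * (B p M).repr x i := by
  rw [ppow_mul, map_smul, Finsupp.smul_apply, smul_eq_mul]

theorem isIntegral_inc_int {m : M} (hm : IsIntegral ℤ m) : IsIntegral ℤ_[p] (inc ℚ_[p] M m) :=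
  hm.map_of_comp_eq (Int.castRingHom ℤ_[p]) (inc ℚ_[p] M) (RingHom.ext_int _ _)

theorem isIntegral_B (i) : IsIntegral ℤ_[p] (B p M i) := by
  have h : B p M i = inc ℚ_[p] M (integralBasis M i) := by
    rw [Algebra.TensorProduct.basis_apply]; rfl
  rw [h, integralBasis_apply]
  exact isIntegral_inc_int (RingOfIntegers.isIntegral_coe _)

theorem exists_coe {a : ℚ_[p]} (h : ‖a‖ ≤ 1) : ∃ b : ℤ_[p], (b : ℚ_[p]) = a := ⟨⟨a, h⟩, rfl⟩

/-- Integral coordinates. -/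
def Co (x : Ap p M) : Prop := ∀ i, ‖(B p M).repr x i‖ ≤ 1

theorem Co.isIntegral {x : Ap p M} (h : Co x) : IsIntegral ℤ_[p] x := by
  rw [← (B p M).sum_repr x]
  refine IsIntegral.sum _ fun i _ => ?_
  obtain ⟨a, ha⟩ := exists_coe (h i)
  rw [← ha]
  exact (isIntegral_B (p := p) (M := M) i).smul a

theorem Co.add {x y : Ap p M} (hx : Co x) (hy : Co y) : Co (x + y) := fun i => by
  rw [map_add, Finsupp.add_apply]
  exact (IsUltrametricDist.norm_add_le_max _ _).trans (max_le (hx i) (hy i))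

theorem val_natCast_le (w : Pr M) (n : ℕ) : w.valuation M (n : M) ≤ 1 := by
  have h := w.valuation_le_one (K := M) (n : 𝓞 M)
  simpa using h

theorem val_intCast_le (w : Pr M) (n : ℤ) : w.valuation M (n : M) ≤ 1 := by
  have h := w.valuation_le_one (K := M) (n : 𝓞 M)
  simpa using h

theorem val_natCast_eq_one {w : Pr M} {n : ℕ} (h : (n : 𝓞 M) ∉ w.asIdeal) :
    w.valuation M (n : M) = 1 := by
  have h2 := (w.valuation_eq_one_iff_notMem (K := M)).2 h
  simpa using h2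

theorem val_coprime {w : Pr M} (hw : Ab p w) {n : ℕ} (h : ¬ p ∣ n) :
    w.valuation M (n : M) = 1 := by
  refine val_natCast_eq_one fun hn => w.isPrime.ne_top ?_
  have hc : IsCoprime (p : ℤ) (n : ℤ) :=
    Nat.isCoprime_iff_coprime.2 ((Nat.Prime.coprime_iff_not_dvd Fact.out).2 h)
  obtain ⟨a, b, hab⟩ := hc
  rw [Ideal.eq_top_iff_one]
  have h1 : (1 : 𝓞 M) = (a : 𝓞 M) * (p : 𝓞 M) + (b : 𝓞 M) * (n : 𝓞 M) := by
    exact_mod_cast congrArg (Int.cast : ℤ → 𝓞 M) hab.symm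
  rw [h1]
  exact add_mem (Ideal.mul_mem_left _ _ hw) (Ideal.mul_mem_left _ _ hn)

theorem val_rat_le {w : Pr M} (hw : Ab p w) {r : ℚ} (h : ‖(r : ℚ_[p])‖ ≤ 1) :
    w.valuation M (r : M) ≤ 1 := by
  have hd : ¬ p ∣ r.den := by
    rw [← Rat.padicValuation_le_one_iff]
    exact (Padic.norm_rat_le_one_iff_padicValuation_le_one p).1 h
  rw [Rat.cast_def, map_div₀, val_coprime hw hd, div_one]
  exact val_intCast_le w _

theorem co_inc_iff (m : M) :
    Co (inc ℚ_[p] M m) ↔ ∀ w : Pr M, Ab p w → w.valuation M m ≤ 1 := by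
  constructor
  · intro h w hw
    rw [← (integralBasis M).sum_repr m]
    refine Valuation.map_sum_le _ fun i _ => ?_
    rw [Algebra.smul_def, map_mul, integralBasis_apply]
    refine mul_le_one' ?_ (w.valuation_le_one _)
    have h2 := h i
    rw [repr_inc] at h2
    simpa using val_rat_le hw h2
  · intro h i
    obtain ⟨d, hd, hx⟩ := IsAlgebraic.exists_integral_multiple
      ((IsFractionRing.isAlgebraic_iff ℤ ℚ M).2 (Algebra.IsAlgebraic.isAlgebraic (R := ℚ) m))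
    have hx2 : IsIntegral ℤ ((d.natAbs : M) * m) := by
      rcases Int.natAbs_eq d with h1 | h1
      · rw [h1] at hx
        simpa using hx
      · rw [h1] at hx
        simpa using hx.neg
    obtain ⟨k, e, he, hke⟩ := Nat.exists_eq_pow_mul_and_not_dvd (Int.natAbs_ne_zero.2 hd) p
      (Fact.out : p.Prime).ne_one
    have hint : (e : M) * m ∈ (algebraMap (𝓞 M) M).range := by
      refine IsDedekindDomain.HeightOneSpectrum.mem_integers_of_valuation_le_one M _ fun w => ?_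
      by_cases hw : Ab p w
      · rw [map_mul]
        exact mul_le_one' (val_natCast_le w e) (h w hw)
      · have h1 : w.valuation M (p : M) = 1 := val_natCast_eq_one hw
        have h2 := w.valuation_le_one (K := M) (⟨_, hx2⟩ : 𝓞 M)
        have h3 : w.valuation M ((d.natAbs : M) * m) ≤ 1 := h2
        rw [hke, Nat.cast_mul, Nat.cast_pow, mul_assoc, map_mul, map_pow, h1, one_pow,
          one_mul] at h3
        exact h3
    obtain ⟨a, ha⟩ := hint
    have h4 := integralBasis_repr_apply M a i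
    rw [ha, ← nsmul_eq_mul, map_nsmul, Finsupp.smul_apply, nsmul_eq_mul] at h4
    have h5 : ‖(e : ℚ_[p])‖ = 1 :=
      Padic.norm_natCast_eq_one_iff.2 ((Nat.Prime.coprime_iff_not_dvd Fact.out).2 he)
    have h6 : (e : ℚ_[p]) * (((integralBasis M).repr m i : ℚ) : ℚ_[p]) =
        (((RingOfIntegers.basis M).repr a i : ℤ) : ℚ_[p]) := by
      have h7 := congrArg (Rat.cast : ℚ → ℚ_[p]) h4
      simpa using h7
    rw [repr_inc, ← one_mul ‖_‖, ← h5, ← norm_mul, h6, h5]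
    exact Padic.norm_int_le_one _

theorem exists_norm_le (a : ℚ_[p]) : ∃ n : ℕ, ‖(p : ℚ_[p]) ^ n * a‖ ≤ 1 := by
  have hp : (1 : ℝ) < p := by exact_mod_cast (Fact.out : p.Prime).one_lt
  obtain ⟨n, hn⟩ := pow_unbounded_of_one_lt ‖a‖ hp
  refine ⟨n, ?_⟩
  rw [norm_mul, Padic.norm_p_pow, zpow_neg, zpow_natCast, inv_mul_le_iff₀ (by positivity), mul_one]
  exact hn.le

theorem norm_ppow_mul_le (n : ℕ) {a : ℚ_[p]} (h : ‖a‖ ≤ 1) : ‖(p : ℚ_[p]) ^ n * a‖ ≤ 1 := by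
  rw [norm_mul, norm_pow]
  exact mul_le_one₀ (pow_le_one₀ (norm_nonneg _) (by simpa using Padic.norm_int_le_one (p := p) p))
    (norm_nonneg _) h

theorem Co.ppow_mul {x : Ap p M} (h : Co x) (n : ℕ) : Co ((p : Ap p M) ^ n * x) := fun i => by
  rw [repr_ppow_mul]
  exact norm_ppow_mul_le n (h i)

theorem exists_co_mul (x : Ap p M) : ∃ n : ℕ, Co ((p : Ap p M) ^ n * x) := by
  choose n hn using fun i => exists_norm_le ((B p M).repr x i)
  refine ⟨Finset.univ.sup n, fun i => ?_⟩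
  obtain ⟨k, hk⟩ := Nat.exists_eq_add_of_le' (Finset.le_sup (f := n) (Finset.mem_univ i))
  rw [repr_ppow_mul, hk, pow_add, mul_assoc]
  exact norm_ppow_mul_le k (hn i)

theorem Co.smul {x : Ap p M} (h : Co x) (a : ℤ_[p]) : Co (a • x) := fun i => by
  have h1 : a • x = (a : ℚ_[p]) • x := rfl
  rw [h1, map_smul, Finsupp.smul_apply, smul_eq_mul, norm_mul]
  exact mul_le_one₀ a.2 (norm_nonneg _) (h i)

theorem co_zero : Co (0 : Ap p M) := fun i => by simp

theorem exists_co_fg (S : Submodule ℤ_[p] (Ap p M)) (hS : S.FG) :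
    ∃ n : ℕ, ∀ x ∈ S, Co ((p : Ap p M) ^ n * x) := by
  obtain ⟨s, rfl⟩ := hS
  choose n hn using fun x : Ap p M => exists_co_mul x
  refine ⟨s.sup n, fun x hx => ?_⟩
  induction hx using Submodule.span_induction with
  | mem x hx =>
    obtain ⟨k, hk⟩ := Nat.exists_eq_add_of_le' (Finset.le_sup (f := n) hx)
    rw [hk, pow_add, mul_assoc]
    exact (hn x).ppow_mul k
  | zero => rw [mul_zero]; exact co_zero
  | add x y _ _ hx hy => rw [mul_add]; exact hx.add hy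
  | smul a x _ hx => rw [mul_smul_comm]; exact hx.smul a

theorem co_inc_of_isIntegral {m : M} (h : IsIntegral ℤ_[p] (inc ℚ_[p] M m)) :
    Co (inc ℚ_[p] M m) := by
  obtain ⟨n, hn⟩ := exists_co_fg _ h.fg_adjoin_singleton
  rw [co_inc_iff]
  intro w hw
  by_contra hlt
  rw [not_le] at hlt
  have hm : m ≠ 0 := by
    rintro rfl
    simp at hlt
  have hp : (p : M) ≠ 0 := Nat.cast_ne_zero.2 (Fact.out : p.Prime).ne_zero
  have ho : ord w m < 0 := by
    by_contra h0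
    exact absurd ((val_le_one_iff w hm).2 (not_lt.1 h0)) (not_le.2 hlt)
  obtain ⟨j, hj⟩ : ∃ j : ℕ, (n : ℤ) * ord w (p : M) < j := ⟨((n : ℤ) * ord w (p : M)).toNat + 1, by
    push_cast
    omega⟩
  have h1 := hn (inc ℚ_[p] M m ^ j) (Subalgebra.pow_mem _ (Algebra.self_mem_adjoin_singleton _ _) j)
  have h2 : (p : Ap p M) ^ n * inc ℚ_[p] M m ^ j = inc ℚ_[p] M ((p : M) ^ n * m ^ j) := by
    rw [map_mul, map_pow, map_pow, map_natCast]
  rw [h2, co_inc_iff] at h1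
  have h3 := (val_le_one_iff w (mul_ne_zero (pow_ne_zero n hp) (pow_ne_zero j hm))).1 (h1 w hw)
  rw [ord_mul w (pow_ne_zero n hp) (pow_ne_zero j hm), ord_pow, ord_pow] at h3
  nlinarith [Int.natCast_nonneg j]

theorem exists_close_repr (x : Ap p M) {ε : ℝ} (hε : 0 < ε) :
    ∃ m : M, ∀ i, ‖(B p M).repr (x - inc ℚ_[p] M m) i‖ ≤ ε := by
  choose r hr using fun i => Padic.rat_dense p ((B p M).repr x i) hε
  refine ⟨(integralBasis M).equivFun.symm r, fun i => ?_⟩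
  rw [map_sub, Finsupp.sub_apply, repr_inc, ← Module.Basis.equivFun_apply (integralBasis M),
    LinearEquiv.apply_symm_apply]
  exact (hr i).le

theorem co_of_isIntegral {x : Ap p M} (h : IsIntegral ℤ_[p] x) : Co x := by
  obtain ⟨m, hm⟩ := exists_close_repr x one_pos
  have h1 : Co (x - inc ℚ_[p] M m) := hm
  have h2 : IsIntegral ℤ_[p] (inc ℚ_[p] M m) := by
    have h3 := h.sub h1.isIntegral
    rwa [sub_sub_cancel] at h3
  have h4 := h1.add (co_inc_of_isIntegral h2)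
  rwa [sub_add_cancel] at h4

end Loc1Aux

open Loc1Aux

theorem isIntegral_iff_repr (x : Ap p M) : IsIntegral ℤ_[p] x ↔
    ∀ i, ‖(Algebra.TensorProduct.basis ℚ_[p] (integralBasis M)).repr x i‖ ≤ 1 :=
  ⟨co_of_isIntegral, Co.isIntegral⟩

theorem sm_iff_repr (j : ℕ) (x : Ap p M) : Sm j x ↔
    ∀ i, ‖(Algebra.TensorProduct.basis ℚ_[p] (integralBasis M)).repr x i‖ ≤ (p : ℝ) ^ (-(j : ℤ)) := by
  have hp : (p : ℚ_[p]) ^ j ≠ 0 := pow_ne_zero _ (Nat.cast_ne_zero.2 (Fact.out : p.Prime).ne_zero)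
  have hp0 : (0 : ℝ) < (p : ℝ) ^ (-(j : ℤ)) :=
    zpow_pos (by exact_mod_cast (Fact.out : p.Prime).pos) _
  constructor
  · rintro ⟨y, hy, rfl⟩ i
    rw [repr_ppow_mul, norm_mul, Padic.norm_p_pow]
    exact mul_le_of_le_one_right hp0.le (co_of_isIntegral hy i)
  · intro h
    refine ⟨((p : ℚ_[p]) ^ j)⁻¹ • x, Co.isIntegral fun i => ?_, ?_⟩
    · rw [map_smul, Finsupp.smul_apply, smul_eq_mul, norm_mul, norm_inv, Padic.norm_p_pow,
        inv_mul_le_iff₀ hp0, mul_one]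
      exact h i
    · rw [Loc1Aux.ppow_mul, smul_smul, mul_inv_cancel₀ hp, one_smul]

theorem isUnit_p : IsUnit (p : Ap p M) := by
  have hp : (p : ℚ_[p]) ≠ 0 := Nat.cast_ne_zero.2 (Fact.out : p.Prime).ne_zero
  have h := (Ne.isUnit hp).map (algebraMap ℚ_[p] (Ap p M))
  rwa [map_natCast] at h

theorem sm_zero_iff {x : Ap p M} : Sm 0 x ↔ IsIntegral ℤ_[p] x := by
  constructor
  · rintro ⟨y, hy, rfl⟩
    rwa [pow_zero, one_mul]
  · intro h
    exact ⟨x, h, by rw [pow_zero, one_mul]⟩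

theorem sm_zero (j : ℕ) : Sm j (0 : Ap p M) := ⟨0, isIntegral_zero, (mul_zero _).symm⟩

theorem Sm.add {j : ℕ} {x y : Ap p M} (hx : Sm j x) (hy : Sm j y) : Sm j (x + y) := by
  obtain ⟨a, ha, rfl⟩ := hx
  obtain ⟨b, hb, rfl⟩ := hy
  exact ⟨a + b, ha.add hb, (mul_add _ _ _).symm⟩

theorem Sm.neg {j : ℕ} {x : Ap p M} (hx : Sm j x) : Sm j (-x) := by
  obtain ⟨a, ha, rfl⟩ := hx
  exact ⟨-a, ha.neg, (mul_neg _ _).symm⟩

theorem Sm.sub {j : ℕ} {x y : Ap p M} (hx : Sm j x) (hy : Sm j y) : Sm j (x - y) := by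
  rw [sub_eq_add_neg]
  exact hx.add hy.neg

theorem Sm.mul {i j : ℕ} {x y : Ap p M} (hx : Sm i x) (hy : Sm j y) : Sm (i + j) (x * y) := by
  obtain ⟨a, ha, rfl⟩ := hx
  obtain ⟨b, hb, rfl⟩ := hy
  exact ⟨a * b, ha.mul hb, by ring⟩

theorem Sm.mul_left {j : ℕ} {x y : Ap p M} (hx : IsIntegral ℤ_[p] x) (hy : Sm j y) :
    Sm j (x * y) := by
  obtain ⟨b, hb, rfl⟩ := hy
  exact ⟨x * b, hx.mul hb, by ring⟩

theorem Sm.mono {i j : ℕ} {x : Ap p M} (hx : Sm j x) (h : i ≤ j) : Sm i x := by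
  obtain ⟨a, ha, rfl⟩ := hx
  obtain ⟨k, rfl⟩ := Nat.exists_eq_add_of_le h
  refine ⟨(p : Ap p M) ^ k * a, ((co_of_isIntegral ha).ppow_mul k).isIntegral, by ring⟩

theorem Sm.isIntegral {j : ℕ} {x : Ap p M} (hx : Sm j x) : IsIntegral ℤ_[p] x :=
  sm_zero_iff.1 (hx.mono (Nat.zero_le _))

theorem Sm.sum {ι : Type} {j : ℕ} (s : Finset ι) {x : ι → Ap p M} (hx : ∀ i ∈ s, Sm j (x i)) :
    Sm j (∑ i ∈ s, x i) :=
  Finset.sum_induction x (Sm j) (fun _ _ => Sm.add) (sm_zero j) hx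

theorem Sm.lact {j : ℕ} {x : Ap p M} (hx : Sm j x) (s : Aut M) : Sm j (lact ℚ_[p] s x) := by
  obtain ⟨a, ha, rfl⟩ := hx
  exact ⟨CFT.lact ℚ_[p] s a, isIntegral_lact s ha, by rw [map_mul, map_pow, map_natCast]⟩

theorem sm_p_mul {j : ℕ} {x : Ap p M} : Sm (j + 1) ((p : Ap p M) * x) ↔ Sm j x := by
  constructor
  · rintro ⟨y, hy, h⟩
    refine ⟨y, hy, isUnit_p.mul_left_cancel ?_⟩
    rw [h]
    ring
  · rintro ⟨y, hy, rfl⟩
    exact ⟨y, hy, by ring⟩

theorem exists_isIntegral_mul (x : Ap p M) : ∃ n : ℕ, IsIntegral ℤ_[p] ((p : Ap p M) ^ n * x) :=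
  (exists_co_mul x).imp fun _ h => h.isIntegral

theorem eq_zero_of_sm {x : Ap p M} (h : ∀ j, Sm j x) : x = 0 := by
  refine (B p M).ext_elem fun i => ?_
  rw [map_zero, Finsupp.zero_apply]
  by_contra h0
  have hp : (1 : ℝ) < p := by exact_mod_cast (Fact.out : p.Prime).one_lt
  obtain ⟨n, hn⟩ := exists_pow_lt_of_lt_one (norm_pos_iff.2 h0) (inv_lt_one_of_one_lt₀ hp)
  have h1 := (sm_iff_repr n x).1 (h n) i
  rw [zpow_neg, zpow_natCast, ← inv_pow] at h1
  exact absurd h1 (not_le.2 hn)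

theorem exists_lim (x : ℕ → Ap p M) (h : ∀ j, Sm j (x (j + 1) - x j)) :
    ∃ y, ∀ j, Sm j (y - x j) := by
  have hp : (1 : ℝ) < p := by exact_mod_cast (Fact.out : p.Prime).one_lt
  have h1 : ∀ j n, j ≤ n → Sm j (x n - x j) := by
    intro j n hjn
    induction n, hjn using Nat.le_induction with
    | base => rw [sub_self]; exact sm_zero j
    | succ n hn ih =>
      have h2 := ((h n).mono hn).add ih
      rwa [sub_add_sub_cancel] at h2
  have h2 : ∀ i, CauchySeq fun n => (B p M).repr (x n) i := by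
    intro i
    refine cauchySeq_of_le_geometric (p : ℝ)⁻¹ 1 (inv_lt_one_of_one_lt₀ hp) fun n => ?_
    have h3 := (sm_iff_repr n _).1 (h n) i
    rw [zpow_neg, zpow_natCast, ← inv_pow, map_sub, Finsupp.sub_apply] at h3
    rw [dist_comm, dist_eq_norm, one_mul]
    exact h3
  choose c hc using fun i => cauchySeq_tendsto_of_complete (h2 i)
  refine ⟨(B p M).equivFun.symm c, fun j => (sm_iff_repr j _).2 fun i => ?_⟩
  rw [map_sub, Finsupp.sub_apply, ← Module.Basis.equivFun_apply (B p M) ((B p M).equivFun.symm c),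
    LinearEquiv.apply_symm_apply]
  refine le_of_tendsto ((hc i).sub_const _).norm ?_
  filter_upwards [Filter.eventually_ge_atTop j] with n hn
  have h3 := (sm_iff_repr j _).1 (h1 j n hn) i
  rwa [map_sub, Finsupp.sub_apply] at h3

theorem exists_unit_of_sm {x : Ap p M} (h : Sm 1 (x - 1)) : ∃ u ∈ IntU p M, u.1 = x := by
  obtain ⟨y, hy, hxy⟩ := h
  have hx : x = 1 + (p : Ap p M) * y := by
    rw [pow_one] at hxy
    linear_combination hxy
  let Y : integralClosure ℤ_[p] (Ap p M) := ⟨y, hy⟩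
  have hu : IsUnit (1 + (p : integralClosure ℤ_[p] (Ap p M)) * Y) := by
    by_contra hu
    obtain ⟨I, hI, hmem⟩ := exists_max_ideal_of_mem_nonunits hu
    have h1 := Ideal.isMaximal_comap_of_isIntegral_of_isMaximal (R := ℤ_[p]) I
    have h2 : (p : ℤ_[p]) ∈ I.comap (algebraMap ℤ_[p] (integralClosure ℤ_[p] (Ap p M))) := by
      rw [IsLocalRing.eq_maximalIdeal h1, PadicInt.maximalIdeal_eq_span_p]
      exact Ideal.mem_span_singleton_self _
    rw [Ideal.mem_comap, map_natCast] at h2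
    refine hI.ne_top ((Ideal.eq_top_iff_one _).2 ?_)
    have h3 := sub_mem hmem (Ideal.mul_mem_right Y _ h2)
    rwa [add_sub_cancel_right] at h3
  obtain ⟨u, hu⟩ := hu
  refine ⟨Units.map (integralClosure ℤ_[p] (Ap p M)).val.toRingHom.toMonoidHom u,
    ⟨u.1.2, (u⁻¹).1.2⟩, ?_⟩
  change ((u.1 : integralClosure ℤ_[p] (Ap p M)) : Ap p M) = x
  rw [hu, hx]
  simp [Y]

theorem mem_IntU_of_sm {x : (Ap p M)ˣ} (h : Sm 1 (x.1 - 1)) : x ∈ IntU p M := by
  obtain ⟨u, hu, hux⟩ := exists_unit_of_sm h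
  rwa [← Units.ext hux]

theorem Sm.inv_sub_one {j : ℕ} {x : (Ap p M)ˣ} (h : Sm (j + 1) (x.1 - 1)) :
    Sm (j + 1) ((x⁻¹).1 - 1) := by
  have h1 := mem_IntU_of_sm (h.mono (Nat.le_add_left 1 j))
  have h2 := (Sm.mul_left h1.2 h).neg
  have h3 : -((x⁻¹).1 * (x.1 - 1)) = (x⁻¹).1 - 1 := by
    rw [mul_sub, Units.inv_mul, mul_one, neg_sub]
  rwa [h3] at h2

theorem exists_close (x : Ap p M) (j : ℕ) : ∃ m : M, Sm j (x - inc ℚ_[p] M m) := by
  have hp0 : (0 : ℝ) < (p : ℝ) ^ (-(j : ℤ)) :=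
    zpow_pos (by exact_mod_cast (Fact.out : p.Prime).pos) _
  exact (exists_close_repr x hp0).imp fun m hm => (sm_iff_repr j _).2 hm

namespace Loc1Aux

theorem sm_mul_of {j n : ℕ} {x y : Ap p M} (hy : IsIntegral ℤ_[p] ((p : Ap p M) ^ n * y))
    (hx : Sm (j + n) x) : Sm j (x * y) := by
  obtain ⟨a, ha, rfl⟩ := hx
  exact ⟨a * ((p : Ap p M) ^ n * y), ha.mul hy, by ring⟩

theorem close_unit {x : (Ap p M)ˣ} {j n : ℕ} {m : M}
    (hn : IsIntegral ℤ_[p] ((p : Ap p M) ^ n * (x⁻¹).1))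
    (hm : Sm (j + 1 + n) (x.1 - inc ℚ_[p] M m)) :
    m ≠ 0 ∧ Sm j (inc ℚ_[p] M m * (x⁻¹).1 - 1) := by
  have h1 := (sm_mul_of hn hm).neg
  have h2 : -((x.1 - inc ℚ_[p] M m) * (x⁻¹).1) = inc ℚ_[p] M m * (x⁻¹).1 - 1 := by
    rw [sub_mul, Units.mul_inv, neg_sub]
  rw [h2] at h1
  refine ⟨?_, h1.mono (Nat.le_succ j)⟩
  rintro rfl
  obtain ⟨u, -, hu⟩ := exists_unit_of_sm (h1.mono (Nat.le_add_left 1 j))
  have : Nontrivial (Ap p M) := (inc_injective (M := M) ℚ_[p]).nontrivial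
  rw [map_zero, zero_mul] at hu
  exact u.ne_zero hu

end Loc1Aux

theorem exists_close_unit (x : (Ap p M)ˣ) (j : ℕ) :
    ∃ m : M, m ≠ 0 ∧ Sm j (inc ℚ_[p] M m * (x⁻¹).1 - 1) := by
  obtain ⟨n, hn⟩ := exists_isIntegral_mul (x⁻¹).1
  obtain ⟨m, hm⟩ := exists_close x.1 (j + 1 + n)
  exact ⟨m, close_unit hn hm⟩

theorem exists_close_fixed (N : Subgroup (Aut M)) (x : (Ap p M)ˣ) (hx : ∀ s ∈ N, uact ℚ_[p] s x = x)
    (j : ℕ) : ∃ m : M, m ≠ 0 ∧ (∀ s ∈ N, s m = m) ∧ Sm j (inc ℚ_[p] M m * (x⁻¹).1 - 1) := by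
  classical
  have : Fintype N := Fintype.ofFinite _
  obtain ⟨n, hn⟩ := exists_isIntegral_mul (x⁻¹).1
  obtain ⟨k, hk⟩ := exists_isIntegral_mul (inc ℚ_[p] M (Fintype.card N : M)⁻¹)
  obtain ⟨m, hm⟩ := exists_close x.1 (j + 1 + n + k)
  have hc : (Fintype.card N : M) ≠ 0 := Nat.cast_ne_zero.2 Fintype.card_ne_zero
  have h1 : Sm (j + 1 + n + k) (∑ s : N, lact ℚ_[p] s.1 (x.1 - inc ℚ_[p] M m)) :=
    Sm.sum _ fun s _ => hm.lact s.1
  have h2 := sm_mul_of hk h1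
  have h3 : (∑ s : N, lact ℚ_[p] s.1 (x.1 - inc ℚ_[p] M m)) *
      inc ℚ_[p] M (Fintype.card N : M)⁻¹ =
      x.1 - inc ℚ_[p] M ((∑ s : N, s.1 m) * (Fintype.card N : M)⁻¹) := by
    have h4 : ∀ s : N, lact ℚ_[p] s.1 (x.1 - inc ℚ_[p] M m) = x.1 - inc ℚ_[p] M (s.1 m) := by
      intro s
      rw [map_sub, lact_inc, ← uact_val, hx s.1 s.2]
    simp only [h4]
    rw [Finset.sum_sub_distrib, Finset.sum_const, Finset.card_univ, sub_mul, map_mul, map_sum,
      nsmul_eq_mul, ← map_natCast (inc ℚ_[p] M), mul_right_comm, ← map_mul, mul_inv_cancel₀ hc,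
      map_one, one_mul]
  rw [h3] at h2
  obtain ⟨h5, h6⟩ := close_unit hn h2
  refine ⟨_, h5, fun t ht => ?_, h6⟩
  rw [map_mul, map_inv₀, map_natCast, map_sum]
  congr 1
  exact Fintype.sum_equiv (Equiv.mulLeft (⟨t, ht⟩ : N)) _ _ fun s => rfl

theorem exists_reps (j : ℕ) : ∃ s : Finset M, ∀ x : Ap p M, IsIntegral ℤ_[p] x →
    ∃ m ∈ s, Sm j (x - inc ℚ_[p] M m) := by
  classical
  refine ⟨Finset.univ.image fun f : Module.Free.ChooseBasisIndex ℤ (𝓞 M) → Fin (p ^ j) =>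
    (integralBasis M).equivFun.symm fun i => ((f i : ℕ) : ℚ), fun x hx => ?_⟩
  choose a ha using fun i => exists_coe (co_of_isIntegral hx i)
  refine ⟨_, Finset.mem_image_of_mem _ (Finset.mem_univ fun i =>
    ⟨(a i).appr j, PadicInt.appr_lt _ j⟩), (sm_iff_repr j _).2 fun i => ?_⟩
  rw [map_sub, Finsupp.sub_apply, repr_inc, ← Module.Basis.equivFun_apply (integralBasis M),
    LinearEquiv.apply_symm_apply]
  have h2 := (PadicInt.norm_le_pow_iff_mem_span_pow _ j).2 (PadicInt.appr_spec j (a i))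
  rw [PadicInt.norm_def, PadicInt.coe_sub, PadicInt.coe_natCast, ha] at h2
  rw [Rat.cast_natCast]
  exact h2

theorem isIntegral_inc_iff (m : M) :
    IsIntegral ℤ_[p] (inc ℚ_[p] M m) ↔ ∀ w : Pr M, Ab p w → w.valuation M m ≤ 1 :=
  (isIntegral_iff_repr _).trans (co_inc_iff m)

theorem sm_inc_iff (j : ℕ) (m : M) : Sm j (inc ℚ_[p] M m) ↔
    ∀ w : Pr M, Ab p w → w.valuation M m ≤ w.valuation M (p : M) ^ j := by
  have hp : (p : M) ^ j ≠ 0 := pow_ne_zero _ (Nat.cast_ne_zero.2 (Fact.out : p.Prime).ne_zero)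
  have h1 : inc ℚ_[p] M m = (p : Ap p M) ^ j * inc ℚ_[p] M (m / (p : M) ^ j) := by
    rw [← map_natCast (inc ℚ_[p] M), ← map_pow, ← map_mul, mul_div_cancel₀ _ hp]
  have h2 : Sm j (inc ℚ_[p] M m) ↔ IsIntegral ℤ_[p] (inc ℚ_[p] M (m / (p : M) ^ j)) := by
    constructor
    · rintro ⟨y, hy, h⟩
      rw [h1] at h
      rwa [(isUnit_p.pow j).mul_left_cancel h]
    · intro h
      exact ⟨_, h, h1⟩
  rw [h2, isIntegral_inc_iff]
  refine forall₂_congr fun w _ => ?_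
  rw [map_div₀, div_le_one₀ (zero_lt_iff.2 ((Valuation.ne_zero_iff _).2 hp)), map_pow]

instance : IsReduced (Ap p M) := by
  have : Algebra.FormallyUnramified ℚ M := Algebra.FormallyUnramified.of_isSeparable ℚ M
  exact Algebra.FormallyUnramified.isReduced_of_field ℚ_[p] (Ap p M)

end Pool.Agent.Lib.CFT
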