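import Pool.Agent.Lib.CFT.Loc1
import Pool.Agent.P.MP_9ec3f0_nt.SY.Frob

/-! CFT-Loc2: valuations on the semi-local algebra. -/

namespace Pool.Agent.Lib.CFT

open scoped TensorProduct
open NumberField
open Pool.Agent.P.MP_9ec3f0_nt.SY

variable {p : ℕ} [Fact p.Prime] {M : Type} [Field M] [NumberField M]


theorem ab_iff {w : Pr M} : Ab p w ↔ w.valuation M (p : M) < 1 := by
  rw [← map_natCast (algebraMap (𝓞 M) M) p, IsDedekindDomain.HeightOneSpectrum.valuation_lt_one_iff_mem]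
  rfl

theorem finite_Ab (p : ℕ) [Fact p.Prime] (M : Type) [Field M] [NumberField M] :
    {w : Pr M | Ab p w}.Finite := by
  have hp : (p : M) ≠ 0 := Nat.cast_ne_zero.2 (Fact.out : p.Prime).ne_zero
  refine (finite_ord hp).subset fun w hw => ?_
  exact ((val_lt_one_iff w hp).1 (ab_iff.1 hw)).ne'

theorem exists_Ab (w : Pr M) : ∃ p : Nat.Primes, Ab p.1 w := by
  have key : ∀ n : ℕ, n ≠ 0 → (n : 𝓞 M) ∈ w.asIdeal → ∃ p : Nat.Primes, Ab p.1 w := by
    intro n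
    induction n using induction_on_primes with
    | zero => exact fun h => absurd rfl h
    | one =>
      intro _ h
      rw [Nat.cast_one] at h
      exact absurd ((Ideal.eq_top_iff_one _).2 h) w.isPrime.ne_top
    | prime_mul q a hq ih =>
      intro h0 h
      rw [Nat.cast_mul] at h
      rcases w.isPrime.mem_or_mem h with h | h
      · exact ⟨⟨q, hq⟩, h⟩
      · exact ih (right_ne_zero_of_mul h0) h
  exact key _ (fun h => w.ne_bot (Ideal.absNorm_eq_zero_iff.1 h)) (Ideal.absNorm_mem _)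

theorem exists_Ab' (p : ℕ) [Fact p.Prime] (M : Type) [Field M] [NumberField M] :
    ∃ w : Pr M, Ab p w := by
  have hpp : p.Prime := Fact.out
  have hpr : Prime (p : ℤ) := Nat.prime_iff_prime_int.mp hpp
  haveI : (Ideal.span {(p : ℤ)}).IsMaximal :=
    PrincipalIdealRing.isMaximal_of_irreducible hpr.irreducible
  obtain ⟨Q, hQ, hc⟩ := Ideal.exists_ideal_over_maximal_of_isIntegral (S := 𝓞 M)
    (Ideal.span {(p : ℤ)}) (by
      rw [(RingHom.injective_iff_ker_eq_bot _).1 (algebraMap ℤ (𝓞 M)).injective_int]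
      exact bot_le)
  have hm : (p : 𝓞 M) ∈ Q := by
    have h1 : (p : ℤ) ∈ Q.comap (algebraMap ℤ (𝓞 M)) := by
      rw [hc]
      exact Ideal.mem_span_singleton_self _
    simpa using h1
  refine ⟨⟨Q, hQ.isPrime, fun h => ?_⟩, hm⟩
  rw [h, Ideal.mem_bot] at hm
  exact hpp.ne_zero (by exact_mod_cast hm)

theorem Ab.unique {p q : Nat.Primes} {w : Pr M} (h : Ab p.1 w) (h' : Ab q.1 w) : p = q := by
  by_contra hne
  have hc : Nat.Coprime p.1 q.1 := (Nat.coprime_primes p.2 q.2).2 fun e => hne (Subtype.ext e)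
  obtain ⟨a, b, hab⟩ : IsCoprime (p.1 : 𝓞 M) (q.1 : 𝓞 M) := hc.cast
  refine w.isPrime.ne_top ((Ideal.eq_top_iff_one _).2 ?_)
  rw [← hab]
  exact w.asIdeal.add_mem (w.asIdeal.mul_mem_left a h) (w.asIdeal.mul_mem_left b h')

theorem ab_cj (s : Aut M) (w : Pr M) : Ab p (cj s w) ↔ Ab p w := by
  rw [ab_iff, ab_iff, ← val_cj s w (p : M), map_natCast s]

namespace Loc2Aux

theorem unram_of_not_dvd (hp : ¬ (p : ℤ) ∣ discr M) : Unram p M := by
  intro w hP
  have hpp : p.Prime := Fact.out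
  have hpr : Prime (p : ℤ) := Nat.prime_iff_prime_int.mp hpp
  have hP' : (p : 𝓞 M) ∈ w.asIdeal := hP
  haveI := w.isPrime
  have hunr : Algebra.IsUnramifiedAt ℤ w.asIdeal :=
    (not_dvd_discr_iff_forall_mem M (𝓞 M) hpr).mp hp w.asIdeal inferInstance
      (by exact_mod_cast hP')
  have hl : w.asIdeal.LiesOver (Ideal.span {(p : ℤ)}) :=
    (Ideal.liesOver_span_iff (Ideal.IsPrime.ne_top inferInstance) hpr).mpr (by exact_mod_cast hP')
  have he : (Ideal.span {(p : ℤ)}).ramificationIdx' w.asIdeal = 1 := by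
    rw [Ideal.ramificationIdx'_eq_ramificationIdx _ _ (by simpa using hpp.ne_zero)]
    exact Ideal.ramificationIdx_eq_one w.asIdeal ℤ
  have hP2 : (p : 𝓞 M) ∉ w.asIdeal ^ 2 := by
    intro h
    have hle : (Ideal.span {(p : ℤ)}).map (algebraMap ℤ (𝓞 M)) ≤ w.asIdeal := by
      rw [Ideal.map_span, Set.image_singleton, Ideal.span_singleton_le_iff_mem]
      simpa using hP'
    refine (Ideal.ramificationIdx'_ne_one_iff hle).mpr ?_ he
    rw [Ideal.map_span, Set.image_singleton, Ideal.span_singleton_le_iff_mem]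
    simpa using h
  refine ValAux.ord_of_val_eq w ?_
  rw [← map_natCast (algebraMap (𝓞 M) M) p,
    IsDedekindDomain.HeightOneSpectrum.valuation_of_algebraMap]
  exact FrobAux.val_p p w hP' hP2

theorem ord_eq_zero {w : Pr M} (hw : Ab p w) {m : M} (hm : m ≠ 0)
    (h : Sm 1 (inc ℚ_[p] M m - 1)) : ord w m = 0 := by
  rw [← map_one (inc ℚ_[p] M), ← map_sub, sm_inc_iff] at h
  have h1 := (h w hw).trans_lt (by rw [pow_one]; exact ab_iff.1 hw)
  have h2 := (w.valuation M).map_one_add_of_lt h1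
  rw [add_sub_cancel] at h2
  exact (val_eq_one_iff w hm).1 h2

theorem sm_mul {x y : Ap p M} (hx : Sm 1 (x - 1)) (hy : Sm 1 (y - 1)) : Sm 1 (x * y - 1) := by
  have e : x * y - 1 = (x - 1) * (y - 1) + ((x - 1) + (y - 1)) := by ring
  rw [e]
  exact (Sm.mul_left hx.isIntegral hy).add (hx.add hy)

theorem ord_eq {w : Pr M} (hw : Ab p w) {x : (Ap p M)ˣ} {m m' : M} (hm : m ≠ 0) (hm' : m' ≠ 0)
    (h : Sm 1 (inc ℚ_[p] M m * (x⁻¹).1 - 1)) (h' : Sm 1 (inc ℚ_[p] M m' * (x⁻¹).1 - 1)) :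
    ord w m' = ord w m := by
  have h1 : Sm (0 + 1) ((incU ℚ_[p] M (Units.mk0 m hm) * x⁻¹).1 - 1) := h
  have h2 := sm_mul h' h1.inv_sub_one
  have e : inc ℚ_[p] M m' * (x⁻¹).1 * ((incU ℚ_[p] M (Units.mk0 m hm) * x⁻¹)⁻¹).1 =
      inc ℚ_[p] M (m' / m) := by
    rw [mul_inv_rev, inv_inv, Units.val_mul, ← mul_assoc, mul_assoc _ _ x.1, Units.inv_mul,
      mul_one, ← map_inv, div_eq_mul_inv, map_mul]
    rfl
  rw [e] at h2
  have h3 := ord_eq_zero hw (div_ne_zero hm' hm) h2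
  rw [ord_div w hm' hm] at h3
  omega

theorem sm_lmap {E : Type} [Field E] [NumberField E] (j : E →+* M) {n : ℕ} {x : Ap p E}
    (h : Sm n x) : Sm n (lmap ℚ_[p] j x) := by
  obtain ⟨y, hy, rfl⟩ := h
  refine ⟨lmap ℚ_[p] j y, hy.map ((lmap ℚ_[p] j).restrictScalars ℤ_[p]), ?_⟩
  rw [map_mul, map_pow, map_natCast]

end Loc2Aux

theorem finite_not_unram (M : Type) [Field M] [NumberField M] :
    {p : Nat.Primes | ¬ Unram p.1 M}.Finite := by
  refine (Set.Finite.preimage (f := fun p : Nat.Primes => p.1) Subtype.val_injective.injOn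
    (Set.finite_Iic (discr M).natAbs)).subset fun p hp => ?_
  by_contra hlt
  apply hp
  have hd : ¬ ((p.1 : ℕ) : ℤ) ∣ discr M := fun h =>
    hlt (Nat.le_of_dvd (Int.natAbs_pos.2 (discr_ne_zero M)) (Int.natCast_dvd.1 h))
  exact Loc2Aux.unram_of_not_dvd hd

theorem exists_abS (S : Finset Nat.Primes) : ∃ X : Finset (Pr M), ∀ w, w ∈ X ↔ AbS S w := by
  have h : {w : Pr M | AbS S w}.Finite := by
    refine (S.finite_toSet.biUnion fun p _ => finite_Ab p.1 M).subset fun w hw => ?_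
    obtain ⟨p, hp, h⟩ := hw
    exact Set.mem_biUnion hp h
  exact ⟨h.toFinset, fun w => h.mem_toFinset⟩

theorem exists_cover (X : Finset (Pr M)) : ∃ S : Finset Nat.Primes, ∀ w ∈ X, AbS S w := by
  classical
  choose f hf using fun w : Pr M => exists_Ab w
  exact ⟨X.image f, fun w hw => ⟨f w, Finset.mem_image_of_mem f hw, hf w⟩⟩

theorem ordA_eq {w : Pr M} (hw : Ab p w) {x : (Ap p M)ˣ} {m : M} (hm : m ≠ 0)
    (h : Sm 1 (inc ℚ_[p] M m * (x⁻¹).1 - 1)) : ordA w x = ord w m := by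
  have h1 := Classical.epsilon_spec
    (p := fun m : M => m ≠ 0 ∧ Sm 1 (inc ℚ_[p] M m * (x⁻¹).1 - 1)) ⟨m, hm, h⟩
  exact Loc2Aux.ord_eq hw hm h1.1 h h1.2

theorem ordA_incU {w : Pr M} (hw : Ab p w) (m : Mˣ) : ordA w (incU ℚ_[p] M m) = ord w m.1 := by
  refine ordA_eq hw m.ne_zero ?_
  have e : inc ℚ_[p] M m.1 * ((incU ℚ_[p] M m)⁻¹).1 = 1 := (incU ℚ_[p] M m).mul_inv
  rw [e, sub_self]
  exact sm_zero 1

theorem ordA_mul {w : Pr M} (hw : Ab p w) (x y : (Ap p M)ˣ) :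
    ordA w (x * y) = ordA w x + ordA w y := by
  obtain ⟨m, hm, h⟩ := exists_close_unit x 1
  obtain ⟨m', hm', h'⟩ := exists_close_unit y 1
  rw [ordA_eq hw hm h, ordA_eq hw hm' h', ← ord_mul w hm hm']
  refine ordA_eq hw (mul_ne_zero hm hm') ?_
  have h2 := Loc2Aux.sm_mul h h'
  rwa [mul_mul_mul_comm, ← map_mul, ← Units.val_mul, ← mul_inv] at h2

theorem ordA_one {w : Pr M} (hw : Ab p w) : ordA w (1 : (Ap p M)ˣ) = 0 := by
  have h := ordA_mul hw (1 : (Ap p M)ˣ) 1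
  rw [mul_one] at h
  omega

theorem ordA_inv {w : Pr M} (hw : Ab p w) (x : (Ap p M)ˣ) : ordA w x⁻¹ = -ordA w x := by
  have h := ordA_mul hw x x⁻¹
  rw [mul_inv_cancel, ordA_one hw] at h
  omega

theorem ordA_zpow {w : Pr M} (hw : Ab p w) (x : (Ap p M)ˣ) (n : ℤ) :
    ordA w (x ^ n) = n * ordA w x := by
  induction n using Int.induction_on with
  | zero => rw [zpow_zero, ordA_one hw, zero_mul]
  | succ n ih => rw [zpow_add_one, ordA_mul hw, ih]; ring
  | pred n ih => rw [zpow_sub_one, ordA_mul hw, ih, ordA_inv hw]; ring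

theorem mem_IntU_iff {x : (Ap p M)ˣ} : x ∈ IntU p M ↔ ∀ w : Pr M, Ab p w → ordA w x = 0 := by
  obtain ⟨m, hm, h⟩ := exists_close_unit x 1
  have h1 : incU ℚ_[p] M (Units.mk0 m hm) * x⁻¹ ∈ IntU p M := mem_IntU_of_sm h
  have h2 : x ∈ IntU p M ↔ incU ℚ_[p] M (Units.mk0 m hm) ∈ IntU p M := by
    refine ⟨fun hx => ?_, fun hx => ?_⟩
    · simpa using mul_mem h1 hx
    · simpa using mul_mem (inv_mem h1) hx
  have h3 : incU ℚ_[p] M (Units.mk0 m hm) ∈ IntU p M ↔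
      IsIntegral ℤ_[p] (inc ℚ_[p] M m) ∧ IsIntegral ℤ_[p] (inc ℚ_[p] M m⁻¹) := Iff.rfl
  rw [h2, h3, isIntegral_inc_iff, isIntegral_inc_iff, ← forall_and]
  refine forall_congr' fun w => ?_
  rw [← imp_and]
  refine forall_congr' fun hw => ?_
  rw [ordA_eq hw hm h, val_le_one_iff w hm, val_le_one_iff w (inv_ne_zero hm), ord_inv]
  omega

theorem ordA_uact {w : Pr M} (hw : Ab p w) (s : Aut M) (x : (Ap p M)ˣ) :
    ordA (cj s w) (uact ℚ_[p] s x) = ordA w x := by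
  obtain ⟨m, hm, h⟩ := exists_close_unit x 1
  rw [ordA_eq hw hm h, ← ord_cj s w m]
  refine ordA_eq ((ab_cj s w).2 hw) ((map_ne_zero s).2 hm) ?_
  have h1 := h.lact s
  rwa [map_sub, map_mul, map_one, lact_inc, ← uact_val, map_inv] at h1

theorem exists_ordA (n : Pr M → ℤ) : ∃ m : Mˣ, ∀ w : Pr M, Ab p w → ord w m.1 = n w := by
  obtain ⟨x, hx, h⟩ := exists_ord_eq (finite_Ab p M).toFinset n
  exact ⟨Units.mk0 x hx, fun w hw => h w ((finite_Ab p M).mem_toFinset.2 hw)⟩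

theorem finite_ordA (x : Idele M) :
    {w : Pr M | ∃ p : Nat.Primes, Ab p.1 w ∧ ordA w (x.1.1 p) ≠ 0}.Finite := by
  have hx : {p : Nat.Primes | x.1.1 p ∉ IntU p M}.Finite := x.2
  refine (hx.biUnion fun p _ => finite_Ab p.1 M).subset fun w hw => ?_
  obtain ⟨p, hp, h⟩ := hw
  exact Set.mem_biUnion (x := p) (fun h' => h (mem_IntU_iff.1 h' w hp)) hp

/-- Every idele is a principal idele times an idele that is a unit at the primes outside `X`. -/
theorem ClassGen.idele {X : Finset (Pr M)} (hX : ClassGen X) (x : Idele M) : ∃ m : Mˣ,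
    ∀ (p : Nat.Primes) (w : Pr M), Ab p.1 w → w ∉ X → ordA w (x.1.1 p) = ord w m.1 := by
  choose f hf using fun w : Pr M => exists_Ab w
  obtain ⟨m, hm, h⟩ := hX (fun w => ordA w (x.1.1 (f w)))
    ((finite_ordA x).subset fun w hw => ⟨f w, hf w, hw⟩)
  refine ⟨Units.mk0 m hm, fun p w hp hw => ?_⟩
  obtain rfl := hp.unique (hf w)
  exact (h w hw).symm

variable {E : Type} [Field E] [NumberField E]

theorem ab_dn [Algebra E M] (w : Pr M) : Ab p (dn E w) ↔ Ab p w := by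
  rw [ab_iff, ab_iff, ← val_algebraMap_lt_one_iff, map_natCast]

theorem ordA_umap [Algebra E M] {w : Pr M} (hw : Ab p w) : ∃ e : ℕ, 0 < e ∧
    (∀ x : E, ord w (algebraMap E M x) = e * ord (dn E w) x) ∧
    ∀ x : (Ap p E)ˣ, ordA w (umap ℚ_[p] (algebraMap E M) x) = e * ordA (dn E w) x := by
  obtain ⟨e, he, h⟩ := exists_e (F := E) w
  refine ⟨e, he, h, fun x => ?_⟩
  obtain ⟨m, hm, h1⟩ := exists_close_unit x 1
  rw [ordA_eq ((ab_dn w).2 hw) hm h1, ← h]
  refine ordA_eq hw ((map_ne_zero _).2 hm) ?_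
  have h2 := Loc2Aux.sm_lmap (algebraMap E M) h1
  rwa [map_sub, map_mul, map_one, lmap_inc, ← umap_val, map_inv] at h2

end Pool.Agent.Lib.CFT
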