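import Pool.Agent.Lib.CFT.Loc2

/-! CFT-Loc3: idempotents. -/

namespace Pool.Agent.Lib.CFT

open scoped TensorProduct
open NumberField
open Pool.Agent.P.MP_9ec3f0_nt.SY

variable {p : ℕ} [Fact p.Prime] {M : Type} [Field M] [NumberField M]


theorem isIntegral_idem {e : Ap p M} (he : IsIdempotentElem e) : IsIntegral ℤ_[p] e := by
  refine ⟨Polynomial.X ^ 2 - Polynomial.X, ?_, ?_⟩
  · exact (Polynomial.monic_X_pow 2).sub_of_left (by
      rw [Polynomial.degree_X, Polynomial.degree_X_pow]; norm_num)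
  · rw [Polynomial.eval₂_sub, Polynomial.eval₂_X_pow, Polynomial.eval₂_X, sq, he.eq, sub_self]

namespace Loc3Aux

/-- The idempotent `e` vanishes at `w`. -/
def Z (e : Ap p M) (w : Pr M) : Prop :=
  ∀ (j : ℕ) (m : M), Sm (j + 1) (e - inc ℚ_[p] M m) →
    w.valuation M m ≤ w.valuation M (p : M) ^ (j + 1)

theorem pow_lt {w : Pr M} (hw : Ab p w) (j : ℕ) : w.valuation M (p : M) ^ (j + 1) < 1 :=
  pow_lt_one₀ zero_le (ab_iff.1 hw) j.succ_ne_zero

theorem int_close {e : Ap p M} (he : IsIdempotentElem e) {j : ℕ} {m : M}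
    (h : Sm j (e - inc ℚ_[p] M m)) : IsIntegral ℤ_[p] (inc ℚ_[p] M m) := by
  have h1 := (isIntegral_idem he).sub h.isIntegral
  rwa [sub_sub_cancel] at h1

theorem prod_le {e : Ap p M} (he : IsIdempotentElem e) {w : Pr M} (hw : Ab p w) {j : ℕ} {m : M}
    (h : Sm j (e - inc ℚ_[p] M m)) :
    w.valuation M m * w.valuation M (1 - m) ≤ w.valuation M (p : M) ^ j := by
  rw [← map_mul]
  refine (sm_inc_iff j _).1 ?_ w hw
  have h1 := Sm.mul_left (((isIntegral_idem he).add (int_close he h)).sub isIntegral_one) h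
  have e1 : inc ℚ_[p] M (m * (1 - m)) = (e + inc ℚ_[p] M m - 1) * (e - inc ℚ_[p] M m) := by
    rw [map_mul, map_sub, map_one]
    linear_combination -he.eq
  rwa [e1]

theorem Z_of_lt {e : Ap p M} (he : IsIdempotentElem e) {w : Pr M} (hw : Ab p w) {m₀ : M}
    (h : Sm 1 (e - inc ℚ_[p] M m₀)) (h0 : w.valuation M m₀ < 1) : Z e w := fun j m hm => by
  have h1 : Sm 1 (inc ℚ_[p] M (m - m₀)) := by
    have h2 := h.sub (hm.mono (Nat.le_add_left 1 j))
    rwa [sub_sub_sub_cancel_left, ← map_sub] at h2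
  have h3 := ((sm_inc_iff 1 _).1 h1 w hw).trans_lt (pow_lt hw 0)
  have h4 : w.valuation M m < 1 := by
    have h5 := (w.valuation M).map_add_lt h3 h0
    rwa [sub_add_cancel] at h5
  have h6 := prod_le he hw hm
  rwa [(w.valuation M).map_one_sub_of_lt h4, mul_one] at h6

theorem close_compl {e : Ap p M} {j : ℕ} {m : M} (h : Sm j (e - inc ℚ_[p] M m)) :
    Sm j (1 - e - inc ℚ_[p] M (1 - m)) := by
  have h1 := h.neg
  rwa [map_sub, map_one, sub_sub_sub_cancel_left, ← neg_sub]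

theorem dich {e : Ap p M} (he : IsIdempotentElem e) {w : Pr M} (hw : Ab p w) :
    Z e w ∨ Z (1 - e) w := by
  obtain ⟨m, hm⟩ := exists_close e 1
  by_cases h : w.valuation M m < 1
  · exact Or.inl (Z_of_lt he hw hm h)
  · refine Or.inr (Z_of_lt he.one_sub hw (close_compl hm) ?_)
    have h1 : w.valuation M m = 1 :=
      le_antisymm ((isIntegral_inc_iff m).1 (int_close he hm) w hw) (not_lt.1 h)
    have h2 := prod_le he hw hm
    rw [h1, one_mul] at h2
    exact h2.trans_lt (pow_lt hw 0)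

theorem sm_mul {N j : ℕ} {a d : Ap p M} (ha : IsIntegral ℤ_[p] ((p : Ap p M) ^ N * a))
    (hd : Sm (N + j) d) : Sm j (d * a) := by
  obtain ⟨y, hy, rfl⟩ := hd
  exact ⟨_, hy.mul ha, by ring⟩

theorem le_of_Z {e : Ap p M} {w : Pr M} (hw : Ab p w) (hz : Z e w) {j : ℕ} {a : M}
    (h : Sm j ((1 - e) * inc ℚ_[p] M a)) : w.valuation M a ≤ w.valuation M (p : M) ^ j := by
  obtain ⟨N, hN⟩ := exists_isIntegral_mul (inc ℚ_[p] M a)
  obtain ⟨m, hm⟩ := exists_close e (N + j + 1)
  have h1 := h.add (sm_mul hN (hm.mono (Nat.le_succ _)))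
  have e1 : (1 - e) * inc ℚ_[p] M a + (e - inc ℚ_[p] M m) * inc ℚ_[p] M a =
      inc ℚ_[p] M ((1 - m) * a) := by
    rw [map_mul, map_sub, map_one]
    ring
  rw [e1] at h1
  have h2 := (sm_inc_iff j _).1 h1 w hw
  rwa [map_mul, (w.valuation M).map_one_sub_of_lt ((hz _ m hm).trans_lt (pow_lt hw _)),
    one_mul] at h2

theorem ord_zero {e : Ap p M} (he : IsIdempotentElem e) {w : Pr M} (hw : Ab p w) (hz : Z e w)
    {x : (Ap p M)ˣ} (hx : x ∈ Pc e) : ordA w x = 0 := by
  obtain ⟨m, hm, h⟩ := exists_close_unit x 1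
  have h1 := Sm.mul_left (isIntegral_idem he.one_sub) h
  have e1 : (1 - e) * (inc ℚ_[p] M m * (x⁻¹).1 - 1) = (1 - e) * inc ℚ_[p] M (m - 1) := by
    rw [map_sub, map_one]
    linear_combination inc ℚ_[p] M m * mem_Pc.1 (inv_mem hx)
  rw [e1] at h1
  have h2 := (le_of_Z hw hz h1).trans_lt (pow_lt hw 0)
  rw [ordA_eq hw hm h, ← val_eq_one_iff w hm]
  have h3 := (w.valuation M).map_one_add_of_lt h2
  rwa [add_sub_cancel] at h3

theorem not_sup {e : Ap p M} (he : IsIdempotentElem e) {w : Pr M} (hz : Z e w) : ¬ Sup e w :=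
  fun ⟨hw, _, hx, h⟩ => h (ord_zero he hw hz hx)

theorem pcj_mul {A : Type} [CommRing A] {e : A} (he : IsIdempotentElem e) (x : Aˣ) :
    pcj he x * pcj he.one_sub x = x :=
  Units.ext (by
    rw [Units.val_mul, pcj_val, pcj_val]
    linear_combination (2 * x.1 - x.1 ^ 2 - 1) * he.eq)

theorem ord_pcj {e : Ap p M} (he : IsIdempotentElem e) {w : Pr M} (hw : Ab p w)
    (hz : Z (1 - e) w) (x : (Ap p M)ˣ) : ordA w (pcj he x) = ordA w x := by
  conv_rhs => rw [← pcj_mul he x, ordA_mul hw,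
    ord_zero he.one_sub hw hz (pcj_mem he.one_sub x), add_zero]

theorem exists_one {w : Pr M} (hw : Ab p w) : ∃ x : (Ap p M)ˣ, ordA w x ≠ 0 := by
  obtain ⟨m, hm⟩ := exists_ordA (p := p) (M := M) fun _ => 1
  exact ⟨incU ℚ_[p] M m, by rw [ordA_incU hw, hm w hw]; exact one_ne_zero⟩

theorem sup_of_Z {e : Ap p M} (he : IsIdempotentElem e) {w : Pr M} (hw : Ab p w)
    (hz : Z (1 - e) w) : Sup e w := by
  obtain ⟨x, hx⟩ := exists_one hw
  exact ⟨hw, _, pcj_mem he x, by rwa [ord_pcj he hw hz]⟩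

theorem Z_of_sup {e : Ap p M} (he : IsIdempotentElem e) {w : Pr M} (h : Sup e w) : Z (1 - e) w :=
  (dich he h.1).resolve_left fun hz => not_sup he hz h

theorem sm_idem {e : Ap p M} (he : IsIdempotentElem e) (j : ℕ) {m : M}
    (h : ∀ w, Sup e w → w.valuation M m ≤ w.valuation M (p : M) ^ j) :
    Sm j (e * inc ℚ_[p] M m) := by
  obtain ⟨N, hN⟩ := exists_isIntegral_mul (inc ℚ_[p] M m)
  obtain ⟨m₀, hm⟩ := exists_close e (N + j + 1)
  have h1 : Sm j (inc ℚ_[p] M (m₀ * m)) := by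
    refine (sm_inc_iff j _).2 fun w hw => ?_
    rw [map_mul]
    rcases dich he hw with hz | hz
    · have h2 : w.valuation M ((p : M) ^ N * m) ≤ 1 := by
        refine (isIntegral_inc_iff _).1 ?_ w hw
        rwa [map_mul, map_pow, map_natCast]
      rw [map_mul, map_pow] at h2
      calc w.valuation M m₀ * w.valuation M m
          ≤ w.valuation M (p : M) ^ (N + j + 1) * w.valuation M m :=
            mul_le_mul_left (hz _ _ hm) _
        _ = w.valuation M (p : M) ^ j * (w.valuation M (p : M) *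
            (w.valuation M (p : M) ^ N * w.valuation M m)) := by
            rw [pow_succ, pow_add]
            ac_rfl
        _ ≤ _ := mul_le_of_le_one_right' (mul_le_one' (ab_iff.1 hw).le h2)
    · exact (mul_le_of_le_one_left' ((isIntegral_inc_iff _).1 (int_close he hm) w hw)).trans
        (h w (sup_of_Z he hw hz))
  have h3 := h1.add (sm_mul hN (hm.mono (Nat.le_succ _)))
  rwa [map_mul, ← add_mul, add_sub_cancel] at h3

theorem sup_lact' {e : Ap p M} (s : Aut M) {w : Pr M} (h : Sup e w) :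
    Sup (lact ℚ_[p] s e) (cj s w) := by
  obtain ⟨hw, x, hx, h1⟩ := h
  refine ⟨(ab_cj s w).2 hw, uact ℚ_[p] s x, ?_, by rwa [ordA_uact hw]⟩
  have h2 := congrArg (lact ℚ_[p] s) (mem_Pc.1 hx)
  rw [map_mul, map_sub, map_one] at h2
  exact h2

theorem exists_seq {w : Pr M} (hw : Ab p w) (j : ℕ) : ∃ m : M,
    w.valuation M (1 - m) ≤ w.valuation M (p : M) ^ (j + 1) ∧
    ∀ w', Ab p w' → w' ≠ w → w'.valuation M m ≤ w'.valuation M (p : M) ^ (j + 1) := by
  classical
  have hp : (p : M) ≠ 0 := Nat.cast_ne_zero.2 (Fact.out : p.Prime).ne_zero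
  obtain ⟨s, hs⟩ := exists_ordA (p := p) (M := M)
    fun w' => if w' = w then ord w' (p : M) else -ord w' (p : M)
  have h1 : w.valuation M (s.1 ^ (j + 1)) ≤ w.valuation M (p : M) ^ (j + 1) := by
    rw [map_pow]
    refine pow_le_pow_left' ((val_le_val_iff w s.ne_zero hp).2 ?_) _
    rw [hs w hw, if_pos rfl]
  have h2 := (w.valuation M).map_one_add_of_lt (h1.trans_lt (pow_lt hw j))
  have h3 : 1 + s.1 ^ (j + 1) ≠ 0 := fun h => by
    rw [h, map_zero] at h2
    exact zero_ne_one h2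
  refine ⟨(1 + s.1 ^ (j + 1))⁻¹, ?_, fun w' hw' hne => ?_⟩
  · have e1 : 1 - (1 + s.1 ^ (j + 1))⁻¹ = s.1 ^ (j + 1) / (1 + s.1 ^ (j + 1)) := by
      field_simp
      ring
    rwa [e1, map_div₀, h2, div_one]
  · have h4 : w'.valuation M (s.1⁻¹ ^ (j + 1)) ≤ w'.valuation M (p : M) ^ (j + 1) := by
      rw [map_pow]
      refine pow_le_pow_left' ((val_le_val_iff w' (inv_ne_zero s.ne_zero) hp).2 ?_) _
      rw [ord_inv, hs w' hw', if_neg hne, neg_neg]
    have h5 := (w'.valuation M).map_one_add_of_lt (h4.trans_lt (pow_lt hw' j))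
    have e1 : (1 + s.1 ^ (j + 1))⁻¹ = s.1⁻¹ ^ (j + 1) / (1 + s.1⁻¹ ^ (j + 1)) := by
      have h6 : s.1 ^ (j + 1) ≠ 0 := pow_ne_zero _ s.ne_zero
      have h7 : s.1 ^ (j + 1) + 1 ≠ 0 := by rwa [add_comm]
      rw [inv_pow]
      field_simp
      ring
    rwa [e1, map_div₀, h5, div_one]

end Loc3Aux

open Loc3Aux

theorem sup_or {e : Ap p M} (he : IsIdempotentElem e) {w : Pr M} (hw : Ab p w) :
    Sup e w ∨ Sup (1 - e) w := by
  rcases dich he hw with h | h
  · exact Or.inr (sup_of_Z he.one_sub hw (by rwa [sub_sub_cancel]))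
  · exact Or.inl (sup_of_Z he hw h)

theorem not_sup_both {e : Ap p M} (he : IsIdempotentElem e) {w : Pr M} (h : Sup e w) :
    ¬ Sup (1 - e) w := not_sup he.one_sub (Z_of_sup he h)

theorem ordA_pcj_pos {e : Ap p M} (he : IsIdempotentElem e) {w : Pr M} (h : Sup e w)
    (x : (Ap p M)ˣ) : ordA w (pcj he x) = ordA w x := ord_pcj he h.1 (Z_of_sup he h) x

theorem ordA_pcj_neg {e : Ap p M} (he : IsIdempotentElem e) {w : Pr M} (hw : Ab p w)
    (h : ¬ Sup e w) (x : (Ap p M)ˣ) : ordA w (pcj he x) = 0 := by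
  by_contra h1
  exact h ⟨hw, _, pcj_mem he x, h1⟩

theorem sup_mul {e e' : Ap p M} (he : IsIdempotentElem e) (he' : IsIdempotentElem e') (w : Pr M) :
    Sup (e * e') w ↔ Sup e w ∧ Sup e' w := by
  constructor
  · rintro ⟨hw, x, hx, h⟩
    rw [mem_Pc] at hx
    refine ⟨⟨hw, x, mem_Pc.2 ?_, h⟩, hw, x, mem_Pc.2 ?_, h⟩
    · linear_combination (1 - e) * hx + e' * (1 - x.1) * he.eq
    · linear_combination (1 - e') * hx + e * (1 - x.1) * he'.eq
  · rintro ⟨h1, h2⟩
    obtain ⟨x, hx⟩ := exists_one h1.1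
    refine ⟨h1.1, _, pcj_mem (he.mul he') x, ?_⟩
    have e1 : pcj (he.mul he') x = pcj he (pcj he' x) := Units.ext (by
      rw [pcj_val, pcj_val, pcj_val]
      ring)
    rwa [e1, ordA_pcj_pos he h1, ordA_pcj_pos he' h2]

theorem sup_one {w : Pr M} : Sup (1 : Ap p M) w ↔ Ab p w := by
  refine ⟨fun h => h.1, fun hw => ?_⟩
  obtain ⟨x, hx⟩ := exists_one hw
  exact ⟨hw, x, mem_Pc.2 (by rw [sub_self, zero_mul]), hx⟩

theorem idem_eq_zero {e : Ap p M} (he : IsIdempotentElem e) (h : ∀ w, ¬ Sup e w) : e = 0 :=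
  eq_zero_of_sm fun j => by
    have h1 := sm_idem he j (m := 1) fun w hw => (h w hw).elim
    rwa [map_one, mul_one] at h1

theorem Loc3Aux.not_sup_zero (w : Pr M) : ¬ Sup (0 : Ap p M) w := fun h => by
  have h1 := not_sup_both IsIdempotentElem.one (sup_one.2 h.1)
  rw [sub_self] at h1
  exact h1 h

theorem Loc3Aux.mul_eq_zero {e e' : Ap p M} (he : IsIdempotentElem e) (he' : IsIdempotentElem e')
    (h : ∀ w, Sup e w → Sup e' w → False) : e * e' = 0 :=
  idem_eq_zero (he.mul he') fun w hw => h w ((sup_mul he he' w).1 hw).1 ((sup_mul he he' w).1 hw).2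

theorem idem_ext {e e' : Ap p M} (he : IsIdempotentElem e) (he' : IsIdempotentElem e')
    (h : ∀ w, Sup e w ↔ Sup e' w) : e = e' := by
  have h1 := Loc3Aux.mul_eq_zero he he'.one_sub fun w a b => not_sup_both he' ((h w).1 a) b
  have h2 := Loc3Aux.mul_eq_zero he' he.one_sub fun w a b => not_sup_both he ((h w).2 a) b
  linear_combination h1 - h2

theorem sup_lact {e : Ap p M} (s : Aut M) (w : Pr M) :
    Sup (lact ℚ_[p] s e) (cj s w) ↔ Sup e w := by
  refine ⟨fun h => ?_, sup_lact' s⟩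
  have h1 := sup_lact' s⁻¹ h
  rwa [← lact_mul, ← cj_mul, inv_mul_cancel, lact_one, cj_one] at h1

theorem exists_idem {w : Pr M} (hw : Ab p w) :
    ∃ e : Ap p M, IsIdempotentElem e ∧ ∀ w', Sup e w' ↔ w' = w := by
  choose m h1 h2 using exists_seq hw
  have h3 : ∀ (w' : Pr M) (j : ℕ), Ab p w' →
      w'.valuation M (p : M) ^ (j + 1) ≤ w'.valuation M (p : M) ^ j := fun w' j hw' =>
    pow_le_pow_right_of_le_one' (ab_iff.1 hw').le (Nat.le_succ j)
  have h4 : ∀ j, IsIntegral ℤ_[p] (inc ℚ_[p] M (m j)) := fun j => by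
    refine (isIntegral_inc_iff _).2 fun w' hw' => ?_
    by_cases h : w' = w
    · subst h
      have h5 := (w'.valuation M).map_one_sub_of_lt ((h1 j).trans_lt (pow_lt hw j))
      rw [sub_sub_cancel] at h5
      exact h5.le
    · exact (h2 j w' hw' h).trans (pow_lt hw' j).le
  obtain ⟨y, hy⟩ := exists_lim (fun j => inc ℚ_[p] M (m j)) fun j => by
    rw [← map_sub]
    refine (sm_inc_iff j _).2 fun w' hw' => ?_
    by_cases h : w' = w
    · subst h
      rw [← sub_sub_sub_cancel_left _ _ 1]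
      exact (w'.valuation M).map_sub_le ((h1 j).trans (h3 _ _ hw))
        ((h1 (j + 1)).trans ((h3 _ _ hw).trans (h3 _ _ hw)))
    · exact (w'.valuation M).map_sub_le
        ((h2 (j + 1) w' hw' h).trans ((h3 _ _ hw').trans (h3 _ _ hw')))
        ((h2 j w' hw' h).trans (h3 _ _ hw'))
  have h6 : IsIntegral ℤ_[p] y := by
    have h7 := (hy 0).isIntegral.add (h4 0)
    rwa [sub_add_cancel] at h7
  have he : IsIdempotentElem y := by
    refine sub_eq_zero.1 (eq_zero_of_sm fun j => ?_)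
    have h7 : Sm j (inc ℚ_[p] M (m j * (1 - m j))) := by
      refine (sm_inc_iff j _).2 fun w' hw' => ?_
      rw [map_mul]
      have h8 := (isIntegral_inc_iff _).1 (h4 j) w' hw'
      by_cases h : w' = w
      · subst h
        exact (mul_le_of_le_one_left' h8).trans ((h1 j).trans (h3 _ _ hw))
      · exact (mul_le_of_le_one_right' ((w'.valuation M).map_sub_le (map_one _).le h8)).trans
          ((h2 j w' hw' h).trans (h3 _ _ hw'))
    have h9 := (Sm.mul_left ((h6.add (h4 j)).sub isIntegral_one) (hy j)).sub h7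
    have e1 : (y + inc ℚ_[p] M (m j) - 1) * (y - inc ℚ_[p] M (m j)) -
        inc ℚ_[p] M (m j * (1 - m j)) = y * y - y := by
      rw [map_mul, map_sub, map_one]
      ring
    rwa [e1] at h9
  refine ⟨y, he, fun w' => ⟨fun h => ?_, ?_⟩⟩
  · by_contra hne
    exact not_sup he (Z_of_lt he h.1 (hy 1) ((h2 1 w' h.1 hne).trans_lt (pow_lt h.1 1))) h
  · rintro rfl
    exact sup_of_Z he hw
      (Z_of_lt he.one_sub hw (close_compl (hy 1)) ((h1 1).trans_lt (pow_lt hw 1)))

/-- A global element that is small at all primes in the support is small on the idempotent. -/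
theorem sm_idem_mul {e : Ap p M} (he : IsIdempotentElem e) (j : ℕ) {m : M}
    (h : ∀ w, Sup e w → w.valuation M m ≤ w.valuation M (p : M) ^ j) :
    Sm j (e * inc ℚ_[p] M m) := sm_idem he j h

theorem exists_pieces (σ : Aut M) : ∃ (ι : Type) (_ : Fintype ι) (e : ι → Ap p M),
    CompleteOrthogonalIdempotents e ∧ (∀ i, lact ℚ_[p] σ (e i) = e i) ∧
    ∀ i, (∃ w, cj σ w = w ∧ ∀ w', Sup (e i) w' ↔ w' = w) ∨ ∀ w, Sup (e i) w → cj σ w ≠ w := by
  have hf : {w : Pr M | Ab p w ∧ cj σ w = w}.Finite := (finite_Ab p M).subset fun w h => h.1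
  have := hf.fintype
  choose e h1 h2 using fun w : {w : Pr M | Ab p w ∧ cj σ w = w} => exists_idem w.2.1
  have ho : OrthogonalIdempotents e := ⟨h1, fun i j hij => Loc3Aux.mul_eq_zero (h1 i) (h1 j)
    fun w a b => hij (Subtype.ext (((h2 i w).1 a).symm.trans ((h2 j w).1 b)))⟩
  have h3 : ∀ i, lact ℚ_[p] σ (e i) = e i := fun i => by
    refine idem_ext ((h1 i).map _) (h1 i) fun w => ?_
    have e1 : w = cj σ (cj σ⁻¹ w) := by rw [← cj_mul, mul_inv_cancel, cj_one]
    have e2 : cj σ⁻¹ i.1 = i.1 := by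
      conv_lhs => rw [← i.2.2, ← cj_mul, inv_mul_cancel, cj_one]
    conv_lhs => rw [e1, sup_lact]
    rw [h2, h2]
    exact ⟨fun h => by rw [e1, h, i.2.2], fun h => by rw [h, e2]⟩
  refine ⟨_, inferInstance, _, CompleteOrthogonalIdempotents.option ho, ?_, ?_⟩
  · rintro (_ | i)
    · simp only [Option.elim, map_sub, map_one, map_sum, h3]
    · exact h3 i
  · rintro (_ | i)
    · refine Or.inr fun w hw hc => not_sup_zero (p := p) w ?_
      rw [← (CompleteOrthogonalIdempotents.option ho).ortho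
        (Option.some_ne_none (⟨w, hw.1, hc⟩ : {w : Pr M | Ab p w ∧ cj σ w = w}))]
      exact (sup_mul (h1 _) ho.isIdempotentElem_sum.one_sub w).2 ⟨(h2 _ w).2 rfl, hw⟩
    · exact Or.inl ⟨i.1, i.2.2, h2 i⟩

theorem prod_pcj {A ι : Type} [CommRing A] [Fintype ι] {e : ι → A}
    (he : CompleteOrthogonalIdempotents e) (x : Aˣ) : ∏ i, pcj (he.idem i) x = x := by
  classical
  have h : ∀ s : Finset ι, (∏ i ∈ s, pcj (he.idem i) x).1 =
      (∑ i ∈ s, e i) * x.1 + (1 - ∑ i ∈ s, e i) := fun s => by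
    induction s using Finset.induction_on with
    | empty => simp
    | insert a s ha ih =>
      rw [Finset.prod_insert ha, Finset.sum_insert ha, Units.val_mul, ih, pcj_val]
      linear_combination (x.1 - 1) ^ 2 * he.toOrthogonalIdempotents.mul_sum_of_notMem ha
  exact Units.ext (by rw [h, he.complete, one_mul, sub_self, add_zero])

theorem uact_pcj {κ : Type} [CommRing κ] [Algebra ℚ κ] {s : Aut M} {e : κ ⊗[ℚ] M}
    (he : IsIdempotentElem e) (hs : lact κ s e = e) (x : (κ ⊗[ℚ] M)ˣ) :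
    uact κ s (pcj he x) = pcj he (uact κ s x) :=
  Units.ext (by rw [uact_val, pcj_val, pcj_val, map_add, map_mul, map_sub, map_one, hs, uact_val])

theorem pcj_of_mem {A : Type} [CommRing A] {e : A} (he : IsIdempotentElem e) {x : Aˣ}
    (hx : x ∈ Pc e) : pcj he x = x := Units.ext (by
  rw [pcj_val]
  linear_combination -mem_Pc.1 hx)

theorem card_roots {l : ℕ} (hl : l ≠ 0) :
    Finite (powMonoidHom l : (Ap p M)ˣ →* (Ap p M)ˣ).ker ∧
    Nat.card (powMonoidHom l : (Ap p M)ˣ →* (Ap p M)ˣ).ker ≤ l ^ Nat.card {w : Pr M // Ab p w} := by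
  classical
  have : NeZero l := ⟨hl⟩
  have : IsArtinianRing (Ap p M) := IsArtinianRing.of_finite ℚ_[p] _
  have : Finite {w : Pr M // Ab p w} := (finite_Ab p M).to_subtype
  have := Fintype.ofFinite (MaximalSpectrum (Ap p M))
  let E := IsArtinianRing.equivPi (Ap p M)
  have hd : ∀ I : MaximalSpectrum (Ap p M), IsDomain (Ap p M ⧸ I.asIdeal) := fun I =>
    have := I.isMaximal.isPrime
    inferInstance
  have h1 : ∀ I : MaximalSpectrum (Ap p M), IsIdempotentElem (E.symm (Pi.single I 1)) := fun I =>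
    IsIdempotentElem.map (show _ = _ by rw [← Pi.single_mul, mul_one]) E.symm
  have h2 : ∀ I : MaximalSpectrum (Ap p M), ∃ w : {w : Pr M // Ab p w},
      Sup (E.symm (Pi.single I 1)) w.1 := fun I => by
    by_contra h
    have h3 := idem_eq_zero (h1 I) fun w hw => h ⟨⟨w, hw.1⟩, hw⟩
    have h4 := congrFun (E.symm.map_eq_zero_iff.1 h3) I
    rw [Pi.single_eq_same] at h4
    exact one_ne_zero h4
  choose f hf using h2
  have h3 : Function.Injective f := fun I J hIJ => by
    by_contra hne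
    refine not_sup_zero (p := p) (f I).1 ?_
    have h4 := (sup_mul (h1 I) (h1 J) _).2 ⟨hf I, hIJ ▸ hf J⟩
    rwa [← map_mul, ← Pi.single_mul_left, Pi.single_eq_of_ne hne, mul_zero, Pi.single_zero,
      map_zero] at h4
  let g : (powMonoidHom l : (Ap p M)ˣ →* (Ap p M)ˣ).ker →
      ∀ I : MaximalSpectrum (Ap p M), rootsOfUnity l (Ap p M ⧸ I.asIdeal) := fun x I =>
    ⟨Units.map (Ideal.Quotient.mk I.asIdeal).toMonoidHom x.1, by
      have h4 : x.1 ^ l = 1 := x.2
      rw [mem_rootsOfUnity, ← map_pow, h4, map_one]⟩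
  have h4 : Function.Injective g := fun x y h =>
    Subtype.ext (Units.ext (E.injective (funext fun I =>
      congrArg (fun z => (z I).1.1) h)))
  refine ⟨Finite.of_injective g h4, (Nat.card_le_card_of_injective g h4).trans ?_⟩
  rw [Nat.card_pi]
  refine (Finset.prod_le_pow_card _ _ l fun I _ => card_rootsOfUnity _ _).trans ?_
  rw [Finset.card_univ, ← Nat.card_eq_fintype_card]
  exact Nat.pow_le_pow_right (Nat.pos_of_ne_zero hl) (Nat.card_le_card_of_injective f h3)

end Pool.Agent.Lib.CFT
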