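import Pool.Agent.Lib.CFT.Herb2

/-! CFT-Loc4a: successive approximation in an induced lattice. -/

namespace Pool.Agent.Lib.CFT.Loc4Aux

theorem approx {B : Type} [CommGroup B] (V : ℕ → Subgroup B) (hV : Antitone V)
    (sep : ∀ x, (∀ j, x ∈ V j) → x = 1)
    (cpl : ∀ y : ℕ → B, (∀ k, y k ∈ V 0) → (∀ k, y (k + 1) / y k ∈ V k) →
      ∃ Y, ∀ k, ∃ m, k ≤ m ∧ Y / y m ∈ V k)
    (f g : B →* B) (hg : ∀ j, ∀ x ∈ V j, g x ∈ V j) (hfg : ∀ x, f (g x) = 1)
    (step : ∀ j, ∀ x ∈ V j, f x = 1 → ∃ y ∈ V j, x / g y ∈ V (j + 1)) {x : B} (hx : x ∈ V 0)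
    (hf : f x = 1) : ∃ y ∈ V 0, g y = x := by
  have st : ∀ j (z : B), ∃ y, x / g z ∈ V j → y ∈ V j ∧ x / g (z * y) ∈ V (j + 1) := by
    intro j z
    by_cases h : x / g z ∈ V j
    · obtain ⟨y, h1, h2⟩ := step j _ h (by rw [map_div, hf, hfg, div_one])
      exact ⟨y, fun _ => ⟨h1, by rwa [map_mul, ← div_div]⟩⟩
    · exact ⟨1, fun h' => absurd h' h⟩
  choose t ht using st
  let y : ℕ → B := fun k => Nat.rec 1 (fun k z => z * t k z) k
  have e : ∀ k, y (k + 1) = y k * t k (y k) := fun _ => rfl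
  have h1 : ∀ k, x / g (y k) ∈ V k ∧ y k ∈ V 0 := by
    intro k
    induction k with
    | zero =>
      refine ⟨?_, one_mem _⟩
      change x / g 1 ∈ V 0
      rwa [map_one, div_one]
    | succ k ih =>
      rw [e]
      exact ⟨(ht k _ ih.1).2, mul_mem ih.2 (hV (Nat.zero_le k) (ht k _ ih.1).1)⟩
  obtain ⟨Y, hY⟩ := cpl y (fun k => (h1 k).2) fun k => by
    rw [e, mul_div_cancel_left]
    exact (ht k _ (h1 k).1).1
  refine ⟨Y, ?_, (div_eq_one.1 (sep _ fun k => ?_)).symm⟩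
  · obtain ⟨m, -, hm⟩ := hY 0
    simpa using mul_mem hm (h1 m).2
  · obtain ⟨m, hk, hm⟩ := hY k
    have := div_mem (hV hk (h1 m).1) (hg k _ hm)
    rwa [map_div, div_div_div_cancel_right] at this

variable {A G : Type} [CommRing A] [Group G] [Fintype G] [MulSemiringAction G A]

/-- A complete separated filtration. -/
structure Fil (G : Type) [Group G] [MulSemiringAction G A] (S : ℕ → AddSubgroup A) : Prop where
  mul : ∀ {i j x y}, x ∈ S i → y ∈ S j → x * y ∈ S (i + j)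
  anti : Antitone S
  one : 1 ∈ S 0
  smul : ∀ {j x} (g : G), x ∈ S j → g • x ∈ S j
  inv : ∀ {j} {x : Aˣ}, x.1 - 1 ∈ S (j + 1) → (x⁻¹).1 - 1 ∈ S (j + 1)
  unit : ∀ {x}, x - 1 ∈ S 1 → IsUnit x
  sep : ∀ x, (∀ j, x ∈ S j) → x = 0
  lim : ∀ x : ℕ → A, (∀ j, x (j + 1) - x j ∈ S j) → ∃ y, ∀ j, y - x j ∈ S j

/-- A filtration by induced lattices. -/
structure Lat (G : Type) [Group G] [Fintype G] [MulSemiringAction G A] (S : ℕ → AddSubgroup A)
    (n : ℕ) (L : ℕ → AddSubgroup A) (T : A →+ A) : Prop where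
  le : ∀ {j x}, x ∈ L j → x ∈ S (j + n + 1)
  ge : ∀ {j x}, x ∈ S (j + n + 1 + n) → x ∈ L j
  anti : Antitone L
  smul : ∀ {j x} (g : G), x ∈ L j → g • x ∈ L j
  fix : ∀ {j a x}, a ∈ S 0 → (∀ g : G, g • a = a) → x ∈ L j → a * x ∈ L j
  map : ∀ {j x}, x ∈ L j → T x ∈ L j
  sum : ∀ x, ∑ g : G, g • T (g⁻¹ • x) = x

variable {S : ℕ → AddSubgroup A}

open Classical in
theorem exists_lat (h : Fil G S) (hc : ∀ g k : G, g * k = k * g) {θ θ' : A} (h0 : θ ∈ S 0) {n : ℕ}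
    (h1 : ∀ j x, x ∈ S (j + n) → x * θ' ∈ S j)
    (hθ : ∀ g : G, ∑ k : G, k • (g • θ * θ') = if g = 1 then 1 else 0) : ∃ L T, Lat G S n L T := by
  obtain ⟨c, hcx⟩ : ∃ c : A →+ A, ∀ x, c x = ∑ k : G, k • (x * θ') :=
    ⟨⟨⟨fun x => ∑ k : G, k • (x * θ'), by simp⟩, fun x y => by
      simp only [add_mul, smul_add, Finset.sum_add_distrib]⟩, fun _ => rfl⟩
  have c1 : ∀ (g : G) x, g • c x = c x := fun g x => by
    rw [hcx, Finset.smul_sum]
    exact Fintype.sum_equiv (Equiv.mulLeft g) _ _ fun k => (mul_smul g k _).symm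
  have c2 : ∀ a, (∀ g : G, g • a = a) → ∀ x, c (a * x) = a * c x := fun a ha x => by
    rw [hcx, hcx, Finset.mul_sum]
    exact Finset.sum_congr rfl fun k _ => by rw [mul_assoc, smul_mul', ha]
  have c3 : ∀ g : G, ∑ k : G, k • (θ * g • θ') = if g = 1 then 1 else 0 := fun g => by
    have e := hθ g⁻¹
    simp only [inv_eq_one] at e
    rw [← e]
    refine Fintype.sum_equiv (Equiv.mulRight g) _ _ fun k => ?_
    rw [Equiv.coe_mulRight, mul_smul, smul_mul' g, smul_inv_smul]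
  have c4 : ∀ x, ∑ g : G, g • (θ * c (g⁻¹ • x)) = x := fun x => by
    have e : ∀ g : G, g • (θ * c (g⁻¹ • x)) = ∑ k : G, k • x * g • (θ * k • θ') := fun g => by
      rw [smul_mul', c1, hcx, Finset.mul_sum]
      refine Fintype.sum_equiv (Equiv.mulRight g⁻¹) _ _ fun k => ?_
      rw [Equiv.coe_mulRight, smul_mul', smul_mul', smul_smul, smul_smul, hc g, inv_mul_cancel_right]
      ring
    simp only [e]
    rw [Finset.sum_comm]
    simp only [← Finset.mul_sum, c3]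
    simp
  let L : ℕ → AddSubgroup A := fun j =>
    ⨅ g : G, (S (j + n + 1)).comap (c.comp (DistribSMul.toAddMonoidHom A g))
  have hL : ∀ j x, x ∈ L j ↔ ∀ g : G, c (g • x) ∈ S (j + n + 1) := fun j x =>
    AddSubgroup.mem_iInf
  refine ⟨L, (AddMonoidHom.mulLeft θ).comp c, fun {j x} hx => ?_, fun {j x} hx => ?_,
    fun i j hij x hx => ?_, fun {j x} g hx => ?_, fun {j a x} ha hg hx => ?_, fun {j x} hx => ?_,
    c4⟩
  · rw [← c4 x]
    refine sum_mem fun g _ => h.smul g ?_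
    simpa using h.mul h0 ((hL j x).1 hx g⁻¹)
  · refine (hL j x).2 fun g => ?_
    rw [hcx]
    exact sum_mem fun k _ => h.smul k (h1 _ _ (h.smul g hx))
  · exact (hL i x).2 fun g => h.anti (by omega) ((hL j x).1 hx g)
  · refine (hL j _).2 fun k => ?_
    rw [smul_smul]
    exact (hL j x).1 hx _
  · refine (hL j _).2 fun k => ?_
    rw [smul_mul', hg, c2 a hg]
    simpa using h.mul ha ((hL j x).1 hx k)
  · refine (hL j _).2 fun k => ?_
    change c (k • (θ * c x)) ∈ _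
    rw [smul_mul', c1, mul_comm, c2 _ fun g => c1 g x, hcx (k • θ), hθ]
    split_ifs
    · simpa using (hL j x).1 hx 1
    · simp

variable {n : ℕ} {L : ℕ → AddSubgroup A} {T : A →+ A}

theorem Lat.mul (hL : Lat G S n L T) (h : Fil G S) {i j : ℕ} {x y : A} (hx : x ∈ L i)
    (hy : y ∈ L j) : x * y ∈ L (i + j + 1) :=
  hL.ge (h.anti (by omega) (h.mul (hL.le hx) (hL.le hy)))

theorem Lat.prod (hL : Lat G S n L T) (h : Fil G S) {j : ℕ} {ι : Type} (s : Finset ι) {x : ι → A}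
    (hx : ∀ i, x i - 1 ∈ L j) : ∏ i ∈ s, x i - 1 - ∑ i ∈ s, (x i - 1) ∈ L (j + 1) := by
  classical
  induction s using Finset.induction_on with
  | empty => simp
  | insert a s ha ih =>
    have e1 : ∏ i ∈ s, x i - 1 ∈ L j := by
      simpa using add_mem (hL.anti (Nat.le_succ j) ih) (sum_mem fun i (_ : i ∈ s) => hx i)
    have e2 := add_mem ih (hL.anti (by omega : j + 1 ≤ j + j + 1) (hL.mul h (hx a) e1))
    rw [Finset.prod_insert ha, Finset.sum_insert ha]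
    refine (congrArg (· ∈ L (j + 1)) ?_).mp e2
    ring

/-- The units that are congruent to one. -/
def Lat.V (hL : Lat G S n L T) (h : Fil G S) (j : ℕ) : Subgroup Aˣ where
  carrier := {x | x.1 - 1 ∈ L j}
  one_mem' := by simp
  mul_mem' := fun {x y} hx hy => by
    have e := add_mem (add_mem hx hy) (hL.anti (by omega : j ≤ j + j + 1) (hL.mul h hx hy))
    refine (congrArg (· ∈ L j) ?_).mp e
    rw [Units.val_mul]
    ring
  inv_mem' := fun {x} hx => by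
    have e1 : (x.1 - 1) * ((x⁻¹).1 - 1) ∈ L j :=
      hL.ge (h.anti (by omega) (h.mul (hL.le hx) (h.inv (hL.le hx))))
    have e := neg_mem (add_mem hx e1)
    refine (congrArg (· ∈ L j) ?_).mp e
    linear_combination -x.mul_inv

theorem Lat.mem_V (hL : Lat G S n L T) (h : Fil G S) {j : ℕ} {x : Aˣ} :
    x ∈ hL.V h j ↔ x.1 - 1 ∈ L j := Iff.rfl

theorem Lat.div_mem (hL : Lat G S n L T) (h : Fil G S) {j : ℕ} {x y : Aˣ} (hy : y ∈ hL.V h j)
    (hx : x.1 - y.1 ∈ L (j + 1)) : x / y ∈ hL.V h (j + 1) := by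
  have e := add_mem hx (hL.anti (by omega : j + 1 ≤ j + 1 + j + 1)
    (hL.mul h hx ((hL.mem_V h).1 (inv_mem hy))))
  refine (congrArg (· ∈ L (j + 1)) ?_).mp e
  rw [div_eq_mul_inv, Units.val_mul]
  linear_combination -y.mul_inv

theorem Lat.exists_unit (hL : Lat G S n L T) (h : Fil G S) {j : ℕ} {μ : A} (hμ : μ ∈ L j) :
    ∃ y ∈ hL.V h j, y.1 = 1 + μ := by
  obtain ⟨y, hy⟩ := h.unit (x := 1 + μ) (by simpa using h.anti (by omega) (hL.le hμ))
  exact ⟨y, (hL.mem_V h).2 (by simpa [hy] using hμ), hy⟩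

theorem Lat.int (hL : Lat G S n L T) (h : Fil G S) {j : ℕ} {x : Aˣ} (hx : x ∈ hL.V h j) :
    x.1 ∈ S 0 := by
  simpa using add_mem (h.anti (Nat.zero_le _) (hL.le hx)) h.one

theorem Lat.cpl (hL : Lat G S n L T) (h : Fil G S) (y : ℕ → Aˣ) (h0 : ∀ k, y k ∈ hL.V h 0)
    (h1 : ∀ k, y (k + 1) / y k ∈ hL.V h k) : ∃ Y, ∀ k, ∃ m, k ≤ m ∧ Y / y m ∈ hL.V h k := by
  obtain ⟨Y, hY⟩ := h.lim (fun k => (y k).1) fun k => by
    have e := h.anti (by omega : k ≤ 0 + (k + n + 1)) (h.mul (hL.int h (h0 k)) (hL.le (h1 k)))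
    refine (congrArg (· ∈ S k) ?_).mp e
    rw [mul_sub, ← Units.val_mul, mul_div_cancel, mul_one]
  obtain ⟨Y, rfl⟩ := h.unit (x := Y) (by
    simpa using add_mem (hY 1) (h.anti (by omega) (hL.le (h0 1))))
  refine ⟨Y, fun k => ⟨k + n + 1 + n, by omega, hL.ge ?_⟩⟩
  have e := h.mul (hY (k + n + 1 + n)) (hL.int h (inv_mem (h0 (k + n + 1 + n))))
  refine (congrArg (· ∈ S (k + n + 1 + n)) ?_).mp e
  rw [div_eq_mul_inv, Units.val_mul, sub_mul, Units.mul_inv]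

theorem Lat.main (hL : Lat G S n L T) (h : Fil G S) {σ : G} (hσ : ∀ g : G, ∃ i : ℕ, g = σ ^ i)
    {β : Aˣ →* Aˣ} (hβ : ∀ x, (β x).1 = σ • x.1) {l : ℕ} (hl : ∀ x, β^[l] x = x)
    (hN : ∀ x, (Nm β l x).1 = ∏ g : G, g • x.1) :
    (∀ x ∈ hL.V h 0, β x ∈ hL.V h 0) ∧ (∀ x ∈ hL.V h 0, β x = x → ∃ y ∈ hL.V h 0, Nm β l y = x) ∧
      ∀ x ∈ hL.V h 0, Nm β l x = 1 → ∃ y ∈ hL.V h 0, β y / y = x := by
  have s1 : ∀ (g : G) (x : A), g • x - 1 = g • (x - 1) := fun g x => by rw [smul_sub, smul_one]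
  have b1 : ∀ j, ∀ x ∈ hL.V h j, β x ∈ hL.V h j := fun j x hx => by
    rw [hL.mem_V, hβ, s1]
    exact hL.smul σ hx
  have b2 : ∀ j, ∀ x ∈ hL.V h j, (Nm β l x).1 - 1 - ∑ g : G, g • (x.1 - 1) ∈ L (j + 1) :=
    fun j x hx => by
      have e := hL.prod h Finset.univ (x := fun g : G => g • x.1) fun g => by
        rw [s1]
        exact hL.smul g hx
      simpa only [s1, ← hN] using e
  have b3 : ∀ j, ∀ x ∈ hL.V h j, Nm β l x ∈ hL.V h j := fun j x hx => by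
    simpa [hL.mem_V] using add_mem (hL.anti (Nat.le_succ j) (b2 j x hx))
      (sum_mem fun g (_ : g ∈ Finset.univ) => hL.smul g hx)
  have an : Antitone (hL.V h) := fun i j hij x hx => hL.anti hij hx
  have sep : ∀ x, (∀ j, x ∈ hL.V h j) → x = 1 := fun x hx =>
    Units.ext (sub_eq_zero.1 (h.sep _ fun j => h.anti (by omega) (hL.le (hx j))))
  refine ⟨b1 0, fun x hx e => approx _ an sep (hL.cpl h) (Dm β) (Nm β l) b3
    (fun x => div_eq_one.2 (apply_Nm hl x)) (fun j x hx e => ?_) hx (div_eq_one.2 e),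
    fun x hx e => approx _ an sep (hL.cpl h) (Nm β l) (Dm β)
      (fun j x hx => (hL.V h j).div_mem (b1 j x hx) hx)
      (fun x => by rw [Dm_apply, map_div, Nm_apply_self hl, div_self']) (fun j x hx e => ?_) hx e⟩
  · have e1 : σ • (x.1 - 1) = x.1 - 1 := by
      rw [← s1, ← hβ, show β x = x from div_eq_one.1 e]
    have e2 : ∀ g : G, g • (x.1 - 1) = x.1 - 1 := fun g => by
      obtain ⟨i, rfl⟩ := hσ g
      induction i with
      | zero => rw [pow_zero, one_smul]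
      | succ i ih => rw [pow_succ, mul_smul, e1, ih]
    obtain ⟨y, hy, e3⟩ := hL.exists_unit h (hL.map hx)
    refine ⟨y, hy, hL.div_mem h (b3 j y hy) ?_⟩
    have e4 := neg_mem (b2 j y hy)
    have e5 := hL.sum (x.1 - 1)
    simp only [e2] at e5
    rw [e3, add_sub_cancel_left, e5] at e4
    refine (congrArg (· ∈ L (j + 1)) ?_).mp e4
    ring
  · let K : AddSubgroup A := (L j).map (DistribSMul.toAddMonoidHom A σ - AddMonoidHom.id A)
    have k1 : ∀ (g : G), ∀ ν ∈ L j, g • ν - ν ∈ K := fun g ν hν => by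
      obtain ⟨i, rfl⟩ := hσ g
      induction i with
      | zero => rw [pow_zero, one_smul, sub_self]; exact zero_mem _
      | succ i ih =>
        have e1 : σ • σ ^ i • ν - σ ^ i • ν ∈ K := ⟨_, hL.smul _ hν, rfl⟩
        rw [pow_succ', mul_smul]
        simpa using add_mem e1 ih
    obtain ⟨μ, hμ, e1⟩ : ∑ g : G, (g • T (g⁻¹ • (x.1 - 1)) - T (g⁻¹ • (x.1 - 1))) ∈ K :=
      sum_mem fun g _ => k1 g _ (hL.map (hL.smul _ hx))
    have e2 : ∑ g : G, T (g⁻¹ • (x.1 - 1)) ∈ L (j + 1) := by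
      have e3 := hL.map (neg_mem (b2 j x hx))
      rw [e, Units.val_one, sub_self, zero_sub, neg_neg, map_sum] at e3
      rwa [Fintype.sum_equiv (Equiv.inv G) (fun g => T (g⁻¹ • (x.1 - 1)))
        (fun g => T (g • (x.1 - 1))) fun _ => rfl]
    rw [Finset.sum_sub_distrib, hL.sum] at e1
    change σ • μ - μ = _ at e1
    obtain ⟨y, hy, e3⟩ := hL.exists_unit h hμ
    refine ⟨y, hy, ?_⟩
    rw [Dm_apply, div_div_eq_mul_div]
    refine hL.div_mem h (b1 j y hy) ?_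
    have e4 := add_mem e2 (hL.anti (by omega : j + 1 ≤ j + j + 1) (hL.mul h hx hμ))
    refine (congrArg (· ∈ L (j + 1)) ?_).mp e4
    rw [Units.val_mul, hβ, e3, smul_add, smul_one]
    linear_combination e1

end Pool.Agent.Lib.CFT.Loc4Aux
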