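import Pool.Agent.Lib.CFT.Loc3
import Pool.Agent.Lib.CFT.Tr1
import Pool.Agent.Lib.CFT.Loc4a

/-! CFT-Loc4: the Herbrand quotient of the local units. -/

namespace Pool.Agent.Lib.CFT

open scoped TensorProduct
open NumberField
open Pool.Agent.P.MP_9ec3f0_nt.SY

variable {p : ℕ} [Fact p.Prime] {M : Type} [Field M] [NumberField M]


variable {l : ℕ} {σ : Aut M}

namespace Loc4Aux

open Classical in
theorem exists_normal (H : Subgroup (Aut M)) [Fintype H] : ∃ θ θ' : M,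
    ∀ g : H, ∑ k : H, k.1 (g.1 θ * θ') = if g = 1 then 1 else 0 := by
  have : IsGalois (IntermediateField.fixedField H) M := IsGalois.of_fixed_field M H
  let b := IsGalois.normalBasis (IntermediateField.fixedField H) M
  let φ := IntermediateField.subgroupEquivAlgEquiv H
  refine ⟨b 1, b.traceDual 1, fun g => ?_⟩
  have e1 : b (φ g) = g.1 (b 1) := IsGalois.normalBasis_apply (φ g)
  have e2 := trace_eq_sum_automorphisms (K := IntermediateField.fixedField H)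
    (b (φ g) * b.traceDual 1)
  rw [b.trace_mul_traceDual, ← Fintype.sum_equiv φ.toEquiv (fun k : H => k.1 (g.1 (b 1) * b.traceDual 1)) _
    fun k => by rw [e1]; rfl] at e2
  rw [← e2]
  by_cases hg : g = 1
  · simp [hg]
  · simp [hg]

/-- The action of a subgroup on the semi-local algebra. -/
@[reducible] noncomputable def actH (p : ℕ) [Fact p.Prime] (H : Subgroup (Aut M)) :
    MulSemiringAction H (Ap p M) where
  smul g x := lact ℚ_[p] g.1 x
  one_smul x := lact_one _ x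
  mul_smul g k x := lact_mul _ g.1 k.1 x
  smul_zero g := map_zero (lact ℚ_[p] g.1)
  smul_add g := map_add (lact ℚ_[p] g.1)
  smul_one g := map_one (lact ℚ_[p] g.1)
  smul_mul g := map_mul (lact ℚ_[p] g.1)

/-- The filtration by powers of `p`. -/
def SmS (p : ℕ) [Fact p.Prime] (M : Type) [Field M] [NumberField M] (j : ℕ) :
    AddSubgroup (Ap p M) where
  carrier := {x | Sm j x}
  zero_mem' := sm_zero j
  add_mem' := Sm.add
  neg_mem' := Sm.neg

theorem fil (H : Subgroup (Aut M)) : @Fil _ _ H _ (actH p H) (SmS p M) :=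
  @Fil.mk _ _ H _ (actH p H) _ Sm.mul (fun _ _ h _ hx => Sm.mono hx h)
    (sm_zero_iff.2 isIntegral_one) (fun g hx => Sm.lact hx g.1) Sm.inv_sub_one
    (fun h => by
      obtain ⟨u, -, rfl⟩ := exists_unit_of_sm h
      exact u.isUnit) (fun _ h => eq_zero_of_sm h) exists_lim

theorem exists_V (hl : l.Prime) (hσ : σ ^ l = 1) (h1' : σ ≠ 1) : ∃ V : Subgroup (Ap p M)ˣ,
    V ≤ IntU p M ∧ (∃ N, ∀ x : (Ap p M)ˣ, Sm N (x.1 - 1) → x ∈ V) ∧
    (∀ {e : Ap p M} (he : IsIdempotentElem e), lact ℚ_[p] σ e = e → ∀ x ∈ V, pcj he x ∈ V) ∧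
    (∀ x ∈ V, uact ℚ_[p] σ x ∈ V) ∧
    (∀ x ∈ V, uact ℚ_[p] σ x = x → ∃ y ∈ V, Nm (uact ℚ_[p] σ) l y = x) ∧
    ∀ x ∈ V, Nm (uact ℚ_[p] σ) l x = 1 → ∃ y ∈ V, uact ℚ_[p] σ y / y = x := by
  classical
  have := Fact.mk hl
  have ho : orderOf σ = l := orderOf_eq_prime hσ h1'
  have hf : IsOfFinOrder σ := isOfFinOrder_of_finite σ
  let H := Subgroup.zpowers σ
  let _ : Fintype H := Fintype.ofFinite H
  let _ := actH p H
  have ha : ∀ (g : H) (x : Ap p M), g • x = lact ℚ_[p] g.1 x := fun _ _ => rfl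
  let s : H := ⟨σ, Subgroup.mem_zpowers σ⟩
  have hs : ∀ g : H, ∃ i : ℕ, g = s ^ i := fun g =>
    ⟨_, Subtype.ext (pow_finEquivZPowers_symm_apply hf g).symm⟩
  have hc : ∀ g k : H, g * k = k * g := fun g k => by
    obtain ⟨i, rfl⟩ := hs g
    obtain ⟨j, rfl⟩ := hs k
    rw [← pow_add, ← pow_add, add_comm]
  obtain ⟨θ, θ', hθ⟩ := exists_normal H
  obtain ⟨a, h0⟩ := exists_isIntegral_mul (inc ℚ_[p] M θ)
  have hp : ((p : M) ^ a) ≠ 0 := pow_ne_zero _ (Nat.cast_ne_zero.2 (Fact.out : p.Prime).ne_zero)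
  obtain ⟨n, h1⟩ := exists_isIntegral_mul (inc ℚ_[p] M (((p : M) ^ a)⁻¹ * θ'))
  obtain ⟨L, T, hL⟩ := exists_lat (fil (p := p) H) hc (θ := inc ℚ_[p] M ((p : M) ^ a * θ))
    (θ' := inc ℚ_[p] M (((p : M) ^ a)⁻¹ * θ')) (n := n)
    (sm_zero_iff.2 (by rwa [map_mul, map_pow, map_natCast])) (by
      rintro j _ ⟨y, hy, rfl⟩
      exact ⟨_, hy.mul h1, by ring⟩) fun g => by
      have e : ∀ k : H, k • (g • inc ℚ_[p] M ((p : M) ^ a * θ) *
          inc ℚ_[p] M (((p : M) ^ a)⁻¹ * θ')) = inc ℚ_[p] M (k.1 (g.1 θ * θ')) := fun k => by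
        rw [ha, ha, lact_inc, ← map_mul, lact_inc, map_mul g.1, map_pow, map_natCast,
          mul_mul_mul_comm, mul_inv_cancel₀ hp, one_mul]
      simp only [e]
      rw [← map_sum, hθ]
      by_cases hg : g = 1
      · simp only [if_pos hg, map_one]
      · simp only [if_neg hg, map_zero]
  obtain ⟨m1, m2, m3⟩ := hL.main (fil H) hs (β := uact ℚ_[p] σ) (fun _ => rfl) (l := l)
    (fun x => by rw [uact_iterate, hσ, uact_one]) fun x => by
      rw [Nm_apply, Units.coe_prod, ← ho, Finset.prod_range]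
      refine Fintype.prod_equiv (finEquivZPowers hf) _ _ fun i => ?_
      rw [uact_iterate]
      rfl
  refine ⟨hL.V (fil H) 0, fun x hx => mem_IntU_of_sm (Sm.mono (hL.le hx) (by omega)),
    ⟨_, fun x hx => hL.ge hx⟩, fun {e} he hs' x hx => ?_, m1, m2, m3⟩
  have e1 : ∀ g : H, g • e = e := fun g => by
    obtain ⟨i, rfl⟩ := hs g
    induction i with
    | zero => rw [pow_zero, one_smul]
    | succ i ih => rw [pow_succ, mul_smul, ha s, hs', ih]
  have e2 := hL.fix (sm_zero_iff.2 (isIntegral_idem he)) e1 hx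
  rw [hL.mem_V, pcj_val]
  refine (congrArg (· ∈ L 0) ?_).mp e2
  ring

theorem index_ne {V U : Subgroup (Ap p M)ˣ} (hU : U ≤ IntU p M) {N : ℕ}
    (hN : ∀ x : (Ap p M)ˣ, Sm N (x.1 - 1) → x ∈ V) : (V.subgroupOf U).index ≠ 0 := by
  obtain ⟨s, hs⟩ := exists_reps (p := p) (M := M) N
  choose m hm1 hm2 using fun x : U => hs x.1.1 (hU x.2).1
  have : Finite (U ⧸ V.subgroupOf U) := by
    refine Finite.of_injective (fun q => (⟨m q.out, hm1 _⟩ : s)) fun q q' e => ?_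
    rw [← q.out_eq, ← q'.out_eq]
    refine QuotientGroup.eq.2 (hN _ ?_)
    have e1 : m q.out = m q'.out := congrArg Subtype.val e
    have e2 := Sm.mul_left (hU q.out.2).2 ((hm2 q'.out).sub (hm2 q.out))
    rw [e1, sub_sub_sub_cancel_right, mul_sub, Units.inv_mul] at e2
    exact e2
  exact Subgroup.index_ne_zero_of_finite

end Loc4Aux

theorem herbQ_unit (hl : l.Prime) (hσ : σ ^ l = 1) (h1' : σ ≠ 1) {e : Ap p M}
    (he : IsIdempotentElem e) (hs : lact ℚ_[p] σ e = e)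
    (h : ∀ x ∈ Pc e ⊓ IntU p M, uact ℚ_[p] σ x ∈ Pc e ⊓ IntU p M) :
    HerbQ (resS (uact ℚ_[p] σ) (Pc e ⊓ IntU p M) h) l 1 := by
  obtain ⟨V, v1, ⟨N, v2⟩, v3, v4, v5, v6⟩ := Loc4Aux.exists_V (p := p) hl hσ h1'
  have hW : ∀ x ∈ Pc e ⊓ V, uact ℚ_[p] σ x ∈ Pc e ⊓ V := fun x hx =>
    ⟨uact_mem_Pc hs x hx.1, v4 x hx.2⟩
  have hle : Pc e ⊓ V ≤ Pc e ⊓ IntU p M := inf_le_inf_left _ v1
  have hit : ∀ x, (uact ℚ_[p] σ)^[l] x = x := fun x => by rw [uact_iterate, hσ, uact_one]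
  have hp : ∀ x, pcj he (uact ℚ_[p] σ x) = uact ℚ_[p] σ (pcj he x) := fun x =>
    (uact_pcj he hs x).symm
  have hn : ∀ x : ↥(Pc e ⊓ V), (Nm (resS _ _ hW) l x).1 = Nm (uact ℚ_[p] σ) l x.1 := fun x =>
    map_Nm (Pc e ⊓ V).subtype (fun _ => rfl) x
  refine (herbQ_iff (α := resS _ _ hW) (Subgroup.inclusion hle) (fun _ => rfl)
    (fun x => Subtype.ext ((resS_iterate _ _ l x).trans (hit _)))
    (fun x => Subtype.ext ((resS_iterate _ _ l x).trans (hit _))) ?_ ?_).1 ?_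
  · rw [(MonoidHom.ker_eq_bot_iff _).2 (Subgroup.inclusion_injective hle)]
    infer_instance
  · have e1 : (Subgroup.inclusion hle).range = V.subgroupOf (Pc e ⊓ IntU p M) := by
      rw [Subgroup.inclusion_range]
      ext x
      exact ⟨fun hx => hx.2, fun hx => ⟨x.2.1, hx⟩⟩
    rw [e1]
    exact Loc4Aux.index_ne inf_le_right v2
  · have e0 : h0 (resS _ _ hW) l = 1 := h0_eq_one_iff.2 fun x hx => by
      obtain ⟨y, hy, e1⟩ := v5 x.1 x.2.2 (congrArg Subtype.val hx)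
      refine ⟨⟨pcj he y, pcj_mem he y, v3 he hs y hy⟩, Subtype.ext ?_⟩
      rw [hn, ← map_Nm (pcj he) hp, e1, pcj_of_mem he x.2.1]
    have e1 : h1 (resS _ _ hW) l = 1 := h1_eq_one_iff.2 fun x hx => by
      obtain ⟨y, hy, e1⟩ := v6 x.1 x.2.2 ((hn x).symm.trans (congrArg Subtype.val hx))
      refine ⟨⟨pcj he y, pcj_mem he y, v3 he hs y hy⟩, Subtype.ext ?_⟩
      change uact ℚ_[p] σ (pcj he y) / pcj he y = x.1
      rw [← hp, ← map_div, e1, pcj_of_mem he x.2.1]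
    rw [HerbQ, e0, e1]
    simp

end Pool.Agent.Lib.CFT
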