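import Pool.Agent.Lib.CFT.Nrd2
import Pool.Agent.Lib.CFT.Glo3

/-! CFT-Nrd3: reduced norms, global part. -/

namespace Pool.Agent.Lib.CFT

open scoped TensorProduct
open NumberField
open Pool.Agent.P.MP_9ec3f0_nt.SY

namespace Nrd3Aux

theorem Nm3 {A : Type} [CommGroup A] (σ : A →* A) (x : A) : Nm σ 3 x = x * σ x * σ (σ x) := by
  simp only [Nm_apply, Finset.prod_range_succ, Finset.prod_range_zero, one_mul]
  rfl

theorem Nm3_fixed {A : Type} [CommGroup A] {σ : A →* A} {x : A} (h : σ x = x) :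
    Nm σ 3 x = x ^ 3 := by
  rw [Nm3, h, h, pow_three, mul_assoc]

variable {M E : Type} [Field M] [NumberField M] [Field E] [NumberField E]

theorem Nm_umap {κ : Type} [Field κ] [Algebra ℚ κ] {j : E →+* M} {s : Aut M} {t : Aut E}
    (h : ∀ x, s (j x) = j (t x)) (y : (κ ⊗[ℚ] E)ˣ) :
    Nm (uact κ s) 3 (umap κ j y) = umap κ j (Nm (uact κ t) 3 y) := by
  have e : ∀ y, uact κ s (umap κ j y) = umap κ j (uact κ t y) := fun y =>
    Units.ext (lact_lmap h y.1)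
  rw [Nm3, Nm3, e, e, map_mul, map_mul]

theorem lact3 {κ : Type} [CommRing κ] [Algebra ℚ κ] {σ : Aut M} (hσ : σ ^ 3 = 1) (x : κ ⊗[ℚ] M) :
    lact κ σ (lact κ σ (lact κ σ x)) = x := by
  rw [← lact_mul, ← lact_mul, ← pow_three', hσ, lact_one]

theorem incU_fixed {κ : Type} [Field κ] [Algebra ℚ κ] {σ : Aut M} {x : Mˣ} (h : σ x.1 = x.1) :
    uact κ σ (incU κ M x) = incU κ M x :=
  (uact_incU σ x).trans (congrArg _ (Units.ext h))

/-- At infinity a fixed element is a cube of a fixed element. -/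
theorem norm_inf {σ : Aut M} {μ : Mˣ} (hμ : σ μ.1 = μ.1) :
    ∃ y, Nm (uact ℝ σ) 3 y = incU ℝ M μ := by
  obtain ⟨k, _, _, _, hk⟩ := exists_fix (Subgroup.zpowers σ)
  obtain ⟨a, ha⟩ := (hk.zpowers μ.1).1 hμ
  have ha0 : a ≠ 0 := fun h => μ.ne_zero (by rw [← ha, h, map_zero])
  obtain ⟨h1, h2⟩ := index_pow_inf (M := k) Nat.prime_three
  rw [if_neg (by norm_num)] at h2
  have h3 := Subgroup.index_eq_one.1 (le_antisymm h2 (Nat.one_le_iff_ne_zero.2 h1))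
  obtain ⟨c, hc⟩ : incU ℝ k (Units.mk0 a ha0) ∈ (powMonoidHom 3 : (Ai k)ˣ →* (Ai k)ˣ).range :=
    h3 ▸ Subgroup.mem_top _
  refine ⟨umap ℝ (algebraMap k M) c, ?_⟩
  rw [Nm3_fixed (Units.ext (lact_lmap_fixed (fun x => (hk.zpowers _).2 ⟨x, rfl⟩) c.1)), ← map_pow,
    ← powMonoidHom_apply, hc]
  exact Units.ext (congrArg (inc ℝ M) ha)

variable {p : ℕ} [Fact p.Prime]

/-- Convergence in the semi-local algebra. -/
def Tn (u : ℕ → Ap p M) (a : Ap p M) : Prop := ∀ i, ∀ᶠ t in Filter.atTop, Sm i (u t - a)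

theorem sm_mul (c : Ap p M) (i : ℕ) : ∃ j, ∀ u, Sm j u → Sm i (c * u) := by
  obtain ⟨n, hn⟩ := exists_isIntegral_mul c
  refine ⟨n + i, ?_⟩
  rintro u ⟨y, hy, rfl⟩
  exact ⟨_, hn.mul hy, by ring⟩

variable {u v w : ℕ → Ap p M} {a b c : Ap p M}

theorem Tn.const (a : Ap p M) : Tn (fun _ => a) a := fun i =>
  .of_forall fun _ => by rw [sub_self]; exact sm_zero i

theorem Tn.add (h : Tn u a) (h' : Tn v b) : Tn (fun t => u t + v t) (a + b) := fun i =>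
  ((h i).and (h' i)).mono fun t ht => by
    rw [add_sub_add_comm]
    exact ht.1.add ht.2

theorem Tn.sub (h : Tn u a) (h' : Tn v b) : Tn (fun t => u t - v t) (a - b) := fun i =>
  ((h i).and (h' i)).mono fun t ht => by
    rw [sub_sub_sub_comm]
    exact ht.1.sub ht.2

theorem Tn.mul (h : Tn u a) (h' : Tn v b) : Tn (fun t => u t * v t) (a * b) := fun i => by
  obtain ⟨j, hj⟩ := sm_mul a i
  obtain ⟨j', hj'⟩ := sm_mul b i
  filter_upwards [h 0, h' i, h j', h' j] with t h1 h2 h3 h4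
  have e : u t * v t - a * b = (u t - a) * (v t - b) + a * (v t - b) + b * (u t - a) := by ring
  rw [e]
  exact ((Sm.mul_left h1.isIntegral h2).add (hj _ h4)).add (hj' _ h3)

theorem Tn.lact (h : Tn u a) (s : Aut M) :
    Tn (fun t => (lact ℚ_[p] s).toRingEquiv (u t)) ((lact ℚ_[p] s).toRingEquiv a) := fun i =>
  (h i).mono fun t ht => by
    rw [← map_sub]
    exact ht.lact s

theorem Tn.nrdC (h : Tn u a) (h' : Tn v b) (h'' : Tn w c) (s : Aut M) (μ : Ap p M) :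
    Tn (fun t => nrdC (CFT.lact ℚ_[p] s).toRingEquiv μ (u t) (v t) (w t))
      (nrdC (CFT.lact ℚ_[p] s).toRingEquiv μ a b c) := by
  simp only [nrdC_eq]
  exact ((((h.mul (h.lact s)).mul ((h.lact s).lact s)).add ((Tn.const μ).mul
    ((h'.mul (h'.lact s)).mul ((h'.lact s).lact s)))).add ((Tn.const _).mul
      ((h''.mul (h''.lact s)).mul ((h''.lact s).lact s)))).sub ((Tn.const μ).mul
        ((((h.mul (h'.lact s)).mul ((h''.lact s).lact s)).add ((h'.mul (h''.lact s)).mul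
          ((h.lact s).lact s))).add ((h''.mul (h.lact s)).mul ((h'.lact s).lact s))))

theorem exists_seq (S : Finset Nat.Primes) (x : ∀ p : Nat.Primes, Ap p.1 M) :
    ∃ X : ℕ → M, ∀ p ∈ S, Tn (fun t => inc ℚ_[p] M (X t)) (x p) := by
  choose X hX using approx_sm S x
  refine ⟨X, fun p hp i => (Filter.eventually_ge_atTop i).mono fun t ht => ?_⟩
  rw [← neg_sub]
  exact ((hX t p hp).mono ht).neg

/-- After multiplication by a reduced norm, `μ` is a local norm from `M (m ^ (1 / 3))`. -/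
theorem approx {σ : Aut M} (hσ : σ ^ 3 = 1) (h1 : σ ≠ 1) {μ m : Mˣ} (hμ : σ μ.1 = μ.1)
    (hm : σ m.1 = m.1) (S : Finset Nat.Primes) (hS : S.Nonempty) :
    ∃ (x y z : M) (d : Mˣ), d.1 = nrdC σ.toRingEquiv μ.1 x y z ∧ ∀ p ∈ S,
      ∃ (e : Ap p.1 M) (he : IsIdempotentElem e) (a : (Ap p.1 M)ˣ), lact ℚ_[p] σ e = e ∧
        incU ℚ_[p] M μ = Nm (uact ℚ_[p] σ) 3 a * pcj he (incU ℚ_[p] M (m * d)) := by
  choose x y z e he a n h1 h2 h3 using fun p : Nat.Primes =>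
    nrd_local (p := p.1) hσ h1 (incU_fixed hμ) (incU_fixed hm)
  obtain ⟨X, hX⟩ := exists_seq S x
  obtain ⟨Y, hY⟩ := exists_seq S y
  obtain ⟨Z, hZ⟩ := exists_seq S z
  obtain ⟨t, ht⟩ := ((Filter.eventually_all_finset S).2 fun p hp =>
    (((hX p hp).nrdC (hY p hp) (hZ p hp) σ (incU ℚ_[p] M μ).1).mul
      (Tn.const ((n p)⁻¹).1)) 3).exists
  have ht' : ∀ p ∈ S,
      Sm 3 (inc ℚ_[p] M (nrdC σ.toRingEquiv μ.1 (X t) (Y t) (Z t)) * ((n p)⁻¹).1 - 1) := by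
    intro p hp
    have := ht p hp
    rw [← h2 p, Units.mul_inv] at this
    rwa [map_nrdC (ρ' := (lact ℚ_[p] σ).toRingEquiv) (inc ℚ_[p] M) fun _ => rfl]
  have hd : nrdC σ.toRingEquiv μ.1 (X t) (Y t) (Z t) ≠ 0 := fun h => by
    obtain ⟨p, hp⟩ := hS
    obtain ⟨u, -, hu⟩ := exists_unit_of_sm ((ht' p hp).mono (by norm_num : 1 ≤ 3))
    rw [h, map_zero, zero_mul] at hu
    have h0 : (0 : Ap p.1 M) = 1 := isUnit_zero_iff.1 (hu ▸ u.isUnit)
    exact zero_ne_one (inc_injective ℚ_[p] (by rw [map_zero, map_one, h0] : inc _ M 0 = inc _ M 1))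
  refine ⟨X t, Y t, Z t, Units.mk0 _ hd, rfl, fun p hp => ?_⟩
  have hf : σ (Units.mk0 _ hd).1 = (Units.mk0 _ hd).1 :=
    nrdC_fixed (ρ := σ.toRingEquiv) (fun x => by
      change (σ * σ * σ) x = x
      rw [← pow_three', hσ, AlgEquiv.one_apply]) hμ _ _ _
  have hn : uact ℚ_[p] σ (n p) = n p := Units.ext (by
    rw [uact_val, h2 p]
    exact nrdC_fixed (ρ := (lact ℚ_[p] σ).toRingEquiv) (lact3 hσ)
      (congrArg Units.val (incU_fixed hμ)) _ _ _)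
  obtain ⟨c, -, hc, hc'⟩ := exists_pow_of_sm Nat.prime_three
    (x := incU ℚ_[p] M (Units.mk0 _ hd) * (n p)⁻¹) (ht' p hp)
  have hc2 := hc' σ (by rw [map_mul, map_inv, hn, incU_fixed hf])
  refine ⟨e p, he p, a p * pcj (he p) c⁻¹, h1 p, (h3 p).trans ?_⟩
  rw [map_mul (Nm _ _), Nm3_fixed (x := pcj (he p) c⁻¹) (by
    rw [uact_pcj _ (h1 p), map_inv, hc2]), ← map_pow, mul_assoc, ← map_mul (pcj _), inv_pow, hc,
    map_mul (incU _ _)]
  congr 2
  rw [mul_inv_rev, inv_inv, mul_comm (incU ℚ_[p] M m) (incU _ _ _), mul_assoc, inv_mul_cancel_left,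
    mul_comm]

theorem cube {K : Type} [Field K] {ρ : K ≃+* K} (h3 : ∀ x, ρ (ρ (ρ x)) = x) {θ : K} (h0 : θ ≠ 0)
    (h : ρ (θ ^ 3) = θ ^ 3) : θ * ρ θ * ρ (ρ θ) = θ ^ 3 := by
  obtain ⟨ζ, hζ⟩ : ∃ ζ, ρ θ = ζ * θ := ⟨ρ θ / θ, (div_mul_cancel₀ _ h0).symm⟩
  have h1 : ζ ^ 3 = 1 := by
    rw [map_pow, hζ, mul_pow] at h
    exact (mul_eq_right₀ (pow_ne_zero 3 h0)).1 h
  have h2 : ρ ζ = ζ := by
    by_cases e : ζ = 1
    · rw [e, map_one]
    have a1 : ζ ^ 2 + ζ + 1 = 0 := mul_left_cancel₀ (sub_ne_zero.2 e) (by linear_combination h1)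
    have a2 := congrArg ρ a1
    rw [map_add, map_add, map_pow, map_one, map_zero] at a2
    rcases mul_eq_zero.1 (show (ρ ζ - ζ) * (ρ ζ - ζ ^ 2) = 0 by
      linear_combination a2 - ρ ζ * a1 + h1) with a3 | a3
    · exact sub_eq_zero.1 a3
    · have a4 := sub_eq_zero.1 a3
      have a5 : ρ (ρ ζ) = ζ := by
        rw [a4, map_pow, a4]
        linear_combination ζ * h1
      have a6 := h3 ζ
      rwa [a5] at a6
  rw [hζ, map_mul, h2, hζ]
  linear_combination θ ^ 3 * h1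

end Nrd3Aux

open Nrd3Aux in
theorem nrd_onto {K : Type} [Field K] [NumberField K] (ρ : K ≃+* K)
    (h3 : ∀ x, ρ (ρ (ρ x)) = x) (h1' : ρ ≠ RingEquiv.refl K) {μ m : K}
    (hμ : ρ μ = μ) (hm : ρ m = m) (hμ0 : μ ≠ 0) : ∃ x y z : K, nrdC ρ μ x y z = m := by
  classical
  have h00 : ∀ x, nrdC ρ μ x 0 0 = x * ρ x * ρ (ρ x) := fun x => by simp [nrdC_eq]
  rcases eq_or_ne m 0 with rfl | hm0
  · exact ⟨0, 0, 0, by rw [h00, zero_mul, zero_mul]⟩
  have key : ∀ {L : Type} [Field L] [NumberField L] {τ : L ≃+* L}, (∀ x, τ (τ (τ x)) = x) →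
      (τ.toRatAlgEquiv : Aut L) ^ 3 = 1 := fun h => AlgEquiv.ext fun x => by
    rw [pow_three']
    exact h x
  let σ : Aut K := ρ.toRatAlgEquiv
  have hσ : σ ^ 3 = 1 := key h3
  have hσ1 : σ ≠ 1 := fun h => h1' (RingEquiv.ext fun x => AlgEquiv.congr_fun h x)
  let μ' := Units.mk0 μ hμ0
  have hfin := (finite_not_unram K).union (prin K μ').2
  obtain ⟨x, y, z, d, hd, H⟩ := approx hσ hσ1 (μ := μ') (m := Units.mk0 m hm0) hμ hm
    (insert ⟨2, Nat.prime_two⟩ hfin.toFinset) (Finset.insert_nonempty _ _)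
  replace hd : d.1 = nrdC ρ μ x y z := hd
  have hdf : ρ d.1 = d.1 := by rw [hd, nrdC_fixed h3 hμ]
  have hmd : ρ (m * d.1) = m * d.1 := by rw [map_mul, hm, hdf]
  have hmd0 : m * d.1 ≠ 0 := mul_ne_zero hm0 d.ne_zero
  have main : ∃ a b c, nrdC ρ μ a b c = m * d.1 := by
    by_cases hn : ∃ θ : K, θ ^ 3 = m * d.1
    · obtain ⟨θ, hθ⟩ := hn
      refine ⟨θ, 0, 0, ?_⟩
      rw [h00, cube h3 (fun h => hmd0 (by rw [← hθ, h, zero_pow three_ne_zero])) (hθ ▸ hmd), hθ]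
    obtain ⟨L, _, _, _, τ, θ, t3, tρ, hr, hθ, hθ'⟩ := exists_cubic_ext h3 hmd hn
    have hj := (algebraMap K L).injective
    have hθ0 : θ ≠ 0 := fun h => hmd0 (hj (by rw [← hθ, h, zero_pow three_ne_zero, map_zero]))
    let s : Aut L := τ.toRatAlgEquiv
    have hs : ∀ x, s (algebraMap K L x) = algebraMap K L (σ x) := tρ
    have hs1 : s ≠ 1 := fun h => hσ1 (AlgEquiv.ext fun x => hj (by rw [← hs, h]; rfl))
    refine (hasse_norm (σ := s) Nat.prime_three (key t3) hs1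
      (Units.map (algebraMap K L).toMonoidHom μ') (fun p => ?_) ?_).elim fun v hv => ?_
    rotate_right
    · refine nrd_of_norm h3 h1' hμ hμ0 hmd t3 tρ hr hθ hθ' (fun x hx => hn ⟨x, hj ?_⟩) (y := v.1) ?_
      · rw [map_pow, hx, hθ]
      · rw [Nm3] at hv
        exact congrArg Units.val hv
    · by_cases hp : p ∈ insert ⟨2, Nat.prime_two⟩ hfin.toFinset
      · obtain ⟨e, he, a, e1, e2⟩ := H p hp
        have he' : IsIdempotentElem (lmap ℚ_[p] (algebraMap K L) e) := he.map _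
        have e3 : lact ℚ_[p] s (lmap ℚ_[p] (algebraMap K L) e) = lmap ℚ_[p] (algebraMap K L) e := by
          rw [lact_lmap hs, e1]
        refine ⟨umap ℚ_[p] (algebraMap K L) a * pcj he' (incU ℚ_[p] L (Units.mk0 θ hθ0)), ?_⟩
        rw [map_mul, Nm_umap hs, Nm3_fixed (x := pcj he' _) (by
          rw [uact_pcj _ e3, incU_fixed (x := Units.mk0 θ hθ0) hθ']), ← map_pow, ← map_pow]
        refine Eq.trans ?_ (congrArg (umap ℚ_[p] (algebraMap K L)) e2).symm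
        rw [map_mul]
        congr 1
        refine Units.ext ?_
        rw [umap_val, pcj_val, pcj_val, map_add, map_mul, map_sub, map_one]
        congr 2
        exact congrArg (inc ℚ_[p] L) hθ
      · rw [Finset.mem_insert, not_or, Set.Finite.mem_toFinset, Set.mem_union, not_or] at hp
        obtain ⟨v, hv⟩ := exists_norm_of_unr (p := p.1) Nat.prime_three hσ hσ1
          (incU_fixed (x := μ') hμ) fun w hw _ => ⟨⟨(p.1 : K), map_natCast σ _,
            not_not.1 hp.2.1 w hw⟩, mem_IntU_iff.1 (not_not.1 hp.2.2) w hw⟩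
        exact ⟨umap _ (algebraMap K L) v, by rw [Nm_umap hs, hv]; rfl⟩
    · obtain ⟨v, hv⟩ := norm_inf (σ := σ) (μ := μ') hμ
      exact ⟨umap _ (algebraMap K L) v, by rw [Nm_umap hs, hv]; rfl⟩
  obtain ⟨a, b, c, e⟩ := main
  obtain ⟨a₁, b₁, c₁, e₁⟩ := nrdC_mul h3 hμ a b c x y z
  obtain ⟨a₂, b₂, c₂, e₂⟩ := nrdC_mul h3 hμ a₁ b₁ c₁ x y z
  obtain ⟨a₃, b₃, c₃, e₃⟩ := nrdC_mul h3 hμ a₂ b₂ c₂ d.1⁻¹ 0 0
  refine ⟨a₃, b₃, c₃, ?_⟩
  rw [e₃, e₂, e₁, e, h00, map_inv₀, hdf, map_inv₀, hdf, ← hd]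
  field_simp

end Pool.Agent.Lib.CFT
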