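import Pool.Agent.Lib.CFT.Rec3
import Pool.Agent.Lib.CFT.Coh6
import Pool.Agent.Lib.CFT.Nrd3

/-!
The results of global class field theory used elsewhere.
-/

namespace Pool.Agent.Lib.CFT

variable {M : Type} [Field M] [NumberField M]

/-- The first cohomology of the idele class group vanishes. -/
theorem h1_cl (H : Subgroup (Aut M)) (c : H → Cl M)
    (hc : ∀ s t : H, c (s * t) = c s * (s : Aut M) • c t) :
    ∃ z : Cl M, ∀ s : H, c s = (s : Aut M) • z * z⁻¹ := by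
  obtain ⟨z, hz⟩ := ((primeAx M).subgroup H).cob1 ⊤ c fun s _ t _ => hc s t
  exact ⟨z, fun s => hz s trivial⟩

/-- A consequence of the theorem of Tate and Nakayama. -/
theorem tate_nakayama [IsGalois ℚ M] (H : Subgroup (Aut M)) [Fintype H] {X X' : Type}
    [AddCommGroup X] [Module.Free ℤ X] [Module.Finite ℤ X] [DistribMulAction H X] [AddCommGroup X']
    [DistribMulAction H X'] (f : X' →+ X)
    (hf : ∀ (s : H) x, f (s • x) = s • f x) (n : ℕ)
    (hn : ∀ m : X →+ ℤ, (∀ x, ∑ s : H, m (s • x) = 0) →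
      ∃ μ : H → X' →+ ℤ, ∀ x, (n : ℤ) * m (f x) = ∑ s : H, (μ s (s⁻¹ • x) - μ s x))
    (z : H → X →+ Additive (Cl M))
    (hz : ∀ (s t : H) x, (z (s * t) x).toMul = (z s x).toMul * (s : Aut M) • (z t (s⁻¹ • x)).toMul) :
    ∃ θ : X' →+ Additive (Cl M), ∀ (s : H) x,
      (z s (f x)).toMul ^ n = (s : Aut M) • (θ (s⁻¹ • x)).toMul * (θ x).toMul⁻¹ := by
  obtain ⟨u, hu⟩ := exists_fund M
  have hH : Fund H u := hu.mono le_top
  refine tate_nakayama_abs ((primeAx M).subgroup H) (u := fun s t => u s t)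
    ⟨fun s _ t _ r _ => hH.1 s s.2 t t.2 r r.2, fun j ⟨w, hw⟩ => ?_⟩ f hf n hn z hz
  rw [Subgroup.card_top]
  classical
  refine hH.2 j ⟨fun s => if h : s ∈ H then w ⟨s, h⟩ else 1, fun s hs t ht => ?_⟩
  simp only [hs, ht, mul_mem hs ht, dif_pos]
  exact hw ⟨s, hs⟩ trivial ⟨t, ht⟩ trivial

/-- The reduced norm of a cyclic cubic algebra over a number field is onto. -/
theorem nrd_surjective {K : Type} [Field K] [NumberField K] (ρ : K ≃+* K)
    (h3 : ∀ x, ρ (ρ (ρ x)) = x) (h1 : ρ ≠ RingEquiv.refl K) {μ m : K}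
    (hμ : ρ μ = μ) (hm : ρ m = m) (hμ0 : μ ≠ 0) : ∃ x y z : K, nrdC ρ μ x y z = m :=
  nrd_onto ρ h3 h1 hμ hm hμ0

end Pool.Agent.Lib.CFT
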