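import Pool.Agent.Lib.CFT.Defs

/-! CFT-Nrd1: reduced norms of cyclic cubic algebras, algebraic part. -/

namespace Pool.Agent.Lib.CFT

section Ring

variable {K : Type} [CommRing K] {ρ : K ≃+* K} {μ : K}

theorem nrdC_mul (h3 : ∀ x, ρ (ρ (ρ x)) = x) (hμ : ρ μ = μ) (x y z x' y' z' : K) :
    ∃ a b c, nrdC ρ μ a b c = nrdC ρ μ x y z * nrdC ρ μ x' y' z' := by
  refine ⟨x * x' + y * (μ * ρ z') + z * (μ * ρ (ρ y')), x * y' + y * ρ x' + z * (μ * ρ (ρ z')),
    x * z' + y * ρ y' + z * ρ (ρ x'), ?_⟩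
  unfold nrdC
  rw [← Matrix.det_mul, Matrix.mul_fin_three]
  simp only [map_add, map_mul, h3, hμ]
  refine congrArg Matrix.det ?_
  ext i j
  fin_cases i <;> fin_cases j <;> simp <;> ring

theorem nrdC_eq (x y z : K) : nrdC ρ μ x y z = x * ρ x * ρ (ρ x) + μ * (y * ρ y * ρ (ρ y)) +
    μ ^ 2 * (z * ρ z * ρ (ρ z)) -
    μ * (x * ρ y * ρ (ρ z) + y * ρ z * ρ (ρ x) + z * ρ x * ρ (ρ y)) := by
  simp only [nrdC, Matrix.det_fin_three, Matrix.of_apply, Matrix.cons_val', Matrix.cons_val_zero,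
    Matrix.cons_val_one, Matrix.cons_val_two, Matrix.cons_val_fin_one, Matrix.head_cons,
    Matrix.tail_cons, Matrix.head_fin_const]
  ring

theorem nrdC_fixed (h3 : ∀ x, ρ (ρ (ρ x)) = x) (hμ : ρ μ = μ) (x y z : K) :
    ρ (nrdC ρ μ x y z) = nrdC ρ μ x y z := by
  simp only [nrdC_eq, map_add, map_sub, map_mul, map_pow, h3, hμ]
  ring

theorem map_nrdC {K' : Type} [CommRing K'] {ρ' : K' ≃+* K'} (f : K →+* K')
    (hf : ∀ x, f (ρ x) = ρ' (f x)) (x y z : K) :
    f (nrdC ρ μ x y z) = nrdC ρ' (f μ) (f x) (f y) (f z) := by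
  simp only [nrdC_eq, map_add, map_sub, map_mul, map_pow, hf]

end Ring

variable {K : Type} [Field K] [CharZero K] {ρ : K ≃+* K} {μ m : K}

namespace Nrd1Aux

variable {W : Type} [AddCommGroup W] [Module K W]

omit [CharZero K] in
theorem det_eq (hd : Module.finrank K W = 3) {b : Fin 3 → W} (hb : LinearIndependent K b)
    (T : W →ₗ[K] W) (A : Matrix (Fin 3) (Fin 3) K) (hA : ∀ i, T (b i) = ∑ j, A i j • b j) :
    LinearMap.det T = A.det := by
  let B := basisOfLinearIndependentOfCardEqFinrank hb (by simp [hd])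
  have hB : ∀ i, B i = b i := fun i => by simp [B]
  rw [← LinearMap.det_toMatrix B, ← Matrix.det_transpose A]
  refine congrArg Matrix.det ?_
  ext i j
  rw [LinearMap.toMatrix_apply, hB, hA, Matrix.transpose_apply]
  simp only [← hB]
  exact congrFun (B.repr_sum_self (A j)) i

omit [CharZero K] in
theorem li_three {u v w : W} (h : ∀ a b c : K, a • u + b • v + c • w = 0 → a = 0 ∧ b = 0 ∧ c = 0) :
    LinearIndependent K ![u, v, w] := by
  refine Fintype.linearIndependent_iff.2 fun g hg i => ?_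
  obtain ⟨h0, h1, h2⟩ := h (g 0) (g 1) (g 2) (by simpa [Fin.sum_univ_three] using hg)
  fin_cases i <;> assumption

omit [CharZero K] in
theorem exists_nrd (hμ : ρ μ = μ) (hd : Module.finrank K W = 3) (Φ : W →+ W)
    (hΦ : ∀ (c : K) (w : W), Φ (c • w) = ρ c • Φ w) (hΦ3 : ∀ w, Φ (Φ (Φ w)) = μ • w)
    (T : W →ₗ[K] W) (hT : ∀ w, T (Φ w) = Φ (T w)) {v : W}
    (hv : LinearIndependent K ![v, Φ v, Φ (Φ v)]) : ∃ a b c, nrdC ρ μ a b c = LinearMap.det T := by
  have hm : T v ∈ Submodule.span K (Set.range ![v, Φ v, Φ (Φ v)]) := by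
    rw [hv.span_eq_top_of_card_eq_finrank (by simp [hd])]
    trivial
  obtain ⟨g, hg⟩ := (Submodule.mem_span_range_iff_exists_fun K).1 hm
  have h0 : T v = g 0 • v + g 1 • Φ v + g 2 • Φ (Φ v) := by
    simpa [Fin.sum_univ_three] using hg.symm
  have h1 : T (Φ v) = (μ * ρ (g 2)) • v + ρ (g 0) • Φ v + ρ (g 1) • Φ (Φ v) := by
    rw [hT, h0]
    simp only [map_add, hΦ, hΦ3]
    module
  have h2 : T (Φ (Φ v)) =
      (μ * ρ (ρ (g 1))) • v + (μ * ρ (ρ (g 2))) • Φ v + ρ (ρ (g 0)) • Φ (Φ v) := by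
    rw [hT, h1]
    simp only [map_add, hΦ, hΦ3, map_mul, hμ]
    module
  refine ⟨g 0, g 1, g 2, (det_eq hd hv T _ fun i => ?_).symm⟩
  fin_cases i <;> simp [Fin.sum_univ_three, h0, h1, h2]

end Nrd1Aux

theorem nrd_of_split (h3 : ∀ x, ρ (ρ (ρ x)) = x) (h1' : ρ ≠ RingEquiv.refl K) {y : K} (hy : y ≠ 0)
    (hμ : y * ρ y * ρ (ρ y) = μ) (hm : ρ m = m) : ∃ a b c, nrdC ρ μ a b c = m := by
  obtain ⟨t, ht⟩ : ∃ t, ρ t ≠ t := by
    by_contra h
    exact h1' (RingEquiv.ext fun x => by simpa using not_exists.1 h x)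
  have h01 : t - ρ t ≠ 0 := sub_ne_zero.2 ht.symm
  have h12 : ρ t - ρ (ρ t) ≠ 0 := sub_ne_zero.2 fun h => ht (ρ.injective h).symm
  have h02 : t - ρ (ρ t) ≠ 0 := sub_ne_zero.2 fun h => ht (by rw [congrArg ρ h, h3])
  have hy' : ρ y ≠ 0 := by simpa using hy
  have hμ' : ρ μ = μ := by
    rw [← hμ, map_mul, map_mul, h3]
    ring
  let Φ : (Fin 3 → K) →+ Fin 3 → K :=
    { toFun := fun w i => y * ρ (w i)
      map_zero' := by ext; simp
      map_add' := fun _ _ => by ext; simp [mul_add] }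
  have hΦ : ∀ w i, Φ w i = y * ρ (w i) := fun _ _ => rfl
  have key := Nrd1Aux.exists_nrd (W := Fin 3 → K) hμ' (by simp) Φ
    (fun c w => by ext i; simp only [hΦ, Pi.smul_apply, smul_eq_mul, map_mul]; ring)
    (fun w => by ext i; simp only [hΦ, Pi.smul_apply, smul_eq_mul, map_mul, h3, ← hμ]; ring)
    (Matrix.toLin' (Matrix.diagonal ![m, 1, 1]))
    (fun w => by
      ext i
      simp only [hΦ, Matrix.toLin'_apply, Matrix.mulVec_diagonal, map_mul]
      fin_cases i <;> simp [hm]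
      ring) (v := ![1, t, t ^ 2]) (Nrd1Aux.li_three fun a b c h => by
      have e0 : a * 1 + b * (y * ρ 1) + c * (y * ρ (y * ρ 1)) = 0 := congrFun h 0
      have e1 : a * t + b * (y * ρ t) + c * (y * ρ (y * ρ t)) = 0 := congrFun h 1
      have e2 : a * t ^ 2 + b * (y * ρ (t ^ 2)) + c * (y * ρ (y * ρ (t ^ 2))) = 0 := congrFun h 2
      simp only [map_mul, map_one, map_pow] at e0 e1 e2
      have a0 : a * ((t - ρ t) * (t - ρ (ρ t))) = 0 := by
        linear_combination e2 - (ρ t + ρ (ρ t)) * e1 + ρ t * ρ (ρ t) * e0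
      have b0 : b * (y * ((t - ρ t) * (ρ t - ρ (ρ t)))) = 0 := by
        linear_combination -e2 + (t + ρ (ρ t)) * e1 - t * ρ (ρ t) * e0
      have c0 : c * (y * ρ y * ((t - ρ (ρ t)) * (ρ t - ρ (ρ t)))) = 0 := by
        linear_combination e2 - (t + ρ t) * e1 + t * ρ t * e0
      exact ⟨(mul_eq_zero.1 a0).resolve_right (mul_ne_zero h01 h02),
        (mul_eq_zero.1 b0).resolve_right (mul_ne_zero hy (mul_ne_zero h01 h12)),
        (mul_eq_zero.1 c0).resolve_right (mul_ne_zero (mul_ne_zero hy hy') (mul_ne_zero h02 h12))⟩)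
  simpa [Fin.prod_univ_three] using key

theorem nrd_of_norm (h3 : ∀ x, ρ (ρ (ρ x)) = x) (h1' : ρ ≠ RingEquiv.refl K) (hμ : ρ μ = μ)
    (hμ0 : μ ≠ 0) (hm : ρ m = m) {K' : Type} [Field K'] [Algebra K K'] {ρ' : K' ≃+* K'}
    (h3' : ∀ x, ρ' (ρ' (ρ' x)) = x) (hρ : ∀ x, ρ' (algebraMap K K' x) = algebraMap K K' (ρ x))
    (hd : Module.finrank K K' = 3) {θ : K'} (hθ : θ ^ 3 = algebraMap K K' m) (hθ' : ρ' θ = θ)
    (hθ'' : ∀ x, algebraMap K K' x ≠ θ) {y : K'}
    (hy : y * ρ' y * ρ' (ρ' y) = algebraMap K K' μ) : ∃ a b c, nrdC ρ μ a b c = m := by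
  by_cases hn : ∃ s : K, s * ρ s * ρ (ρ s) = μ
  · obtain ⟨s, hs⟩ := hn
    exact nrd_of_split h3 h1' (fun h => hμ0 (by rw [← hs, h, zero_mul, zero_mul])) hs hm
  let Φ : K' →+ K' :=
    { toFun := fun w => y * ρ' w
      map_zero' := by simp
      map_add' := fun _ _ => by simp [mul_add] }
  have hΦ0 : ∀ w, Φ w = y * ρ' w := fun _ => rfl
  have hΦ : ∀ (c : K) (w : K'), Φ (c • w) = ρ c • Φ w := fun c w => by
    simp only [hΦ0, Algebra.smul_def, map_mul, hρ]
    ring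
  have hΦ3 : ∀ w, Φ (Φ (Φ w)) = μ • w := fun w => by
    simp only [hΦ0, Algebra.smul_def, map_mul, h3', ← hy]
    ring
  have one : ∀ {a b : K}, a • (1 : K') = b • 1 → a = b := fun h =>
    smul_left_injective K (one_ne_zero' K') h
  have two : ∀ a b : K, a • (1 : K') + b • Φ 1 = 0 → a = 0 ∧ b = 0 := by
    intro a b h
    by_cases hb : b = 0
    · rw [hb, zero_smul, add_zero] at h
      exact ⟨by simpa using h, hb⟩
    · have e : Φ 1 = (-a / b) • 1 := by
        rw [div_eq_inv_mul, mul_smul, eq_inv_smul_iff₀ hb, neg_smul]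
        exact eq_neg_of_add_eq_zero_right h
      refine absurd ⟨-a / b, one ?_⟩ hn
      rw [← hΦ3, e, hΦ, e, hΦ, hΦ, e]
      module
  have hv : LinearIndependent K ![1, Φ 1, Φ (Φ 1)] := Nrd1Aux.li_three fun a b c h => by
    by_cases hc : c = 0
    · rw [hc, zero_smul, add_zero] at h
      exact ⟨(two a b h).1, (two a b h).2, hc⟩
    · obtain ⟨s, t, e⟩ : ∃ s t : K, Φ (Φ 1) = s • (1 : K') + t • Φ 1 := ⟨-a / c, -b / c, by
        rw [div_eq_inv_mul, div_eq_inv_mul, mul_smul, mul_smul, ← smul_add, eq_inv_smul_iff₀ hc,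
          neg_smul, neg_smul, ← neg_add]
        exact eq_neg_of_add_eq_zero_right h⟩
      have e3 := hΦ3 1
      rw [e, map_add, hΦ, hΦ, e] at e3
      obtain ⟨e4, e5⟩ := two (ρ t * s - μ) (ρ s + ρ t * t) (by
        rw [← sub_eq_zero.2 e3]
        module)
      have e6 := congrArg (fun x => ρ (ρ x)) e5
      simp only [map_add, map_mul, h3, map_zero] at e6
      refine absurd ⟨-t, ?_⟩ hn
      simp only [map_neg]
      linear_combination e4 - ρ t * e6
  have fin : FiniteDimensional K K' := Module.finite_of_finrank_eq_succ hd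
  have hi : IsIntegral K θ := Algebra.IsIntegral.isIntegral θ
  have hdeg : (minpoly K θ).natDegree = 3 := by
    have h := minpoly.degree_dvd hi
    rw [hd] at h
    refine ((Nat.dvd_prime Nat.prime_three).1 h).resolve_left fun h1 => ?_
    obtain ⟨x, hx⟩ := minpoly.natDegree_eq_one_iff.1 h1
    exact hθ'' x hx
  have hp : LinearIndependent K fun i : Fin 3 => θ ^ (i : ℕ) := by
    have := linearIndependent_pow (K := K) θ
    rwa [hdeg] at this
  have hdet := Nrd1Aux.det_eq hd hp (LinearMap.mulLeft K θ) !![0, 1, 0; 0, 0, 1; m, 0, 0]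
    fun i => by
      fin_cases i <;> simp [Fin.sum_univ_three]
      · ring
      · rw [Algebra.smul_def, ← hθ]
        ring
  obtain ⟨a, b, c, h⟩ := Nrd1Aux.exists_nrd hμ hd Φ hΦ hΦ3 (LinearMap.mulLeft K θ) (fun w => by
    simp only [hΦ0, LinearMap.mulLeft_apply, map_mul, hθ']
    ring) hv
  exact ⟨a, b, c, by rw [h, hdet]; simp [Matrix.det_fin_three]⟩

open Polynomial in
theorem exists_cubic_ext {K : Type} [Field K] [NumberField K] {ρ : K ≃+* K} {m : K}
    (h3 : ∀ x, ρ (ρ (ρ x)) = x) (hm : ρ m = m) (hn : ¬ ∃ x : K, x ^ 3 = m) :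
    ∃ (K' : Type) (_ : Field K') (_ : NumberField K') (_ : Algebra K K') (ρ' : K' ≃+* K') (θ : K'),
      (∀ x, ρ' (ρ' (ρ' x)) = x) ∧ (∀ x, ρ' (algebraMap K K' x) = algebraMap K K' (ρ x)) ∧
      Module.finrank K K' = 3 ∧ θ ^ 3 = algebraMap K K' m ∧ ρ' θ = θ := by
  have hi : Irreducible (X ^ 3 - C m : K[X]) :=
    X_pow_sub_C_irreducible_of_prime Nat.prime_three (not_exists.1 hn)
  have : Fact (Irreducible (X ^ 3 - C m : K[X])) := ⟨hi⟩
  let f : K[X] := X ^ 3 - C m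
  have hr : AdjoinRoot.root f ^ 3 = AdjoinRoot.of f m := root_X_pow_sub_C_pow 3 m
  have : Module.Finite K (AdjoinRoot f) := (AdjoinRoot.powerBasis hi.ne_zero).finite
  let r : AdjoinRoot f →+* AdjoinRoot f :=
    AdjoinRoot.lift ((AdjoinRoot.of f).comp ρ.toRingHom) (AdjoinRoot.root f) (by
      simp [f, eval₂_sub, eval₂_pow, hm, ← hr])
  have r1 : r (AdjoinRoot.root f) = AdjoinRoot.root f := AdjoinRoot.lift_root _
  have r2 : ∀ x, r (AdjoinRoot.of f x) = AdjoinRoot.of f (ρ x) := fun x => AdjoinRoot.lift_of _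
  have r3 : r.comp (r.comp r) = RingHom.id _ :=
    AdjoinRoot.ringHom_ext (RingHom.ext fun x => by simp [r2, h3]) (by simp [r1])
  refine ⟨AdjoinRoot f, inferInstance, NumberField.of_module_finite K _, inferInstance,
    RingEquiv.ofRingHom r (r.comp r) r3 r3, AdjoinRoot.root f, RingHom.congr_fun r3, r2, ?_, hr, r1⟩
  rw [(AdjoinRoot.powerBasis hi.ne_zero).finrank, AdjoinRoot.powerBasis_dim,
    natDegree_X_pow_sub_C]

end Pool.Agent.Lib.CFT
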