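import Pool.Agent.Lib.CFT.Nrd1
import Pool.Agent.Lib.CFT.Loc6

/-! CFT-Nrd2: reduced norms, local part. -/

namespace Pool.Agent.Lib.CFT

open scoped TensorProduct
open NumberField
open Pool.Agent.P.MP_9ec3f0_nt.SY

variable {p : ℕ} [Fact p.Prime] {M : Type} [Field M] [NumberField M]

namespace Nrd2Aux

theorem grp {A : Type} [CommGroup A] {α : A →* A} (h : h0 α 3 = 1 ∨ h0 α 3 = 3) {u v : A}
    (hu : α u = u) (hv : α v = v) :
    ∃ (a : A) (j : ℕ), j < 3 ∧ (u = Nm α 3 a ∨ u = Nm α 3 a * (v * u ^ j)) := by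
  by_cases h1 : ∃ a, Nm α 3 a = u
  · obtain ⟨a, ha⟩ := h1
    exact ⟨a, 0, by norm_num, Or.inl ha.symm⟩
  have h3 : h0 α 3 = 3 := h.resolve_left fun h => h1 (h0_eq_one_iff.1 h u hu)
  have k : ∀ {x : A}, α x = x → x ∈ (Dm α).ker := fun hx => by
    rw [MonoidHom.mem_ker, Dm_apply, hx, div_self']
  have hc : Nat.card ((Dm α).ker ⧸ (Nm α 3).range.subgroupOf (Dm α).ker) = 3 := h3
  have : Fact (Nat.Prime 3) := ⟨Nat.prime_three⟩
  have hne : (QuotientGroup.mk ⟨u, k hu⟩ :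
      (Dm α).ker ⧸ (Nm α 3).range.subgroupOf (Dm α).ker) ≠ 1 := fun e =>
    h1 ((QuotientGroup.eq_one_iff _).1 e)
  obtain ⟨t, ht⟩ := mem_powers_of_prime_card hc hne
    (g' := QuotientGroup.mk (⟨u, k hu⟩ / ⟨v, k hv⟩))
  beta_reduce at ht
  rw [← pow_mod_natCard, hc, ← QuotientGroup.mk_pow, QuotientGroup.eq] at ht
  obtain ⟨a, ha⟩ := ht
  refine ⟨a, t % 3, Nat.mod_lt _ (by norm_num), Or.inr ?_⟩
  have ha' : Nm α 3 a = (u ^ (t % 3))⁻¹ * (u / v) := ha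
  rw [ha', mul_comm v, mul_mul_mul_comm, inv_mul_cancel, one_mul, div_mul_cancel]

theorem glue {A ι : Type} [CommRing A] [Fintype ι] {e : ι → A}
    (he : CompleteOrthogonalIdempotents e) {ρ : A ≃+* A} (hρ : ∀ i, ρ (e i) = e i)
    (N : Aˣ →* Aˣ) {μ m : Aˣ}
    (h : ∀ i, ∃ (a : Aˣ) (j : ℕ), j < 3 ∧ (pcj (he.idem i) μ = N a ∨
      pcj (he.idem i) μ = N a * (pcj (he.idem i) m * pcj (he.idem i) μ ^ j))) :
    ∃ (x y z f : A) (hf : IsIdempotentElem f) (a n : Aˣ), ρ f = f ∧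
      n.1 = nrdC ρ μ.1 x y z ∧ μ = N a * pcj hf (m * n) := by
  classical
  choose a j hj h using h
  have ext : ∀ {u v : A}, (∀ i, e i * u = e i * v) → u = v := fun {u v} huv => by
    rw [← one_mul u, ← one_mul v, ← he.complete, Finset.sum_mul, Finset.sum_mul]
    exact Finset.sum_congr rfl fun i _ => huv i
  obtain ⟨E, hE⟩ : ∃ E : (ι → Prop) → A, ∀ P, IsIdempotentElem (E P) ∧ ρ (E P) = E P ∧
      (∀ i, P i → e i * E P = e i) ∧ ∀ i, ¬ P i → e i * E P = 0 :=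
    ⟨fun P => ∑ i ∈ Finset.univ.filter P, e i, fun P => ⟨he.isIdempotentElem_sum,
      by simp only [map_sum, hρ], fun i hi => he.mul_sum_of_mem (by simpa using hi),
      fun i hi => he.mul_sum_of_notMem (by simpa using hi)⟩⟩
  have hn : ∀ i, e i * (∏ k, pcj (he.idem k) (μ ^ j k)).1 = e i * μ.1 ^ j i := fun i => by
    have hk : ∏ k ∈ Finset.univ.erase i, pcj (he.idem k) (μ ^ j k) ∈ Pc (1 - e i) :=
      prod_mem fun k hk => by
        rw [mem_Pc, pcj_val]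
        linear_combination ((μ ^ j k).1 - 1) * he.ortho (Finset.ne_of_mem_erase hk).symm
    rw [mem_Pc, sub_sub_cancel] at hk
    rw [← Finset.mul_prod_erase _ _ (Finset.mem_univ i), Units.val_mul, mul_left_comm, hk, pcj_val,
      Units.val_pow_eq_pow_val]
    linear_combination (μ.1 ^ j i - 1) * (he.idem i).eq
  refine ⟨E (j · = 0), E (j · = 1), E (j · = 2), E fun i => pcj (he.idem i) μ ≠ N (a i),
    (hE _).1, ∏ i, a i, ∏ k, pcj (he.idem k) (μ ^ j k), (hE _).2.1, ?_, ?_⟩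
  · simp only [nrdC_eq, (hE _).2.1, (hE _).1.eq]
    refine ext fun i => ?_
    rw [hn]
    have h0 := (hE (j · = 0)).2.2
    have h1 := (hE (j · = 1)).2.2
    have h2 := (hE (j · = 2)).2.2
    generalize E (j · = 0) = x, E (j · = 1) = y, E (j · = 2) = z at h0 h1 h2 ⊢
    obtain q | q | q : j i = 0 ∨ j i = 1 ∨ j i = 2 := by have := hj i; omega
    · rw [q]
      linear_combination -h0.1 i q - (μ.1 - 3 * μ.1 * x * z) * h1.2 i (by omega) -
        μ.1 ^ 2 * h2.2 i (by omega)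
    · rw [q]
      linear_combination -(1 - 3 * μ.1 * y * z) * h0.2 i (by omega) - μ.1 * h1.1 i q -
        μ.1 ^ 2 * h2.2 i (by omega)
    · rw [q]
      linear_combination -(1 - 3 * μ.1 * y * z) * h0.2 i (by omega) - μ.1 * h1.2 i (by omega) -
        μ.1 ^ 2 * h2.1 i q
  · rw [← prod_pcj he (pcj _ (m * _)), map_prod N, ← Finset.prod_mul_distrib]
    refine (prod_pcj he μ).symm.trans (Finset.prod_congr rfl fun i _ => ?_)
    by_cases hi : pcj (he.idem i) μ = N (a i)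
    · rw [hi, left_eq_mul]
      refine Units.ext ?_
      rw [pcj_val, pcj_val, Units.val_one]
      linear_combination ((m * ∏ k, pcj (he.idem k) (μ ^ j k)).1 - 1) *
        (hE fun i => pcj (he.idem i) μ ≠ N (a i)).2.2.2 i (not_not.2 hi)
    · refine ((h i).resolve_left hi).trans (congrArg _ (Units.ext ?_))
      rw [← map_pow, ← map_mul, pcj_val, pcj_val, pcj_val, Units.val_mul, Units.val_mul,
        Units.val_pow_eq_pow_val]
      linear_combination -(m.1 * (∏ k, pcj (he.idem k) (μ ^ j k)).1 - 1) *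
        (hE fun i => pcj (he.idem i) μ ≠ N (a i)).2.2.1 i hi - m.1 * hn i

end Nrd2Aux

theorem nrd_local {σ : Aut M} (hσ : σ ^ 3 = 1) (h1' : σ ≠ 1) {μ m : (Ap p M)ˣ}
    (hμ : uact ℚ_[p] σ μ = μ) (hm : uact ℚ_[p] σ m = m) :
    ∃ (x y z e : Ap p M) (he : IsIdempotentElem e) (a n : (Ap p M)ˣ), lact ℚ_[p] σ e = e ∧
      n.1 = nrdC (lact ℚ_[p] σ).toRingEquiv μ.1 x y z ∧
      μ = Nm (uact ℚ_[p] σ) 3 a * pcj he (m * n) := by
  obtain ⟨ι, _, e, he, hs, h⟩ := exists_pieces (p := p) σ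
  refine Nrd2Aux.glue he (ρ := (lact ℚ_[p] σ).toRingEquiv) hs _ fun i => ?_
  have h0 : h0 (pact σ (hs i)) 3 = 1 ∨ h0 (pact σ (hs i)) 3 = 3 := by
    rw [h0_piece Nat.prime_three hσ h1' (he.idem i)]
    rcases h i with ⟨w, hw, h⟩ | h
    · have : Nat.card {w : Pr M // Sup (e i) w ∧ cj σ w = w} = 1 :=
        Nat.card_eq_one_iff_exists.2 ⟨⟨w, (h w).2 rfl, hw⟩, fun w' => Subtype.ext ((h _).1 w'.2.1)⟩
      rw [this]
      exact Or.inr rfl
    · have : IsEmpty {w : Pr M // Sup (e i) w ∧ cj σ w = w} := ⟨fun w => h _ w.2.1 w.2.2⟩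
      rw [Nat.card_of_isEmpty]
      exact Or.inl rfl
  have k : ∀ {x : (Ap p M)ˣ}, uact ℚ_[p] σ x = x →
      pact σ (hs i) ⟨_, pcj_mem (he.idem i) x⟩ = ⟨_, pcj_mem (he.idem i) x⟩ := fun hx =>
    Subtype.ext ((uact_pcj (he.idem i) (hs i) _).trans (congrArg _ hx))
  obtain ⟨a, j, hj, ha⟩ := Nrd2Aux.grp h0 (k hμ) (k hm)
  have hN := map_Nm (α := pact σ (hs i)) (β := uact ℚ_[p] σ) (l := 3) (Pc (e i)).subtype
    (fun _ => rfl) a
  refine ⟨a.1, j, hj, ha.imp (fun ha => ?_) fun ha => ?_⟩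
  · exact (congrArg Subtype.val ha).trans hN
  · exact (congrArg Subtype.val ha).trans (congrArg (· * _) hN)

end Pool.Agent.Lib.CFT
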