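import Pool.Agent.Lib.CFT.Loc2

/-! CFT-Rec1: primes that split completely. -/

namespace Pool.Agent.Lib.CFT

open scoped TensorProduct
open NumberField
open Pool.Agent.P.MP_9ec3f0_nt.SY

namespace Rec1Aux

open Polynomial

theorem schur {f : ℤ[X]} (hf : 0 < f.natDegree) {N : ℤ} (hN : N ≠ 0) :
    ∃ l : ℕ, l.Prime ∧ ¬ (l : ℤ) ∣ N ∧ ∃ a : ℤ, (l : ℤ) ∣ f.eval a := by
  by_cases hc : f.eval 0 = 0
  · obtain ⟨l, h1, h2⟩ := Nat.exists_infinite_primes (N.natAbs + 1)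
    refine ⟨l, h2, fun h => ?_, 0, by rw [hc]; exact dvd_zero _⟩
    have := Nat.le_of_dvd (Int.natAbs_pos.2 hN) (Int.natCast_dvd.1 h)
    omega
  by_contra hno
  have h1 : ∀ k : ℤ, (f ^ 2).eval (f.eval 0 * N * k) = (C (f.eval 0 ^ 2)).eval (f.eval 0 * N * k) := by
    intro k
    obtain ⟨t, ht⟩ := sub_dvd_eval_sub (f.eval 0 * N * k) 0 f
    have e : f.eval (f.eval 0 * N * k) = f.eval 0 * (1 + N * (k * t)) := by
      linear_combination ht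
    have h2 : (1 + N * (k * t)).natAbs = 1 := by
      by_contra h2
      obtain ⟨l, h3, h4⟩ := Nat.exists_prime_and_dvd h2
      have h5 : (l : ℤ) ∣ 1 + N * (k * t) := Int.natCast_dvd.2 h4
      refine hno ⟨l, h3, fun h => h3.ne_one ?_, _, e ▸ h5.mul_left _⟩
      have h6 : (l : ℤ) ∣ 1 := (dvd_add_left (h.mul_right _)).1 h5
      exact_mod_cast Int.eq_one_of_dvd_one (Int.natCast_nonneg l) h6
    rw [eval_pow, eval_C, e, mul_pow, ← Int.natAbs_sq (1 + N * (k * t)), h2]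
    simp
  have h2 := eq_of_infinite_eval_eq _ _ (Set.infinite_of_injective_forall_mem
    (mul_right_injective₀ (mul_ne_zero hc hN)) h1)
  have h3 := congrArg natDegree h2
  rw [natDegree_pow, natDegree_C] at h3
  omega

theorem prim (E : Type) [Field E] [NumberField E] : ∃ θ : 𝓞 E, ∀ x : E, ∃ d : ℤ, d ≠ 0 ∧
    ∃ g : ℤ[X], d * x = aeval (θ : E) g := by
  obtain ⟨α, hα⟩ := Field.exists_primitive_element ℚ E
  obtain ⟨m, hm, hi⟩ := IsAlgebraic.exists_integral_multiple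
    ((IsFractionRing.isAlgebraic_iff ℤ ℚ E).2 (Algebra.IsAlgebraic.isAlgebraic (R := ℚ) α))
  refine ⟨⟨m • α, hi⟩, fun x => ?_⟩
  have hx : x ∈ (IntermediateField.adjoin ℚ {α}).toSubalgebra := by
    rw [hα]
    trivial
  rw [IntermediateField.adjoin_simple_toSubalgebra_of_isAlgebraic
    (Algebra.IsAlgebraic.isAlgebraic α), Algebra.adjoin_singleton_eq_range_aeval] at hx
  obtain ⟨q, rfl⟩ := hx
  obtain ⟨d, hd, e⟩ := IsLocalization.integerNormalization_spec (nonZeroDivisors ℤ)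
    (q.comp (C (m : ℚ)⁻¹ * X))
  refine ⟨d, nonZeroDivisors.ne_zero hd, IsLocalization.integerNormalization (nonZeroDivisors ℤ)
    (q.comp (C (m : ℚ)⁻¹ * X)), ?_⟩
  have hm' : (m : E) ≠ 0 := Int.cast_ne_zero.2 hm
  change (d : E) * aeval α q = aeval (m • α) _
  rw [← aeval_map_algebraMap ℚ (m • α), e, map_zsmul, aeval_comp, zsmul_eq_mul, zsmul_eq_mul]
  simp [hm']

theorem lies {R : Type} [CommRing R] [IsDomain R] [CharZero R] [Algebra.IsIntegral ℤ R] (θ : R)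
    {N : ℤ} (hN : N ≠ 0) : ∃ l : ℕ, l.Prime ∧ ¬ (l : ℤ) ∣ N ∧ ∃ Q : Ideal R, Q.IsPrime ∧
      (∀ m : ℤ, (m : R) ∈ Q ↔ (l : ℤ) ∣ m) ∧
      ∀ (x : R) (d : ℤ) (g : ℤ[X]), d ∣ N → d * x = aeval θ g → ∃ b : ℤ, x - b ∈ Q := by
  have hθ : IsIntegral ℤ θ := Algebra.IsIntegral.isIntegral θ
  obtain ⟨l, h1, h2, a, h3⟩ := schur (minpoly.natDegree_pos hθ) hN
  haveI := Fact.mk h1
  letI : Algebra ℤ[X] R := (aeval θ).toRingHom.toAlgebra
  haveI : Algebra.IsIntegral ℤ[X] R := Algebra.IsIntegral.tower_top ℤ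
  let φ : ℤ[X] →+* ZMod l := (Int.castRingHom (ZMod l)).comp (evalRingHom a)
  have hφ : ∀ g : ℤ[X], g ∈ RingHom.ker φ ↔ (l : ℤ) ∣ g.eval a := fun g =>
    ZMod.intCast_zmod_eq_zero_iff_dvd _ l
  haveI := RingHom.ker_isPrime φ
  obtain ⟨Q, hQ, e⟩ := Ideal.exists_ideal_over_prime_of_isIntegral_of_isDomain (S := R)
    (RingHom.ker φ) fun g hg => (hφ g).2
      (h3.trans (eval_dvd (minpoly.isIntegrallyClosed_dvd hθ hg)))
  have hQ' : ∀ g : ℤ[X], aeval θ g ∈ Q ↔ (l : ℤ) ∣ g.eval a := fun g => by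
    rw [← hφ, ← e]
    rfl
  have hm : ∀ m : ℤ, (m : R) ∈ Q ↔ (l : ℤ) ∣ m := fun m => by
    simpa using hQ' (C m)
  refine ⟨l, h1, h2, Q, hQ, hm, fun x d g hd hx => ?_⟩
  obtain ⟨u, v, huv⟩ := (Nat.prime_iff_prime_int.1 h1).coprime_iff_not_dvd.2
    fun h => h2 (h.trans hd)
  have h4 : aeval θ (g - C (g.eval a)) ∈ Q := (hQ' _).2 (by simp)
  have h5 : ((l : ℤ) : R) ∈ Q := (hm l).2 dvd_rfl
  have h6 : (u : R) * (l : ℤ) + v * d = 1 := by exact_mod_cast huv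
  refine ⟨v * g.eval a, ?_⟩
  have e1 : x - ((v * g.eval a : ℤ) : R) =
      u * x * (l : ℤ) + v * aeval θ (g - C (g.eval a)) := by
    rw [map_sub, ← hx, aeval_C, eq_intCast, Int.cast_mul]
    linear_combination (-x) * h6
  rw [e1]
  exact add_mem (Q.mul_mem_left _ h5) (Q.mul_mem_left _ h4)

theorem two (E : Type) [Field E] [NumberField E] (x y : 𝓞 E) {N : ℤ} (hN : N ≠ 0) :
    ∃ l : ℕ, l.Prime ∧ ¬ (l : ℤ) ∣ N ∧ ∃ Q : Ideal (𝓞 E), Q.IsPrime ∧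
      (∀ m : ℤ, (m : 𝓞 E) ∈ Q ↔ (l : ℤ) ∣ m) ∧ (∃ a : ℤ, x - a ∈ Q) ∧ ∃ b : ℤ, y - b ∈ Q := by
  obtain ⟨θ, h⟩ := prim E
  have h' : ∀ x : 𝓞 E, ∃ d : ℤ, d ≠ 0 ∧ ∃ g : ℤ[X], d * x = aeval θ g := fun x => by
    obtain ⟨d, hd, g, e⟩ := h x
    refine ⟨d, hd, g, RingOfIntegers.coe_injective ?_⟩
    rw [map_mul, map_intCast, ← aeval_algebraMap_apply]
    exact e
  obtain ⟨d, hd, g, e⟩ := h' x
  obtain ⟨d', hd', g', e'⟩ := h' y
  obtain ⟨l, h1, h2, Q, h3, h4, h5⟩ := lies θ (mul_ne_zero hN (mul_ne_zero hd hd'))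
  exact ⟨l, h1, fun h => h2 (h.mul_right _), Q, h3, h4,
    h5 x d g ((dvd_mul_right d d').mul_left _) e, h5 y d' g' ((dvd_mul_left d' d).mul_left _) e'⟩

theorem dvd_sub_one {R : Type} [CommRing R] [IsDomain R] [CharZero R] {n l : ℕ} (hn : n ≠ 0)
    (hl : l.Prime) (h : ¬ l ∣ n) {ζ : R} (hζ : IsPrimitiveRoot ζ n) {Q : Ideal R}
    (hQ : ∀ m : ℤ, (m : R) ∈ Q ↔ (l : ℤ) ∣ m) {b : ℤ} (hb : ζ - b ∈ Q) : n ∣ l - 1 := by
  haveI := Fact.mk hl
  haveI : NeZero (n : ZMod l) := ⟨fun h0 => h ((ZMod.natCast_eq_zero_iff n l).1 h0)⟩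
  have h1 : (cyclotomic n R).eval ζ = 0 := hζ.isRoot_cyclotomic (Nat.pos_of_ne_zero hn)
  have h2 := Q.mem_of_dvd (sub_dvd_eval_sub ζ b (cyclotomic n R)) hb
  rw [h1, zero_sub, neg_mem_iff, ← map_cyclotomic_int, eval_intCast_map, eq_intCast, Int.cast_id,
    hQ, ← ZMod.intCast_zmod_eq_zero_iff_dvd] at h2
  have h3 : IsPrimitiveRoot (b : ZMod l) n := by
    rw [← isRoot_cyclotomic_iff, IsRoot.def, ← map_cyclotomic_int, eval_intCast_map, eq_intCast,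
      Int.cast_id]
    exact h2
  exact h3.dvd_of_pow_eq_one _ (ZMod.pow_card_sub_one_eq_one (h3.ne_zero hn))

end Rec1Aux

theorem exists_split_prime (M : Type) [Field M] [NumberField M] {n : ℕ} (hn : n ≠ 0) :
    ∃ l : Nat.Primes, l.1 ≠ 2 ∧ n ∣ l.1 - 1 ∧ ∃ w : Pr M, Ab l.1 w ∧
      ∀ s : Aut M, cj s w = w → s = 1 := by
  classical
  haveI := NeZero.mk hn
  obtain ⟨θ, hθ⟩ := Rec1Aux.prim M
  have h1 : ∀ s : Aut M, RingOfIntegers.mapRingEquiv s.toRingEquiv θ = θ → s = 1 := fun s hs => by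
    have h2 : s (θ : M) = θ := congrArg (algebraMap (𝓞 M) M) hs
    refine AlgEquiv.ext fun x => ?_
    obtain ⟨d, hd, g, e⟩ := hθ x
    refine mul_left_cancel₀ (Int.cast_ne_zero.2 hd : (d : M) ≠ 0) ?_
    have h3 := Polynomial.aeval_algHom_apply (s.restrictScalars ℤ) (θ : M) g
    rw [AlgEquiv.restrictScalars_apply, AlgEquiv.restrictScalars_apply, h2] at h3
    rw [AlgEquiv.one_apply, ← map_intCast s d, ← map_mul, map_intCast, e, ← h3]
  let δ : 𝓞 M := ∏ s ∈ Finset.univ.erase (1 : Aut M),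
    (RingOfIntegers.mapRingEquiv s.toRingEquiv θ - θ)
  have hδ : δ ≠ 0 := Finset.prod_ne_zero_iff.2 fun s hs h =>
    Finset.ne_of_mem_erase hs (h1 s (sub_eq_zero.1 h))
  have h3 : Ideal.absNorm (Ideal.span {δ}) ≠ 0 := fun h =>
    hδ (Ideal.span_singleton_eq_bot.1 (Ideal.absNorm_eq_zero_iff.1 h))
  have hζ := (IsCyclotomicExtension.zeta_spec n M (CyclotomicField n M)).toInteger_isPrimitiveRoot
  obtain ⟨l, k1, k2, Q, k3, k4, ⟨a, k5⟩, b, k6⟩ := Rec1Aux.two (CyclotomicField n M)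
    (algebraMap (𝓞 M) _ θ) _ (N := (2 * n * Ideal.absNorm (Ideal.span {δ}) : ℕ))
    (Int.natCast_ne_zero.2 (mul_ne_zero (mul_ne_zero two_ne_zero hn) h3))
  rw [Int.natCast_dvd_natCast] at k2
  have k7 : ∀ m : ℕ, (m : 𝓞 M) ∈ Q.comap (algebraMap (𝓞 M) (𝓞 (CyclotomicField n M))) ↔ l ∣ m :=
    fun m => by
      rw [Ideal.mem_comap, map_natCast, ← Int.cast_natCast, k4, Int.natCast_dvd_natCast]
  refine ⟨⟨l, k1⟩, fun h => k2 ?_, Rec1Aux.dvd_sub_one hn k1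
    (fun h => k2 ((h.mul_left _).mul_right _)) hζ k4 k6,
    ⟨Q.comap (algebraMap (𝓞 M) _), inferInstance, fun h => ?_⟩, (k7 l).2 dvd_rfl,
    fun s hs => ?_⟩
  · rw [show l = 2 from h, mul_assoc]
    exact dvd_mul_right _ _
  · have h4 := (k7 l).2 dvd_rfl
    rw [h, Ideal.mem_bot] at h4
    exact k1.ne_zero (Nat.cast_eq_zero.1 h4)
  · by_contra hs1
    have h4 : θ - a ∈ Q.comap (algebraMap (𝓞 M) (𝓞 (CyclotomicField n M))) := by
      rwa [Ideal.mem_comap, map_sub, map_intCast]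
    have h5 : RingOfIntegers.mapRingEquiv s.toRingEquiv (θ - a) ∈
        Q.comap (algebraMap (𝓞 M) (𝓞 (CyclotomicField n M))) := by
      have h6 := congrArg IsDedekindDomain.HeightOneSpectrum.asIdeal hs
      rw [ExtAux.cj_asIdeal] at h6
      exact h6.le (Ideal.mem_map_of_mem _ h4)
    have h6 := sub_mem h5 h4
    rw [map_sub, map_intCast, sub_sub_sub_cancel_right] at h6
    have h7 := Ideal.mem_of_dvd _ (Finset.dvd_prod_of_mem
      (fun s : Aut M => RingOfIntegers.mapRingEquiv s.toRingEquiv θ - θ)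
      (Finset.mem_erase.2 ⟨hs1, Finset.mem_univ s⟩)) h6
    exact k2 (((k7 _).1 ((Ideal.span_singleton_le_iff_mem _).2 h7
      (Ideal.absNorm_mem _))).mul_left _)

end Pool.Agent.Lib.CFT
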