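import Pool.Agent.Lib.CFT.Inf
import Pool.Agent.Lib.CFT.Tr2

/-! CFT-Rec2: the cyclotomic reciprocity character. -/

namespace Pool.Agent.Lib.CFT

open scoped TensorProduct
open NumberField
open Pool.Agent.P.MP_9ec3f0_nt.SY

namespace Rec2Aux

section Ev

variable (κ : Type) [Field κ] [Algebra ℚ κ]

/-- The local algebra of the rationals is the base field. -/
noncomputable def ev : κ ⊗[ℚ] ℚ →ₐ[κ] κ :=
  Algebra.TensorProduct.lift (AlgHom.id κ κ) (algebraMap ℚ κ).toRatAlgHom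
    fun _ _ => Commute.all _ _

variable {κ}

theorem ev_tmul (a : κ) (r : ℚ) : ev κ (a ⊗ₜ r) = a * algebraMap ℚ κ r := rfl

theorem ev_inc (r : ℚ) : ev κ (inc κ ℚ r) = algebraMap ℚ κ r := (ev_tmul 1 r).trans (one_mul _)

theorem ev_ne (x : (κ ⊗[ℚ] ℚ)ˣ) : ev κ x.1 ≠ 0 := (x.isUnit.map (ev κ)).ne_zero

theorem lmap_ev {E : Type} [Field E] [NumberField E] (x : κ ⊗[ℚ] ℚ) :
    lmap κ (algebraMap ℚ E) x = ev κ x ⊗ₜ 1 := by
  induction x using TensorProduct.induction_on with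
  | zero => simp
  | tmul a r =>
    rw [lmap_tmul, ev_tmul, mul_comm, ← Algebra.smul_def, TensorProduct.smul_tmul,
      Algebra.algebraMap_eq_smul_one]
  | add x y hx hy => rw [map_add, map_add, hx, hy, TensorProduct.add_tmul]

end Ev

section Local

variable {p : ℕ} [Fact p.Prime]

/-- The valuation of a local unit. -/
noncomputable def val (x : (Ap p ℚ)ˣ) : ℤ := (ev ℚ_[p] x.1).valuation

theorem val_mul (x y : (Ap p ℚ)ˣ) : val (x * y) = val x + val y := by
  rw [val, Units.val_mul, map_mul, Padic.valuation_mul (ev_ne x) (ev_ne y)]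
  rfl

theorem val_one : val (1 : (Ap p ℚ)ˣ) = 0 := by simp [val]

theorem val_inv (x : (Ap p ℚ)ˣ) : val x⁻¹ = -val x := by
  have h := val_mul x x⁻¹
  rw [mul_inv_cancel, val_one] at h
  omega

theorem val_inc (r : ℚˣ) : val (incU ℚ_[p] ℚ r) = padicValRat p r.1 := by
  rw [← Padic.valuation_ratCast]
  exact congrArg Padic.valuation (ev_inc r.1)

theorem exists_int {x : Ap p ℚ} (h : IsIntegral ℤ_[p] x) : ∃ y : ℤ_[p], (y : ℚ_[p]) = ev ℚ_[p] x :=
  IsIntegrallyClosed.isIntegral_iff.1 (h.map ((ev ℚ_[p]).restrictScalars ℤ_[p]))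

theorem val_nonneg {x : (Ap p ℚ)ˣ} (h : IsIntegral ℤ_[p] x.1) : 0 ≤ val x := by
  obtain ⟨y, hy⟩ := exists_int h
  rw [val, ← hy]
  exact (Padic.norm_le_one_iff_val_nonneg _).1 y.2

theorem val_eq_zero {x : (Ap p ℚ)ˣ} (h : x ∈ IntU p ℚ) : val x = 0 := by
  have h1 := val_nonneg h.1
  have h2 := val_nonneg h.2
  rw [val_inv] at h2
  omega

/-- The unit part. -/
noncomputable def up (x : (Ap p ℚ)ˣ) : ℤ_[p] :=
  ⟨ev ℚ_[p] x.1 * (p : ℚ_[p]) ^ (-val x), by
    rw [norm_mul, Padic.norm_eq_zpow_neg_valuation (ev_ne x), Padic.norm_p_zpow, neg_neg, val,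
      zpow_neg, inv_mul_cancel₀]
    exact zpow_ne_zero _ (Nat.cast_ne_zero.2 (Fact.out : p.Prime).ne_zero)⟩

/-- The residue of the unit part. -/
noncomputable def chi (p : ℕ) [Fact p.Prime] : (Ap p ℚ)ˣ →* ZMod p where
  toFun x := PadicInt.toZMod (up x)
  map_one' := by
    rw [← map_one (PadicInt.toZMod (p := p))]
    exact congrArg _ (Subtype.ext (by simp [up, val_one]))
  map_mul' x y := by
    rw [← map_mul]
    refine congrArg _ (Subtype.ext ?_)
    have hp : (p : ℚ_[p]) ≠ 0 := Nat.cast_ne_zero.2 (Fact.out : p.Prime).ne_zero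
    rw [PadicInt.coe_mul]
    simp only [up, val_mul, Units.val_mul, map_mul, neg_add, zpow_add₀ hp]
    ring

theorem chi_eq {x : (Ap p ℚ)ˣ} {u : ℤ_[p]}
    (h : ev ℚ_[p] x.1 * (p : ℚ_[p]) ^ (-val x) = u) : chi p x = PadicInt.toZMod u :=
  congrArg PadicInt.toZMod (Subtype.ext h : up x = u)

theorem chi_int {x : (Ap p ℚ)ˣ} {g : ℤ} (hg : ¬ (p : ℤ) ∣ g) (h : ev ℚ_[p] x.1 = g) :
    chi p x = g := by
  have hv : val x = 0 := by
    rw [val, h, Padic.valuation_intCast, padicValInt.eq_zero_of_not_dvd hg, Nat.cast_zero]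
  rw [chi_eq (u := g) (by rw [hv, h, neg_zero, zpow_zero, mul_one, PadicInt.coe_intCast]),
    map_intCast]

theorem chi_sm {x : (Ap p ℚ)ˣ} (h : Sm 1 (x.1 - 1)) : chi p x = 1 := by
  have hv := val_eq_zero (mem_IntU_of_sm h)
  obtain ⟨y, hy, e⟩ := h
  obtain ⟨z, hz⟩ := exists_int hy
  have e2 := congrArg (ev ℚ_[p]) e
  rw [map_sub, map_one, pow_one, map_mul, map_natCast, ← hz, sub_eq_iff_eq_add] at e2
  rw [chi_eq (u := (p : ℤ_[p]) * z + 1) (by rw [hv, e2]; simp)]
  simp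

variable {E : Type} [Field E] [NumberField E]

theorem sm_norm {x : (Ap p ℚ)ˣ} {y : (Ap p E)ˣ}
    (h : umap ℚ_[p] (algebraMap ℚ E) x = ∏ s : Aut E, uact ℚ_[p] s y) (hy : Sm 1 (y.1 - 1)) :
    Sm 1 (x.1 - 1) := by
  rw [← sm_lmap_iff (j := algebraMap ℚ E), map_sub, map_one, ← umap_val, h]
  refine Finset.prod_induction _ (fun u : (Ap p E)ˣ => Sm 1 (u.1 - 1)) (fun a b ha hb => ?_) ?_
    fun s _ => ?_
  · have e : (a * b).1 - 1 = (a.1 - 1) * (b.1 - 1) + (a.1 - 1) + (b.1 - 1) := by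
      rw [Units.val_mul]
      ring
    rw [e]
    exact (((ha.mul hb).mono (by omega)).add ha).add hb
  · simpa using sm_zero 1
  · simpa using hy.lact s

end Local

section Norm

variable {E : Type} [Field E] [NumberField E] {p l : ℕ} [Fact p.Prime] [Fact l.Prime]

theorem pow_absNorm {ζ : E} (hζ : IsPrimitiveRoot ζ l) (hp : p ≠ l) (I : Ideal (𝓞 E))
    (hI : I ≠ 0) : (p : ZMod l) ^ padicValNat p (Ideal.absNorm I) = 1 := by
  induction I using UniqueFactorizationMonoid.induction_on_prime with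
  | h₁ => exact absurd rfl hI
  | h₂ I hu =>
    rw [Ideal.isUnit_iff.1 hu, Ideal.absNorm_top, padicValNat_one_right, pow_zero]
  | h₃ I P h0 hP ih =>
    have n0 : ∀ J : Ideal (𝓞 E), J ≠ 0 → Ideal.absNorm J ≠ 0 := fun J hJ h =>
      hJ (Ideal.absNorm_eq_zero_iff.1 h)
    rw [map_mul, padicValNat.mul (n0 P hP.ne_zero) (n0 I h0), pow_add, ih h0, mul_one]
    have hmax := (Ideal.isPrime_of_prime hP).isMaximal hP.ne_zero
    obtain ⟨q, n, -, -, hq, e⟩ := Ideal.exists_prime_and_absNorm_eq_pow P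
    have := Fact.mk hq
    rcases eq_or_ne p q with rfl | hpq
    · have h1 : Ideal.absNorm P ≠ 1 := Ideal.absNorm_eq_one_iff.not.2 hmax.ne_top
      have h2 : (Ideal.absNorm P).Coprime l := by
        rw [e]
        exact ((Nat.coprime_primes hq Fact.out).2 hp).pow_left n
      have h3 := hζ.toInteger_isPrimitiveRoot.idealQuotient_mk h1 h2
      let _ := Ideal.Quotient.field P
      let _ := Fintype.ofFinite (𝓞 E ⧸ P)
      have h4 := h3.dvd_of_pow_eq_one _
        (FiniteField.pow_card_sub_one_eq_one _ (h3.ne_zero (Fact.out : l.Prime).ne_zero))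
      have h5 : Fintype.card (𝓞 E ⧸ P) = p ^ n := by
        rw [← e, ← Nat.card_eq_fintype_card]
        rfl
      rw [h5, ← Nat.modEq_iff_dvd' (Nat.one_le_pow _ _ hq.pos), ← ZMod.natCast_eq_natCast_iff,
        Nat.cast_one, Nat.cast_pow] at h4
      rw [e, padicValNat.prime_pow, ← h4]
    · rw [e, padicValNat_prime_prime_pow n hpq, pow_zero]

theorem cast_ne (hp : p ≠ l) : (p : ZMod l) ≠ 0 := fun h =>
  hp ((Nat.prime_dvd_prime_iff_eq Fact.out Fact.out).1 ((ZMod.natCast_eq_zero_iff _ _).1 h)).symm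

theorem pow_norm {ζ : E} (hζ : IsPrimitiveRoot ζ l) (hp : p ≠ l) {m : E} (hm : m ≠ 0) :
    (p : ZMod l) ^ padicValRat p (Algebra.norm ℚ m) = 1 := by
  have key : ∀ a : 𝓞 E, a ≠ 0 → (p : ZMod l) ^ padicValRat p (Algebra.norm ℚ (a : E)) = 1 := by
    intro a ha
    rw [← Algebra.coe_norm_int, padicValRat.of_int, zpow_natCast, padicValInt,
      ← Ideal.absNorm_span_singleton]
    exact pow_absNorm hζ hp _ (by simpa using ha)
  obtain ⟨a, b, hb, rfl⟩ := IsFractionRing.div_surjective (𝓞 E) m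
  have hb0 : b ≠ 0 := nonZeroDivisors.ne_zero hb
  have ha0 : a ≠ 0 := by
    rintro rfl
    simp at hm
  have hb1 : (b : E) ≠ 0 := by simpa using hb0
  have h := key a ha0
  have e : (a : E) = algebraMap (𝓞 E) E a / algebraMap (𝓞 E) E b * (b : E) :=
    (div_mul_cancel₀ _ hb1).symm
  rwa [e, map_mul, padicValRat.mul (Algebra.norm_ne_zero_iff.2 hm)
    (Algebra.norm_ne_zero_iff.2 hb1), zpow_add₀ (cast_ne hp), key b hb0, mul_one] at h

variable [IsGalois ℚ E]

/-- The norm of a nonzero element. -/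
noncomputable def nrm {m : E} (hm : m ≠ 0) : ℚˣ :=
  Units.mk0 (Algebra.norm ℚ m) (Algebra.norm_ne_zero_iff.2 hm)

theorem map_nrm {m : E} (hm : m ≠ 0) : Units.map (algebraMap ℚ E).toMonoidHom (nrm hm) =
    ∏ s : Aut E, gact s (Units.mk0 m hm) := Units.ext <| by
  rw [Units.coe_prod]
  exact Algebra.norm_eq_prod_automorphisms ℚ m

theorem exists_close_norm {x : (Ap p ℚ)ˣ} {y : (Ap p E)ˣ}
    (h : umap ℚ_[p] (algebraMap ℚ E) x = ∏ s : Aut E, uact ℚ_[p] s y) :
    ∃ (m : E) (hm : m ≠ 0), Sm 1 ((incU ℚ_[p] ℚ (nrm hm) * x⁻¹).1 - 1) := by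
  obtain ⟨m, hm, hs⟩ := exists_close_unit y 1
  refine ⟨m, hm, sm_norm (y := incU ℚ_[p] E (Units.mk0 m hm) * y⁻¹) ?_ hs⟩
  have e : umap ℚ_[p] (algebraMap ℚ E) (incU ℚ_[p] ℚ (nrm hm)) =
      incU ℚ_[p] E (Units.map (algebraMap ℚ E).toMonoidHom (nrm hm)) := rfl
  simp only [map_mul, map_inv, Finset.prod_mul_distrib, Finset.prod_inv_distrib, uact_incU]
  rw [h, e, map_nrm, map_prod]

theorem pow_val {ζ : E} (hζ : IsPrimitiveRoot ζ l) (hp : p ≠ l) {x : (Ap p ℚ)ˣ} {y : (Ap p E)ˣ}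
    (h : umap ℚ_[p] (algebraMap ℚ E) x = ∏ s : Aut E, uact ℚ_[p] s y) :
    (p : ZMod l) ^ val x = 1 := by
  obtain ⟨m, hm, hs⟩ := exists_close_norm h
  have h1 := val_eq_zero (mem_IntU_of_sm hs)
  rw [val_mul, val_inv, val_inc, add_neg_eq_zero] at h1
  rw [← h1]
  exact pow_norm hζ hp hm

end Norm

section Global

variable (l : Nat.Primes)

/-- The class of a prime other than `l`. -/
noncomputable def cl (p : Nat.Primes) : ZMod l.1 := if p = l then 1 else p.1

theorem cl_ne (p : Nat.Primes) : cl l p ≠ 0 := by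
  unfold cl
  split_ifs with h
  · exact one_ne_zero
  · exact cast_ne fun e => h (Subtype.ext e)

/-- The sign at infinity. -/
noncomputable def sg : (Ai ℚ)ˣ →* ZMod l.1 :=
  ((SignType.castHom.comp signHom : ℝ →*₀ ZMod l.1).toMonoidHom.comp
    (ev ℝ).toRingHom.toMonoidHom).comp (Units.coeHom _)

theorem sg_apply (x : (Ai ℚ)ˣ) : sg l x = SignType.sign (ev ℝ x.1) := rfl

theorem fin_supp (x : Idele ℚ) :
    Function.HasFiniteMulSupport fun p : Nat.Primes => cl l p ^ (-val (x.1.1 p)) :=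
  Set.Finite.subset x.2 fun p hp h => hp (by simp [val_eq_zero h])

/-- The character on ideles. -/
noncomputable def lam0 : Idele ℚ →* ZMod l.1 where
  toFun x := chi l.1 (x.1.1 l) * sg l x.1.2 * ∏ᶠ p : Nat.Primes, cl l p ^ (-val (x.1.1 p))
  map_one' := by simp [val_one]
  map_mul' x y := by
    have e : ∀ p : Nat.Primes, cl l p ^ (-val ((x * y).1.1 p)) =
        cl l p ^ (-val (x.1.1 p)) * cl l p ^ (-val (y.1.1 p)) := fun p => by
      rw [← zpow_add₀ (cl_ne l p), ← neg_add, ← val_mul]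
      rfl
    have e1 : chi l.1 ((x * y).1.1 l) = _ := map_mul (chi l.1) (x.1.1 l) (y.1.1 l)
    have e2 : sg l (x * y).1.2 = _ := map_mul (sg l) x.1.2 y.1.2
    simp only [e, e1, e2, finprod_mul_distrib (fin_supp l x) (fin_supp l y)]
    ring

theorem lam0_apply (x : Idele ℚ) : lam0 l x =
    chi l.1 (x.1.1 l) * sg l x.1.2 * ∏ᶠ p : Nat.Primes, cl l p ^ (-val (x.1.1 p)) := rfl

theorem lam0_prin' (r : ℚˣ) : lam0 l (prin ℚ r) = chi l.1 (incU ℚ_[l.1] ℚ r) *
    SignType.sign r.1 * ∏ᶠ p : Nat.Primes, cl l p ^ (-padicValRat p.1 r.1) := by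
  have e : ∀ p : Nat.Primes, val ((prin ℚ r).1.1 p) = padicValRat p.1 r.1 := fun p => val_inc r
  have e2 : ev ℝ (prin ℚ r).1.2.1 = r.1 := ev_inc r.1
  have e3 : SignType.sign (r.1 : ℝ) = SignType.sign r.1 :=
    (Rat.cast_strictMono (K := ℝ)).sign_comp (f := Rat.castHom ℝ) r.1
  simp only [lam0_apply, e, sg_apply, e2, e3]
  rfl

theorem lam0_neg_one : lam0 l (prin ℚ (-1)) = 1 := by
  rw [lam0_prin', chi_int (g := -1) (by simpa using (Nat.prime_iff_prime_int.1 l.2).not_dvd_one)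
    ((ev_inc _).trans (by simp))]
  simp

theorem lam0_prime (q : Nat.Primes) (r : ℚˣ) (h : r.1 = q.1) : lam0 l (prin ℚ r) = 1 := by
  have e : ev ℚ_[l.1] (incU ℚ_[l.1] ℚ r).1 = q.1 := (ev_inc _).trans (by simp [h])
  have h0 : (0 : ℚ) < q.1 := Nat.cast_pos.2 q.2.pos
  rw [lam0_prin', finprod_eq_single _ q fun p hp => by
    rw [h, padicValRat.of_nat, padicValNat_primes fun e => hp (Subtype.ext e), Nat.cast_zero,
      neg_zero, zpow_zero], h, sign_pos h0, padicValRat.self q.2.one_lt, SignType.coe_one, mul_one,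
    zpow_neg_one, mul_inv_eq_one₀ (cl_ne l q), cl]
  split_ifs with hq
  · subst hq
    rw [chi_eq (u := 1), map_one]
    rw [val_inc, e, h, padicValRat.self q.2.one_lt, zpow_neg_one, PadicInt.coe_one]
    exact mul_inv_cancel₀ (Nat.cast_ne_zero.2 q.2.ne_zero)
  · rw [chi_int (g := q.1) ?_ (e.trans (Int.cast_natCast _).symm), Int.cast_natCast]
    exact fun hd => hq (Subtype.ext
      ((Nat.prime_dvd_prime_iff_eq l.2 q.2).1 (Int.natCast_dvd_natCast.1 hd)).symm)

theorem lam0_nat (n : ℕ) : ∀ r : ℚˣ, r.1 = n → lam0 l (prin ℚ r) = 1 := by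
  induction n using induction_on_primes with
  | zero => exact fun r h => absurd (h.trans Nat.cast_zero) r.ne_zero
  | one =>
    intro r h
    rw [show r = 1 from Units.ext (h.trans Nat.cast_one), map_one, map_one]
  | prime_mul q a hq ih =>
    intro r h
    have hq0 : (q : ℚ) ≠ 0 := Nat.cast_ne_zero.2 hq.ne_zero
    have h1 := ih ((Units.mk0 _ hq0)⁻¹ * r) (by simp [h, hq0])
    rwa [map_mul, map_mul, map_inv, ← one_mul (_ * _),
      ← lam0_prime l ⟨q, hq⟩ (Units.mk0 _ hq0) rfl, ← mul_assoc, ← map_mul, mul_inv_cancel, map_one,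
      one_mul, lam0_prime l ⟨q, hq⟩ (Units.mk0 _ hq0) rfl] at h1

theorem lam0_prin (r : ℚˣ) : lam0 l (prin ℚ r) = 1 := by
  have key : ∀ r : ℚˣ, 0 ≤ r.1 → lam0 l (prin ℚ r) = 1 := fun r hr => by
    have hd : (r.1.den : ℚ) ≠ 0 := Nat.cast_ne_zero.2 r.1.den_ne_zero
    have h1 := lam0_nat l r.1.num.natAbs (r * Units.mk0 _ hd) (by
      rw [Units.val_mul, Units.val_mk0, Rat.mul_den_eq_num, ← Int.cast_natCast,
        Int.natAbs_of_nonneg (Rat.num_nonneg.2 hr)])
    rwa [map_mul, map_mul, lam0_nat l _ (Units.mk0 _ hd) rfl, mul_one] at h1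
  rcases le_total 0 r.1 with h | h
  · exact key r h
  · have h1 := key (-1 * r) (by simpa using h)
    rwa [map_mul, map_mul, lam0_neg_one, one_mul] at h1

variable {E : Type} [Field E] [NumberField E] [IsGalois ℚ E]

theorem lam0_norm (h2 : l.1 ≠ 2) {ζ : E} (hζ : IsPrimitiveRoot ζ l.1) {x : Idele ℚ} {y : Idele E}
    (h : imap (algebraMap ℚ E) x = ∏ s : Aut E, s • y) : lam0 l x = 1 := by
  have hc : IsTotallyComplex E := nrRealPlaces_eq_zero_iff.1
    (InfinitePlace.IsPrimitiveRoot.nrRealPlaces_eq_zero_of_two_lt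
      (lt_of_le_of_ne l.2.two_le h2.symm) hζ)
  have loc : ∀ {x : Idele ℚ} {y : Idele E}, imap (algebraMap ℚ E) x = ∏ s : Aut E, s • y →
      (∀ p : Nat.Primes, umap ℚ_[p.1] (algebraMap ℚ E) (x.1.1 p) =
        ∏ s : Aut E, uact ℚ_[p.1] s (y.1.1 p)) ∧
      umap ℝ (algebraMap ℚ E) x.1.2 = ∏ s : Aut E, uact ℝ s y.1.2 := fun {x y} h => by
    have e := congrArg Subtype.val h
    rw [SubmonoidClass.coe_finsetProd] at e
    refine ⟨fun p => ?_, (congrArg Prod.snd e).trans Prod.snd_prod⟩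
    have e1 := congrFun ((congrArg Prod.fst e).trans Prod.fst_prod) p
    rwa [Finset.prod_apply] at e1
  obtain ⟨m, hm, hs⟩ := exists_close_unit (y.1.1 l) 1
  have h' : imap (algebraMap ℚ E) (prin ℚ (nrm hm) * x⁻¹) =
      ∏ s : Aut E, s • (prin E (Units.mk0 m hm) * y⁻¹) := by
    simp only [map_mul, map_inv, smul_mul', smul_inv', Finset.prod_mul_distrib,
      Finset.prod_inv_distrib, smul_prin']
    rw [h, imap_prin, map_nrm, map_prod]
  obtain ⟨h3, h4⟩ := loc h'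
  have h5 : lam0 l (prin ℚ (nrm hm) * x⁻¹) = 1 := by
    rw [lam0_apply, chi_sm (sm_norm (h3 l) hs), sg_apply,
      sign_pos (norm_pos_inf _ ((congrArg Units.val h4).symm.trans (lmap_ev _))),
      finprod_eq_one_of_forall_eq_one fun p => ?_]
    · simp
    · unfold cl
      split_ifs with hp
      · exact one_zpow _
      · rw [zpow_neg, pow_val hζ (fun e => hp (Subtype.ext e)) (h3 p), inv_one]
  rwa [map_mul, lam0_prin, one_mul, map_inv, inv_eq_one] at h5

end Global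

end Rec2Aux

open Rec2Aux in
theorem exists_lam (l : Nat.Primes) (h2 : l.1 ≠ 2) : ∃ lam : Cl ℚ →* (ZMod l.1)ˣ,
    (∀ (x : Idele ℚ) (g : ℤ), (∀ p : Nat.Primes, p ≠ l → x.1.1 p = 1) → x.1.2 = 1 →
      ¬ (l.1 : ℤ) ∣ g → (x.1.1 l).1 = g → (lam (QuotientGroup.mk x) : ZMod l.1) = g) ∧
    ∀ (E : Type) [Field E] [NumberField E] [IsGalois ℚ E] (ζ : E), IsPrimitiveRoot ζ l.1 →
      ∀ (z : Cl E) (c : Cl ℚ), cmap (algebraMap ℚ E) c = ∏ s : Aut E, s • z → lam c = 1 := by
  refine ⟨QuotientGroup.lift _ (lam0 l).toHomUnits ?_, fun x g h h' hg e => ?_,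
    fun E _ _ _ ζ hζ z c h => ?_⟩
  · rintro _ ⟨r, rfl⟩
    exact Units.ext (lam0_prin l r)
  · change lam0 l x = g
    rw [lam0_apply, chi_int hg (by rw [e, map_intCast]), h', map_one, mul_one,
      finprod_eq_one_of_forall_eq_one fun p => ?_, mul_one]
    unfold cl
    split_ifs with hp
    · exact one_zpow _
    · rw [h p hp, val_one, neg_zero, zpow_zero]
  · induction c using QuotientGroup.induction_on with | H x => ?_
    induction z using QuotientGroup.induction_on with | H y => ?_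
    simp only [cmap_mk, smul_mk] at h
    rw [← QuotientGroup.mk_prod, QuotientGroup.eq] at h
    obtain ⟨a, ha⟩ := h
    have h1 : ∀ s : Aut E, s • imap (algebraMap ℚ E) x = imap (algebraMap ℚ E) x := fun s => by
      rw [smul_imap (t := 1) fun r => s.commutes r, one_smul]
    have h3 : ∀ t : Aut E, t • ∏ s : Aut E, s • y = ∏ s : Aut E, s • y := fun t => by
      rw [Finset.smul_prod']
      exact Fintype.prod_equiv (Equiv.mulLeft t) _ _ fun s => smul_smul t s y
    obtain ⟨r, hr⟩ := (isFix_top (M := E) a.1).1 fun s _ =>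
      congrArg Units.val (prin_injective (a₁ := gact s a) (a₂ := a) (by
        rw [← smul_prin', ha, smul_mul', smul_inv', h1, h3]))
    have r0 : r ≠ 0 := by
      rintro rfl
      exact a.ne_zero (hr.symm.trans (map_zero _))
    have h4 := lam0_norm l h2 hζ (x := x * prin ℚ (Units.mk0 r r0)) (y := y) (by
      rw [map_mul, imap_prin, show Units.map _ (Units.mk0 r r0) = a from Units.ext hr, ha,
        mul_inv_cancel_left])
    rw [map_mul, lam0_prin, mul_one] at h4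
    exact Units.ext h4

end Pool.Agent.Lib.CFT
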