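import Pool.Agent.Lib.CFT.Rec1
import Pool.Agent.Lib.CFT.Rec2
import Pool.Agent.Lib.CFT.Glo3
import Pool.Agent.Lib.CFT.Coh3

/-! CFT-Rec3: the fundamental class. -/

namespace Pool.Agent.Lib.CFT

open scoped TensorProduct
open NumberField
open Pool.Agent.P.MP_9ec3f0_nt.SY

namespace Rec3Aux

open Polynomial

variable {L E : Type} [Field L] [NumberField L] [Field E] [NumberField E]

theorem exists_res [IsGalois ℚ E] [IsGalois ℚ L] [Algebra E L] : ∃ r : Aut L →* Aut E,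
    Function.Surjective r ∧ (∀ s x, s (algebraMap E L x) = algebraMap E L (r s x)) ∧
      IsFix (algebraMap E L) r.ker := by
  have h : ∀ (s : Aut L) x,
      s (algebraMap E L x) = algebraMap E L (AlgEquiv.restrictNormalHom E s x) :=
    fun s x => (AlgEquiv.restrictNormal_commutes s E x).symm
  refine ⟨AlgEquiv.restrictNormalHom E, AlgEquiv.restrictNormalHom_surjective L, h,
    fun x => ⟨fun hx => ?_, ?_⟩⟩
  · have := IsGalois.tower_top_of_isGalois ℚ E L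
    refine (IsGalois.mem_range_algebraMap_iff_fixed (F := E) x).2 fun f =>
      hx (f.restrictScalars ℚ) (AlgEquiv.ext fun y => (algebraMap E L).injective ?_)
    rw [← h]
    exact f.commutes y
  · rintro ⟨y, rfl⟩ s hs
    rw [h, MonoidHom.mem_ker.1 hs]
    rfl

theorem isGalois_of_isFix [IsGalois ℚ L] {j : E →+* L} {N : Subgroup (Aut L)} (hn : N.Normal)
    (hN : IsFix j N) : IsGalois ℚ E := by
  refine IsGalois.of_fixedField_eq_bot ℚ E (eq_bot_iff.2 fun x hx => ?_)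
  obtain ⟨q, hq⟩ := (isFix_top (M := L) (j x)).1 fun s _ => by
    obtain ⟨t, ht⟩ := hN.exists_res (σ := s) fun n h => hn.conj_mem' n h s
    rw [ht, (IntermediateField.mem_fixedField_iff _ x).1 hx t trivial]
  exact IntermediateField.mem_bot.2 ⟨q, j.injective (by rw [← hq]; simp)⟩

theorem cyc [IsGalois ℚ E] [Algebra E L] (l : ℕ) [NeZero l] [IsCyclotomicExtension {l} E L] :
    IsGalois ℚ L ∧ ∃ ζ : L, IsPrimitiveRoot ζ l ∧ ∀ s : Aut L,
      (∀ x, s (algebraMap E L x) = algebraMap E L x) → s ζ = ζ → s = 1 := by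
  obtain ⟨f, hf, hs⟩ := IsGalois.is_separable_splitting_field ℚ E
  have h1 : IsSplittingField E L ((X ^ l - 1 : ℚ[X]).map (algebraMap ℚ E)) := by
    simpa using IsCyclotomicExtension.isSplittingField_X_pow_sub_one l E L
  have h2 := IsSplittingField.mul (K := E) L f (X ^ l - 1 : ℚ[X]) hf.ne_zero
    (X_pow_sub_C_ne_zero (NeZero.pos l) 1)
  have h3 := Normal.of_isSplittingField (E := L) (f * (X ^ l - 1))
  have hζ := IsCyclotomicExtension.zeta_spec l E L
  refine ⟨⟨⟩, _, hζ, fun s hs e => AlgEquiv.ext fun x => ?_⟩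
  have hx : x ∈ Algebra.adjoin E {IsCyclotomicExtension.zeta l E L} := by
    rw [IsCyclotomicExtension.adjoin_primitive_root_eq_top hζ]
    trivial
  change s x = x
  induction hx using Algebra.adjoin_induction with
  | mem x hx => rw [hx, e]
  | algebraMap r => exact hs r
  | add x y _ _ hx hy => rw [map_add, hx, hy]
  | mul x y _ _ hx hy => rw [map_mul, hx, hy]

theorem prod_cmap {j : E →+* L} {r : Aut L →* Aut E} (hr : ∀ s x, s (j x) = j (r s x)) {ι : Type}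
    [Fintype ι] (a : ι → Aut L) (ha : Function.Bijective fun i => r (a i)) (z : Cl E) :
    ∏ i, a i • cmap j z = cmap j (∏ t : Aut E, t • z) := by
  rw [map_prod]
  exact Fintype.prod_bijective _ ha _ _ fun i => smul_cmap (hr (a i)) z

theorem prod_cmap_top {j : E →+* L} {r : Aut L →* Aut E} (hr : ∀ s x, s (j x) = j (r s x))
    (hs : Function.Surjective r) (z : Cl E) :
    ∏ s : Aut L, s • cmap j z = cmap j (∏ t : Aut E, t • z) ^ Nat.card r.ker := by
  classical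
  have e : Nat.card r.ker = (Finset.univ.filter fun s => r s = 1).card :=
    Nat.subtype_card _ fun s => by simp
  rw [map_prod, ← Finset.prod_pow, Finset.prod_congr rfl fun s _ => smul_cmap (hr s) z,
    ← Finset.prod_fiberwise' Finset.univ r fun t => cmap j (t • z)]
  refine Finset.prod_congr rfl fun t _ => ?_
  rw [Finset.prod_const, e, MonoidHom.card_fiber_eq_of_mem_range r (hs t) (hs 1)]

variable (L) in
/-- The ideles concentrated at one prime. -/
noncomputable def sgl (l : Nat.Primes) : (Ap l.1 L)ˣ →* Idele L :=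
  ((MonoidHom.inl _ _).comp
    (MonoidHom.mulSingle (fun p : Nat.Primes => (ℚ_[p] ⊗[ℚ] L)ˣ) l)).codRestrict _ fun x =>
      (Set.finite_singleton l).subset fun p hp => by_contra fun h => hp (by
        have : (((MonoidHom.inl _ (ℝ ⊗[ℚ] L)ˣ).comp (MonoidHom.mulSingle
          (fun p : Nat.Primes => (ℚ_[p] ⊗[ℚ] L)ˣ) l)) x).1 p = 1 :=
            Pi.mulSingle_eq_of_ne (M := fun p : Nat.Primes => (ℚ_[p] ⊗[ℚ] L)ˣ) h x
        rw [this]
        exact one_mem _)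

theorem sgl_ne {l p : Nat.Primes} (h : p ≠ l) (x : (Ap l.1 L)ˣ) : (sgl L l x).1.1 p = 1 :=
  Pi.mulSingle_eq_of_ne (M := fun p : Nat.Primes => (ℚ_[p] ⊗[ℚ] L)ˣ) h x

theorem sgl_same (l : Nat.Primes) (x : (Ap l.1 L)ˣ) : (sgl L l x).1.1 l = x :=
  Pi.mulSingle_eq_same (M := fun p : Nat.Primes => (ℚ_[p] ⊗[ℚ] L)ˣ) l x

theorem smul_sgl (l : Nat.Primes) (s : Aut L) (x : (Ap l.1 L)ˣ) :
    s • sgl L l x = sgl L l (uact _ s x) := by
  refine Subtype.ext (Prod.ext (funext fun p => ?_) (map_one (uact ℝ s)))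
  rw [smul_fst]
  rcases eq_or_ne p l with rfl | h
  · rw [sgl_same, sgl_same]
  · rw [sgl_ne h, sgl_ne h, map_one]

theorem imap_sgl (l : Nat.Primes) (j : E →+* L) (x : (Ap l.1 E)ˣ) :
    imap j (sgl E l x) = sgl L l (umap _ j x) := by
  refine Subtype.ext (Prod.ext (funext fun p => ?_) (map_one (umap ℝ j)))
  rw [imap_fst]
  rcases eq_or_ne p l with rfl | h
  · rw [sgl_same, sgl_same]
  · rw [sgl_ne h, sgl_ne h, map_one]

theorem ab_rat {p : ℕ} [Fact p.Prime] {v v' : Pr ℚ} (h : Ab p v) (h' : Ab p v') : v = v' := by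
  have hp : Prime (p : 𝓞 ℚ) := by
    rw [← MulEquiv.prime_iff Rat.ringOfIntegersEquiv, map_natCast]
    exact Nat.prime_iff_prime_int.1 Fact.out
  have hm : (Ideal.span {(p : 𝓞 ℚ)}).IsMaximal :=
    ((Ideal.span_singleton_prime hp.ne_zero).2 hp).isMaximal
      (Ideal.span_singleton_eq_bot.not.2 hp.ne_zero)
  exact IsDedekindDomain.HeightOneSpectrum.ext
    ((hm.eq_of_le v.isPrime.ne_top ((Ideal.span_singleton_le_iff_mem _).2 h)).symm.trans
      (hm.eq_of_le v'.isPrime.ne_top ((Ideal.span_singleton_le_iff_mem _).2 h')))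

theorem coi [IsGalois ℚ L] {p : ℕ} [Fact p.Prime] {w : Pr L} (hw : Ab p w)
    (hs : ∀ s : Aut L, cj s w = w → s = 1) {e : Ap p L} (he : IsIdempotentElem e)
    (hsup : ∀ w', Sup e w' ↔ w' = w) :
    CompleteOrthogonalIdempotents fun s : Aut L => lact ℚ_[p] s e := by
  have h0 : ∀ (s : Aut L) w', cj s (cj s⁻¹ w') = w' := fun s w' => by
    rw [← cj_mul, mul_inv_cancel, cj_one]
  have h1 : ∀ (s : Aut L) w', Sup (lact ℚ_[p] s e) w' ↔ w' = cj s w := fun s w' => by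
    conv_lhs => rw [← h0 s w', sup_lact, hsup]
    exact ⟨fun h => by rw [← h, h0], fun h => by rw [h, ← cj_mul, inv_mul_cancel, cj_one]⟩
  have hi : ∀ s : Aut L, IsIdempotentElem (lact ℚ_[p] s e) := fun s => he.map _
  have ho : OrthogonalIdempotents fun s : Aut L => lact ℚ_[p] s e :=
    ⟨hi, fun s t hst => idem_eq_zero ((hi s).mul (hi t)) fun w' h => by
      rw [sup_mul (hi s) (hi t), h1, h1] at h
      refine hst (inv_mul_eq_one.1 (hs (s⁻¹ * t) ?_))
      rw [cj_mul, ← h.2, h.1, ← cj_mul, inv_mul_cancel, cj_one]⟩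
  refine ⟨ho, idem_ext ho.isIdempotentElem_sum IsIdempotentElem.one fun w' => ?_⟩
  rw [sup_one]
  refine ⟨fun h => h.1, fun h => ?_⟩
  obtain ⟨s, rfl⟩ := exists_cj_eq (F := ℚ) (ab_rat ((ab_dn w).2 hw) ((ab_dn w').2 h))
  have := (h1 s _).2 rfl
  rw [← ho.mul_sum_of_mem (Finset.mem_univ s), sup_mul (hi s) ho.isIdempotentElem_sum] at this
  exact this.2

theorem exists_y [IsGalois ℚ L] (l : Nat.Primes) {w : Pr L} (hw : Ab l.1 w)
    (hs : ∀ s : Aut L, cj s w = w → s = 1) {g : ℤ} (hg : g ≠ 0) :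
    ∃ (y : Cl L) (x : Idele ℚ), (∀ p, p ≠ l → x.1.1 p = 1) ∧ x.1.2 = 1 ∧ (x.1.1 l).1 = g ∧
      cmap (algebraMap ℚ L) (QuotientGroup.mk x) = ∏ s : Aut L, s • y := by
  obtain ⟨e, he, hsup⟩ := exists_idem hw
  have hc := coi hw hs he hsup
  obtain ⟨a, ha⟩ : ∃ a : (Ap l.1 ℚ)ˣ, a.1 = g :=
    ⟨incU _ ℚ (Units.mk0 g (Int.cast_ne_zero.2 hg)), map_intCast (inc _ ℚ) g⟩
  have hb : (umap ℚ_[l] (algebraMap ℚ L) a).1 = g := by rw [umap_val, ha, map_intCast]
  refine ⟨QuotientGroup.mk (sgl L l (pcj he (umap _ (algebraMap ℚ L) a))), sgl ℚ l a,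
    fun p hp => sgl_ne hp a, rfl, by rw [sgl_same, ha], ?_⟩
  rw [cmap_mk, imap_sgl, ← prod_pcj hc (umap _ (algebraMap ℚ L) a), map_prod,
    QuotientGroup.mk_prod]
  refine Finset.prod_congr rfl fun s _ => ?_
  rw [smul_mk, smul_sgl, prod_pcj hc]
  congr 2
  refine Units.ext ?_
  rw [uact_val, pcj_val, pcj_val, hb, map_add, map_mul, map_sub, map_one, map_intCast]

/-- The character kills the norms from the cyclotomic field. -/
theorem kill [IsGalois ℚ L] {l : ℕ} {ζ : L} (hζ : IsPrimitiveRoot ζ l) {N : Subgroup (Aut L)}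
    (hn : N.Normal) (hN : ∀ s ∈ N, s ζ = ζ) {τ : Aut L} (hinf : Subgroup.zpowers τ ⊓ N = ⊥)
    (hsup : ∀ g : Aut L, ∃ i : ℕ, ∃ s ∈ N, g = τ ^ i * s) {P : Cl ℚ → Prop}
    (hP : ∀ (E : Type) [Field E] [NumberField E] [IsGalois ℚ E] (ζ : E), IsPrimitiveRoot ζ l →
      ∀ (z : Cl E) (c : Cl ℚ), cmap (algebraMap ℚ E) c = ∏ s : Aut E, s • z → P c)
    {c : Cl ℚ} {z : Cl L} (hz : z ∈ Inv (Cl L) N)
    (h : cmap (algebraMap ℚ L) c = Nm (act (Cl L) τ) (orderOf τ) z) : P c := by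
  obtain ⟨E, _, _, _, fE⟩ := exists_fix N
  have := isGalois_of_isFix hn fE
  obtain ⟨r, rs, hr, fr⟩ := exists_res (E := E) (L := L)
  have hk : ∀ s, r s = 1 ↔ s ∈ N := fun s => (fr.mem_iff s).trans (fE.mem_iff s).symm
  obtain ⟨ζ, rfl⟩ := (fE ζ).1 hN
  rw [← fE.range_cmap] at hz
  obtain ⟨z, rfl⟩ := hz
  have bij : Function.Bijective fun i : Fin (orderOf τ) => r (τ ^ i.1) := by
    refine ⟨fun i j e => Fin.ext (pow_injOn_Iio_orderOf i.2 j.2 (inv_mul_eq_one.1 ?_)),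
      fun t => ?_⟩
    · refine Subgroup.mem_bot.1 (hinf ▸ Subgroup.mem_inf.2 ⟨mul_mem
        (inv_mem (Subgroup.npow_mem_zpowers τ _)) (Subgroup.npow_mem_zpowers τ _), (hk _).1 ?_⟩)
      rw [map_mul, map_inv]
      exact inv_mul_eq_one.2 e
    · obtain ⟨g, rfl⟩ := rs t
      obtain ⟨i, s, hs, rfl⟩ := hsup g
      refine ⟨⟨i % orderOf τ, Nat.mod_lt _ (orderOf_pos τ)⟩, ?_⟩
      simp only [pow_mod_orderOf, map_mul, (hk s).2 hs, mul_one]
  refine hP E ζ (hζ.of_map_of_injective (algebraMap E L).injective) z c (fE.cmap_injective ?_)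
  rw [cmap_cmap, ← prod_cmap hr _ bij, RingHom.ext_rat ((algebraMap E L).comp (algebraMap ℚ E))
    (algebraMap ℚ L), h, Nm_apply, Finset.prod_range]
  exact Finset.prod_congr rfl fun i _ => act_iterate τ i _

/-- Transport of the cocycle to the base field. -/
theorem transport {j : E →+* L} {r : Aut L →* Aut E} (hr : ∀ s x, s (j x) = j (r s x))
    (fr : IsFix j r.ker) {N : Subgroup (Aut L)} (rb : Function.Bijective (r.comp N.subtype))
    {τ : Aut L} (hτ : r τ = 1) (hτ' : r.ker ≤ Subgroup.zpowers τ) {u : Aut L → Aut L → Cl L}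
    (h1 : Coc2 N u) (h2 : ∀ s ∈ N, ∀ t ∈ N, τ • u s t = u s t)
    (h3 : ∀ (k : ℕ) (z : Aut L → Cl L), (∀ s ∈ N, τ • z s = z s) →
      (∀ s ∈ N, ∀ t ∈ N, u s t ^ k = s • z t * z s * (z (s * t))⁻¹) → Nat.card N ∣ k) :
    ∃ u : Aut E → Aut E → Cl E, Fund ⊤ u := by
  obtain ⟨ρ, hρ⟩ : ∃ ρ : N ≃* Aut E, ∀ s, ρ s = r s.1 :=
    ⟨MulEquiv.ofBijective _ rb, fun _ => rfl⟩
  have ex : ∀ s t : Aut E, ∃ v, cmap j v = u (ρ.symm s).1 (ρ.symm t).1 := fun s t => by
    have : u (ρ.symm s).1 (ρ.symm t).1 ∈ (cmap j).range := by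
      rw [fr.range_cmap]
      exact fun n hn => Subgroup.zpowers_le_of_mem (H := MulAction.stabilizer _ _)
        (h2 _ (ρ.symm s).2 _ (ρ.symm t).2) (hτ' hn)
    exact this
  choose v hv using ex
  refine ⟨v, fun s _ t _ t' _ => fr.cmap_injective ?_, fun k ⟨z, hz⟩ => ?_⟩
  · rw [map_mul, map_mul, ← smul_cmap (s := (ρ.symm s).1)
      (fun x => by rw [hr, ← hρ, ρ.apply_symm_apply]), hv, hv, hv, hv, map_mul, map_mul]
    exact h1 _ (ρ.symm s).2 _ (ρ.symm t).2 _ (ρ.symm t').2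
  · rw [Subgroup.card_top, ← Nat.card_congr ρ.toEquiv]
    refine h3 k (fun s => cmap j (z (r s))) (fun s _ => ?_) fun s hs t ht => ?_
    · rw [smul_cmap (hr τ), hτ, one_smul]
    · have := congrArg (cmap j) (hz (ρ ⟨s, hs⟩) trivial (ρ ⟨t, ht⟩) trivial)
      rw [Pi.pow_apply, Pi.pow_apply, map_pow, hv, ρ.symm_apply_apply, ρ.symm_apply_apply, hρ, hρ,
        map_mul, map_mul, map_inv, ← smul_cmap (hr s), ← map_mul r] at this
      exact this

end Rec3Aux

open Rec3Aux in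
theorem exists_fund (M : Type) [Field M] [NumberField M] [IsGalois ℚ M] :
    ∃ u : Aut M → Aut M → Cl M, Fund ⊤ u := by
  classical
  obtain ⟨l, h2, hn, w, hw, hs⟩ := exists_split_prime M (Nat.card_pos (α := Aut M)).ne'
  have : NeZero l.1 := ⟨l.2.ne_zero⟩
  have : Fact (1 < l.1) := ⟨l.2.one_lt⟩
  obtain ⟨L, _, _, _, _, ζ, hζ, hgen⟩ : ∃ (L : Type) (_ : Field L) (_ : NumberField L)
      (_ : Algebra M L) (_ : IsGalois ℚ L) (ζ : L), IsPrimitiveRoot ζ l.1 ∧ ∀ s : Aut L,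
        (∀ x, s (algebraMap M L x) = algebraMap M L x) → s ζ = ζ → s = 1 := by
    obtain ⟨h, ζ, h'⟩ := cyc (L := CyclotomicField l.1 M) (E := M) l.1
    exact ⟨CyclotomicField l.1 M, _, _, _, h, ζ, h'⟩
  obtain ⟨r, rs, hr, fr⟩ := exists_res (E := M) (L := L)
  obtain ⟨lam, lam1, lam2⟩ := exists_lam l h2
  obtain ⟨χ, hχ⟩ : ∃ χ : Aut L →* (ZMod l.1)ˣ, ∀ s ∈ χ.ker, s ζ = ζ :=
    ⟨hζ.autToPow ℚ, fun s hs => by
      rw [← hζ.autToPow_spec ℚ s, MonoidHom.mem_ker.1 hs, Units.val_one, ZMod.val_one, pow_one]⟩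
  have dis : ∀ s ∈ r.ker, s ∈ χ.ker → s = 1 := fun s h h' =>
    hgen s ((fr.mem_iff s).1 h) (hχ s h')
  obtain ⟨q, hq⟩ := IsCyclic.exists_generator (α := (ZMod l.1)ˣ)
  obtain ⟨g, hg⟩ := ZMod.intCast_surjective (q : ZMod l.1)
  have hg' : ¬ (l.1 : ℤ) ∣ g := fun h =>
    q.ne_zero (hg.symm.trans ((ZMod.intCast_zmod_eq_zero_iff_dvd g l.1).2 h))
  obtain ⟨y, x, x1, x2, x3, hxy⟩ := exists_y l hw hs (g := g) fun h => hg' (h ▸ dvd_zero _)
  have lx : lam (QuotientGroup.mk x) = q := Units.ext ((lam1 x g x1 x2 hg' x3).trans hg)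
  have cc : ∀ c, cmap (algebraMap M L) (cmap (algebraMap ℚ M) c) = cmap (algebraMap ℚ L) c :=
    fun c => by rw [cmap_cmap, RingHom.ext_rat ((algebraMap M L).comp _) (algebraMap ℚ L)]
  have oq := orderOf_eq_card_of_forall_mem_zpowers hq
  have key : q ^ Nat.card r.ker = 1 := by
    rw [← lx, ← map_pow]
    refine lam2 L ζ hζ (cmap (algebraMap M L) y) _ ?_
    rw [prod_cmap_top hr rs, ← hxy, cc, map_pow]
  have inj : Function.Injective (χ.comp r.ker.subtype) :=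
    (injective_iff_map_eq_one _).2 fun s h => Subtype.ext (dis s.1 s.2 h)
  have bij : Function.Bijective (χ.comp r.ker.subtype) :=
    (Nat.bijective_iff_injective_and_card _).2 ⟨inj, le_antisymm
      (Nat.card_le_card_of_injective _ inj)
      (Nat.le_of_dvd Nat.card_pos (oq ▸ orderOf_dvd_of_pow_eq_one key))⟩
  obtain ⟨τ, hτ⟩ := bij.2 q
  have oτ : orderOf τ.1 = Nat.card (ZMod l.1)ˣ := by
    rw [Subgroup.orderOf_coe, ← orderOf_injective _ inj, hτ, oq]
  have hτ' : r.ker ≤ Subgroup.zpowers τ.1 := fun s hs => by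
    obtain ⟨k, hk⟩ := hq (χ.comp r.ker.subtype ⟨s, hs⟩)
    rw [← hτ] at hk
    exact ⟨k, congrArg Subtype.val (inj ((map_zpow _ τ k).trans hk))⟩
  have hinf : Subgroup.zpowers τ.1 ⊓ χ.ker = ⊥ := eq_bot_iff.2 fun s h =>
    dis s (Subgroup.zpowers_le_of_mem τ.2 h.1) h.2
  have hsup : ∀ g : Aut L, ∃ i : ℕ, ∃ s ∈ χ.ker, g = τ.1 ^ i * s := fun g => by
    obtain ⟨i, hi⟩ := mem_powers_iff_mem_zpowers.2 (hq (χ g))
    refine ⟨i, (τ.1 ^ i)⁻¹ * g, ?_, (mul_inv_cancel_left _ _).symm⟩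
    rw [MonoidHom.mem_ker, map_mul, map_inv, map_pow, inv_mul_eq_one, ← hi, ← hτ]
    rfl
  have rb : Function.Bijective (r.comp χ.ker.subtype) := by
    refine ⟨(injective_iff_map_eq_one _).2 fun s h => Subtype.ext (dis s.1 h s.2), fun t => ?_⟩
    obtain ⟨g, rfl⟩ := rs t
    obtain ⟨i, s, hs, rfl⟩ := hsup g
    exact ⟨⟨s, hs⟩, by rw [map_mul, map_pow, MonoidHom.mem_ker.1 τ.2, one_pow, one_mul]; rfl⟩
  obtain ⟨e, he⟩ : ∃ e : Cl ℚ ≃* Inv (Cl L) (⊤ : Subgroup (Aut L)),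
      ∀ c, (e c).1 = cmap (algebraMap ℚ L) c :=
    ⟨(MonoidHom.ofInjective isFix_top.cmap_injective).trans
      (MulEquiv.subgroupCongr isFix_top.range_cmap), fun _ => rfl⟩
  have := Fintype.ofFinite χ.ker
  obtain ⟨u, u1, u2, u3⟩ := exists_fund_abs (primeAx L) χ.ker τ.1
    (fun s hs => (Subgroup.commute_of_normal_of_disjoint χ.ker r.ker inferInstance inferInstance
      (Subgroup.disjoint_def.2 fun h h' => dis _ h' h) s τ.1 hs τ.2).eq) hinf hsup
    (by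
      rw [Nat.card_eq_of_bijective _ rb, oτ, Nat.card_eq_fintype_card (α := (ZMod l.1)ˣ),
        ZMod.card_units]
      exact hn) oτ.symm (lam.comp e.symm.toMonoidHom)
    (fun c z hz h => kill hζ inferInstance hχ hinf hsup (P := fun c => lam c = 1) lam2 hz
      (by rw [← he, ← h]; exact congrArg Subtype.val (e.apply_symm_apply c)))
    (y := cmap (algebraMap M L) y)
    (by rw [smul_cmap (hr τ.1), MonoidHom.mem_ker.1 τ.2, one_smul]) (e (QuotientGroup.mk x))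
    (by rw [he, prod_cmap hr (fun s : χ.ker => s.1) rb, ← hxy, cc])
    (fun q' => by
      change q' ∈ Subgroup.zpowers (lam (e.symm (e _)))
      rw [e.symm_apply_apply, lx]
      exact hq q')
  exact transport hr fr rb τ.2 hτ' u1 u2 u3

end Pool.Agent.Lib.CFT
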